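import Pool.Agent.Lib.MP_d16eef_co.Q.Lift

/-! AD-Gin : a good element gives linearly independent functionals.  (The two definitions `yy`, `yF`
are final; do not change them.)
`good_E`: given `c ≠ 0`, put `M = ∑ m, C (c (inl (inl m))) * X ^ m`, `M'` likewise,
`L i = if h : i < 15 then c (inr (inl (inl ⟨i, h⟩))) else 0`, `L'` likewise, `κ = c (inr (inr ()))`.
Then `∑ k, c k • yy n b a k = PP a b M M' L L' κ`: `Fintype.sum_sum_type`, `act` is linear
(`act_sum_range` with `N = n / 8`, `expand` of a monomial: `expand 4 (X ^ m) = X ^ (4 m)`;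
or `act_add`, `act_mul`, `act_X_pow` termwise; `(c • x)` for `c : ZMod 2` is `C c` acting: split
on `c = 0 ∨ c = 1`), and the local sum is taken to the power `2 ^ (4 b + 1)` termwise
(`sum_pow2`, `add_pow2`, `smul_pow`).  Not all data are 0, so `Good` applies.
`good_F`: `lift_indep` with `j = n / 2`, `y = yy n b a`, `c = c ∘ inl`, `c' = c ∘ inr ∘ inl`,
`e = c (inr (inr ()))`, `sum_pow2`. -/

namespace RunMult

open Finset Polynomial

section

variable {F : Type} [Field F] [Fintype F] [DecidableEq F] [Algebra (ZMod 2) F]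

/-- half of the functionals of block `b` -/
noncomputable def yy (n b : ℕ) (a : F) :
    (Fin (n / 8) ⊕ Fin (n / 8)) ⊕ ((Fin 15 ⊕ Fin 15) ⊕ Unit) → F
  | .inl (.inl m) => rbk a ^ (2 ^ (4 * m.val))
  | .inl (.inr m) => rbk a⁻¹ ^ (2 ^ (4 * m.val))
  | .inr (.inl (.inl i)) => (a ^ (i.val + 1)) ^ (2 ^ (4 * b + 1))
  | .inr (.inl (.inr i)) => (a⁻¹ ^ (i.val + 1)) ^ (2 ^ (4 * b + 1))
  | .inr (.inr _) => a ^ 17

private theorem gin_pow (c : ZMod 2) (s : ℕ) : c ^ (2 ^ s) = c := by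
  induction s with
  | zero => simp
  | succ k ih => rw [pow_succ, pow_mul, ih, zmod2_sq]

private theorem gin_smul_pow (c : ZMod 2) (x : F) (s : ℕ) :
    (c • x) ^ (2 ^ s) = c • x ^ (2 ^ s) := by
  rw [_root_.smul_pow, gin_pow]

private theorem gin_act (c : ZMod 2) (k : ℕ) (x : F) :
    act (C c * X ^ k) x = c • x ^ (2 ^ k) := by
  rw [act_mul, act_X_pow]
  unfold act
  rw [aeval_C, Module.algebraMap_end_apply]

private theorem gin_expand (N : ℕ) (d : Fin N → ZMod 2) (x : F) :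
    act (expand (ZMod 2) 4 (∑ m : Fin N, C (d m) * X ^ (m : ℕ))) x =
      ∑ m : Fin N, d m • x ^ (2 ^ (4 * (m : ℕ))) := by
  have h1 : expand (ZMod 2) 4 (∑ m : Fin N, C (d m) * X ^ (m : ℕ)) =
      ∑ m : Fin N, C (d m) * X ^ (4 * (m : ℕ)) := by
    rw [map_sum]
    refine Finset.sum_congr rfl fun m _ => ?_
    rw [map_mul, expand_C, map_pow, expand_X, ← pow_mul]
  rw [h1]
  have h2 : act (∑ m : Fin N, C (d m) * X ^ (4 * (m : ℕ))) x =
      ∑ m : Fin N, act (C (d m) * X ^ (4 * (m : ℕ))) x := by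
    unfold act
    rw [map_sum, LinearMap.sum_apply]
  rw [h2]
  exact Finset.sum_congr rfl fun m _ => gin_act _ _ _

private theorem gin_coeff (N : ℕ) (d : Fin N → ZMod 2)
    (h : ∑ m : Fin N, C (d m) * X ^ (m : ℕ) = (0 : (ZMod 2)[X])) (m : Fin N) : d m = 0 := by
  have h1 := congrArg (fun P : (ZMod 2)[X] => P.coeff (m : ℕ)) h
  simp only [finset_sum_coeff, coeff_C_mul, coeff_X_pow, coeff_zero] at h1
  rw [Finset.sum_eq_single m] at h1
  · simpa using h1
  · intro m' _ hne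
    rw [if_neg, mul_zero]
    intro h2
    exact hne (Fin.ext h2.symm)
  · intro h2
    exact absurd (Finset.mem_univ _) h2

theorem good_E (n : ℕ) (a : F) (hg : Good n a) (b : ℕ) (hb : b < n / 8)
    (c : (Fin (n / 8) ⊕ Fin (n / 8)) ⊕ ((Fin 15 ⊕ Fin 15) ⊕ Unit) → ZMod 2) (hc : c ≠ 0) :
    T2 (n / 2) (∑ k, c k • yy n b a k) ≠ 0 ∧ T2 (n / 2) (∑ k, c k • yy n b a k) ≠ 1 := by
  set M : (ZMod 2)[X] := ∑ m : Fin (n / 8), C (c (.inl (.inl m))) * X ^ (m : ℕ) with hM
  set M' : (ZMod 2)[X] := ∑ m : Fin (n / 8), C (c (.inl (.inr m))) * X ^ (m : ℕ) with hM'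
  set L : ℕ → ZMod 2 := fun i => if h : i < 15 then c (.inr (.inl (.inl ⟨i, h⟩))) else 0 with hL
  set L' : ℕ → ZMod 2 := fun i => if h : i < 15 then c (.inr (.inl (.inr ⟨i, h⟩))) else 0 with hL'
  have key : ∑ k, c k • yy n b a k = PP a b M M' L L' (c (.inr (.inr ()))) := by
    have e1 : (∑ i ∈ range 15, (L i • a ^ (i + 1) + L' i • a⁻¹ ^ (i + 1))) ^ (2 ^ (4 * b + 1)) =
        ∑ i : Fin 15, c (.inr (.inl (.inl i))) • (a ^ (i.val + 1)) ^ (2 ^ (4 * b + 1)) +
        ∑ i : Fin 15, c (.inr (.inl (.inr i))) • (a⁻¹ ^ (i.val + 1)) ^ (2 ^ (4 * b + 1)) := by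
      rw [sum_pow2, Finset.sum_range, ← Finset.sum_add_distrib]
      refine Finset.sum_congr rfl fun i _ => ?_
      rw [add_pow2, gin_smul_pow, gin_smul_pow]
      have h1 : L (i : ℕ) = c (.inr (.inl (.inl i))) := by
        simp only [hL]
        rw [dif_pos i.2]
      have h2 : L' (i : ℕ) = c (.inr (.inl (.inr i))) := by
        simp only [hL']
        rw [dif_pos i.2]
      rw [h1, h2]
    unfold PP
    rw [e1, hM, hM', gin_expand, gin_expand, Fintype.sum_sum_type, Fintype.sum_sum_type,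
      Fintype.sum_sum_type, Fintype.sum_sum_type]
    simp only [Finset.univ_unique, Finset.sum_singleton, yy]
    rw [← add_assoc]
  rw [key]
  refine hg b hb M M' ?_ ?_ L L' _ ?_
  · exact degree_sum_fin_lt _
  · exact degree_sum_fin_lt _
  · rintro ⟨h1, h2, h3, h4, h5⟩
    apply hc
    funext k
    rcases k with (m | m) | ((i | i) | u)
    · exact gin_coeff _ (fun m => c (.inl (.inl m))) h1 m
    · exact gin_coeff _ (fun m => c (.inl (.inr m))) h2 m
    · have := h3 i i.2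
      simp only [hL] at this
      rwa [dif_pos i.2] at this
    · have := h4 i i.2
      simp only [hL'] at this
      rwa [dif_pos i.2] at this
    · exact h5

/-- all functionals of block `b` -/
noncomputable def yF (n b : ℕ) (a : F) :
    ((Fin (n / 8) ⊕ Fin (n / 8)) ⊕ ((Fin 15 ⊕ Fin 15) ⊕ Unit)) ⊕
    ((Fin (n / 8) ⊕ Fin (n / 8)) ⊕ ((Fin 15 ⊕ Fin 15) ⊕ Unit)) ⊕ Unit → F
  | .inl k => yy n b a k
  | .inr (.inl k) => yy n b a k ^ (2 ^ (n / 2))
  | .inr (.inr _) => 1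

theorem good_F (n : ℕ) (h16 : 16 ∣ n) (hF : Fintype.card F = 2 ^ n) (a : F) (hg : Good n a)
    (b : ℕ) (hb : b < n / 8)
    (c : ((Fin (n / 8) ⊕ Fin (n / 8)) ⊕ ((Fin 15 ⊕ Fin 15) ⊕ Unit)) ⊕
      ((Fin (n / 8) ⊕ Fin (n / 8)) ⊕ ((Fin 15 ⊕ Fin 15) ⊕ Unit)) ⊕ Unit → ZMod 2)
    (hc : ∑ k, c k • yF n b a k = 0) : c = 0 := by
  have hj : n = 2 * (n / 2) := by omega
  have h : ∑ k, (fun k => c (.inl k)) k • yy n b a k +
      (∑ k, (fun k => c (.inr (.inl k))) k • yy n b a k) ^ (2 ^ (n / 2)) +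
      c (.inr (.inr ())) • (1 : F) = 0 := by
    rw [sum_pow2]
    simp only [gin_smul_pow]
    rw [Fintype.sum_sum_type, Fintype.sum_sum_type (f := fun x => c (.inr x) • yF n b a (.inr x))]
      at hc
    simp only [Finset.univ_unique, Finset.sum_singleton, yF] at hc
    rw [← add_assoc] at hc
    exact hc
  obtain ⟨h1, h2, h3⟩ := lift_indep n (n / 2) hj hF (yy n b a)
    (fun c hc => good_E n a hg b hb c hc) _ _ _ h
  funext k
  rcases k with k | k | u
  · exact congrFun h1 k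
  · exact congrFun h2 k
  · exact h3

end

end RunMult
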