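import Pool.Agent.Lib.MP_d16eef_co.Q.Lin
import Pool.Agent.Lib.MP_d16eef_co.Q.Gin

/-! AD-Aex : many base points.
Take `b = 0` in `good_F` and restrict the family `yF n 0 a` to the indices of the form
`inl (inl m)`, `inl (inr (inr ()))`, `inr (inl (inl m))`, `inr (inl (inr (inr ())))`; that is, use
the index type `ι = ((Fin (n/8) ⊕ Fin (n/8)) ⊕ Unit) ⊕ ((Fin (n/8) ⊕ Fin (n/8)) ⊕ Unit)` with the
obvious injection `φ : ι → index of yF`.  Independence of `yF ∘ φ`: extend a coefficient vector by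
zero (`Function.extend` or by cases).  It has `4 (n / 8) + 2 = n / 2 + 2` elements; apply
`card_sol` with target 1 on the `rbk` functionals, 1 on `a ^ 17` and 0 on `(a ^ 17) ^ (2 ^ (n / 2))`.
Then rewrite: for `Bone`, `m < n / 4` is `m'` or `m' + n / 8`, as
`rbk a ^ (2 ^ (4 (m' + n / 8))) = (rbk a ^ (2 ^ (4 m'))) ^ (2 ^ (n / 2))`. -/

namespace RunMult

open Finset Polynomial

section

variable {F : Type} [Field F] [Fintype F] [DecidableEq F] [Algebra (ZMod 2) F]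

private def aexPhi (n : ℕ) :
    ((Fin (n / 8) ⊕ Fin (n / 8)) ⊕ Unit) ⊕ ((Fin (n / 8) ⊕ Fin (n / 8)) ⊕ Unit) →
    ((Fin (n / 8) ⊕ Fin (n / 8)) ⊕ ((Fin 15 ⊕ Fin 15) ⊕ Unit)) ⊕
    ((Fin (n / 8) ⊕ Fin (n / 8)) ⊕ ((Fin 15 ⊕ Fin 15) ⊕ Unit)) ⊕ Unit
  | .inl (.inl m) => .inl (.inl m)
  | .inl (.inr _) => .inl (.inr (.inr ()))
  | .inr (.inl m) => .inr (.inl (.inl m))
  | .inr (.inr _) => .inr (.inl (.inr (.inr ())))

private theorem aexPhi_inj (n : ℕ) : Function.Injective (aexPhi n) := by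
  rintro ((m | u) | (m | u)) ((m' | u') | (m' | u')) h <;> simp only [aexPhi] at h <;>
    simp_all

/-- many base points -/
theorem card_A (n : ℕ) (hn : 256 ≤ n) (h16 : 16 ∣ n) (hF : Fintype.card F = 2 ^ n) (a : F)
    (ha0 : a ≠ 0) (hg : Good n a) :
    2 ^ (n / 2 - 2) ≤ Nat.card {u : F // Bone n a u ∧ tr (u * a ^ 17) = 1 ∧
      tr (u * (a ^ 17) ^ (2 ^ (n / 2))) = 0} := by
  classical
  set t : ((Fin (n / 8) ⊕ Fin (n / 8)) ⊕ Unit) ⊕ ((Fin (n / 8) ⊕ Fin (n / 8)) ⊕ Unit) → ZMod 2 :=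
    fun k => match k with
      | .inl _ => 1
      | .inr (.inl _) => 1
      | .inr (.inr _) => 0 with ht
  have hb : 0 < n / 8 := by omega
  have hind : ∀ c : ((Fin (n / 8) ⊕ Fin (n / 8)) ⊕ Unit) ⊕ ((Fin (n / 8) ⊕ Fin (n / 8)) ⊕ Unit)
      → ZMod 2, ∑ k, c k • yF n 0 a (aexPhi n k) = 0 → c = 0 := by
    intro c hc
    have h1 := Fintype.sum_of_injective (aexPhi n) (aexPhi_inj n)
      (fun k => c k • yF n 0 a (aexPhi n k))
      (fun k => Function.extend (aexPhi n) c 0 k • yF n 0 a k) (by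
        intro k hk
        show Function.extend (aexPhi n) c 0 k • yF n 0 a k = 0
        rw [Function.extend_apply' _ _ _ (fun ⟨x, hx⟩ => hk ⟨x, hx⟩), Pi.zero_apply, zero_smul])
      (by
        intro k
        show c k • yF n 0 a (aexPhi n k)
          = Function.extend (aexPhi n) c 0 (aexPhi n k) • yF n 0 a (aexPhi n k)
        rw [(aexPhi_inj n).extend_apply])
    have h2 := good_F n h16 hF a hg 0 hb (Function.extend (aexPhi n) c 0) (h1.symm.trans hc)
    funext k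
    have h3 := congrFun h2 (aexPhi n k)
    rw [(aexPhi_inj n).extend_apply] at h3
    exact h3
  have hsol := card_sol n hF (fun k => yF n 0 a (aexPhi n k)) hind t
  have hcard : n - Fintype.card (((Fin (n / 8) ⊕ Fin (n / 8)) ⊕ Unit) ⊕
      ((Fin (n / 8) ⊕ Fin (n / 8)) ⊕ Unit)) = n / 2 - 2 := by
    simp only [Fintype.card_sum, Fintype.card_fin, Fintype.card_unit]
    omega
  rw [hcard] at hsol
  rw [← hsol]
  refine Nat.card_le_card_of_injective
    (fun x : {x : F // ∀ k, tr (x * yF n 0 a (aexPhi n k)) = t k} =>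
      (⟨x.1, ?_, ?_, ?_⟩ : {u : F // Bone n a u ∧ tr (u * a ^ 17) = 1 ∧
      tr (u * (a ^ 17) ^ (2 ^ (n / 2))) = 0})) ?_
  · intro m hm
    by_cases h1 : m < n / 8
    · exact ⟨x.2 (.inl (.inl (.inl ⟨m, h1⟩))), x.2 (.inl (.inl (.inr ⟨m, h1⟩)))⟩
    · have h2 : m - n / 8 < n / 8 := by omega
      have h3 : 4 * (m - n / 8) + n / 2 = 4 * m := by omega
      have e : ∀ u : F, (u ^ (2 ^ (4 * (m - n / 8)))) ^ (2 ^ (n / 2)) = u ^ (2 ^ (4 * m)) := by
        intro u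
        rw [← pow_mul, ← pow_add, h3]
      have h4 := x.2 (.inr (.inl (.inl ⟨m - n / 8, h2⟩)))
      have h5 := x.2 (.inr (.inl (.inr ⟨m - n / 8, h2⟩)))
      have e1 : yF n 0 a (aexPhi n (.inr (.inl (.inl ⟨m - n / 8, h2⟩))))
          = rbk a ^ (2 ^ (4 * m)) := e _
      have e2 : yF n 0 a (aexPhi n (.inr (.inl (.inr ⟨m - n / 8, h2⟩))))
          = rbk a⁻¹ ^ (2 ^ (4 * m)) := e _
      rw [e1] at h4
      rw [e2] at h5
      exact ⟨h4, h5⟩
  · exact x.2 (.inl (.inr ()))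
  · exact x.2 (.inr (.inr ()))
  · intro u v huv
    have := congrArg Subtype.val huv
    exact Subtype.ext this

end

end RunMult
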