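import Pool.Agent.Lib.MP_d16eef_co.Q.Defs

/-! AD-Brk : the runs are broken on both sides.
`s = 4 q + t`, `t = s % 4`.  For `e = ± 1` and `i = 2 ^ t`, `i = 2 ^ (t + 1)`:
`tr (x ^ (2 ^ s) * (a ^ e) ^ i) = tr (x * (a ^ e) ^ (i 2 ^ (n - s)))` and
`2 ^ t 2 ^ (n - s) = 2 ^ (4 m)`, `2 ^ (t + 1) 2 ^ (n - s) = 2 ^ (4 m + 1)` with `m = n / 4 - q`
(if `q = 0` then `m = n / 4`; use `m = 0` and `y ^ (2 ^ n) = y`).  `Bone` says that the sum of the two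
values is `tr (x * rbk (a ^ e) ^ (2 ^ (4 m))) = 1`, so they differ and one of them is `≠ c`. -/

namespace RunMult

open Finset Polynomial

section

variable {F : Type} [Field F] [Fintype F] [DecidableEq F] [Algebra (ZMod 2) F]

private theorem brk_dec : ∀ A B c : ZMod 2, A + B = 1 → A ≠ c ∨ B ≠ c := by decide

private theorem brk_aux (n : ℕ) (hn : 0 < n) (h16 : 16 ∣ n) (hF : Fintype.card F = 2 ^ n) (y x : F)
    (hx : ∀ m < n / 4, tr (x * rbk y ^ (2 ^ (4 * m))) = 1) (s : ℕ) (hs : s < n) (c : ZMod 2) :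
    ∃ i : ℕ, 1 ≤ i ∧ i ≤ 2 ^ (s % 4 + 1) ∧ tr (x ^ (2 ^ s) * y ^ i) ≠ c := by
  have hfix : ∀ z : F, z ^ (2 ^ n) = z := fun z => by rw [← hF, FiniteField.pow_card]
  obtain ⟨m, hm, hmy⟩ : ∃ m < n / 4, ∀ z : F, z ^ (2 ^ (n - 4 * (s / 4))) = z ^ (2 ^ (4 * m)) := by
    rcases Nat.eq_zero_or_pos (s / 4) with h0 | h0
    · refine ⟨0, by omega, fun z => ?_⟩
      rw [h0, mul_zero, Nat.sub_zero, hfix, pow_zero, pow_one]
    · refine ⟨n / 4 - s / 4, by omega, fun z => ?_⟩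
      congr 2
      omega
  have key : ∀ k : ℕ, tr (x ^ (2 ^ s) * y ^ (k * 2 ^ (s % 4))) = tr (x * (y ^ k) ^ (2 ^ (4 * m))) := by
    intro k
    rw [← hmy, ← tr_pow2 (x ^ (2 ^ s) * y ^ (k * 2 ^ (s % 4))) (n - s), mul_pow]
    have e1 : (x ^ (2 ^ s)) ^ (2 ^ (n - s)) = x := by
      rw [← pow_mul, ← pow_add, Nat.add_sub_cancel' hs.le, hfix]
    have e2 : (y ^ (k * 2 ^ (s % 4))) ^ (2 ^ (n - s)) = (y ^ k) ^ (2 ^ (n - 4 * (s / 4))) := by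
      rw [← pow_mul, ← pow_mul, mul_assoc, ← pow_add]
      congr 3
      omega
    rw [e1, e2]
  have h1 := key 1
  have h2 := key 2
  rw [one_mul, pow_one] at h1
  rw [← pow_succ'] at h2
  have hsum : tr (x ^ (2 ^ s) * y ^ (2 ^ (s % 4))) + tr (x ^ (2 ^ s) * y ^ (2 ^ (s % 4 + 1))) = 1 := by
    rw [h1, h2, ← tr_add, ← mul_add, ← add_pow2]
    exact hx m hm
  have hp1 : 1 ≤ 2 ^ (s % 4) := Nat.one_le_two_pow
  have hp2 : 2 ^ (s % 4) ≤ 2 ^ (s % 4 + 1) := Nat.pow_le_pow_right (by norm_num) (by omega)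
  rcases brk_dec _ _ c hsum with h | h
  · exact ⟨2 ^ (s % 4), hp1, hp2, h⟩
  · exact ⟨2 ^ (s % 4 + 1), hp1.trans hp2, le_rfl, h⟩

theorem brk (n : ℕ) (hn : 0 < n) (h16 : 16 ∣ n) (hF : Fintype.card F = 2 ^ n) (a : F)
    (ha0 : a ≠ 0) (x : F) (hx : Bone n a x) (s : ℕ) (hs : s < n) (c : ZMod 2) :
    (∃ i : ℤ, 1 ≤ i ∧ i ≤ 2 ^ (s % 4 + 1) ∧ tr (x ^ (2 ^ s) * a ^ i) ≠ c) ∧
    (∃ i : ℤ, 1 ≤ i ∧ i ≤ 2 ^ (s % 4 + 1) ∧ tr (x ^ (2 ^ s) * a ^ (-i)) ≠ c) := by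
  constructor
  · obtain ⟨i, h1, h2, h3⟩ := brk_aux n hn h16 hF a x (fun m hm => (hx m hm).1) s hs c
    refine ⟨(i : ℤ), by exact_mod_cast h1, by exact_mod_cast h2, ?_⟩
    rwa [zpow_natCast]
  · obtain ⟨i, h1, h2, h3⟩ := brk_aux n hn h16 hF a⁻¹ x (fun m hm => (hx m hm).2) s hs c
    refine ⟨(i : ℤ), by exact_mod_cast h1, by exact_mod_cast h2, ?_⟩
    rwa [zpow_neg, zpow_natCast, ← inv_pow]

end

end RunMult
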