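import Pool.Agent.Lib.MP_d16eef_co.Sieve

/-! AD-Gens : the number of generators.  `siv_gen`, `siv_image`: nonzero elements are `g ^ t`, `t < 2 ^ n - 1`,
`orderOf (g ^ t) = (2 ^ n - 1) / gcd` (`orderOf_pow`), so generators correspond to `t` coprime to
`2 ^ n - 1`; `Nat.totient`'s definition.  Or: `IsCyclic.card_orderOf_eq_totient` in `Fˣ`. -/

namespace RunMult

open Finset Polynomial

section

variable {F : Type} [Field F] [Fintype F] [DecidableEq F] [Algebra (ZMod 2) F]

/-- the number of generators -/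
theorem card_gens (n : ℕ) (hn : 1 ≤ n) (hF : Fintype.card F = 2 ^ n) :
    (univ.filter (fun a : F => orderOf a = 2 ^ n - 1)).card = (2 ^ n - 1).totient := by
  classical
  have hpos : 0 < 2 ^ n - 1 := by
    have : 2 ^ 1 ≤ 2 ^ n := Nat.pow_le_pow_right (by norm_num) hn
    omega
  have hcard : Fintype.card Fˣ = 2 ^ n - 1 := by
    rw [Fintype.card_units, hF]
  have h1 := IsCyclic.card_orderOf_eq_totient (α := Fˣ) (d := 2 ^ n - 1) (by rw [hcard])
  rw [← h1]
  symm
  refine Finset.card_bij (fun u _ => (u : F)) ?_ ?_ ?_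
  · intro u hu
    rw [mem_filter] at hu ⊢
    exact ⟨mem_univ _, by rw [orderOf_units]; exact hu.2⟩
  · intro u _ v _ huv
    exact Units.ext huv
  · intro a ha
    rw [mem_filter] at ha
    have ha0 : a ≠ 0 := by
      intro h
      have h2 := pow_orderOf_eq_one a
      rw [ha.2, h, zero_pow hpos.ne'] at h2
      exact zero_ne_one h2
    refine ⟨Units.mk0 a ha0, ?_, rfl⟩
    rw [mem_filter]
    refine ⟨mem_univ _, ?_⟩
    rw [← orderOf_units, Units.val_mk0]
    exact ha.2

end

end RunMult
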