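import Pool.Agent.Lib.MP_d16eef_co.Sieve

/-! AD-Kpr : character sums over the generators (Moebius inversion).
Follow `exists_prim` in `Sieve.lean`.  Let `g` be a generator, `N = 2 ^ n - 1`,
`f y = sg (tr (A y + A' y⁻¹))`.  The generators are the `g ^ t`, `t < N`, `gcd (N, t) = 1`
(`siv_gen`, `siv_image`, `orderOf_pow`), so by `siv_star` the sum is
`∑_{d ∣ N} μ d ∑_{t < N, d ∣ t} f (g ^ t)`, and (`siv_mult`, `siv_periodic`)
`∑_{t < N, d ∣ t} f (g ^ t) = ∑_{u < N / d} f (g ^ (d u)) = (1 / d) ∑_{y ≠ 0} f (y ^ d)`.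
For `d ∣ N` (odd), `A y ^ d + A' y ^ (-d) = stf d γ y` with `γ d = A`, `γ 0 = A'`, other 0
(`(A' + A y ^ (2 d)) / y ^ d`), so `stepanov` bounds `|∑_{y ≠ 0} f (y ^ d)| ≤ (3 d + 4) 2 ^ ((n+1)/2)
≤ 7 d 2 ^ ((n+1)/2)`, hence each inner sum is at most `7 · 2 ^ ((n+1)/2)`; `∑ |μ d| = 2 ^ ω(N)`
(`siv_abs`). -/

namespace RunMult

open Finset Polynomial

section

variable {F : Type} [Field F] [Fintype F] [DecidableEq F] [Algebra (ZMod 2) F]

omit [DecidableEq F] in
private theorem kpr_stf (d : ℕ) (hd : 0 < d) (A A' y : F) :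
    stf d (fun j => if j = d then A else if j = 0 then A' else 0) y =
      A * y ^ d + A' * (y ^ d)⁻¹ := by
  unfold stf
  have e1 : ∑ i ∈ range (d + 1), (if i = d then A else if i = 0 then A' else 0) * y ^ (2 * i)
      = A * y ^ (2 * d) + A' := by
    rw [Finset.sum_range_succ, Finset.sum_range_eq_add_Ico _ hd]
    have h0 : ∑ i ∈ Finset.Ico 1 d,
        (if i = d then A else if i = 0 then A' else 0) * y ^ (2 * i) = 0 := by
      apply Finset.sum_eq_zero
      intro i hi
      rw [Finset.mem_Ico] at hi
      rw [if_neg (by omega), if_neg (by omega), zero_mul]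
    rw [h0, if_neg (by omega), if_pos rfl, if_pos rfl]
    simp
    ring
  rw [e1]
  by_cases hy : y ^ d = 0
  · have h2 : y ^ (2 * d) = 0 := by rw [two_mul, pow_add, hy, zero_mul]
    rw [hy, h2]
    simp
  · have h2 : y ^ (2 * d) = y ^ d * y ^ d := by rw [two_mul, pow_add]
    rw [h2]
    field_simp

/-- character sums over the generators -/
theorem kpr (n : ℕ) (hn : 2 ≤ n) (hF : Fintype.card F = 2 ^ n) (A A' : F) (h : A ≠ 0 ∨ A' ≠ 0) :
    |∑ a ∈ univ.filter (fun a : F => orderOf a = 2 ^ n - 1), sg (tr (A * a + A' * a⁻¹))| ≤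
      2 ^ (2 ^ n - 1).primeFactors.card * (7 * 2 ^ ((n + 1) / 2)) := by
  classical
  obtain ⟨g, hg, ho⟩ := siv_gen n hF
  obtain ⟨N, hNdef⟩ : ∃ N, N = 2 ^ n - 1 := ⟨_, rfl⟩
  have h4 : 4 ≤ 2 ^ n := by
    calc 4 = 2 ^ 2 := by norm_num
      _ ≤ 2 ^ n := Nat.pow_le_pow_right (by norm_num) hn
  have hN : 0 < N := by omega
  have hNodd : Odd N := by
    obtain ⟨m, hm⟩ : ∃ m, 2 ^ n = 2 * m := ⟨2 ^ (n - 1), by rw [← pow_succ']; congr 1; omega⟩
    exact ⟨m - 1, by omega⟩
  have himage := siv_image n hF g hg ho
  rw [← hNdef] at ho himage ⊢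
  set f : F → ℤ := fun y => sg (tr (A * y + A' * y⁻¹)) with hf
  set c : ℕ → ℤ := fun t => f (g ^ t) with hc
  set Q : ℤ := 2 ^ ((n + 1) / 2) with hQ
  have hQ0 : 0 < Q := by positivity
  have hinj : Set.InjOn (fun t => g ^ t) (range N : Finset ℕ) := by
    intro x hx y hy hxy
    rw [Finset.coe_range, ← ho] at hx hy
    exact pow_injOn_Iio_orderOf hx hy hxy
  -- the sum over the nonzero elements
  have hsumall : ∀ φ : F → ℤ, ∑ y ∈ univ.filter (fun y : F => y ≠ 0), φ y
      = ∑ t ∈ range N, φ (g ^ t) := by
    intro φ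
    rw [← himage, Finset.sum_image hinj]
  -- the sum over the generators
  have hgen : ∑ a ∈ univ.filter (fun a : F => orderOf a = N), f a
      = ∑ t ∈ (range N).filter (fun t => N.Coprime t), c t := by
    have e1 : univ.filter (fun a : F => orderOf a = N)
        = ((range N).filter (fun t => N.Coprime t)).image (fun t => g ^ t) := by
      ext a
      simp only [Finset.mem_filter, Finset.mem_univ, true_and, Finset.mem_image]
      constructor
      · intro ha
        have ha0 : a ≠ 0 := by
          rintro rfl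
          have h1 : orderOf (0 : F) = 0 := by
            rw [orderOf_eq_zero_iff']
            intro k hk
            rw [zero_pow hk.ne']
            exact zero_ne_one
          omega
        have : a ∈ (range N).image (fun t => g ^ t) := by
          rw [himage]; simp [ha0]
        obtain ⟨t, ht, rfl⟩ := Finset.mem_image.mp this
        refine ⟨t, ⟨ht, ?_⟩, rfl⟩
        rcases Nat.eq_zero_or_pos t with h0 | h0
        · subst h0
          rw [pow_zero, orderOf_one] at ha
          omega
        · rw [orderOf_pow' g (by omega), ho] at ha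
          have hdvd : N.gcd t ∣ N := Nat.gcd_dvd_left _ _
          have hpos : 0 < N.gcd t := Nat.gcd_pos_of_pos_left t hN
          have := Nat.div_mul_cancel hdvd
          rw [ha] at this
          have h1 : N.gcd t = 1 := by
            have : N * N.gcd t = N * 1 := by rw [this, mul_one]
            exact Nat.eq_of_mul_eq_mul_left hN this
          exact h1
      · rintro ⟨t, ⟨_, ht⟩, rfl⟩
        rcases Nat.eq_zero_or_pos t with h0 | h0
        · subst h0
          rw [Nat.coprime_zero_right] at ht
          omega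
        · rw [orderOf_pow' g (by omega), ho]
          have : N.gcd t = 1 := ht
          rw [this, Nat.div_one]
    rw [e1, Finset.sum_image]
    intro x hx y hy hxy
    exact hinj (Finset.coe_subset.mpr (Finset.filter_subset _ _) hx)
      (Finset.coe_subset.mpr (Finset.filter_subset _ _) hy) hxy
  -- the estimate for one divisor
  have hdiv : ∀ d ∈ N.divisors, |∑ t ∈ (range N).filter (d ∣ ·), c t| ≤ 7 * Q := by
    intro d hd
    obtain ⟨⟨M, hM⟩, _⟩ := Nat.mem_divisors.mp hd
    have hd0 : 0 < d := Nat.pos_of_mem_divisors hd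
    have hdodd : Odd d := hNodd.of_dvd_nat ⟨M, hM⟩
    have hst := stepanov n d hn hdodd hF (fun j => if j = d then A else if j = 0 then A' else 0)
      (by
        rcases h with h | h
        · exact ⟨d, le_rfl, by simpa using h⟩
        · exact ⟨0, Nat.zero_le d, by
            rw [if_neg (by omega), if_pos rfl]
            exact h⟩)
    have e0 : ∑ a ∈ univ.filter (fun a : F => a ≠ 0),
        sg (tr (stf d (fun j => if j = d then A else if j = 0 then A' else 0) a))
        = d * ∑ u ∈ range M, c (d * u) := by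
      rw [hsumall]
      have e1 : ∀ t ∈ range N,
          sg (tr (stf d (fun j => if j = d then A else if j = 0 then A' else 0) (g ^ t)))
          = f ((g ^ t) ^ d) := by
        intro t _
        rw [kpr_stf d hd0]
      rw [Finset.sum_congr rfl e1, hM]
      have := siv_periodic (fun t => f ((g ^ t) ^ d)) M (by
        intro t
        have : (g ^ (M + t)) ^ d = (g ^ t) ^ d := by
          rw [← pow_mul, ← pow_mul, add_mul, pow_add]
          have e : g ^ (M * d) = 1 := by
            rw [mul_comm, ← hM, ← ho]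
            exact pow_orderOf_eq_one g
          rw [e, one_mul]
        simp only [this]) d
      rw [this]
      congr 1
      refine Finset.sum_congr rfl fun u _ => ?_
      simp only [hc]
      rw [← pow_mul, mul_comm u d]
    rw [e0] at hst
    rw [siv_mult N d M hM hd0 c]
    have hd0' : (0 : ℤ) < d := by exact_mod_cast hd0
    have hd1' : (1 : ℤ) ≤ d := by exact_mod_cast hd0
    rw [abs_mul, abs_of_pos hd0'] at hst
    have e4 : (3 * (d : ℤ) + 4) * Q ≤ d * (7 * Q) := by nlinarith
    exact le_of_mul_le_mul_left (hst.trans e4) hd0'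
  -- sum up
  have hS := siv_star N hN c
  change |∑ a ∈ univ.filter (fun a : F => orderOf a = N), f a| ≤ _
  rw [hgen, hS, ← siv_abs N hN, Finset.sum_mul]
  refine (Finset.abs_sum_le_sum_abs _ _).trans (Finset.sum_le_sum fun d hd => ?_)
  rw [abs_mul]
  exact mul_le_mul_of_nonneg_left (hdiv d hd) (abs_nonneg _)

end

end RunMult
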