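import Pool.Agent.Lib.MP_d16eef_co.Q.Fr5
import Pool.Agent.Lib.MP_d16eef_co.Q.Kpr
import Pool.Agent.Lib.MP_d16eef_co.Q.Gens
import Pool.Agent.Lib.MP_d16eef_co.CharCount

/-! AD-Clsc : generators in the class.
Let `E = {e | e ^ 16 = e}` (16 elements, `card_F16`; closed under addition), `W = 2 ^ ω · 7 · 2 ^ ((n+1)/2)`.
`∑_{e ∈ E} sg (tr (e z))` is 16 if `tr (e z) = 0` for all `e ∈ E` and 0 otherwise (`chs_inner` in
CharCount.lean).  Therefore
`256 · #{a generator, Cls θ θ' a} = ∑_{e, e' ∈ E} ∑_{a gen} sg (tr (e (a + θ) + e' (a⁻¹ + θ')))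
 = ∑_{e, e'} sg (tr (e θ + e' θ')) ∑_{a gen} sg (tr (e a + e' a⁻¹))`.
The term `e = e' = 0` is `φ(2 ^ n - 1)` (`card_gens`), the other 255 are at least `-W` (`kpr`). -/

namespace RunMult

open Finset Polynomial

section

variable {F : Type} [Field F] [Fintype F] [DecidableEq F] [Algebra (ZMod 2) F]

private lemma clsc_sg_abs (z : ZMod 2) : |sg z| = 1 := by
  revert z; decide

omit [Fintype F] [DecidableEq F] in
private lemma clsc_add16 (x y : F) (hx : x ^ 16 = x) (hy : y ^ 16 = y) : (x + y) ^ 16 = x + y := by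
  have h := add_pow2 x y 4
  have e : (2 : ℕ) ^ 4 = 16 := by norm_num
  rw [e] at h
  rw [h, hx, hy]

/-- generators in the class -/
theorem card_cls (n : ℕ) (hn : 4 ≤ n) (h4 : 4 ∣ n) (hF : Fintype.card F = 2 ^ n) (θ θ' : F) :
    (2 ^ n - 1).totient ≤ 256 * Nat.card {a : F // orderOf a = 2 ^ n - 1 ∧ Cls θ θ' a} +
      256 * (2 ^ (2 ^ n - 1).primeFactors.card * (7 * 2 ^ ((n + 1) / 2))) := by
  classical
  set G : Finset F := univ.filter (fun a : F => orderOf a = 2 ^ n - 1) with hG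
  set E : Finset F := univ.filter (fun e : F => e ^ 16 = e) with hE
  set W : ℤ := 2 ^ (2 ^ n - 1).primeFactors.card * (7 * 2 ^ ((n + 1) / 2)) with hW
  have hW0 : 0 ≤ W := by positivity
  have hEc : E.card = 16 := by
    rw [← card_F16 (F := F) n h4 (by omega) hF, Nat.card_eq_fintype_card, Fintype.card_subtype]
  have hE0 : (0 : F) ∈ E := by
    rw [hE, mem_filter]; exact ⟨mem_univ _, by norm_num⟩
  have hEadd : ∀ x ∈ E, ∀ y ∈ E, x + y ∈ E := by
    intro x hx y hy
    rw [hE, mem_filter] at hx hy ⊢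
    exact ⟨mem_univ _, clsc_add16 x y hx.2 hy.2⟩
  have hcard : Nat.card {a : F // orderOf a = 2 ^ n - 1 ∧ Cls θ θ' a} =
      (G.filter (fun a => Cls θ θ' a)).card := by
    rw [Nat.card_eq_fintype_card, Fintype.card_subtype, hG, Finset.filter_filter]
  have hkey : ∑ p ∈ E ×ˢ E, sg (tr (p.1 * θ + p.2 * θ')) *
      ∑ a ∈ G, sg (tr (p.1 * a + p.2 * a⁻¹)) =
      (256 : ℤ) * (G.filter (fun a => Cls θ θ' a)).card := by
    have h1 : ∀ p ∈ E ×ˢ E, sg (tr (p.1 * θ + p.2 * θ')) *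
        ∑ a ∈ G, sg (tr (p.1 * a + p.2 * a⁻¹)) =
        ∑ a ∈ G, sg (tr (p.1 * (a + θ))) * sg (tr (p.2 * (a⁻¹ + θ'))) := by
      intro p _
      rw [Finset.mul_sum]
      refine Finset.sum_congr rfl fun a _ => ?_
      rw [← chs_sg_add, ← chs_sg_add, ← tr_add, ← tr_add]
      congr 2
      ring
    rw [Finset.sum_congr rfl h1, Finset.sum_comm]
    have h2 : ∀ a ∈ G, ∑ p ∈ E ×ˢ E, sg (tr (p.1 * (a + θ))) * sg (tr (p.2 * (a⁻¹ + θ'))) =
        if Cls θ θ' a then 256 else 0 := by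
      intro a _
      have h8 : ∑ p ∈ E ×ˢ E, sg (tr (p.1 * (a + θ))) * sg (tr (p.2 * (a⁻¹ + θ'))) =
          (∑ e ∈ E, sg (tr (e * (a + θ)))) * ∑ e ∈ E, sg (tr (e * (a⁻¹ + θ'))) := by
        rw [Finset.sum_mul_sum, Finset.sum_product]
      rw [h8, chs_inner E hEadd, chs_inner E hEadd, hEc]
      by_cases hc : Cls θ θ' a
      · rw [if_pos hc, if_pos, if_pos]
        · norm_num
        · intro e he
          rw [hE, mem_filter] at he
          exact (hc e he.2).2
        · intro e he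
          rw [hE, mem_filter] at he
          exact (hc e he.2).1
      · rw [if_neg hc]
        by_cases h3 : ∀ e ∈ E, tr (e * (a + θ)) = 0
        · have h4 : ¬ ∀ e ∈ E, tr (e * (a⁻¹ + θ')) = 0 := by
            intro h4
            apply hc
            intro e he
            have he' : e ∈ E := by rw [hE, mem_filter]; exact ⟨mem_univ _, he⟩
            exact ⟨h3 e he', h4 e he'⟩
          rw [if_neg h4, mul_zero]
        · rw [if_neg h3, zero_mul]
    rw [Finset.sum_congr rfl h2, ← Finset.sum_filter, Finset.sum_const, nsmul_eq_mul, mul_comm]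
  have hlow : ∀ p ∈ E ×ˢ E, (if p = 0 then ((2 ^ n - 1).totient : ℤ) else 0) - W ≤
      sg (tr (p.1 * θ + p.2 * θ')) * ∑ a ∈ G, sg (tr (p.1 * a + p.2 * a⁻¹)) := by
    intro p _
    by_cases hp : p = 0
    · rw [if_pos hp, hp]
      simp only [Prod.fst_zero, Prod.snd_zero, zero_mul, add_zero, tr_zero, chs_sg_zero, one_mul,
        Finset.sum_const, nsmul_eq_mul, mul_one]
      rw [hG, card_gens n (by omega) hF]
      linarith
    · rw [if_neg hp, zero_sub]
      have h5 : p.1 ≠ 0 ∨ p.2 ≠ 0 := by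
        by_contra h
        push Not at h
        exact hp (Prod.ext h.1 h.2)
      have h6 := kpr n (by omega) hF p.1 p.2 h5
      have h7 : |sg (tr (p.1 * θ + p.2 * θ')) * ∑ a ∈ G, sg (tr (p.1 * a + p.2 * a⁻¹))| ≤ W := by
        rw [abs_mul, clsc_sg_abs, one_mul]
        exact h6
      exact (abs_le.mp h7).1
  have hsum := Finset.sum_le_sum hlow
  have hs0 : ∑ x ∈ E ×ˢ E, (if x = 0 then ((2 ^ n - 1).totient : ℤ) else 0) =
      (2 ^ n - 1).totient := by
    rw [Finset.sum_eq_single (0 : F × F)]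
    · simp
    · intro b _ hb
      rw [if_neg hb]
    · intro h
      exact absurd (Finset.mem_product.mpr ⟨hE0, hE0⟩) h
  rw [hkey, Finset.sum_sub_distrib, hs0, Finset.sum_const, Finset.card_product, hEc,
    nsmul_eq_mul] at hsum
  rw [hcard]
  have hfin : ((2 ^ n - 1).totient : ℤ) ≤ 256 * (G.filter (fun a => Cls θ θ' a)).card +
      256 * W := by
    push_cast at hsum
    linarith
  have hWn : W = ((2 ^ (2 ^ n - 1).primeFactors.card * (7 * 2 ^ ((n + 1) / 2)) : ℕ) : ℤ) := by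
    rw [hW]; push_cast; ring
  rw [hWn] at hfin
  exact_mod_cast hfin

end

end RunMult
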