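import Pool.Agent.Lib.MP_d16eef_co.Q.Fr5

/-! AD-Clt : the class determines `Tr16`.
Let `y = a + θ`.  For `e` with `e ^ 16 = e`: `0 = tr (e * y)`.  For any `x : F`, `e = Tr16 n x` is
such an element (`Tr16_fixed`), so `0 = tr (Tr16 n x * y) = tr (x * Tr16 n y)` (`tr_Tr16`), hence
`Tr16 n y = 0` by `tr_nondeg`, i.e. `Tr16 n a = Tr16 n θ` (`Tr16_add`, characteristic 2).  Same for
`a⁻¹`. -/

namespace RunMult

open Finset Polynomial

section

variable {F : Type} [Field F] [Fintype F] [DecidableEq F] [Algebra (ZMod 2) F]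

private theorem clt_aux (n : ℕ) (h4 : 4 ∣ n) (hF : Fintype.card F = 2 ^ n) (θ a : F)
    (h : ∀ e : F, e ^ 16 = e → tr (e * (a + θ)) = 0) : Tr16 n a = Tr16 n θ := by
  have h1 : Tr16 n (a + θ) = 0 := by
    refine tr_nondeg _ fun x => ?_
    rw [mul_comm, tr_Tr16 n h4 hF]
    exact h _ (Tr16_fixed n h4 hF x)
  rw [Tr16_add] at h1
  have h2 : Tr16 n θ + Tr16 n θ = 0 := by rw [← two_mul, two_eq_zero' F, zero_mul]
  exact add_right_cancel (h1.trans h2.symm)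

theorem cls_tr16 (n : ℕ) (h4 : 4 ∣ n) (hF : Fintype.card F = 2 ^ n) (θ θ' a : F)
    (h : Cls θ θ' a) : Tr16 n a = Tr16 n θ ∧ Tr16 n a⁻¹ = Tr16 n θ' :=
  ⟨clt_aux n h4 hF θ a fun e he => (h e he).1, clt_aux n h4 hF θ' a⁻¹ fun e he => (h e he).2⟩

end

end RunMult
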