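import Pool.Agent.Lib.MP_d16eef_co.Q.Fr5

/-! AD-Clx : an admissible class exists.
`Tr16 n` maps `F` onto `E = {e | e ^ 16 = e}`: it is additive, its kernel consists of roots of a
polynomial of degree `2 ^ (n - 4)`, so its image has at least 16 elements, inside `E` (`Tr16_fixed`,
`card_F16`).  `rbk x = x + x ^ 2` on `E` has kernel `{0, 1}`, so it takes 8 values on `E`; among them
choose `r ∉ {0, 1}` and then `r' ∉ {0, 1, r, r + 1}`.  Take `θ`, `θ'` with `rbk (Tr16 n θ) = r`,
`rbk (Tr16 n θ') = r'`. -/

namespace RunMult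

open Finset Polynomial

section

variable {F : Type} [Field F] [Fintype F] [DecidableEq F] [Algebra (ZMod 2) F]

omit [Fintype F] [DecidableEq F] in
private theorem clx_two (x : F) : x + x = 0 := by
  rw [← two_mul, two_eq_zero' F, zero_mul]

private theorem clx_ker (n : ℕ) (hn : 4 ≤ n) (h4 : 4 ∣ n) :
    (univ.filter fun x : F => Tr16 n x = 0).card ≤ 2 ^ (n - 4) := by
  classical
  set P : F[X] := ∑ m ∈ range (n / 4), X ^ (2 ^ (4 * m)) with hP
  have hev : ∀ x : F, P.eval x = Tr16 n x := by
    intro x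
    unfold Tr16
    rw [hP, eval_finset_sum]
    refine sum_congr rfl fun m _ => ?_
    rw [eval_pow, eval_X]
  have hP0 : P ≠ 0 := by
    intro h
    have h1 : P.coeff 1 = 1 := by
      rw [hP, finset_sum_coeff, sum_eq_single 0]
      · rw [coeff_X_pow, if_pos (by norm_num)]
      · intro m _ hm
        rw [coeff_X_pow, if_neg]
        intro h2
        have h3 : 2 ^ 1 ≤ 2 ^ (4 * m) := Nat.pow_le_pow_right (by norm_num) (by omega)
        omega
      · intro h2
        exact absurd (mem_range.mpr (by omega)) h2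
    rw [h, coeff_zero] at h1
    exact zero_ne_one h1
  have hdeg : P.natDegree ≤ 2 ^ (n - 4) := by
    refine natDegree_sum_le_of_forall_le _ _ fun m hm => ?_
    rw [natDegree_X_pow]
    have := mem_range.mp hm
    exact Nat.pow_le_pow_right (by norm_num) (by omega)
  calc (univ.filter fun x : F => Tr16 n x = 0).card ≤ P.roots.toFinset.card := by
        apply card_le_card
        intro x hx
        rw [mem_filter] at hx
        rw [Multiset.mem_toFinset, mem_roots hP0, IsRoot.def, hev]
        exact hx.2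
    _ ≤ Multiset.card P.roots := Multiset.toFinset_card_le _
    _ ≤ P.natDegree := card_roots' _
    _ ≤ 2 ^ (n - 4) := hdeg

private theorem clx_image (n : ℕ) (hn : 4 ≤ n) (h4 : 4 ∣ n) (hF : Fintype.card F = 2 ^ n) :
    (univ.image fun x : F => Tr16 n x) = univ.filter fun e : F => e ^ 16 = e := by
  classical
  have hE : (univ.filter fun e : F => e ^ 16 = e).card = 16 := by
    have h := card_F16 n h4 (by omega) hF
    rwa [Nat.card_eq_fintype_card, Fintype.card_subtype] at h
  have hsub : (univ.image fun x : F => Tr16 n x) ⊆ univ.filter fun e : F => e ^ 16 = e := by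
    intro e he
    rw [mem_image] at he
    obtain ⟨x, _, rfl⟩ := he
    rw [mem_filter]
    exact ⟨mem_univ _, Tr16_fixed n h4 hF x⟩
  refine eq_of_subset_of_card_le hsub ?_
  rw [hE]
  have h1 : (univ : Finset F).card ≤ 2 ^ (n - 4) * (univ.image fun x : F => Tr16 n x).card := by
    refine card_le_mul_card_image _ _ fun t ht => ?_
    rw [mem_image] at ht
    obtain ⟨x0, _, hx0⟩ := ht
    refine le_trans ?_ (clx_ker (F := F) n hn h4)
    refine card_le_card_of_injOn (fun x => x + x0) ?_ ?_
    · intro x hx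
      have hx' := (mem_filter.mp (mem_coe.mp hx)).2
      rw [mem_coe, mem_filter]
      refine ⟨mem_univ _, ?_⟩
      rw [Tr16_add, hx', hx0, clx_two]
    · intro x _ y _ hxy
      exact add_right_cancel hxy
  rw [card_univ, hF] at h1
  have h2 : 2 ^ n = 2 ^ (n - 4) * 16 := by
    have h3 : n = (n - 4) + 4 := by omega
    conv_lhs => rw [h3, pow_add]
    norm_num
  rw [h2] at h1
  exact Nat.le_of_mul_le_mul_left h1 (by positivity)

private theorem clx_rb (S : Finset F) : S.card ≤ 2 * (S.image rbk).card := by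
  classical
  refine card_le_mul_card_image _ _ fun t ht => ?_
  rw [mem_image] at ht
  obtain ⟨x0, _, hx0⟩ := ht
  refine le_trans (card_le_card (t := {x0, x0 + 1}) ?_) card_le_two
  intro x hx
  have hx' := (mem_filter.mp hx).2
  rw [mem_insert, mem_singleton]
  have h1 : (x + x0) * (x + x0 + 1) = 0 := by
    have h2 : rbk x + rbk x0 = 0 := by rw [hx', hx0, clx_two]
    unfold rbk at h2
    have h3 : x * x0 + x * x0 = 0 := clx_two _
    linear_combination h2 + h3
  rcases mul_eq_zero.mp h1 with h | h
  · left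
    exact add_right_cancel (h.trans (clx_two x0).symm)
  · right
    have h2 := clx_two (x0 + 1)
    rw [add_assoc] at h
    exact add_right_cancel (h.trans h2.symm)

/-- an admissible class exists -/
theorem exists_cls (n : ℕ) (hn : 4 ≤ n) (h4 : 4 ∣ n) (hF : Fintype.card F = 2 ^ n) :
    ∃ θ θ' : F, ClsOK n θ θ' := by
  classical
  have hE : (univ.filter fun e : F => e ^ 16 = e).card = 16 := by
    have h := card_F16 n h4 (by omega) hF
    rwa [Nat.card_eq_fintype_card, Fintype.card_subtype] at h
  have h8 : 8 ≤ ((univ.image fun x : F => Tr16 n x).image rbk).card := by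
    have h1 := clx_rb (univ.image fun x : F => Tr16 n x)
    rw [clx_image n hn h4 hF, hE] at h1
    rw [clx_image n hn h4 hF]
    omega
  have hex : ∀ B : Finset F, B.card < 8 → ∃ θ : F, rbk (Tr16 n θ) ∉ B := by
    intro B hB
    obtain ⟨r, hr, hrB⟩ := exists_mem_notMem_of_card_lt_card (lt_of_lt_of_le hB h8)
    rw [mem_image] at hr
    obtain ⟨e, he, rfl⟩ := hr
    rw [mem_image] at he
    obtain ⟨θ, _, rfl⟩ := he
    exact ⟨θ, hrB⟩
  obtain ⟨θ, hθ⟩ := hex {0, 1} (lt_of_le_of_lt card_le_two (by norm_num))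
  obtain ⟨θ', hθ'⟩ := hex {0, 1, rbk (Tr16 n θ), rbk (Tr16 n θ) + 1}
    (lt_of_le_of_lt card_le_four (by norm_num))
  simp only [mem_insert, mem_singleton, not_or] at hθ hθ'
  refine ⟨θ, θ', hθ.1, hθ.2, hθ'.1, hθ'.2.1, ?_, ?_⟩
  · intro h
    apply hθ'.2.2.1
    have h1 := clx_two (rbk (Tr16 n θ))
    exact (add_left_cancel (h.trans h1.symm))
  · intro h
    apply hθ'.2.2.2
    have h1 := clx_two (rbk (Tr16 n θ))
    have h2 : rbk (Tr16 n θ) + (rbk (Tr16 n θ) + 1) = 1 := by rw [← add_assoc, h1, zero_add]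
    exact add_left_cancel (h.trans h2.symm)

end

end RunMult
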