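import Pool.Agent.Lib.MP_d16eef_co.Q.Fr5
import Pool.Agent.Lib.MP_d16eef_co.Q.Kpr
import Pool.Agent.Lib.MP_d16eef_co.Q.Gens
import Pool.Agent.Lib.MP_d16eef_co.CharCount

/-! AD-Cnp : the count over generators, exponents `± 1`.
As AD-Cnt: with `E = {e | e ^ 16 = e}` (16 elements, `card_F16`),
`2 ^ n · 256 · #{a generator, Cls θ θ' a, Q a = c} =
 ∑_{e : F} ∑_{e1, e2 ∈ E} ± ∑_{a gen} sg (tr ((A e + e1) a + (A' e + e2) a⁻¹))`.
If `(A e + e1, A' e + e2) ≠ (0, 0)` the inner sum is at most `W = 2 ^ ω · 7 · 2 ^ ((n+1)/2)` in absolute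
value (`kpr`); there are at most `2 ^ n · 256` such triples.  Otherwise `A e = e1 ∈ E`,
`A' e = e2 ∈ E`: at most `T0` triples, each contributing at most `φ(2 ^ n - 1)` (`card_gens`). -/

namespace RunMult

open Finset Polynomial

section

variable {F : Type} [Field F] [Fintype F] [DecidableEq F] [Algebra (ZMod 2) F]

private lemma cnp_sg_abs (z : ZMod 2) : |sg z| = 1 := by
  revert z; decide

omit [Fintype F] [DecidableEq F] in
private lemma cnp_add16 (x y : F) (hx : x ^ 16 = x) (hy : y ^ 16 = y) : (x + y) ^ 16 = x + y := by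
  have h := add_pow2 x y 4
  have e : (2 : ℕ) ^ 4 = 16 := by norm_num
  rw [e] at h
  rw [h, hx, hy]

omit [Fintype F] [DecidableEq F] in
private lemma cnp_self (x : F) : x + x = 0 := by
  have h := two_eq_zero' F
  rw [← two_mul, h, zero_mul]

omit [Fintype F] [DecidableEq F] in
private lemma cnp_eq (x y : F) (h : x + y = 0) : x = y := by
  have h1 : x + y + y = y := by rw [h, zero_add]
  rwa [add_assoc, cnp_self, add_zero] at h1

/-- the count over generators, exponents `±1` -/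
theorem cnt_prim (n : ℕ) (hn : 4 ≤ n) (h4 : 4 ∣ n) (hF : Fintype.card F = 2 ^ n) (θ θ' : F)
    (Q A A' : F → F) (hQ : ∀ e a, a ≠ 0 → tr (e * Q a) = tr (A e * a + A' e * a⁻¹)) (c : F)
    (T0 : ℕ) (hT0 : Nat.card {e : F // A e ^ 16 = A e ∧ A' e ^ 16 = A' e} ≤ T0) :
    2 ^ n * (256 * Nat.card {a : F // orderOf a = 2 ^ n - 1 ∧ Cls θ θ' a ∧ Q a = c}) ≤
      T0 * (2 ^ n - 1).totient +
        2 ^ n * (256 * (2 ^ (2 ^ n - 1).primeFactors.card * (7 * 2 ^ ((n + 1) / 2)))) := by
  classical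
  set G : Finset F := univ.filter (fun a : F => orderOf a = 2 ^ n - 1) with hG
  set E : Finset F := univ.filter (fun e : F => e ^ 16 = e) with hE
  set W : ℤ := 2 ^ (2 ^ n - 1).primeFactors.card * (7 * 2 ^ ((n + 1) / 2)) with hW
  have hW0 : 0 ≤ W := by positivity
  have hEc : E.card = 16 := by
    rw [← card_F16 (F := F) n h4 (by omega) hF, Nat.card_eq_fintype_card, Fintype.card_subtype]
  have hEadd : ∀ x ∈ E, ∀ y ∈ E, x + y ∈ E := by
    intro x hx y hy
    rw [hE, mem_filter] at hx hy ⊢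
    exact ⟨mem_univ _, cnp_add16 x y hx.2 hy.2⟩
  have hcard : Nat.card {a : F // orderOf a = 2 ^ n - 1 ∧ Cls θ θ' a ∧ Q a = c} =
      (G.filter (fun a => Cls θ θ' a ∧ Q a = c)).card := by
    rw [Nat.card_eq_fintype_card, Fintype.card_subtype, hG, Finset.filter_filter]
  have hG0 : ∀ a ∈ G, a ≠ 0 := by
    intro a ha
    rw [hG, mem_filter] at ha
    exact (gen_ne_zero n hF a ha.2).2
  have huniv : ∀ z : F, ∑ e : F, sg (tr (e * z)) = if z = 0 then (2 ^ n : ℤ) else 0 := by
    intro z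
    rw [chs_inner (univ : Finset F) (fun x _ y _ => mem_univ _)]
    by_cases hz : z = 0
    · rw [if_pos hz, if_pos, Finset.card_univ, hF]
      · push_cast; rfl
      · intro e _
        rw [hz, mul_zero, tr_zero]
    · rw [if_neg hz, if_neg]
      intro h
      apply hz
      apply tr_nondeg
      intro y
      rw [mul_comm]
      exact h y (mem_univ _)
  set T : Finset (F × F × F) := univ ×ˢ (E ×ˢ E) with hT
  have hkey : ∑ p ∈ T, sg (tr (p.1 * c + (p.2.1 * θ + p.2.2 * θ'))) *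
      ∑ a ∈ G, sg (tr ((A p.1 + p.2.1) * a + (A' p.1 + p.2.2) * a⁻¹)) =
      (2 ^ n : ℤ) * (256 * (G.filter (fun a => Cls θ θ' a ∧ Q a = c)).card) := by
    have h1 : ∀ p ∈ T, sg (tr (p.1 * c + (p.2.1 * θ + p.2.2 * θ'))) *
        ∑ a ∈ G, sg (tr ((A p.1 + p.2.1) * a + (A' p.1 + p.2.2) * a⁻¹)) =
        ∑ a ∈ G, sg (tr (p.1 * (Q a + c))) *
          (sg (tr (p.2.1 * (a + θ))) * sg (tr (p.2.2 * (a⁻¹ + θ')))) := by
      intro p _
      rw [Finset.mul_sum]
      refine Finset.sum_congr rfl fun a ha => ?_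
      have h2 : tr (p.1 * (Q a + c)) = tr (A p.1 * a + A' p.1 * a⁻¹) + tr (p.1 * c) := by
        rw [mul_add, tr_add, hQ _ _ (hG0 a ha)]
      rw [h2, ← chs_sg_add, ← chs_sg_add, ← chs_sg_add, ← tr_add, ← tr_add, ← tr_add, ← tr_add]
      congr 2
      ring
    rw [Finset.sum_congr rfl h1, Finset.sum_comm]
    have h2 : ∀ a ∈ G, ∑ p ∈ T, sg (tr (p.1 * (Q a + c))) *
          (sg (tr (p.2.1 * (a + θ))) * sg (tr (p.2.2 * (a⁻¹ + θ')))) =
        if Cls θ θ' a ∧ Q a = c then (2 ^ n : ℤ) * 256 else 0 := by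
      intro a _
      have h8 : ∑ p ∈ T, sg (tr (p.1 * (Q a + c))) *
          (sg (tr (p.2.1 * (a + θ))) * sg (tr (p.2.2 * (a⁻¹ + θ')))) =
          (∑ e : F, sg (tr (e * (Q a + c)))) *
          ((∑ e ∈ E, sg (tr (e * (a + θ)))) * ∑ e ∈ E, sg (tr (e * (a⁻¹ + θ')))) := by
        have h9 : (∑ e ∈ E, sg (tr (e * (a + θ)))) * ∑ e ∈ E, sg (tr (e * (a⁻¹ + θ'))) =
            ∑ q ∈ E ×ˢ E, sg (tr (q.1 * (a + θ))) * sg (tr (q.2 * (a⁻¹ + θ'))) := by
          rw [Finset.sum_mul_sum, Finset.sum_product]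
        rw [h9, Finset.sum_mul_sum, hT, Finset.sum_product]
      rw [h8, huniv, chs_inner E hEadd, chs_inner E hEadd, hEc]
      by_cases hq : Q a = c
      · have hq0 : Q a + c = 0 := by rw [hq]; exact cnp_self c
        rw [if_pos hq0]
        by_cases hc : Cls θ θ' a
        · have c1 : ∀ e ∈ E, tr (e * (a + θ)) = 0 := by
            intro e he
            rw [hE, mem_filter] at he
            exact (hc e he.2).1
          have c2 : ∀ e ∈ E, tr (e * (a⁻¹ + θ')) = 0 := by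
            intro e he
            rw [hE, mem_filter] at he
            exact (hc e he.2).2
          rw [if_pos c1, if_pos c2, if_pos (show Cls θ θ' a ∧ Q a = c from ⟨hc, hq⟩)]
          norm_num
        · rw [if_neg (show ¬ (Cls θ θ' a ∧ Q a = c) from fun h => hc h.1)]
          by_cases h3 : ∀ e ∈ E, tr (e * (a + θ)) = 0
          · have h4 : ¬ ∀ e ∈ E, tr (e * (a⁻¹ + θ')) = 0 := by
              intro h4
              apply hc
              intro e he
              have he' : e ∈ E := by rw [hE, mem_filter]; exact ⟨mem_univ _, he⟩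
              exact ⟨h3 e he', h4 e he'⟩
            rw [if_neg h4, mul_zero, mul_zero]
          · rw [if_neg h3, zero_mul, mul_zero]
      · rw [if_neg (show ¬ (Cls θ θ' a ∧ Q a = c) from fun h => hq h.2),
          if_neg (show ¬ (Q a + c = 0) from fun h => hq (cnp_eq _ _ h)), zero_mul]
    rw [Finset.sum_congr rfl h2, ← Finset.sum_filter, Finset.sum_const, nsmul_eq_mul]
    ring
  have hup : ∀ p ∈ T, sg (tr (p.1 * c + (p.2.1 * θ + p.2.2 * θ'))) *
      ∑ a ∈ G, sg (tr ((A p.1 + p.2.1) * a + (A' p.1 + p.2.2) * a⁻¹)) ≤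
      (if A p.1 = p.2.1 ∧ A' p.1 = p.2.2 then ((2 ^ n - 1).totient : ℤ) else 0) + W := by
    intro p _
    have hab : ∀ x : ℤ, ∀ y : ℤ, |x| ≤ y →
        sg (tr (p.1 * c + (p.2.1 * θ + p.2.2 * θ'))) * x ≤ y := by
      intro x y hxy
      calc _ ≤ |sg (tr (p.1 * c + (p.2.1 * θ + p.2.2 * θ'))) * x| := le_abs_self _
        _ = |x| := by rw [abs_mul, cnp_sg_abs, one_mul]
        _ ≤ y := hxy
    by_cases hp : A p.1 = p.2.1 ∧ A' p.1 = p.2.2
    · rw [if_pos hp]
      apply hab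
      rw [hp.1, hp.2, cnp_self, cnp_self]
      simp only [zero_mul, add_zero, tr_zero, chs_sg_zero, Finset.sum_const, nsmul_eq_mul, mul_one]
      rw [hG, card_gens n (by omega) hF, Nat.abs_cast]
      linarith
    · rw [if_neg hp, zero_add]
      apply hab
      apply kpr n (by omega) hF
      by_contra h
      push Not at h
      exact hp ⟨cnp_eq _ _ h.1, cnp_eq _ _ h.2⟩
  have hsum := Finset.sum_le_sum hup
  have hs0 : ∑ p ∈ T, (if A p.1 = p.2.1 ∧ A' p.1 = p.2.2 then ((2 ^ n - 1).totient : ℤ) else 0) ≤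
      T0 * (2 ^ n - 1).totient := by
    rw [← Finset.sum_filter, Finset.sum_const, nsmul_eq_mul]
    have h1 : (T.filter (fun p => A p.1 = p.2.1 ∧ A' p.1 = p.2.2)).card ≤ T0 := by
      refine le_trans ?_ hT0
      rw [Nat.card_eq_fintype_card, Fintype.card_subtype]
      refine Finset.card_le_card_of_injOn (fun p => p.1) ?_ ?_
      · intro p hp
        rw [mem_coe, mem_filter, hT, mem_product, mem_product] at hp
        obtain ⟨⟨_, hp1, hp2⟩, h5, h6⟩ := hp
        rw [hE, mem_filter] at hp1 hp2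
        rw [mem_coe, mem_filter]
        refine ⟨mem_univ _, ?_, ?_⟩
        · rw [h5]; exact hp1.2
        · rw [h6]; exact hp2.2
      · intro p hp q hq hpq
        rw [mem_coe, mem_filter] at hp hq
        simp only at hpq
        refine Prod.ext hpq (Prod.ext ?_ ?_)
        · rw [← hp.2.1, ← hq.2.1, hpq]
        · rw [← hp.2.2, ← hq.2.2, hpq]
    have h2 : (0 : ℤ) ≤ (2 ^ n - 1).totient := by positivity
    exact mul_le_mul_of_nonneg_right (by exact_mod_cast h1) h2
  have hTc : (T.card : ℤ) = 2 ^ n * 256 := by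
    rw [hT, Finset.card_product, Finset.card_product, hEc, Finset.card_univ, hF]
    push_cast
    ring
  rw [hkey, Finset.sum_add_distrib, Finset.sum_const, nsmul_eq_mul, hTc] at hsum
  rw [hcard]
  have hfin : (2 ^ n : ℤ) * (256 * (G.filter (fun a => Cls θ θ' a ∧ Q a = c)).card) ≤
      T0 * (2 ^ n - 1).totient + 2 ^ n * (256 * W) := by
    linarith
  have hWn : W = ((2 ^ (2 ^ n - 1).primeFactors.card * (7 * 2 ^ ((n + 1) / 2)) : ℕ) : ℤ) := by
    rw [hW]; push_cast; ring
  rw [hWn] at hfin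
  exact_mod_cast hfin

end

end RunMult
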