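import Pool.Agent.Lib.MP_d16eef_co.Q.Fr5
import Pool.Agent.Lib.MP_d16eef_co.StepBound
import Pool.Agent.Lib.MP_d16eef_co.CharCount

/-! AD-Cnt : the general count.
Let `E = {e | e ^ 16 = e}` (16 elements, `card_F16`; closed under addition and 0 ∈ E).  With
`∑_{e : F} sg (tr (e z)) = 2 ^ n` if `z = 0`, else 0 (`card_tr_eq`) and the same over `E`
(`chs_inner` in CharCount.lean, or prove it):
`2 ^ n · 256 · #{a ≠ 0, Cls θ θ' a, Q a = c} =
 ∑_{e : F} ∑_{e1, e2 ∈ E} ∑_{a ≠ 0} sg (tr (e (Q a + c) + e1 (a + θ) + e2 (a⁻¹ + θ')))`.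
For fixed `(e, e1, e2)` the inner sum is `±` `∑_{a ≠ 0} sg (tr (stf D γ' a))` where `γ' = γ e` except
that `e1` is added at the index `(D+1)/2` (exponent 1) and `e2` at `(D-1)/2` (exponent -1)
(`D` odd; `stf D γ a = ∑ γ i a ^ (2 i - D)`).  If `γ' ≠ 0` (some `i ≤ D`) it is at most
`(3 D + 4) 2 ^ ((n+1)/2)` by `stepanov`; there are at most `2 ^ n · 256` such triples.  If `γ' i = 0`
for all `i ≤ D` then `e` belongs to the set of `hT0` (`e1 = γ e ((D+1)/2) ∈ E`, so its 16th power is
itself, similarly `e2`) and `e1, e2` are determined by `e`: at most `T0` triples, each contributing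
at most `2 ^ n`.  Divide by `2 ^ n`. -/

namespace RunMult

open Finset Polynomial

section

variable {F : Type} [Field F] [Fintype F] [DecidableEq F] [Algebra (ZMod 2) F]

private theorem cnt_abs_sg (z : ZMod 2) : |sg z| = 1 := by
  revert z; decide

private theorem cnt_stf (D : ℕ) (hD : Odd D) (γ : ℕ → F) (e1 e2 a : F) (ha : a ≠ 0) :
    stf D (fun i => γ i + ((if i = (D + 1) / 2 then e1 else 0) +
      (if i = (D - 1) / 2 then e2 else 0))) a = stf D γ a + (e1 * a + e2 * a⁻¹) := by
  obtain ⟨k, hk⟩ := hD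
  have h1 : (D + 1) / 2 = k + 1 := by omega
  have h2 : (D - 1) / 2 = k := by omega
  rw [h1, h2]
  unfold stf
  have h3 : ∀ i ∈ range (D + 1), (γ i + ((if i = k + 1 then e1 else 0) +
      (if i = k then e2 else 0))) * a ^ (2 * i) =
      γ i * a ^ (2 * i) + ((if i = k + 1 then e1 * a ^ (2 * i) else 0) +
        (if i = k then e2 * a ^ (2 * i) else 0)) := by
    intro i _
    split_ifs <;> ring
  rw [Finset.sum_congr rfl h3, Finset.sum_add_distrib, Finset.sum_add_distrib,
    Finset.sum_ite_eq', Finset.sum_ite_eq', if_pos (by rw [Finset.mem_range]; omega),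
    if_pos (by rw [Finset.mem_range]; omega), add_div, add_div]
  congr 2
  · have h4 : 2 * (k + 1) = D + 1 := by omega
    rw [h4, pow_succ, mul_comm (a ^ D) a, ← mul_assoc, mul_div_assoc,
      div_self (pow_ne_zero D ha), mul_one]
  · have h4 : D = 2 * k + 1 := by omega
    rw [h4, pow_succ, mul_div_assoc]
    congr 1
    rw [div_mul_eq_div_div, div_self (pow_ne_zero _ ha), one_div]

/-- the general count -/
theorem cnt_gen (n : ℕ) (hn : 4 ≤ n) (h4 : 4 ∣ n) (hF : Fintype.card F = 2 ^ n) (D : ℕ)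
    (hD : Odd D) (θ θ' : F) (Q : F → F) (γ : F → ℕ → F)
    (hγ : ∀ e a, a ≠ 0 → tr (e * Q a) = tr (stf D (γ e) a)) (c : F) (T0 : ℕ)
    (hT0 : Nat.card {e : F // (∀ i ≤ D, i ≠ (D + 1) / 2 → i ≠ (D - 1) / 2 → γ e i = 0) ∧
      γ e ((D + 1) / 2) ^ 16 = γ e ((D + 1) / 2) ∧
      γ e ((D - 1) / 2) ^ 16 = γ e ((D - 1) / 2)} ≤ T0) :
    256 * Nat.card {a : F // a ≠ 0 ∧ Cls θ θ' a ∧ Q a = c} ≤
      T0 + 256 * ((3 * D + 4) * 2 ^ ((n + 1) / 2)) := by
  classical
  set E : Finset F := univ.filter fun e : F => e ^ 16 = e with hE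
  have hEadd : ∀ x ∈ E, ∀ y ∈ E, x + y ∈ E := by
    intro x hx y hy
    rw [hE, Finset.mem_filter] at hx hy ⊢
    refine ⟨Finset.mem_univ _, ?_⟩
    have h := add_pow2 x y 4
    rw [show (2 : ℕ) ^ 4 = 16 from rfl] at h
    rw [h, hx.2, hy.2]
  have hEc : E.card = 16 := by
    have h := card_F16 n h4 (by omega) hF
    rw [Nat.card_eq_fintype_card, Fintype.card_subtype] at h
    exact h
  set N := Nat.card {a : F // a ≠ 0 ∧ Cls θ θ' a ∧ Q a = c} with hN
  have hNc : N = (univ.filter fun a : F => a ≠ 0 ∧ Cls θ θ' a ∧ Q a = c).card := by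
    rw [hN, Nat.card_eq_fintype_card, Fintype.card_subtype]
  set P : Finset (F × (F × F)) := univ ×ˢ (E ×ˢ E) with hP
  have hPc : P.card = 2 ^ n * 256 := by
    rw [hP, Finset.card_product, Finset.card_product, Finset.card_univ, hF, hEc]
  set Sm : F × (F × F) → ℤ := fun t => ∑ a ∈ univ.filter (fun a : F => a ≠ 0),
    sg (tr (t.1 * (Q a + c) + (t.2.1 * (a + θ) + t.2.2 * (a⁻¹ + θ')))) with hSm
  -- orthogonality
  have hcard : ((Finset.univ : Finset F).card : ℤ) = 2 ^ n := by
    rw [Finset.card_univ, hF]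
    push_cast
    rfl
  have horth : (2 : ℤ) ^ n * 256 * N = ∑ t ∈ P, Sm t := by
    have h1 : ∑ t ∈ P, Sm t = ∑ a ∈ univ.filter (fun a : F => a ≠ 0), ∑ t ∈ P,
        sg (tr (t.1 * (Q a + c) + (t.2.1 * (a + θ) + t.2.2 * (a⁻¹ + θ')))) := by
      rw [Finset.sum_comm]
    have h2 : ∀ a ∈ univ.filter (fun a : F => a ≠ 0), ∑ t ∈ P,
        sg (tr (t.1 * (Q a + c) + (t.2.1 * (a + θ) + t.2.2 * (a⁻¹ + θ')))) =
        if Cls θ θ' a ∧ Q a = c then (2 : ℤ) ^ n * 256 else 0 := by
      intro a _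
      have h3 : ∑ t ∈ P,
          sg (tr (t.1 * (Q a + c) + (t.2.1 * (a + θ) + t.2.2 * (a⁻¹ + θ')))) =
          (∑ e : F, sg (tr (e * (Q a + c)))) * ((∑ e1 ∈ E, sg (tr (e1 * (a + θ)))) *
            ∑ e2 ∈ E, sg (tr (e2 * (a⁻¹ + θ')))) := by
        rw [Finset.sum_mul_sum, ← Finset.sum_product', Finset.sum_mul_sum, ← Finset.sum_product']
        refine Finset.sum_congr rfl fun t _ => ?_
        rw [← chs_sg_add, ← chs_sg_add, tr_add, tr_add]
      rw [h3, chs_inner E hEadd, chs_inner E hEadd,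
        chs_inner Finset.univ (fun _ _ _ _ => Finset.mem_univ _), hcard, hEc]
      have hQ : (∀ e ∈ (Finset.univ : Finset F), tr (e * (Q a + c)) = 0) ↔ Q a = c := by
        constructor
        · intro h
          have h5 : Q a + c = 0 := tr_nondeg _ fun z => by
            rw [mul_comm]
            exact h z (Finset.mem_univ z)
          have h6 : Q a = -c := eq_neg_of_add_eq_zero_left h5
          have := charP_two F
          rw [h6, CharTwo.neg_eq]
        · intro h e _
          have := charP_two F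
          rw [h, CharTwo.add_self_eq_zero, mul_zero, tr_zero]
      have hC : Cls θ θ' a ↔ (∀ e ∈ E, tr (e * (a + θ)) = 0) ∧
          ∀ e ∈ E, tr (e * (a⁻¹ + θ')) = 0 := by
        unfold Cls
        constructor
        · intro h
          exact ⟨fun e he => (h e (Finset.mem_filter.mp he).2).1,
            fun e he => (h e (Finset.mem_filter.mp he).2).2⟩
        · rintro ⟨h, h'⟩ e he
          have he' : e ∈ E := Finset.mem_filter.mpr ⟨Finset.mem_univ e, he⟩
          exact ⟨h e he', h' e he'⟩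
      by_cases c1 : Q a = c
      · rw [if_pos (hQ.mpr c1)]
        by_cases c2 : ∀ e ∈ E, tr (e * (a + θ)) = 0
        · rw [if_pos c2]
          by_cases c3 : ∀ e ∈ E, tr (e * (a⁻¹ + θ')) = 0
          · rw [if_pos c3, if_pos ⟨hC.mpr ⟨c2, c3⟩, c1⟩]
            norm_num
          · rw [if_neg c3, if_neg (show ¬ (Cls θ θ' a ∧ Q a = c) from
              fun h => c3 (hC.mp h.1).2)]
            ring
        · rw [if_neg c2, if_neg (show ¬ (Cls θ θ' a ∧ Q a = c) from
            fun h => c2 (hC.mp h.1).1)]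
          ring
      · rw [if_neg (fun h => c1 (hQ.mp h)), if_neg (show ¬ (Cls θ θ' a ∧ Q a = c) from
          fun h => c1 h.2), zero_mul]
    rw [h1, Finset.sum_congr rfl h2, ← Finset.sum_filter, Finset.sum_const, Finset.filter_filter,
      nsmul_eq_mul, hNc]
    ring
  -- the bad triples
  set γ' : F × (F × F) → ℕ → F := fun t i => γ t.1 i + ((if i = (D + 1) / 2 then t.2.1 else 0) +
      (if i = (D - 1) / 2 then t.2.2 else 0)) with hγ'
  have hSabs : ∀ t, |Sm t| = |∑ a ∈ univ.filter (fun a : F => a ≠ 0), sg (tr (stf D (γ' t) a))| := by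
    intro t
    have h1 : Sm t = sg (tr (t.1 * c + (t.2.1 * θ + t.2.2 * θ'))) *
        ∑ a ∈ univ.filter (fun a : F => a ≠ 0), sg (tr (stf D (γ' t) a)) := by
      rw [hSm, Finset.mul_sum]
      refine Finset.sum_congr rfl fun a ha => ?_
      have ha0 : a ≠ 0 := (Finset.mem_filter.mp ha).2
      rw [← chs_sg_add]
      congr 1
      have h2 := cnt_stf D hD (γ t.1) t.2.1 t.2.2 a ha0
      have h3 : stf D (γ' t) a = stf D (γ t.1) a + (t.2.1 * a + t.2.2 * a⁻¹) := h2
      rw [h3, tr_add (stf D (γ t.1) a), ← hγ t.1 a ha0, ← tr_add, ← tr_add]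
      congr 1
      ring
    rw [h1, abs_mul, cnt_abs_sg, one_mul]
  set Bd : ℤ := (3 * D + 4) * 2 ^ ((n + 1) / 2) with hBd
  have hBd0 : 0 ≤ Bd := by positivity
  set bad : F × (F × F) → Prop := fun t => ∀ i ≤ D, γ' t i = 0 with hbad
  have hbound : ∀ t, |Sm t| ≤ Bd + (if bad t then (2 : ℤ) ^ n else 0) := by
    intro t
    rw [hSabs t]
    by_cases hb : bad t
    · rw [if_pos hb]
      have h1 : |∑ a ∈ univ.filter (fun a : F => a ≠ 0), sg (tr (stf D (γ' t) a))| ≤
          ∑ a ∈ univ.filter (fun a : F => a ≠ 0), (1 : ℤ) := by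
        refine (Finset.abs_sum_le_sum_abs _ _).trans (Finset.sum_le_sum fun a _ => ?_)
        rw [cnt_abs_sg]
      have h2 : ∑ a ∈ univ.filter (fun a : F => a ≠ 0), (1 : ℤ) ≤ 2 ^ n := by
        rw [← hcard, Finset.sum_const, nsmul_eq_mul, mul_one]
        exact_mod_cast Finset.card_le_card (Finset.filter_subset _ _)
      linarith
    · rw [if_neg hb, add_zero]
      rw [hbad] at hb
      push Not at hb
      obtain ⟨i, hi, hne⟩ := hb
      exact stepanov n D (by omega) hD hF (γ' t) ⟨i, hi, hne⟩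
  have hbadc : (P.filter bad).card ≤ T0 := by
    refine le_trans ?_ hT0
    rw [Nat.card_eq_fintype_card, Fintype.card_subtype]
    obtain ⟨k, hk⟩ := hD
    have e1 : (D + 1) / 2 = k + 1 := by omega
    have e2 : (D - 1) / 2 = k := by omega
    have hchar := charP_two F
    have hval : ∀ t, bad t → t.2.1 = γ t.1 ((D + 1) / 2) ∧ t.2.2 = γ t.1 ((D - 1) / 2) := by
      intro t ht
      constructor
      · have h1 := ht ((D + 1) / 2) (by omega)
        simp only [hγ'] at h1
        rw [if_pos trivial, if_neg (by omega), add_zero] at h1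
        have h2 := eq_neg_of_add_eq_zero_right h1
        rw [h2, CharTwo.neg_eq]
      · have h1 := ht ((D - 1) / 2) (by omega)
        simp only [hγ'] at h1
        rw [if_pos trivial, if_neg (by omega), zero_add] at h1
        have h2 := eq_neg_of_add_eq_zero_right h1
        rw [h2, CharTwo.neg_eq]
    refine Finset.card_le_card_of_injOn (fun t => t.1) ?_ ?_
    · intro t ht
      rw [Finset.mem_coe, Finset.mem_filter] at ht
      obtain ⟨htP, htb⟩ := ht
      rw [hP, Finset.mem_product, Finset.mem_product] at htP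
      obtain ⟨_, ht1, ht2⟩ := htP
      rw [hE, Finset.mem_filter] at ht1 ht2
      obtain ⟨hv1, hv2⟩ := hval t htb
      rw [Finset.mem_coe, Finset.mem_filter]
      refine ⟨Finset.mem_univ _, ?_, ?_, ?_⟩
      · intro i hi hi1 hi2
        have h1 := htb i hi
        simp only [hγ'] at h1
        rw [if_neg hi1, if_neg hi2, add_zero, add_zero] at h1
        exact h1
      · rw [← hv1]
        exact ht1.2
      · rw [← hv2]
        exact ht2.2
    · intro t ht u hu htu
      rw [Finset.mem_coe, Finset.mem_filter] at ht hu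
      obtain ⟨hv1, hv2⟩ := hval t ht.2
      obtain ⟨hw1, hw2⟩ := hval u hu.2
      have htu' : t.1 = u.1 := htu
      refine Prod.ext htu' (Prod.ext ?_ ?_)
      · rw [hv1, hw1, htu']
      · rw [hv2, hw2, htu']
  have hfin : (2 : ℤ) ^ n * 256 * N ≤ (2 : ℤ) ^ n * (T0 + 256 * Bd) := by
    calc (2 : ℤ) ^ n * 256 * N = ∑ t ∈ P, Sm t := horth
      _ ≤ ∑ t ∈ P, (Bd + (if bad t then (2 : ℤ) ^ n else 0)) :=
          Finset.sum_le_sum fun t _ => le_trans (le_abs_self _) (hbound t)
      _ = P.card * Bd + (P.filter bad).card * 2 ^ n := by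
          rw [Finset.sum_add_distrib, Finset.sum_const, nsmul_eq_mul, ← Finset.sum_filter,
            Finset.sum_const, nsmul_eq_mul]
      _ ≤ (2 ^ n * 256) * Bd + T0 * 2 ^ n := by
          have h1 : ((P.filter bad).card : ℤ) ≤ T0 := by exact_mod_cast hbadc
          have h2 : (P.card : ℤ) = 2 ^ n * 256 := by
            rw [hPc]
            push_cast
            rfl
          rw [h2]
          gcongr
      _ = (2 : ℤ) ^ n * (T0 + 256 * Bd) := by ring
  have hpos : (0 : ℤ) < 2 ^ n := by positivity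
  have h5 : 256 * (N : ℤ) ≤ T0 + 256 * Bd := by
    refine le_of_mul_le_mul_left ?_ hpos
    rw [← mul_assoc]
    exact hfin
  rw [hBd] at h5
  exact_mod_cast h5


end

end RunMult
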