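import Pool.Agent.Lib.MP_d16eef_co.Basic

/-! AD-ColA : few solutions of a collision with `i ≠ 0`.
If the set is empty nothing to do; otherwise fix a solution `u0`; for a solution `u` let
`w = u - u0`; subtracting (`add_pow2`): `w ^ (2 ^ s) * a ^ i = w ^ (2 ^ s')`.  It suffices to bound
the number of such `w` by `n + 1`.  If `s = s'` then `w ≠ 0` would give `a ^ i = 1`, impossible as
`0 < |i| ≤ n < 2 ^ n - 1` (`orderOf`), so `w = 0`.  If `s ≠ s'`, let `g = gcd (|s - s'|, n)`,
`0 < g < n`.  All nonzero solutions `w` have a common value of `w ^ (2 ^ s' - 2 ^ s)` (an integer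
exponent), so the quotient `v` of two of them satisfies `v ^ (2 ^ s) = v ^ (2 ^ s')`, hence
`v ^ (2 ^ |s - s'|) = v`, and with `v ^ (2 ^ n) = v` also `v ^ (2 ^ g) = v`: at most `2 ^ g - 1`
nonzero solutions.  If there is a nonzero solution `w = a ^ k` (`exists_pow_eq`) then
`k (2 ^ s' - 2 ^ s) ≡ i mod 2 ^ n - 1`; as `2 ^ g - 1` divides `2 ^ n - 1` and `2 ^ |s - s'| - 1`,
it divides `i`, so `2 ^ g - 1 ≤ |i| ≤ n`.  Total `≤ 1 + (2 ^ g - 1) ≤ n + 1`.
(See `Roots.lean` of this folder for a similar count.) -/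

namespace RunMult

open Finset Polynomial

section

variable {F : Type} [Field F] [Fintype F] [DecidableEq F] [Algebra (ZMod 2) F]

private theorem colA_zpow (a : F) (ha0 : a ≠ 0) (k : ℤ) (h : a ^ k = 1) :
    (orderOf a : ℤ) ∣ k := by
  have h1 : (Units.mk0 a ha0) ^ k = 1 := by
    apply Units.ext
    rw [Units.val_zpow_eq_zpow_val, Units.val_mk0, h, Units.val_one]
  have h2 := orderOf_dvd_iff_zpow_eq_one.mpr h1
  rwa [← orderOf_units, Units.val_mk0] at h2

private theorem colA_inj (s : ℕ) (x y : F) (h : x ^ (2 ^ s) = y ^ (2 ^ s)) : x = y := by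
  have h1 : (x + y) ^ (2 ^ s) = 0 := by
    rw [add_pow2, h, ← two_mul, two_eq_zero' F, zero_mul]
  have h2 : x + y = 0 := pow_eq_zero_iff (pow_ne_zero _ two_ne_zero) |>.mp h1
  have h3 : y + y = 0 := by rw [← two_mul, two_eq_zero' F, zero_mul]
  exact add_right_cancel (h2.trans h3.symm)

private theorem colA_lt (n : ℕ) (hn : 3 ≤ n) (hF : Fintype.card F = 2 ^ n) (a : F)
    (ha : orderOf a = 2 ^ n - 1) (s s' : ℕ) (hlt : s < s') (hs' : s' < n) (i : ℤ)
    (hi : i ≠ 0) (hin : |i| ≤ n) :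
    (univ.filter fun w : F => w ^ (2 ^ s) * a ^ i = w ^ (2 ^ s')).card ≤ n + 1 := by
  classical
  obtain ⟨-, ha0⟩ := gen_ne_zero n hF a ha
  by_cases hex : ∃ w0 : F, w0 ≠ 0 ∧ w0 ^ (2 ^ s) * a ^ i = w0 ^ (2 ^ s')
  · obtain ⟨w0, hw0, hw⟩ := hex
    obtain ⟨d, hd⟩ : ∃ d, s' = s + d := ⟨s' - s, by omega⟩
    have hd0 : 0 < d := by omega
    set g := Nat.gcd d n with hg
    have hgcd : Nat.gcd (2 ^ d - 1) (2 ^ n - 1) = 2 ^ g - 1 :=
      Nat.pow_sub_one_gcd_pow_sub_one 2 d n
    set m := 2 ^ g - 1 with hm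
    have hg1 : 1 ≤ g := Nat.gcd_pos_of_pos_left _ hd0
    have hm1 : 1 ≤ m := by
      have : 2 ^ 1 ≤ 2 ^ g := Nat.pow_le_pow_right (by norm_num) hg1
      omega
    have hmd : m ∣ 2 ^ d - 1 := by rw [← hgcd]; exact Nat.gcd_dvd_left _ _
    have hmn : m ∣ 2 ^ n - 1 := by rw [← hgcd]; exact Nat.gcd_dvd_right _ _
    have hmi : m ≤ n := by
      obtain ⟨k, -, hk⟩ := exists_pow_eq n hF a ha w0 hw0
      have h1 : a ^ ((k : ℤ) * 2 ^ s + i - (k : ℤ) * 2 ^ s') = 1 := by
        rw [zpow_sub₀ ha0, zpow_add₀ ha0]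
        have e1 : a ^ ((k : ℤ) * 2 ^ s) = w0 ^ (2 ^ s) := by
          rw [← hk, ← pow_mul, ← zpow_natCast]
          push_cast
          rfl
        have e2 : a ^ ((k : ℤ) * 2 ^ s') = w0 ^ (2 ^ s') := by
          rw [← hk, ← pow_mul, ← zpow_natCast]
          push_cast
          rfl
        rw [e1, e2, hw, div_self (pow_ne_zero _ hw0)]
      have h2 := colA_zpow a ha0 _ h1
      rw [ha] at h2
      have h3 : (m : ℤ) ∣ (k : ℤ) * 2 ^ s + i - (k : ℤ) * 2 ^ s' :=
        (Int.natCast_dvd_natCast.mpr hmn).trans h2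
      have h4 : (m : ℤ) ∣ (k : ℤ) * 2 ^ s * (2 ^ d - 1) := by
        refine Dvd.dvd.mul_left ?_ _
        have h5 : ((2 ^ d - 1 : ℕ) : ℤ) = 2 ^ d - 1 := by
          rw [Nat.cast_sub Nat.one_le_two_pow]
          push_cast
          rfl
        rw [← h5]
        exact Int.natCast_dvd_natCast.mpr hmd
      have h5 : (m : ℤ) ∣ i := by
        have h6 := dvd_add h3 h4
        have h7 : (k : ℤ) * 2 ^ s + i - (k : ℤ) * 2 ^ s' + (k : ℤ) * 2 ^ s * (2 ^ d - 1) = i := by
          rw [hd, pow_add]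
          ring
        rwa [h7] at h6
      have h6 : (m : ℤ) ≤ |i| := Int.le_of_dvd (abs_pos.mpr hi) ((dvd_abs _ _).mpr h5)
      exact_mod_cast h6.trans hin
    have hsub : (univ.filter fun w : F => w ^ (2 ^ s) * a ^ i = w ^ (2 ^ s')) ⊆
        insert 0 ((Polynomial.nthRoots m (1 : F)).toFinset.image fun v => v * w0) := by
      intro w hw'
      simp only [mem_filter, mem_univ, true_and] at hw'
      rw [mem_insert]
      by_cases hw00 : w = 0
      · exact Or.inl hw00
      · right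
        rw [mem_image]
        refine ⟨w / w0, ?_, div_mul_cancel₀ _ hw0⟩
        rw [Multiset.mem_toFinset, Polynomial.mem_nthRoots hm1]
        have hv0 : w / w0 ≠ 0 := div_ne_zero hw00 hw0
        have h1 : (w / w0) ^ (2 ^ s') = (w / w0) ^ (2 ^ s) := by
          rw [div_pow, div_pow, ← hw', ← hw]
          have h2 : a ^ i ≠ 0 := zpow_ne_zero _ ha0
          exact mul_div_mul_right _ _ h2
        have h2 : (w / w0) ^ (2 ^ d) = w / w0 := by
          apply colA_inj s
          rw [← pow_mul, ← pow_add, add_comm d s, ← hd, h1]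
        have h3 : (w / w0) ^ (2 ^ d - 1) = 1 := by
          have h4 : (w / w0) ^ (2 ^ d - 1) * (w / w0) = 1 * (w / w0) := by
            rw [← pow_succ, Nat.sub_add_cancel Nat.one_le_two_pow, h2, one_mul]
          exact mul_right_cancel₀ hv0 h4
        have h4 : (w / w0) ^ (2 ^ n - 1) = 1 := by
          rw [← hF]
          exact FiniteField.pow_card_sub_one_eq_one _ hv0
        have h5 : orderOf (w / w0) ∣ m := by
          rw [← hgcd]
          exact Nat.dvd_gcd (orderOf_dvd_of_pow_eq_one h3) (orderOf_dvd_of_pow_eq_one h4)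
        exact orderOf_dvd_iff_pow_eq_one.mp h5
    refine (card_le_card hsub).trans ((card_insert_le _ _).trans ?_)
    refine Nat.succ_le_succ (card_image_le.trans ?_)
    exact (Multiset.toFinset_card_le _).trans ((Polynomial.card_nthRoots m 1).trans hmi)
  · have hsub : (univ.filter fun w : F => w ^ (2 ^ s) * a ^ i = w ^ (2 ^ s')) ⊆ {0} := by
      intro w hw
      simp only [mem_filter, mem_univ, true_and] at hw
      rw [mem_singleton]
      by_contra h0
      exact hex ⟨w, h0, hw⟩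
    refine (card_le_card hsub).trans ?_
    rw [card_singleton]
    omega

private theorem colA_all (n : ℕ) (hn : 3 ≤ n) (hF : Fintype.card F = 2 ^ n) (a : F)
    (ha : orderOf a = 2 ^ n - 1) (s s' : ℕ) (hs : s < n) (hs' : s' < n) (i : ℤ)
    (hi : i ≠ 0) (hin : |i| ≤ n) :
    (univ.filter fun w : F => w ^ (2 ^ s) * a ^ i = w ^ (2 ^ s')).card ≤ n + 1 := by
  classical
  obtain ⟨-, ha0⟩ := gen_ne_zero n hF a ha
  rcases lt_trichotomy s s' with h | h | h
  · exact colA_lt n hn hF a ha s s' h hs' i hi hin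
  · subst h
    have hsub : (univ.filter fun w : F => w ^ (2 ^ s) * a ^ i = w ^ (2 ^ s)) ⊆ {0} := by
      intro w hw
      simp only [mem_filter, mem_univ, true_and] at hw
      rw [mem_singleton]
      by_contra h0
      have h1 : a ^ i = 1 := by
        have h2 : w ^ (2 ^ s) * a ^ i = w ^ (2 ^ s) * 1 := by rw [hw, mul_one]
        exact mul_left_cancel₀ (pow_ne_zero _ h0) h2
      have h2 := colA_zpow a ha0 i h1
      rw [ha] at h2
      apply hi
      refine Int.eq_zero_of_abs_lt_dvd h2 (lt_of_le_of_lt hin ?_)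
      have h3 : n < 2 ^ n - 1 := by
        have h4 : ∀ m : ℕ, 3 ≤ m → m + 1 < 2 ^ m := by
          intro m hm
          induction m, hm using Nat.le_induction with
          | base => norm_num
          | succ m hm ih => rw [pow_succ]; omega
        have := h4 n hn
        omega
      exact_mod_cast h3
    refine (card_le_card hsub).trans ?_
    rw [card_singleton]
    omega
  · have h1 := colA_lt n hn hF a ha s' s h hs (-i) (neg_ne_zero.mpr hi) (by rwa [abs_neg])
    refine le_trans (card_le_card ?_) h1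
    intro w hw
    simp only [mem_filter, mem_univ, true_and] at hw ⊢
    rw [← hw, mul_assoc, ← zpow_add₀ ha0, add_neg_cancel, zpow_zero, mul_one]

theorem col_ne (n : ℕ) (hn : 3 ≤ n) (hF : Fintype.card F = 2 ^ n) (a : F)
    (ha : orderOf a = 2 ^ n - 1) (c c' : F) (s s' : ℕ) (hs : s < n) (hs' : s' < n) (i : ℤ)
    (hi : i ≠ 0) (hin : |i| ≤ n) :
    Nat.card {u : F // (u + c) ^ (2 ^ s) * a ^ i = (u + c') ^ (2 ^ s')} ≤ n + 1 := by
  classical
  by_cases hex : ∃ u0 : F, (u0 + c) ^ (2 ^ s) * a ^ i = (u0 + c') ^ (2 ^ s')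
  · obtain ⟨u0, hu0⟩ := hex
    rw [Nat.card_eq_fintype_card, Fintype.card_subtype]
    refine le_trans ?_ (colA_all n hn hF a ha s s' hs hs' i hi hin)
    refine card_le_card_of_injOn (fun u => u + u0) ?_ fun x _ y _ h => add_right_cancel h
    intro u hu
    have hu' : (u + c) ^ (2 ^ s) * a ^ i = (u + c') ^ (2 ^ s') := by simpa using hu
    have h2z : ∀ y : F, y + y = 0 := by
      intro y
      rw [← two_mul, two_eq_zero' F, zero_mul]
    have e1 : ∀ t : F, u + u0 = (u + t) + (u0 + t) := by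
      intro t
      have : (u + t) + (u0 + t) = u + u0 + (t + t) := by ring
      rw [this, h2z, add_zero]
    have h3 : (u + u0) ^ (2 ^ s) * a ^ i = (u + u0) ^ (2 ^ s') := by
      conv_lhs => rw [e1 c]
      conv_rhs => rw [e1 c']
      rw [add_pow2 (u + c) (u0 + c), add_pow2 (u + c') (u0 + c'), add_mul, hu', hu0]
    simpa using h3
  · have : IsEmpty {u : F // (u + c) ^ (2 ^ s) * a ^ i = (u + c') ^ (2 ^ s')} :=
      ⟨fun u => hex ⟨u.1, u.2⟩⟩
    rw [Nat.card_of_isEmpty]
    exact Nat.zero_le _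

end

end RunMult
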