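import Pool.Agent.Lib.MP_d16eef_co.Q.Defs

/-! AD-ColB : few solutions of a collision with `i = 0`.
Fix a solution `u0`.  For a solution `u`, `v = u - u0 = u + u0` satisfies `Bperp n a v` (`1 + 1 = 0`)
and `v ^ (2 ^ s) = v ^ (2 ^ s')`, hence (Frobenius is injective) `v ^ (2 ^ |s - s'|) = v` and
`v ^ (2 ^ g) = v` with `g = gcd (|s - s'|, n)` (also `v ^ (2 ^ n) = v`), `g ∣ n`, `0 < g < n`.
If `4 ∣ g`: by `hB` at most `2 ^ (g / 2)`; `g ≤ n / 2` always, and `g = n / 2` only if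
`|s - s'| = n / 2` (a multiple of `g` below `n`); otherwise `g ≤ n / 3`.
If not `4 ∣ g`: since `16 ∣ n` and `g ∣ n`, `n / g` is divisible by 8, so `g ≤ n / 8`, and
`v ^ (2 ^ g) = v` has at most `2 ^ g` solutions.  In all cases `≤ 2 ^ (n / 4)`, and `≤ 2 ^ (n / 6)`
if `|s - s'| ≠ n / 2` (`g / 2 ≤ n / 6` from `g ≤ n / 3`, `4 ∣ g`). -/

namespace RunMult

open Finset Polynomial

section

variable {F : Type} [Field F] [Fintype F] [DecidableEq F] [Algebra (ZMod 2) F]

private theorem cz_inj (s : ℕ) : Function.Injective fun x : F => x ^ (2 ^ s) := by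
  intro x y h
  have h1 : (x + y) ^ (2 ^ s) = 0 := by
    rw [add_pow2, show x ^ (2 ^ s) = y ^ (2 ^ s) from h, ← two_mul, two_eq_zero', zero_mul]
  have h2 : x + y = 0 := by
    have := pow_eq_zero_iff (M₀ := F) (a := x + y) (n := 2 ^ s) (by positivity)
    exact this.1 h1
  calc x = x + y + y := by rw [add_assoc, ← two_mul, two_eq_zero', zero_mul, add_zero]
    _ = y := by rw [h2, zero_add]

private theorem cz_it (k : ℕ) (x : F) : (fun y : F => y ^ 2)^[k] x = x ^ (2 ^ k) := by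
  induction k generalizing x with
  | zero => simp
  | succ k ih =>
    rw [Function.iterate_succ_apply, ih, ← pow_mul, pow_succ']

private theorem cz_gcd (v : F) (d n : ℕ) (h1 : v ^ (2 ^ d) = v) (h2 : v ^ (2 ^ n) = v) :
    v ^ (2 ^ Nat.gcd d n) = v := by
  have e1 : Function.IsPeriodicPt (fun y : F => y ^ 2) d v := by
    change (fun y : F => y ^ 2)^[d] v = v
    rw [cz_it, h1]
  have e2 : Function.IsPeriodicPt (fun y : F => y ^ 2) n v := by
    change (fun y : F => y ^ 2)^[n] v = v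
    rw [cz_it, h2]
  have e3 := e1.gcd e2
  have e4 : (fun y : F => y ^ 2)^[Nat.gcd d n] v = v := e3
  rwa [cz_it] at e4

private theorem cz_roots (g : ℕ) (hg : 0 < g) (n : ℕ) (a : F) :
    Nat.card {v : F // v ^ (2 ^ g) = v ∧ Bperp n a v} ≤ 2 ^ g := by
  have h1 : 1 < 2 ^ g := Nat.one_lt_two_pow hg.ne'
  have hp : (X ^ (2 ^ g) - X : F[X]) ≠ 0 := FiniteField.X_pow_card_sub_X_ne_zero F h1
  have hd : (X ^ (2 ^ g) - X : F[X]).natDegree = 2 ^ g :=
    FiniteField.X_pow_card_sub_X_natDegree_eq F h1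
  have h2 : Nat.card {v : F // v ^ (2 ^ g) = v ∧ Bperp n a v} ≤
      (X ^ (2 ^ g) - X : F[X]).roots.toFinset.card := by
    rw [← Nat.card_eq_fintype_card.trans (Fintype.card_coe (X ^ (2 ^ g) - X : F[X]).roots.toFinset)]
    refine Nat.card_le_card_of_injective
      (fun v : {v : F // v ^ (2 ^ g) = v ∧ Bperp n a v} =>
        (⟨v.1, by
          rw [Multiset.mem_toFinset, mem_roots hp, IsRoot.def, eval_sub, eval_pow, eval_X,
            v.2.1, sub_self]⟩ : (X ^ (2 ^ g) - X : F[X]).roots.toFinset)) ?_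
    intro v w h
    exact Subtype.ext (congrArg (fun z : (X ^ (2 ^ g) - X : F[X]).roots.toFinset => (z : F)) h)
  exact h2.trans ((Multiset.toFinset_card_le _).trans ((card_roots' _).trans hd.le))

private theorem cz_eight {g k : ℕ} (h16 : 16 ∣ g * k) (h4 : ¬ 4 ∣ g) : 8 ∣ k := by
  rcases Nat.even_or_odd g with hg | hg
  · obtain ⟨g', rfl⟩ := hg.two_dvd
    have hodd : ¬ 2 ∣ g' := by
      rintro ⟨m, rfl⟩
      exact h4 ⟨m, by ring⟩
    have h8 : 8 ∣ g' * k := by
      obtain ⟨m, hm⟩ := h16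
      refine ⟨m, ?_⟩
      have : 2 * (g' * k) = 2 * (8 * m) := by rw [← mul_assoc, hm]; ring
      omega
    have hc : Nat.Coprime 8 g' := by
      have : Nat.Coprime (2 ^ 3) g' :=
        Nat.Coprime.pow_left 3 ((Nat.Prime.coprime_iff_not_dvd Nat.prime_two).2 hodd)
      simpa using this
    exact hc.dvd_of_dvd_mul_left h8
  · have hc : Nat.Coprime 16 g := by
      have : Nat.Coprime (2 ^ 4) g := Nat.Coprime.pow_left 4 (Nat.coprime_two_left.2 hg)
      simpa using this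
    exact (Dvd.dvd.trans (by norm_num : 8 ∣ 16) (hc.dvd_of_dvd_mul_left h16))

/-- the same for solutions `v` of the homogeneous problem -/
private theorem cz_hom (n : ℕ) (hn : 256 ≤ n) (h16 : 16 ∣ n) (hF : Fintype.card F = 2 ^ n) (a : F)
    (hB : ∀ g, 4 ∣ g → g ∣ n → 0 < g →
      Nat.card {v : F // v ^ (2 ^ g) = v ∧ Bperp n a v} ≤ 2 ^ (g / 2))
    (d : ℕ) (hd0 : 0 < d) (hdn : d < n) :
    Nat.card {v : F // v ^ (2 ^ d) = v ∧ Bperp n a v} ≤ 2 ^ (n / 4) ∧
    (d ≠ n / 2 → Nat.card {v : F // v ^ (2 ^ d) = v ∧ Bperp n a v} ≤ 2 ^ (n / 6)) := by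
  set g := Nat.gcd d n with hg
  have hg0 : 0 < g := Nat.gcd_pos_of_pos_left _ hd0
  have hgd : g ∣ d := Nat.gcd_dvd_left _ _
  have hgn : g ∣ n := Nat.gcd_dvd_right _ _
  have hle : Nat.card {v : F // v ^ (2 ^ d) = v ∧ Bperp n a v} ≤
      Nat.card {v : F // v ^ (2 ^ g) = v ∧ Bperp n a v} := by
    refine Nat.card_le_card_of_injective
      (fun v : {v : F // v ^ (2 ^ d) = v ∧ Bperp n a v} =>
        (⟨v.1, cz_gcd v.1 d n v.2.1 (by rw [← hF, FiniteField.pow_card]), v.2.2⟩ :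
          {v : F // v ^ (2 ^ g) = v ∧ Bperp n a v})) ?_
    intro v w h
    exact Subtype.ext (congrArg
      (fun z : {v : F // v ^ (2 ^ g) = v ∧ Bperp n a v} => (z : F)) h)
  obtain ⟨k, hk⟩ := hgn
  have hgdle : g ≤ d := Nat.le_of_dvd hd0 hgd
  have hk2 : 2 ≤ k := by
    by_contra hlt
    have : k = 0 ∨ k = 1 := by omega
    rcases this with rfl | rfl
    · omega
    · omega
  have hg2 : g * 2 ≤ n := by
    rw [hk]
    exact Nat.mul_le_mul_left g hk2
  have key : ∀ e : ℕ, (4 ∣ g → g / 2 ≤ e) → (8 * g ≤ n → g ≤ e) →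
      Nat.card {v : F // v ^ (2 ^ d) = v ∧ Bperp n a v} ≤ 2 ^ e := by
    intro e h1 h2
    by_cases h4 : 4 ∣ g
    · exact hle.trans ((hB g h4 ⟨k, hk⟩ hg0).trans
        (Nat.pow_le_pow_right (by norm_num) (h1 h4)))
    · have h8 : 8 ∣ k := cz_eight (by rw [← hk]; exact h16) h4
      have h9 : 8 * g ≤ n := by
        obtain ⟨m, rfl⟩ := h8
        have hm : 0 < m := by
          rcases Nat.eq_zero_or_pos m with rfl | h
          · omega
          · exact h
        rw [hk]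
        calc 8 * g = g * (8 * 1) := by ring
          _ ≤ g * (8 * m) := Nat.mul_le_mul_left g (Nat.mul_le_mul_left 8 hm)
      exact hle.trans ((cz_roots g hg0 n a).trans (Nat.pow_le_pow_right (by norm_num) (h2 h9)))
  refine ⟨key _ (fun _ => by omega) (fun _ => by omega), fun hdne => ?_⟩
  refine key _ (fun _ => ?_) (fun _ => by omega)
  have hk3 : 3 ≤ k := by
    by_contra hlt
    have hk2' : k = 2 := by omega
    subst hk2'
    apply hdne
    obtain ⟨m, hm⟩ := hgd
    have hm1 : m = 1 := by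
      have : m ≠ 0 := by
        rintro rfl
        omega
      have : m < 2 := by
        by_contra h2
        have : g * 2 ≤ g * m := Nat.mul_le_mul_left g (by omega)
        omega
      omega
    subst hm1
    omega
  have hg3 : g * 3 ≤ n := by
    rw [hk]
    exact Nat.mul_le_mul_left g hk3
  omega

private theorem cz_self (x : F) : x + x = 0 := by
  rw [← two_mul, two_eq_zero', zero_mul]

/-- reduction to the homogeneous problem -/
private theorem cz_red (n : ℕ) (a c c' : F) (s s' : ℕ) (hss : s < s') :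
    Nat.card {u : F // Bone n a u ∧ (u + c) ^ (2 ^ s) = (u + c') ^ (2 ^ s')} ≤
      Nat.card {v : F // v ^ (2 ^ (s' - s)) = v ∧ Bperp n a v} := by
  rcases isEmpty_or_nonempty
    {u : F // Bone n a u ∧ (u + c) ^ (2 ^ s) = (u + c') ^ (2 ^ s')} with he | ⟨⟨u0, hu0, hu0'⟩⟩
  · rw [Nat.card_of_isEmpty]
    exact Nat.zero_le _
  · have hv : ∀ u : F, Bone n a u ∧ (u + c) ^ (2 ^ s) = (u + c') ^ (2 ^ s') →
        (u + u0) ^ (2 ^ (s' - s)) = u + u0 ∧ Bperp n a (u + u0) := by
      rintro u ⟨hu, hu'⟩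
      constructor
      · apply cz_inj s
        have e1 : ((u + u0) ^ (2 ^ (s' - s))) ^ (2 ^ s) = (u + u0) ^ (2 ^ s') := by
          rw [← pow_mul, ← pow_add]
          congr 2
          omega
        have e2 : (u + u0) ^ (2 ^ s') = (u + u0) ^ (2 ^ s) := by
          have h1 : u + u0 = (u + c) + (u0 + c) := by
            rw [add_add_add_comm, cz_self, add_zero]
          have h2 : u + u0 = (u + c') + (u0 + c') := by
            rw [add_add_add_comm, cz_self, add_zero]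
          calc (u + u0) ^ (2 ^ s') = (u + c') ^ (2 ^ s') + (u0 + c') ^ (2 ^ s') := by
                rw [← add_pow2, ← h2]
            _ = (u + c) ^ (2 ^ s) + (u0 + c) ^ (2 ^ s) := by rw [hu', hu0']
            _ = (u + u0) ^ (2 ^ s) := by rw [← add_pow2, ← h1]
        exact e1.trans e2
      · intro m hm
        have h1 := hu m hm
        have h2 := hu0 m hm
        rw [add_mul, tr_add, h1.1, h2.1, add_mul, tr_add, h1.2, h2.2]
        exact ⟨by decide, by decide⟩
    refine Nat.card_le_card_of_injective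
      (fun u : {u : F // Bone n a u ∧ (u + c) ^ (2 ^ s) = (u + c') ^ (2 ^ s')} =>
        (⟨u.1 + u0, hv u.1 u.2⟩ : {v : F // v ^ (2 ^ (s' - s)) = v ∧ Bperp n a v})) ?_
    intro u w h
    have h1 : u.1 + u0 = w.1 + u0 := congrArg
      (fun z : {v : F // v ^ (2 ^ (s' - s)) = v ∧ Bperp n a v} => (z : F)) h
    exact Subtype.ext (add_right_cancel h1)

theorem col_zero (n : ℕ) (hn : 256 ≤ n) (h16 : 16 ∣ n) (hF : Fintype.card F = 2 ^ n) (a : F)
    (hB : ∀ g, 4 ∣ g → g ∣ n → 0 < g →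
      Nat.card {v : F // v ^ (2 ^ g) = v ∧ Bperp n a v} ≤ 2 ^ (g / 2))
    (c c' : F) (s s' : ℕ) (hs : s < n) (hs' : s' < n) (hne : s ≠ s') :
    Nat.card {u : F // Bone n a u ∧ (u + c) ^ (2 ^ s) = (u + c') ^ (2 ^ s')} ≤ 2 ^ (n / 4) ∧
    (s + n / 2 ≠ s' → s' + n / 2 ≠ s →
      Nat.card {u : F // Bone n a u ∧ (u + c) ^ (2 ^ s) = (u + c') ^ (2 ^ s')} ≤ 2 ^ (n / 6)) := by
  have hmain : ∀ (c c' : F) (s s' : ℕ), s < n → s' < n → s < s' →
      Nat.card {u : F // Bone n a u ∧ (u + c) ^ (2 ^ s) = (u + c') ^ (2 ^ s')} ≤ 2 ^ (n / 4) ∧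
      (s + n / 2 ≠ s' →
        Nat.card {u : F // Bone n a u ∧ (u + c) ^ (2 ^ s) = (u + c') ^ (2 ^ s')} ≤
          2 ^ (n / 6)) := by
    intro c c' s s' hs hs' hss
    have h1 := cz_red n a c c' s s' hss
    have h2 := cz_hom n hn h16 hF a hB (s' - s) (by omega) (by omega)
    exact ⟨h1.trans h2.1, fun h => h1.trans (h2.2 (by omega))⟩
  rcases lt_or_gt_of_ne hne with h | h
  · have := hmain c c' s s' hs hs' h
    exact ⟨this.1, fun h1 _ => this.2 h1⟩
  · have h1 := hmain c' c s' s hs' hs h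
    have e : Nat.card {u : F // Bone n a u ∧ (u + c) ^ (2 ^ s) = (u + c') ^ (2 ^ s')} =
        Nat.card {u : F // Bone n a u ∧ (u + c') ^ (2 ^ s') = (u + c) ^ (2 ^ s)} := by
      refine Nat.card_congr (Equiv.subtypeEquivRight fun u => ?_)
      rw [eq_comm]
    rw [e]
    exact ⟨h1.1, fun _ h2 => h1.2 h2⟩

end

end RunMult
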