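import Pool.Agent.Lib.MP_d16eef_co.StepBound

/-! AD-P5s : a small balanced flip destroys the two-level autocorrelation.
Put `χ x = sg (tr x)` (`±1`, multiplicative in `x ↦ x + y`), `Uf x = 1` if `x ∈ U` else 0 and
`s x = χ x (1 - 2 Uf x) = sg (tr x + if x ∈ U then 1 else 0)`.  Suppose the count is `2 ^ (n - 1)` for
all `w ≠ 0, 1`.  Then `∑_{x ≠ 0} s x s (x w) = (2 ^ n - 1) - 2 · 2 ^ (n - 1) = -1`, so
`∑_x s x s (x w) = 0` (`s 0 = 1`).  Expanding, with `∑_x χ (x (1 + w)) = 0` (`w ≠ 1`, `card_tr_eq`):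
`0 = - 2 T w - 2 T w⁻¹ + 4 C w`, `T w = ∑_{u ∈ U} χ u χ (u w)`,
`C w = ∑_{u ∈ U, u w ∈ U} χ u χ (u w)` (for the second term substitute `x = u w⁻¹`).
So `T w + T w⁻¹ = 2 C w` for `w ≠ 0, 1`.  Multiply by `T w` and sum over `w ≠ 0, 1`:
* `∑_{w : F} (T w)^2 = 2 ^ n |U|` (orthogonality), `T 0 = ∑ χ u = 0` (`hbal`), `T 1 = |U|`
  (`χ u ^ 2 = 1`), so `∑_{w ≠ 0,1} (T w)^2 = 2 ^ n |U| - |U|^2`;
* `∑_{w ≠ 0} T w T w⁻¹ = ∑_{u, u' ∈ U} χ u χ u' ∑_{w ≠ 0} sg (tr (u w + u' w⁻¹))`, each inner sum is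
  at most `7 · 2 ^ ((n + 1) / 2)` in absolute value by `stepanov` with `D = 1` (`γ 1 = u`, `γ 0 = u'`:
  `stf 1 γ w = (u' + u w ^ 2) / w`), so `|∑_{w ≠ 0, 1} T w T w⁻¹| ≤ |U|^2 (7 · 2 ^ ((n+1)/2) + 1)`;
* `|∑_{w ≠ 0,1} 2 C w T w| ≤ 2 |U| ∑_w |C w| ≤ 2 |U| |U|^2` (each pair `(u, u')` determines `w`).
So `2 ^ n |U| ≤ |U|^2 + |U|^2 (7 · 2 ^ ((n+1)/2) + 1) + 2 |U|^3`, i.e. (divide by `|U| > 0`)
`2 ^ n ≤ 7 |U| 2 ^ ((n+1)/2) + 2 |U| + 2 |U|^2`, contradicting `hsm` (`2 ≤ 2 ^ ((n+1)/2)`,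
`|U|^2 ≤ |U|^3`). -/

namespace RunMult

open Finset Polynomial

section

variable {F : Type} [Field F] [Fintype F] [DecidableEq F] [Algebra (ZMod 2) F]

private theorem p5_sg_add (x y : ZMod 2) : sg (x + y) = sg x * sg y := by
  revert x y; unfold sg; decide

private theorem p5_sg_mul (x y : ZMod 2) : sg x * sg y = 1 - 2 * (if x ≠ y then 1 else 0) := by
  revert x y; unfold sg; decide

private theorem p5_sg_abs (x : ZMod 2) : |sg x| = 1 := by
  revert x; unfold sg; decide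

private noncomputable def p5ch (x : F) : ℤ := sg (tr x)

omit [Fintype F] [DecidableEq F] in
private theorem p5_ch_add (x y : F) : p5ch (x + y) = p5ch x * p5ch y := by
  unfold p5ch
  rw [tr_add, p5_sg_add]

omit [Fintype F] [DecidableEq F] in
private theorem p5_ch_zero : p5ch (0 : F) = 1 := by
  unfold p5ch
  rw [tr_zero]
  rfl

omit [Fintype F] [DecidableEq F] in
private theorem p5_ch_sq (x : F) : p5ch x * p5ch x = 1 := by
  rw [← p5_ch_add, ← two_mul, two_eq_zero' F, zero_mul, p5_ch_zero]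

omit [Fintype F] [DecidableEq F] in
private theorem p5_ch_abs (x : F) : |p5ch x| = 1 := p5_sg_abs _

private theorem p5_ch_sum (n : ℕ) (hn : 1 ≤ n) (hF : Fintype.card F = 2 ^ n) (z : F)
    (hz : z ≠ 0) : ∑ x : F, p5ch (x * z) = 0 := by
  have h1 : ∀ y : ZMod 2, sg y = (if y = 0 then (1 : ℤ) else 0) - (if y = 1 then 1 else 0) := by
    unfold sg; decide
  unfold p5ch
  simp only [h1]
  rw [Finset.sum_sub_distrib, Finset.sum_boole, Finset.sum_boole, card_tr_eq n hn hF z hz,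
    card_tr_eq n hn hF z hz, sub_self]

private theorem p5_rel (n : ℕ) (hn : 1 ≤ n) (hF : Fintype.card F = 2 ^ n) (U : Finset F) (w : F)
    (hw0 : w ≠ 0) (hw1 : w ≠ 1)
    (h : (univ.filter fun x : F => x ≠ 0 ∧ (tr x + if x ∈ U then (1 : ZMod 2) else 0) ≠
        (tr (x * w) + if x * w ∈ U then (1 : ZMod 2) else 0)).card = 2 ^ (n - 1)) :
    ∑ u ∈ U, p5ch u * p5ch (u * w) + ∑ u ∈ U, p5ch u * p5ch (u * w⁻¹) =
      2 * ∑ u ∈ U, if u * w ∈ U then p5ch u * p5ch (u * w) else 0 := by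
  set f : F → ZMod 2 := fun x => tr x + if x ∈ U then (1 : ZMod 2) else 0 with hf
  set uf : F → ℤ := fun x => if x ∈ U then 1 else 0 with huf
  have h1 : ∑ x : F, sg (f x) * sg (f (x * w)) = 0 := by
    simp only [p5_sg_mul]
    rw [Finset.sum_sub_distrib, ← Finset.mul_sum, Finset.sum_boole]
    have h2 : (univ.filter fun x : F => f x ≠ f (x * w)) =
        univ.filter fun x : F => x ≠ 0 ∧ f x ≠ f (x * w) := by
      ext x
      simp only [mem_filter, mem_univ, true_and]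
      constructor
      · intro hx
        refine ⟨?_, hx⟩
        rintro rfl
        rw [zero_mul] at hx
        exact hx rfl
      · exact fun hx => hx.2
    rw [h2]
    have h3 : (univ.filter fun x : F => x ≠ 0 ∧ f x ≠ f (x * w)).card = 2 ^ (n - 1) := h
    rw [h3, Finset.sum_const, Finset.card_univ, hF]
    obtain ⟨m, rfl⟩ : ∃ m, n = m + 1 := ⟨n - 1, by omega⟩
    simp only [Nat.add_sub_cancel]
    push_cast
    rw [pow_succ]
    ring
  have h2 : ∀ x, sg (f x) = p5ch x * (1 - 2 * uf x) := by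
    intro x
    simp only [hf, huf, p5ch]
    by_cases hx : x ∈ U
    · rw [if_pos hx, if_pos hx, p5_sg_add]
      have : sg 1 = -1 := by decide
      rw [this]
      ring
    · rw [if_neg hx, if_neg hx, add_zero]
      ring
  have e1 : ∑ x : F, p5ch x * p5ch (x * w) = 0 := by
    have h3 : (1 : F) + w ≠ 0 := by
      intro h4
      apply hw1
      have h5 : (1 : F) + 1 = 0 := by
        have := two_eq_zero' F
        rwa [← one_add_one_eq_two] at this
      exact (add_left_cancel (h4.trans h5.symm))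
    rw [← p5_ch_sum n hn hF (1 + w) h3]
    refine Finset.sum_congr rfl fun x _ => ?_
    rw [← p5_ch_add, mul_add, mul_one]
  have e2 : ∑ x : F, p5ch x * p5ch (x * w) * uf x = ∑ u ∈ U, p5ch u * p5ch (u * w) := by
    simp only [huf, mul_ite, mul_one, mul_zero]
    rw [Finset.sum_ite_mem, Finset.univ_inter]
  have e3 : ∑ x : F, p5ch x * p5ch (x * w) * uf (x * w) =
      ∑ u ∈ U, p5ch u * p5ch (u * w⁻¹) := by
    have h3 : ∑ u ∈ U, p5ch u * p5ch (u * w⁻¹) = ∑ y : F, p5ch y * p5ch (y * w⁻¹) * uf y := by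
      simp only [huf, mul_ite, mul_one, mul_zero]
      rw [Finset.sum_ite_mem, Finset.univ_inter]
    rw [h3]
    refine Fintype.sum_bijective (fun x : F => x * w) (mulRight_bijective₀ _ hw0) _ _ fun x => ?_
    show _ = p5ch (x * w) * p5ch (x * w * w⁻¹) * uf (x * w)
    rw [mul_assoc x, mul_inv_cancel₀ hw0, mul_one, mul_comm (p5ch x)]
  have e4 : ∑ x : F, p5ch x * p5ch (x * w) * uf x * uf (x * w) =
      ∑ u ∈ U, if u * w ∈ U then p5ch u * p5ch (u * w) else 0 := by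
    have h3 : ∀ x, p5ch x * p5ch (x * w) * uf x * uf (x * w) =
        if x ∈ U then (if x * w ∈ U then p5ch x * p5ch (x * w) else 0) else 0 := by
      intro x
      simp only [huf]
      split_ifs <;> ring
    simp only [h3]
    rw [Finset.sum_ite_mem, Finset.univ_inter]
  have e5 : ∑ x : F, sg (f x) * sg (f (x * w)) =
      ∑ x : F, p5ch x * p5ch (x * w) - 2 * ∑ x : F, p5ch x * p5ch (x * w) * uf x -
        2 * ∑ x : F, p5ch x * p5ch (x * w) * uf (x * w) +
        4 * ∑ x : F, p5ch x * p5ch (x * w) * uf x * uf (x * w) := by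
    rw [Finset.mul_sum, Finset.mul_sum, Finset.mul_sum, ← Finset.sum_sub_distrib,
      ← Finset.sum_sub_distrib, ← Finset.sum_add_distrib]
    refine Finset.sum_congr rfl fun x _ => ?_
    rw [h2, h2]
    ring
  rw [e5, e1, e2, e3, e4] at h1
  linarith

private theorem p5_stf (u u' w : F) (hw : w ≠ 0) :
    stf 1 (fun i => if i = 0 then u' else u) w = u * w + u' * w⁻¹ := by
  unfold stf
  rw [Finset.sum_range_succ, Finset.sum_range_one]
  simp only [if_true, one_ne_zero, if_false, mul_zero, pow_zero, mul_one, pow_one]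
  field_simp
  ring

theorem auto_small (n : ℕ) (hn : 8 ≤ n) (hF : Fintype.card F = 2 ^ n) (U : Finset F)
    (hU0 : ∀ u ∈ U, u ≠ 0) (hne : U.Nonempty) (hbal : ∑ u ∈ U, sg (tr u) = 0)
    (hsm : 8 * U.card * 2 ^ ((n + 1) / 2) + 2 * U.card ^ 3 < 2 ^ n) :
    ∃ w : F, w ≠ 0 ∧ w ≠ 1 ∧
      (univ.filter fun x : F => x ≠ 0 ∧ (tr x + if x ∈ U then (1 : ZMod 2) else 0) ≠
        (tr (x * w) + if x * w ∈ U then (1 : ZMod 2) else 0)).card ≠ 2 ^ (n - 1) := by
  by_contra hcon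
  push Not at hcon
  set c : ℤ := (U.card : ℤ) with hc
  set T : F → ℤ := fun w => ∑ u ∈ U, p5ch u * p5ch (u * w) with hT
  set C : F → ℤ := fun w => ∑ u ∈ U, if u * w ∈ U then p5ch u * p5ch (u * w) else 0 with hC
  have hrel : ∀ w, w ≠ 0 → w ≠ 1 → T w + T w⁻¹ = 2 * C w := fun w h0 h1 =>
    p5_rel n (by omega) hF U w h0 h1 (hcon w h0 h1)
  have hT0 : T 0 = 0 := by
    simp only [hT, mul_zero, p5_ch_zero, mul_one]
    exact hbal
  have hT1 : T 1 = c := by
    simp only [hT, mul_one, p5_ch_sq, Finset.sum_const, hc, nsmul_eq_mul]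
  have hTabs : ∀ w, |T w| ≤ c := by
    intro w
    refine (Finset.abs_sum_le_sum_abs _ _).trans ?_
    have h1 : ∀ u ∈ U, |p5ch u * p5ch (u * w)| = 1 := by
      intro u _
      rw [abs_mul, p5_ch_abs, p5_ch_abs, mul_one]
    rw [Finset.sum_congr rfl h1, Finset.sum_const, hc, nsmul_eq_mul, mul_one]
  have hin : ∀ u u' : F, ∑ w : F, (p5ch u * p5ch (u * w)) * (p5ch u' * p5ch (u' * w)) =
      if u = u' then (2 : ℤ) ^ n else 0 := by
    intro u u'
    have h1 : ∀ w, (p5ch u * p5ch (u * w)) * (p5ch u' * p5ch (u' * w)) =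
        p5ch u * p5ch u' * p5ch (w * (u + u')) := by
      intro w
      rw [mul_add, p5_ch_add, mul_comm w u, mul_comm w u']
      ring
    simp only [h1]
    rw [← Finset.mul_sum]
    split_ifs with h
    · subst h
      have h2 : u + u = 0 := by rw [← two_mul, two_eq_zero' F, zero_mul]
      rw [p5_ch_sq, one_mul, h2]
      simp only [mul_zero, p5_ch_zero, Finset.sum_const, Finset.card_univ, hF, nsmul_eq_mul,
        mul_one]
      push_cast
      rfl
    · rw [p5_ch_sum n (by omega) hF (u + u'), mul_zero]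
      intro h2
      apply h
      have h3 : u + u = 0 := by rw [← two_mul, two_eq_zero' F, zero_mul]
      exact (add_left_cancel (h2.trans h3.symm)).symm
  have hsq : ∑ w : F, T w * T w = 2 ^ n * c := by
    simp only [hT, Finset.sum_mul_sum]
    rw [Finset.sum_comm]
    have h1 : ∀ u ∈ U, ∑ w : F, ∑ u' ∈ U, (p5ch u * p5ch (u * w)) * (p5ch u' * p5ch (u' * w)) =
        (2 : ℤ) ^ n := by
      intro u hu
      rw [Finset.sum_comm]
      simp only [hin]
      rw [Finset.sum_ite_eq, if_pos hu]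
    rw [Finset.sum_congr rfl h1, Finset.sum_const, nsmul_eq_mul, hc, mul_comm]
  have hcr : |∑ w ∈ univ.erase (0 : F), T w * T w⁻¹| ≤ c * (c * (7 * 2 ^ ((n + 1) / 2))) := by
    have h1 : ∑ w ∈ univ.erase (0 : F), T w * T w⁻¹ = ∑ u ∈ U, ∑ u' ∈ U,
        ∑ w ∈ univ.erase (0 : F), (p5ch u * p5ch (u * w)) * (p5ch u' * p5ch (u' * w⁻¹)) := by
      simp only [hT, Finset.sum_mul_sum]
      rw [Finset.sum_comm]
      refine Finset.sum_congr rfl fun u _ => ?_
      rw [Finset.sum_comm]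
    have h2 : ∀ u ∈ U, ∀ u' ∈ U, |∑ w ∈ univ.erase (0 : F), (p5ch u * p5ch (u * w)) *
        (p5ch u' * p5ch (u' * w⁻¹))| ≤ 7 * 2 ^ ((n + 1) / 2) := by
      intro u hu u' hu'
      have h3 : ∑ w ∈ univ.erase (0 : F), (p5ch u * p5ch (u * w)) *
          (p5ch u' * p5ch (u' * w⁻¹)) = p5ch u * p5ch u' *
          ∑ w ∈ univ.filter (fun w : F => w ≠ 0),
            sg (tr (stf 1 (fun i => if i = 0 then u' else u) w)) := by
        rw [Finset.filter_ne', Finset.mul_sum]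
        refine Finset.sum_congr rfl fun w hw => ?_
        rw [p5_stf u u' w (Finset.ne_of_mem_erase hw)]
        have h4 : sg (tr (u * w + u' * w⁻¹)) = p5ch (u * w) * p5ch (u' * w⁻¹) := by
          rw [← p5_ch_add]
          rfl
        rw [h4]
        ring
      rw [h3, abs_mul, abs_mul, p5_ch_abs, p5_ch_abs, one_mul, one_mul]
      have h5 := stepanov n 1 (by omega) odd_one hF (fun i => if i = 0 then u' else u)
        ⟨1, le_refl _, by simpa using hU0 u hu⟩
      refine h5.trans (le_of_eq ?_)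
      norm_num
    rw [h1]
    refine (Finset.abs_sum_le_sum_abs _ _).trans ?_
    rw [hc, ← nsmul_eq_mul, ← Finset.sum_const]
    refine Finset.sum_le_sum fun u hu => (Finset.abs_sum_le_sum_abs _ _).trans ?_
    rw [← nsmul_eq_mul, ← Finset.sum_const]
    exact Finset.sum_le_sum fun u' hu' => h2 u hu u' hu'
  have hCs : ∑ w : F, |C w| ≤ c * c := by
    have h1 : ∀ w : F, |C w| ≤ ∑ u ∈ U, if u * w ∈ U then (1 : ℤ) else 0 := by
      intro w
      refine (Finset.abs_sum_le_sum_abs _ _).trans (Finset.sum_le_sum fun u _ => ?_)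
      split_ifs
      · rw [abs_mul, p5_ch_abs, p5_ch_abs, mul_one]
      · rw [abs_zero]
    refine (Finset.sum_le_sum fun w _ => h1 w).trans ?_
    rw [Finset.sum_comm]
    have h2 : ∀ u ∈ U, ∑ w : F, (if u * w ∈ U then (1 : ℤ) else 0) = c := by
      intro u hu
      have h3 : ∑ w : F, (if u * w ∈ U then (1 : ℤ) else 0) =
          ∑ y : F, if y ∈ U then (1 : ℤ) else 0 :=
        Fintype.sum_bijective (fun w : F => u * w) (mulLeft_bijective₀ _ (hU0 u hu)) _ _
          fun w => rfl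
      rw [h3, Finset.sum_boole, hc]
      congr 2
      ext y
      simp
    rw [Finset.sum_congr rfl h2, Finset.sum_const, nsmul_eq_mul, hc]
  have h10 : (1 : F) ∈ univ.erase (0 : F) := Finset.mem_erase.mpr ⟨one_ne_zero, mem_univ _⟩
  set W : Finset F := (univ.erase (0 : F)).erase 1 with hW
  have hWs1 : ∀ g : F → ℤ, ∑ w ∈ univ.erase (0 : F), g w = g 1 + ∑ w ∈ W, g w := fun g =>
    (Finset.add_sum_erase _ g h10).symm
  have hWs : ∀ g : F → ℤ, ∑ w : F, g w = g 0 + (g 1 + ∑ w ∈ W, g w) := fun g => by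
    rw [← hWs1, Finset.add_sum_erase _ g (mem_univ _)]
  have hmW : ∀ w ∈ W, w ≠ 0 ∧ w ≠ 1 := by
    intro w hw
    rw [hW, Finset.mem_erase, Finset.mem_erase] at hw
    exact ⟨hw.2.1, hw.1⟩
  have k1 : ∑ w ∈ W, T w * T w = 2 ^ n * c - c * c := by
    have h1 := hWs fun w => T w * T w
    simp only [hT0, hT1] at h1
    rw [hsq] at h1
    linarith
  have k2 : -(c * (c * (7 * 2 ^ ((n + 1) / 2)))) - c * c ≤ ∑ w ∈ W, T w * T w⁻¹ := by
    have h1 := hWs1 fun w => T w * T w⁻¹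
    simp only [inv_one, hT1] at h1
    have h2 := (abs_le.mp hcr).1
    rw [h1] at h2
    linarith
  have k3 : ∑ w ∈ W, C w * T w ≤ c * (c * c) := by
    have h1 : ∀ w ∈ W, C w * T w ≤ |C w| * c := by
      intro w _
      refine (le_abs_self _).trans ?_
      rw [abs_mul]
      exact mul_le_mul_of_nonneg_left (hTabs w) (abs_nonneg _)
    refine (Finset.sum_le_sum h1).trans ?_
    rw [← Finset.sum_mul, mul_comm]
    refine mul_le_mul_of_nonneg_left ?_ (by rw [hc]; positivity)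
    refine le_trans ?_ hCs
    exact Finset.sum_le_sum_of_subset_of_nonneg (Finset.subset_univ _) fun _ _ _ => abs_nonneg _
  have k4 : ∑ w ∈ W, T w * T w + ∑ w ∈ W, T w * T w⁻¹ = 2 * ∑ w ∈ W, C w * T w := by
    rw [← Finset.sum_add_distrib, Finset.mul_sum]
    refine Finset.sum_congr rfl fun w hw => ?_
    obtain ⟨h0, h1⟩ := hmW w hw
    rw [← mul_add, hrel w h0 h1]
    ring
  have hc1 : 1 ≤ c := by
    rw [hc]
    exact_mod_cast Finset.card_pos.mpr hne
  have hP : (2 : ℤ) ≤ 2 ^ ((n + 1) / 2) := by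
    obtain ⟨m, hm⟩ : ∃ m, (n + 1) / 2 = m + 1 := ⟨(n + 1) / 2 - 1, by omega⟩
    rw [hm, pow_succ]
    have : (1 : ℤ) ≤ 2 ^ m := one_le_pow₀ (by norm_num)
    linarith
  have hsm' : 8 * c * 2 ^ ((n + 1) / 2) + 2 * c ^ 3 < 2 ^ n := by
    rw [hc]
    exact_mod_cast hsm
  set P : ℤ := 2 ^ ((n + 1) / 2) with hPdef
  have k5 : 2 ^ n * c ≤ 2 * (c * (c * c)) + c * (c * (7 * P)) + 2 * (c * c) := by linarith
  have k6 : (8 * c * P + 2 * c ^ 3) * c < 2 ^ n * c :=
    mul_lt_mul_of_pos_right hsm' (by linarith)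
  have k7 : 0 ≤ c * c * (P - 2) := mul_nonneg (by positivity) (by linarith)
  have k8 : 0 ≤ c * (c * c) * (c - 1) := mul_nonneg (by positivity) (by linarith)
  nlinarith

end

end RunMult
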