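import Pool.Agent.Lib.MP_d16eef_co.Core
import Pool.Agent.Lib.MP_d16eef_co.Q.Swp4
import Pool.Agent.Lib.MP_d16eef_co.Q.P5s

/-! AD-Cor4 : the core construction with a space of directions.  Follow `adm_core2` in `Core.lean`
(same folder) closely.
`U = {(u + d) ^ (2 ^ s) | s < n, d ∈ Λ}` (image of `range n ×ˢ Λ`, injective by `hinj` with `i = 0`,
so `|U| = n |Λ|`).  For `x ∈ U` with index `(s, d)` (unique) put
`pr x = (u + (d + zz s)) ^ (2 ^ s) = x + zz s ^ (2 ^ s)` and `Kf x = K s`.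
* `pr x ∈ U` (`hadd`, `hzΛ`), `pr (pr x) = x` (`zz s + zz s = 0`), `tr (pr x) = tr x + 1` (`hz1`),
  `tr (pr x * a ^ i) = tr (x * a ^ i)` for `0 < |i| ≤ K s` (`hzw`);
* isolation `x * a ^ i ∉ U` for `0 < |i| ≤ n`, and `0 ∉ U` (if `x = 0` then
  `x * a ^ 1 = x`, contradicting `hinj` with `i = 1`): `hinj`;
* `2 K s ≤ 32 ≤ n + 2`; `NC_swap4` gives `NC g a c L = NC tr a c L` for `g x = tr x + [x ∈ U]`, and
  `RC_eq_NC` the equality of the run counts;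
* `U` is stable under squaring (`(u + d) ^ (2 ^ (s + 1))`, and `x ^ (2 ^ n) = x`), so `g (x^2) = g x`;
* P-3 fails: `p3_fail` with `x = u = (u + 0) ^ (2 ^ 0)` (`h0`), `hinj`, `hη`, `hP3`;
* P-5 fails: `auto_small` (`∑_{x ∈ U} sg (tr x) = 0` since `pr` is an involution of `U` changing the
  sign: `Finset.sum_involution` or `∑ = -∑`), `hsm`; `w ≠ 0, 1` is `a ^ τ` with `0 < τ < 2 ^ n - 1`
  (`exists_pow_eq`).
Conclude by `adm_of_field`. -/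

namespace RunMult

open Finset Polynomial

section

variable {F : Type} [Field F] [Fintype F] [DecidableEq F] [Algebra (ZMod 2) F]

theorem adm_core4 (n : ℕ) (hn : 32 ≤ n) (hF : Fintype.card F = 2 ^ n) (a : F)
    (ha : orderOf a = 2 ^ n - 1) (Λ : Finset F) (h0 : (0 : F) ∈ Λ)
    (hadd : ∀ x ∈ Λ, ∀ y ∈ Λ, x + y ∈ Λ) (K : ℕ → ℕ) (hK : ∀ s < n, K s ≤ 16) (zz : ℕ → F)
    (hzΛ : ∀ s < n, zz s ∈ Λ) (hz1 : ∀ s < n, tr (zz s) = 1)
    (hzw : ∀ s < n, ∀ i : ℤ, i ≠ 0 → |i| ≤ K s → tr (zz s ^ (2 ^ s) * a ^ i) = 0) (u η : F)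
    (hR : ∀ d ∈ Λ, ∀ s < n, ∀ c, ∃ i : ℤ, 1 ≤ i ∧ i ≤ K s ∧ tr ((u + d) ^ (2 ^ s) * a ^ i) ≠ c)
    (hL : ∀ d ∈ Λ, ∀ s < n, ∀ c,
      ∃ i : ℤ, 1 ≤ i ∧ i ≤ K s ∧ tr ((u + d) ^ (2 ^ s) * a ^ (-i)) ≠ c)
    (hinj : ∀ d ∈ Λ, ∀ d' ∈ Λ, ∀ s < n, ∀ s' < n, ∀ i : ℤ, |i| ≤ n →
      (u + d) ^ (2 ^ s) * a ^ i = (u + d') ^ (2 ^ s') → i = 0 ∧ s = s' ∧ d = d')
    (hη : ∀ l < n, tr (η * a ^ l) = if l = 0 then 1 else 0)
    (hP3 : ∀ l < n, ∀ d ∈ Λ, ∀ s < n, (u + η) * a ^ l ≠ (u + d) ^ (2 ^ s))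
    (hsm : 8 * (n * Λ.card) * 2 ^ ((n + 1) / 2) + 2 * (n * Λ.card) ^ 3 < 2 ^ n) : Adm n := by
  obtain ⟨-, ha0⟩ : 1 ≤ n ∧ a ≠ 0 := gen_ne_zero n hF a ha
  set U : Finset F := (range n ×ˢ Λ).image fun q : ℕ × F => (u + q.2) ^ (2 ^ q.1) with hU
  have hmem : ∀ x, x ∈ U ↔ ∃ s < n, ∃ d ∈ Λ, (u + d) ^ (2 ^ s) = x := by
    intro x
    rw [hU, mem_image]
    constructor
    · rintro ⟨⟨s, d⟩, hq, h⟩
      rw [mem_product, mem_range] at hq
      exact ⟨s, hq.1, d, hq.2, h⟩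
    · rintro ⟨s, hs, d, hd, h⟩
      exact ⟨(s, d), by rw [mem_product, mem_range]; exact ⟨hs, hd⟩, h⟩
  have hmem' : ∀ s < n, ∀ d ∈ Λ, (u + d) ^ (2 ^ s) ∈ U :=
    fun s hs d hd => (hmem _).mpr ⟨s, hs, d, hd, rfl⟩
  have hdist : ∀ s < n, ∀ s' < n, ∀ d ∈ Λ, ∀ d' ∈ Λ,
      (u + d) ^ (2 ^ s) = (u + d') ^ (2 ^ s') → s = s' ∧ d = d' := by
    intro s hs s' hs' d hd d' hd' h
    exact (hinj d hd d' hd' s hs s' hs' 0 (by simp) (by simpa using h)).2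
  have hU0 : ∀ x ∈ U, x ≠ 0 := by
    intro x hx h0
    obtain ⟨s, hs, d, hd, h⟩ := (hmem x).mp hx
    have h1 := (hinj d hd d hd s hs s hs 1 (by simp; omega) (by rw [h, h0, zero_mul])).1
    exact one_ne_zero h1
  have hidx : ∀ x ∈ U, ∃ q : ℕ × F, q.1 < n ∧ q.2 ∈ Λ ∧ (u + q.2) ^ (2 ^ q.1) = x := by
    intro x hx
    obtain ⟨s, hs, d, hd, h⟩ := (hmem x).mp hx
    exact ⟨(s, d), hs, hd, h⟩
  choose! q hq1 hqΛ hq2 using hidx
  have hqq : ∀ s < n, ∀ d ∈ Λ, q ((u + d) ^ (2 ^ s)) = (s, d) := by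
    intro s hs d hd
    have h1 := hq1 _ (hmem' s hs d hd)
    have h1' := hqΛ _ (hmem' s hs d hd)
    have h2 := hq2 _ (hmem' s hs d hd)
    obtain ⟨h3, h4⟩ := hdist _ h1 _ hs _ h1' _ hd h2
    exact Prod.ext h3 h4
  set pr : F → F := fun x => (u + ((q x).2 + zz (q x).1)) ^ (2 ^ (q x).1) with hpr
  set Kf : F → ℕ := fun x => K (q x).1 with hKf
  have hdz : ∀ x ∈ U, (q x).2 + zz (q x).1 ∈ Λ :=
    fun x hx => hadd _ (hqΛ x hx) _ (hzΛ _ (hq1 x hx))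
  have hprU : ∀ x ∈ U, pr x ∈ U := fun x hx => hmem' _ (hq1 x hx) _ (hdz x hx)
  have hqpr : ∀ x ∈ U, q (pr x) = ((q x).1, (q x).2 + zz (q x).1) :=
    fun x hx => hqq _ (hq1 x hx) _ (hdz x hx)
  have h2z : ∀ y : F, y + y = 0 := by
    intro y
    rw [← two_mul, two_eq_zero' F, zero_mul]
  have hprpr : ∀ x ∈ U, pr (pr x) = x := by
    intro x hx
    have h1 : pr (pr x) = (u + ((q (pr x)).2 + zz (q (pr x)).1)) ^ (2 ^ (q (pr x)).1) := rfl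
    rw [h1, hqpr x hx]
    simp only
    rw [add_assoc (q x).2, h2z, add_zero]
    exact hq2 x hx
  have hprd : ∀ x ∈ U, pr x = x + zz (q x).1 ^ (2 ^ (q x).1) := by
    intro x hx
    have h1 : pr x = (u + ((q x).2 + zz (q x).1)) ^ (2 ^ (q x).1) := rfl
    rw [h1, ← add_assoc, add_pow2, hq2 x hx]
  have hcen : ∀ x ∈ U, tr (pr x) = tr x + 1 := by
    intro x hx
    rw [hprd x hx, tr_add, tr_pow2, hz1 _ (hq1 x hx)]
  have hKpr : ∀ x ∈ U, Kf (pr x) = Kf x := by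
    intro x hx
    show K (q (pr x)).1 = K (q x).1
    rw [hqpr x hx]
  have hwin : ∀ x ∈ U, ∀ i : ℤ, i ≠ 0 → |i| ≤ Kf x → tr (pr x * a ^ i) = tr (x * a ^ i) := by
    intro x hx i hi hiK
    rw [hprd x hx, add_mul, tr_add, hzw _ (hq1 x hx) i hi hiK, add_zero]
  have hR' : ∀ x ∈ U, ∀ c, ∃ i : ℤ, 1 ≤ i ∧ i ≤ Kf x ∧ tr (x * a ^ i) ≠ c := by
    intro x hx c
    obtain ⟨i, h1, h2, h3⟩ := hR _ (hqΛ x hx) _ (hq1 x hx) c
    rw [hq2 x hx] at h3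
    exact ⟨i, h1, h2, h3⟩
  have hL' : ∀ x ∈ U, ∀ c, ∃ i : ℤ, 1 ≤ i ∧ i ≤ Kf x ∧ tr (x * a ^ (-i)) ≠ c := by
    intro x hx c
    obtain ⟨i, h1, h2, h3⟩ := hL _ (hqΛ x hx) _ (hq1 x hx) c
    rw [hq2 x hx] at h3
    exact ⟨i, h1, h2, h3⟩
  have hiso' : ∀ x ∈ U, ∀ i : ℤ, i ≠ 0 → |i| ≤ n → x * a ^ i ∉ U := by
    intro x hx i hi hin hmu
    obtain ⟨s, hs, d, hd, h⟩ := (hmem _).mp hmu
    refine hi (hinj _ (hqΛ x hx) d hd _ (hq1 x hx) s hs i hin ?_).1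
    rw [hq2 x hx, h]
  have hsw := NC_swap4 a ha0 (fun y : F => tr y) U pr Kf n
    (fun x hx => by
      have := hK _ (hq1 x hx)
      show 2 * K (q x).1 ≤ n + 2
      omega) hU0 hprU hprpr hcen hKpr hwin hiso' hR' hL'
  set g : F → ZMod 2 := fun y => tr y + if y ∈ U then 1 else 0 with hg
  have hRC : ∀ c k, 1 ≤ k → RC g a c k = RC (fun y : F => tr y) a c k := by
    intro c k _
    have h1 := RC_eq_NC g a ha0 c k
    have h2 := RC_eq_NC (fun y : F => tr y) a ha0 c k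
    rw [hsw c k, hsw c (k + 1), hsw c (k + 2), ← h2] at h1
    exact_mod_cast h1
  -- invariance under squaring
  have hpow : ∀ y : F, y ^ (2 ^ n) = y := by
    intro y
    rw [← hF]; exact FiniteField.pow_card y
  have hsqU : ∀ y, y ∈ U → y ^ 2 ∈ U := by
    intro y hy
    obtain ⟨s, hs, d, hd, h⟩ := (hmem y).mp hy
    rw [← h, ← pow_mul, ← pow_succ]
    rcases Nat.lt_or_ge (s + 1) n with h1 | h1
    · exact hmem' _ h1 d hd
    · have h2 : s + 1 = n := by omega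
      rw [h2, hpow]
      have h3 := hmem' 0 (by omega) d hd
      rwa [pow_zero, pow_one] at h3
  have hsqU' : ∀ y, y ^ 2 ∈ U → y ∈ U := by
    intro y hy
    have h1 : ∀ m, y ^ (2 ^ (m + 1)) ∈ U := by
      intro m
      induction m with
      | zero => simpa using hy
      | succ m ih =>
        have := hsqU _ ih
        rwa [← pow_mul, ← pow_succ] at this
    have h2 := h1 (n - 1)
    rw [show n - 1 + 1 = n by omega, hpow] at h2
    exact h2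
  have hgsq : ∀ y, g (y ^ 2) = g y := by
    intro y
    simp only [hg]
    rw [tr_sq]
    congr 1
    by_cases hy : y ∈ U
    · rw [if_pos hy, if_pos (hsqU y hy)]
    · rw [if_neg hy, if_neg fun h => hy (hsqU' y h)]
  -- span
  have huU : u ∈ U := (hmem u).mpr ⟨0, by omega, 0, h0, by simp⟩
  have hP3' := p3_fail n (by omega) a U u η huU (hU0 u huU)
    (by
      intro l h1 h2 hl
      refine hiso' u huU (l : ℤ) (by omega) (by rw [abs_of_nonneg (by omega)]; omega) ?_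
      rwa [zpow_natCast]) hη
    (by
      intro l hl hl2
      obtain ⟨s, hs, d, hd, h⟩ := (hmem _).mp hl2
      exact hP3 l hl d hd s hs h.symm)
  -- autocorrelation
  have hinjOn : Set.InjOn (fun q : ℕ × F => (u + q.2) ^ (2 ^ q.1))
      ((range n ×ˢ Λ : Finset (ℕ × F)) : Set (ℕ × F)) := by
    intro p hp p' hp' h
    have h1 := mem_product.mp (mem_coe.mp hp)
    have h2 := mem_product.mp (mem_coe.mp hp')
    obtain ⟨h3, h4⟩ := hdist _ (mem_range.mp h1.1) _ (mem_range.mp h2.1) _ h1.2 _ h2.2 h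
    exact Prod.ext h3 h4
  have hUcard : U.card = n * Λ.card := by
    rw [hU, card_image_of_injOn hinjOn, card_product, card_range]
  have hsg : ∀ z : ZMod 2, sg z + sg (z + 1) = 0 := by
    unfold sg
    decide
  have hbal : ∑ x ∈ U, sg (tr x) = 0 := by
    refine Finset.sum_involution (fun x _ => pr x) ?_ ?_ hprU hprpr
    · intro x hx
      rw [hcen x hx, hsg]
    · intro x hx _ hxx
      have h1 := hcen x hx
      rw [hxx] at h1
      revert h1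
      generalize tr x = z
      revert z
      decide
  obtain ⟨w, hw0, hw1, hw⟩ := auto_small n (by omega) hF U hU0 ⟨u, huU⟩ hbal
    (by rw [hUcard]; exact hsm)
  obtain ⟨τ, hτ, hτw⟩ := exists_pow_eq n hF a ha w hw0
  have hτ0 : 0 < τ := by
    rcases Nat.eq_zero_or_pos τ with h | h
    · rw [h, pow_zero] at hτw
      exact absurd hτw.symm hw1
    · exact h
  refine adm_of_field n (by omega) hF a ha g hgsq hRC hP3' ⟨τ, hτ0, hτ, ?_⟩
  rw [hτw]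
  exact hw

end

end RunMult
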