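import Pool.Agent.Lib.MP_d16eef_co.Basic

/-! Definitions for the case `16 ∣ n`, `n ≥ 256`. -/

namespace RunMult

open Finset Polynomial

section

variable {F : Type} [Field F] [Algebra (ZMod 2) F]

/-- the Frobenius map `x ↦ x ^ 2` as a linear map -/
noncomputable def fr (F : Type) [Field F] [Algebra (ZMod 2) F] : F →ₗ[ZMod 2] F where
  toFun x := x ^ 2
  map_add' x y := by
    have h := add_pow2 x y 1
    rwa [pow_one] at h
  map_smul' c x := by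
    rw [RingHom.id_apply, _root_.smul_pow, zmod2_sq]

/-- the inverse Frobenius map `x ↦ x ^ (2 ^ (n - 1))` of a field with `2 ^ n` elements -/
noncomputable def fri (F : Type) [Field F] [Algebra (ZMod 2) F] (n : ℕ) : F →ₗ[ZMod 2] F where
  toFun x := x ^ (2 ^ (n - 1))
  map_add' x y := add_pow2 x y (n - 1)
  map_smul' c x := by
    have h : ∀ k : ℕ, c ^ (2 ^ k) = c := by
      intro k
      induction k with
      | zero => simp
      | succ k ih => rw [pow_succ, pow_mul, ih, zmod2_sq]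
    rw [RingHom.id_apply, _root_.smul_pow, h]

/-- a polynomial acts on the field through the Frobenius map: `∑ G_k x ^ (2 ^ k)` -/
noncomputable def act (G : (ZMod 2)[X]) (x : F) : F := aeval (fr F) G x

/-- a polynomial acts through the inverse Frobenius map -/
noncomputable def acti (n : ℕ) (G : (ZMod 2)[X]) (x : F) : F := aeval (fri F n) G x

/-- `x + x ^ (2 ^ j)`, the trace to the subfield of index 2 -/
def T2 (j : ℕ) (x : F) : F := x + x ^ (2 ^ j)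

/-- the trace to the field with 16 elements -/
def Tr16 (n : ℕ) (x : F) : F := ∑ m ∈ range (n / 4), x ^ (2 ^ (4 * m))

/-- the break element (right; the left one is `rbk a⁻¹`) -/
def rbk (a : F) : F := a + a ^ 2

/-- orthogonal to all break functionals -/
def Bperp (n : ℕ) (a v : F) : Prop :=
  ∀ m < n / 4, tr (v * rbk a ^ (2 ^ (4 * m))) = 0 ∧ tr (v * rbk a⁻¹ ^ (2 ^ (4 * m))) = 0

/-- value 1 on all break functionals -/
def Bone (n : ℕ) (a v : F) : Prop :=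
  ∀ m < n / 4, tr (v * rbk a ^ (2 ^ (4 * m))) = 1 ∧ tr (v * rbk a⁻¹ ^ (2 ^ (4 * m))) = 1

/-- the local functionals of block `b` vanish at `v` -/
def Lperp (n b : ℕ) (a v : F) : Prop :=
  ∀ i < 15, tr (v * (a ^ (i + 1)) ^ (2 ^ (4 * b + 1))) = 0 ∧
    tr (v * (a⁻¹ ^ (i + 1)) ^ (2 ^ (4 * b + 1))) = 0 ∧
    tr (v * (a ^ (i + 1)) ^ (2 ^ (4 * b + 1 + n / 2))) = 0 ∧
    tr (v * (a⁻¹ ^ (i + 1)) ^ (2 ^ (4 * b + 1 + n / 2))) = 0

/-- the general combination of the functionals of block `b` -/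
noncomputable def PP (a : F) (b : ℕ) (M M' : (ZMod 2)[X]) (L L' : ℕ → ZMod 2) (κ : ZMod 2) : F :=
  act (expand (ZMod 2) 4 M) (rbk a) + act (expand (ZMod 2) 4 M') (rbk a⁻¹) +
    (∑ i ∈ range 15, (L i • a ^ (i + 1) + L' i • a⁻¹ ^ (i + 1))) ^ (2 ^ (4 * b + 1)) +
    κ • a ^ 17

/-- no nontrivial combination of the functionals has `T2` equal to 0 or 1 -/
def Good (n : ℕ) (a : F) : Prop :=
  ∀ b < n / 8, ∀ M M' : (ZMod 2)[X], M.degree < (n / 8 : ℕ) → M'.degree < (n / 8 : ℕ) →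
    ∀ (L L' : ℕ → ZMod 2) (κ : ZMod 2),
    ¬ (M = 0 ∧ M' = 0 ∧ (∀ i < 15, L i = 0) ∧ (∀ i < 15, L' i = 0) ∧ κ = 0) →
    T2 (n / 2) (PP a b M M' L L' κ) ≠ 0 ∧ T2 (n / 2) (PP a b M M' L L' κ) ≠ 1

/-- the part of `Good` with a nontrivial local part -/
def NF2 (n : ℕ) (a : F) : Prop :=
  ∀ b < n / 8, ∀ M M' : (ZMod 2)[X], M.degree < (n / 8 : ℕ) → M'.degree < (n / 8 : ℕ) →
    ∀ (L L' : ℕ → ZMod 2) (κ : ZMod 2),
    ¬ ((∀ i < 15, L i = 0) ∧ (∀ i < 15, L' i = 0) ∧ κ = 0) →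
    T2 (n / 2) (PP a b M M' L L' κ) ≠ 0 ∧ T2 (n / 2) (PP a b M M' L L' κ) ≠ 1

/-- the pure part -/
noncomputable def PQ (a : F) (M M' : (ZMod 2)[X]) : F :=
  act (expand (ZMod 2) 4 M) (rbk a) + act (expand (ZMod 2) 4 M') (rbk a⁻¹)

/-- no relation at the irreducible factors of `X ^ (n / 8) + 1` other than `X + 1` -/
def NF1 (n : ℕ) (a : F) : Prop :=
  ∀ f W : (ZMod 2)[X], Irreducible f → f * W = X ^ (n / 8) + 1 → ¬ Associated f (X + 1) →
    (∀ ν : (ZMod 2)[X], ν.degree < f.degree → T2 (n / 2) (PQ a W (W * ν)) ≠ 0) ∧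
    T2 (n / 2) (PQ a 0 W) ≠ 0

/-- the class conditions -/
def Cls (θ θ' a : F) : Prop :=
  ∀ e : F, e ^ 16 = e → tr (e * (a + θ)) = 0 ∧ tr (e * (a⁻¹ + θ')) = 0

/-- admissible class -/
def ClsOK (n : ℕ) (θ θ' : F) : Prop :=
  let r := rbk (Tr16 n θ)
  let r' := rbk (Tr16 n θ')
  r ≠ 0 ∧ r ≠ 1 ∧ r' ≠ 0 ∧ r' ≠ 1 ∧ r + r' ≠ 0 ∧ r + r' ≠ 1

end

end RunMult
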