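import Pool.Agent.Lib.MP_d16eef_co.Q.Defs

/-! AD-Fr1 : the action of polynomials through Frobenius.
`act G = aeval (fr F) G` is an endomorphism, so `act_add`, `act_mul`, `act_one`, `act_zero` are
`map_add`, `map_mul`, ... of `aeval` (product = composition, `Module.End.mul_apply`).
`act_X_pow`: `aeval_X_pow`, induction on `k`, `x ^ (2 ^ (k+1)) = (x ^ (2 ^ k)) ^ 2`.
`act_sum_range`: `Polynomial.aeval_eq_sum_range'`, then `LinearMap.sum_apply`, `smul_apply`.
`act_pow2`: by `act_sum_range` and `sum_pow2`, `smul_pow`, `zmod2_sq` (or: `x ^ (2 ^ k) = act (X ^ k) x`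
and commutativity of `act`).  `act_one_elt`: `1 ^ (2 ^ k) = 1`, `eval 1 G = ∑ coeff`. -/

namespace RunMult

open Finset Polynomial

section

variable {F : Type} [Field F] [Fintype F] [DecidableEq F] [Algebra (ZMod 2) F]

theorem act_add (G H : (ZMod 2)[X]) (x : F) : act (G + H) x = act G x + act H x := by
  unfold act
  rw [map_add, LinearMap.add_apply]

theorem act_mul (G H : (ZMod 2)[X]) (x : F) : act (G * H) x = act G (act H x) := by
  unfold act
  rw [map_mul, Module.End.mul_apply]

theorem act_one (x : F) : act 1 x = x := by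
  unfold act
  rw [map_one, Module.End.one_apply]

theorem act_zero (x : F) : act 0 x = 0 := by
  unfold act
  rw [map_zero, LinearMap.zero_apply]

theorem act_add_right (G : (ZMod 2)[X]) (x y : F) : act G (x + y) = act G x + act G y := by
  unfold act
  rw [map_add]

theorem act_zero_right (G : (ZMod 2)[X]) : act G (0 : F) = 0 := by
  unfold act
  rw [map_zero]

omit [Fintype F] [DecidableEq F] in
private theorem Fr1_Xpow (k : ℕ) (x : F) : act (X ^ k) x = ((fr F) ^ k) x := by
  unfold act
  rw [map_pow, aeval_X]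

omit [Fintype F] [DecidableEq F] in
private theorem Fr1_pow (k : ℕ) (x : F) : ((fr F) ^ k) x = x ^ (2 ^ k) := by
  induction k with
  | zero => rw [pow_zero, Module.End.one_apply, pow_zero, pow_one]
  | succ k ih =>
    rw [pow_succ', Module.End.mul_apply, ih]
    change (x ^ (2 ^ k)) ^ 2 = x ^ (2 ^ (k + 1))
    rw [← pow_mul, ← pow_succ]

private theorem Fr1_c (c : ZMod 2) (k : ℕ) : c ^ (2 ^ k) = c := by
  induction k with
  | zero => simp
  | succ k ih => rw [pow_succ, pow_mul, ih, zmod2_sq]

theorem act_X_pow (k : ℕ) (x : F) : act (X ^ k) x = x ^ (2 ^ k) := by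
  rw [Fr1_Xpow, Fr1_pow]

theorem act_sum_range (G : (ZMod 2)[X]) (N : ℕ) (hN : G.natDegree < N) (x : F) :
    act G x = ∑ k ∈ range N, G.coeff k • x ^ (2 ^ k) := by
  unfold act
  rw [Polynomial.aeval_eq_sum_range' hN, LinearMap.sum_apply]
  refine Finset.sum_congr rfl fun k _ => ?_
  rw [LinearMap.smul_apply, Fr1_pow]

theorem act_pow2 (G : (ZMod 2)[X]) (x : F) (k : ℕ) : act G (x ^ (2 ^ k)) = act G x ^ (2 ^ k) := by
  rw [act_sum_range G _ (Nat.lt_succ_self _), act_sum_range G _ (Nat.lt_succ_self _), sum_pow2]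
  refine Finset.sum_congr rfl fun i _ => ?_
  rw [_root_.smul_pow, Fr1_c, ← pow_mul, ← pow_mul, mul_comm]

theorem act_one_elt (G : (ZMod 2)[X]) : act G (1 : F) = G.eval 1 • (1 : F) := by
  rw [act_sum_range G _ (Nat.lt_succ_self _), Polynomial.eval_eq_sum_range, Finset.sum_smul]
  refine Finset.sum_congr rfl fun i _ => ?_
  rw [one_pow, one_pow, mul_one]

end

end RunMult
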