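import Pool.Agent.Lib.MP_d16eef_co.Q.Defs

/-! AD-Fr2 : the action through the inverse Frobenius `fri F n : x ↦ x ^ (2 ^ (n - 1))`.
As AD-Fr1 (same proofs with `aeval (fri F n)`).  `acti_X_pow`: induction on `k ≤ n`; for `k = 0`
use `x ^ (2 ^ n) = x` (`FiniteField.pow_card`, `hF`); step: `(x ^ (2 ^ (n - k))) ^ (2 ^ (n - 1)) =
x ^ (2 ^ (n + (n - k - 1))) = x ^ (2 ^ (n - (k + 1)))` by `x ^ (2 ^ n) = x`.
`acti_sum_range`: `Polynomial.aeval_eq_sum_range'` and `acti_X_pow` for `k < N ≤ n + 1`.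
`acti_pow2`: `fri` commutes with Frobenius powers: by induction on the polynomial
(`Polynomial.induction_on'` or `aeval_eq_sum_range`), `sum_pow2`, `zmod2_sq`. -/

namespace RunMult

open Finset Polynomial

section

variable {F : Type} [Field F] [Fintype F] [DecidableEq F] [Algebra (ZMod 2) F]

theorem acti_add (n : ℕ) (G H : (ZMod 2)[X]) (x : F) :
    acti n (G + H) x = acti n G x + acti n H x := by
  unfold acti
  rw [map_add, LinearMap.add_apply]

theorem acti_mul (n : ℕ) (G H : (ZMod 2)[X]) (x : F) :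
    acti n (G * H) x = acti n G (acti n H x) := by
  unfold acti
  rw [map_mul, Module.End.mul_apply]

theorem acti_one (n : ℕ) (x : F) : acti n 1 x = x := by
  unfold acti
  rw [map_one, Module.End.one_apply]

theorem acti_zero (n : ℕ) (x : F) : acti n 0 x = 0 := by
  unfold acti
  rw [map_zero, LinearMap.zero_apply]

theorem acti_add_right (n : ℕ) (G : (ZMod 2)[X]) (x y : F) :
    acti n G (x + y) = acti n G x + acti n G y := by
  unfold acti
  rw [map_add]

theorem acti_zero_right (n : ℕ) (G : (ZMod 2)[X]) : acti n G (0 : F) = 0 := by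
  unfold acti
  rw [map_zero]

omit [Fintype F] [DecidableEq F] in
private theorem Fr2_X (n : ℕ) (x : F) : acti n X x = x ^ (2 ^ (n - 1)) := by
  unfold acti
  rw [aeval_X]
  rfl

omit [Fintype F] [DecidableEq F] in
private theorem Fr2_Xpow (n k : ℕ) (x : F) : acti n (X ^ k) x = ((fri F n) ^ k) x := by
  unfold acti
  rw [map_pow, aeval_X]

theorem acti_X_pow (n : ℕ) (hF : Fintype.card F = 2 ^ n) (k : ℕ) (hk : k ≤ n) (x : F) :
    acti n (X ^ k) x = x ^ (2 ^ (n - k)) := by
  induction k with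
  | zero =>
    rw [pow_zero, acti_one, Nat.sub_zero, ← hF, FiniteField.pow_card]
  | succ k ih =>
    rw [pow_succ', acti_mul, ih (by omega), Fr2_X, ← pow_mul, ← pow_add]
    have e : n - k + (n - 1) = (n - (k + 1)) + n := by omega
    have hx : x ^ 2 ^ n = x := by rw [← hF, FiniteField.pow_card]
    rw [e, pow_add, mul_comm, pow_mul, hx]

omit [Fintype F] [DecidableEq F] in
private theorem Fr2_sum (n : ℕ) (G : (ZMod 2)[X]) (N : ℕ) (hN : G.natDegree < N) (x : F) :
    acti n G x = ∑ k ∈ range N, G.coeff k • ((fri F n) ^ k) x := by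
  unfold acti
  rw [Polynomial.aeval_eq_sum_range' hN, LinearMap.sum_apply]
  refine Finset.sum_congr rfl fun k _ => ?_
  rw [LinearMap.smul_apply]

theorem acti_sum_range (n : ℕ) (hF : Fintype.card F = 2 ^ n) (G : (ZMod 2)[X]) (N : ℕ)
    (hN : G.natDegree < N) (hNn : N ≤ n + 1) (x : F) :
    acti n G x = ∑ k ∈ range N, G.coeff k • x ^ (2 ^ (n - k)) := by
  rw [Fr2_sum n G N hN]
  refine Finset.sum_congr rfl fun k hk => ?_
  rw [mem_range] at hk
  rw [← Fr2_Xpow, acti_X_pow n hF k (by omega)]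

omit [Fintype F] [DecidableEq F] in
private theorem Fr2_fri_pow (n i k : ℕ) (x : F) :
    ((fri F n) ^ i) (x ^ (2 ^ k)) = (((fri F n) ^ i) x) ^ (2 ^ k) := by
  induction i with
  | zero => rw [pow_zero, Module.End.one_apply, Module.End.one_apply]
  | succ i ih =>
    rw [pow_succ', Module.End.mul_apply, Module.End.mul_apply, ih]
    change ((((fri F n) ^ i) x) ^ (2 ^ k)) ^ (2 ^ (n - 1)) =
      ((((fri F n) ^ i) x) ^ (2 ^ (n - 1))) ^ (2 ^ k)
    rw [← pow_mul, ← pow_mul, mul_comm]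

private theorem Fr2_c (c : ZMod 2) (k : ℕ) : c ^ (2 ^ k) = c := by
  induction k with
  | zero => simp
  | succ k ih => rw [pow_succ, pow_mul, ih, zmod2_sq]

theorem acti_pow2 (n : ℕ) (G : (ZMod 2)[X]) (x : F) (k : ℕ) :
    acti n G (x ^ (2 ^ k)) = acti n G x ^ (2 ^ k) := by
  rw [Fr2_sum n G _ (Nat.lt_succ_self _), Fr2_sum n G _ (Nat.lt_succ_self _), sum_pow2]
  refine Finset.sum_congr rfl fun i _ => ?_
  rw [_root_.smul_pow, Fr2_c, Fr2_fri_pow]

omit [Fintype F] [DecidableEq F] in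
private theorem Fr2_fri_one (n i : ℕ) : ((fri F n) ^ i) 1 = 1 := by
  induction i with
  | zero => rw [pow_zero, Module.End.one_apply]
  | succ i ih =>
    rw [pow_succ', Module.End.mul_apply, ih]
    change (1 : F) ^ (2 ^ (n - 1)) = 1
    rw [one_pow]

theorem acti_one_elt (n : ℕ) (G : (ZMod 2)[X]) : acti n G (1 : F) = G.eval 1 • (1 : F) := by
  rw [Fr2_sum n G _ (Nat.lt_succ_self _), Polynomial.eval_eq_sum_range, Finset.sum_smul]
  refine Finset.sum_congr rfl fun i _ => ?_
  rw [Fr2_fri_one, one_pow, mul_one]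

end

end RunMult
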