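import Pool.Agent.Lib.MP_d16eef_co.Q.Fr1
import Pool.Agent.Lib.MP_d16eef_co.Q.Fr2

/-! AD-Fr3 : adjointness, root counting, common kernels.
`tr_act`: both sides are additive in `G` (`Polynomial.induction_on'`), so let `G = C c * X ^ k`;
by `act_mul`, `acti_mul` reduce to `G = X`: `tr (x * y ^ 2) = tr ((x ^ (2 ^ (n - 1)) * y) ^ 2)
= tr (x ^ (2 ^ (n - 1)) * y)` by `tr_sq` and `x ^ (2 ^ n) = x` (`n ≥ 1` because a field has at least
2 elements, `gen_ne_zero` or `Fintype.one_lt_card`).
`card_act_le`: `act G x = eval x P` with `P = ∑ k, C (G_k) X ^ (2 ^ k)` in `F[X]`, `P ≠ 0` (its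
coefficient at `2 ^ natDegree G` is 1), `natDegree P ≤ 2 ^ natDegree G`; `Polynomial.card_roots'`.
`card_acti_le`: with `N = G.natDegree`, `x = y ^ (2 ^ N)` is a bijection of `F` and
`acti n G (y ^ (2 ^ N)) = ∑ k ≤ N, G_k y ^ (2 ^ (N - k)) = act G.reverse-like y`, again a nonzero
polynomial in `y` of degree at most `2 ^ N` (the coefficient of `y ^ (2 ^ 0)` is `G_N = 1`).
(Note: `fri^k (y ^ (2 ^ N)) = y ^ (2 ^ (N - k))` for `k ≤ N`, no upper bound on `N` is needed.)
`acti_common`: `D = gcd G H` (`EuclideanDomain.gcd`), Bezout `D = G * u + H * v`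
(`EuclideanDomain.gcd_eq_gcd_ab`), `acti_add`, `acti_mul`, `mul_comm`. -/

namespace RunMult

open Finset Polynomial

section

variable {F : Type} [Field F] [Fintype F] [DecidableEq F] [Algebra (ZMod 2) F]

omit [DecidableEq F] in
private theorem Fr3_pos (n : ℕ) (hF : Fintype.card F = 2 ^ n) : 1 ≤ n := by
  rcases Nat.eq_zero_or_pos n with h | h
  · have h1 : 1 < Fintype.card F := Fintype.one_lt_card
    rw [hF, h] at h1
    simp at h1
  · exact h

omit [Fintype F] [DecidableEq F] in
private theorem Fr3_X (n : ℕ) (x : F) : acti n X x = x ^ (2 ^ (n - 1)) := by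
  unfold acti
  rw [aeval_X]
  rfl

private theorem Fr3_adj1 (n : ℕ) (hF : Fintype.card F = 2 ^ n) (u v : F) :
    tr (u * v ^ 2) = tr (u ^ (2 ^ (n - 1)) * v) := by
  have hn := Fr3_pos n hF
  have hx : u ^ 2 ^ n = u := by rw [← hF, FiniteField.pow_card]
  have e : (u ^ (2 ^ (n - 1)) * v) ^ 2 = u * v ^ 2 := by
    rw [mul_pow, ← pow_mul, ← pow_succ, Nat.sub_add_cancel hn, hx]
  rw [← e, tr_sq]

private theorem Fr3_adjk (n : ℕ) (hF : Fintype.card F = 2 ^ n) (k : ℕ) :
    ∀ x y : F, tr (x * act (X ^ k) y) = tr (acti n (X ^ k) x * y) := by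
  induction k with
  | zero =>
    intro x y
    rw [pow_zero, act_one, acti_one]
  | succ k ih =>
    intro x y
    have h1 : act (X ^ (k + 1)) y = (act (X ^ k) y) ^ 2 := by
      rw [act_X_pow, act_X_pow, ← pow_mul, ← pow_succ]
    rw [h1, Fr3_adj1 n hF, ih, pow_succ, acti_mul, Fr3_X]

omit [Fintype F] [DecidableEq F] in
private theorem Fr3_C (c : ZMod 2) (y : F) : act (C c) y = c • y := by
  unfold act
  rw [aeval_C]
  rfl

omit [Fintype F] [DecidableEq F] in
private theorem Fr3_Ci (n : ℕ) (c : ZMod 2) (y : F) : acti n (C c) y = c • y := by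
  unfold acti
  rw [aeval_C]
  rfl

/-- adjointness -/
theorem tr_act (n : ℕ) (hF : Fintype.card F = 2 ^ n) (G : (ZMod 2)[X]) (x y : F) :
    tr (x * act G y) = tr (acti n G x * y) := by
  induction G using Polynomial.induction_on' with
  | add p q hp hq => rw [act_add, acti_add, mul_add, add_mul, tr_add, tr_add, hp, hq]
  | monomial k c =>
    rw [← C_mul_X_pow_eq_monomial, act_mul, acti_mul, Fr3_C, Fr3_Ci, mul_smul_comm,
      smul_mul_assoc, tr_smul, tr_smul, Fr3_adjk n hF]

omit [Fintype F] [DecidableEq F] in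
private theorem Fr3_coeff (G : (ZMod 2)[X]) (N m : ℕ) (hm : m < N) :
    (∑ k ∈ range N, C (algebraMap (ZMod 2) F (G.coeff k)) * X ^ (2 ^ k)).coeff (2 ^ m)
      = algebraMap (ZMod 2) F (G.coeff m) := by
  rw [finset_sum_coeff, Finset.sum_eq_single m]
  · rw [coeff_C_mul_X_pow, if_pos rfl]
  · intro k _ hk
    rw [coeff_C_mul_X_pow, if_neg]
    intro h
    exact hk (Nat.pow_right_injective le_rfl h).symm
  · intro h
    exact absurd (mem_range.mpr hm) h

/-- root counting -/
theorem card_act_le (G : (ZMod 2)[X]) (hG : G ≠ 0) :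
    Nat.card {x : F // act G x = 0} ≤ 2 ^ G.natDegree := by
  classical
  set N := G.natDegree with hN
  set P : F[X] := ∑ k ∈ range (N + 1), C (algebraMap (ZMod 2) F (G.coeff k)) * X ^ (2 ^ k) with hP
  have hP0 : P ≠ 0 := by
    intro h
    have h1 := Fr3_coeff (F := F) G (N + 1) N (Nat.lt_succ_self _)
    rw [← hP, h, coeff_zero] at h1
    have h2 : G.coeff N = 0 := by
      by_contra h3
      exact (map_ne_zero_iff _ (algebraMap (ZMod 2) F).injective).mpr h3 h1.symm
    exact hG (leadingCoeff_eq_zero.mp h2)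
  have hdeg : P.natDegree ≤ 2 ^ N := by
    refine natDegree_sum_le_of_forall_le _ _ fun k hk => ?_
    refine (natDegree_C_mul_X_pow_le _ _).trans ?_
    exact Nat.pow_le_pow_right (by norm_num) (Nat.lt_succ_iff.mp (mem_range.mp hk))
  have hev : ∀ x : F, act G x = P.eval x := by
    intro x
    rw [act_sum_range G (N + 1) (Nat.lt_succ_self _), hP, eval_finset_sum]
    refine Finset.sum_congr rfl fun k _ => ?_
    rw [eval_mul, eval_C, eval_pow, eval_X, Algebra.smul_def]
  have hsub : (univ.filter fun x : F => act G x = 0) ⊆ P.roots.toFinset := by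
    intro x hx
    rw [mem_filter] at hx
    rw [Multiset.mem_toFinset, mem_roots hP0, IsRoot.def, ← hev]
    exact hx.2
  rw [Nat.card_eq_fintype_card, Fintype.card_subtype]
  calc (univ.filter fun x : F => act G x = 0).card ≤ P.roots.toFinset.card := card_le_card hsub
    _ ≤ Multiset.card P.roots := Multiset.toFinset_card_le _
    _ ≤ P.natDegree := card_roots' _
    _ ≤ 2 ^ N := hdeg

private theorem Fr3_frik (n : ℕ) (hF : Fintype.card F = 2 ^ n) (y : F) (N k : ℕ) (hk : k ≤ N) :
    acti n (X ^ k) (y ^ (2 ^ N)) = y ^ (2 ^ (N - k)) := by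
  have hn := Fr3_pos n hF
  have hx : ∀ u : F, u ^ 2 ^ n = u := by
    intro u
    rw [← hF, FiniteField.pow_card]
  induction k with
  | zero => rw [pow_zero, acti_one, Nat.sub_zero]
  | succ k ih =>
    rw [pow_succ', acti_mul, ih (by omega), Fr3_X, ← pow_mul, ← pow_add]
    have e : N - k + (n - 1) = n + (N - (k + 1)) := by omega
    rw [e, pow_add, pow_mul, hx]

private theorem Fr3_isum (n : ℕ) (G : (ZMod 2)[X]) (N : ℕ) (hN : G.natDegree < N) (x : F) :
    acti n G x = ∑ k ∈ range N, G.coeff k • acti n (X ^ k) x := by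
  have h : ∀ k, acti n (X ^ k) x = ((fri F n) ^ k) x := by
    intro k
    unfold acti
    rw [map_pow, aeval_X]
  simp_rw [h]
  unfold acti
  rw [Polynomial.aeval_eq_sum_range' hN, LinearMap.sum_apply]
  refine Finset.sum_congr rfl fun k _ => ?_
  rw [LinearMap.smul_apply]

private theorem Fr3_refl (n : ℕ) (hF : Fintype.card F = 2 ^ n) (G : (ZMod 2)[X]) (y : F) :
    acti n G (y ^ (2 ^ G.natDegree)) = act (G.reflect G.natDegree) y := by
  rw [Fr3_isum n G (G.natDegree + 1) (Nat.lt_succ_self _),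
    act_sum_range (G.reflect G.natDegree) (G.natDegree + 1)
      (Nat.lt_succ_of_le ((natDegree_reflect_le).trans (by simp))),
    ← Finset.sum_range_reflect]
  refine Finset.sum_congr rfl fun k hk => ?_
  rw [mem_range] at hk
  have e : G.natDegree + 1 - 1 - k = G.natDegree - k := by omega
  rw [e, Fr3_frik n hF y _ _ (by omega), coeff_reflect, revAt_le (by omega)]
  have e2 : G.natDegree - (G.natDegree - k) = k := by omega
  rw [e2]

theorem card_acti_le (n : ℕ) (hF : Fintype.card F = 2 ^ n) (G : (ZMod 2)[X]) (hG : G ≠ 0) :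
    Nat.card {x : F // acti n G x = 0} ≤ 2 ^ G.natDegree := by
  classical
  have hR0 : G.reflect G.natDegree ≠ 0 := by
    intro h
    have h1 : (G.reflect G.natDegree).coeff 0 = G.leadingCoeff := by
      rw [coeff_reflect, revAt_le (Nat.zero_le _), Nat.sub_zero]
      rfl
    rw [h, coeff_zero] at h1
    exact hG (leadingCoeff_eq_zero.mp h1.symm)
  have hinj : Function.Injective fun y : F => y ^ (2 ^ G.natDegree) := by
    intro u v huv
    have h1 : (u + v) ^ (2 ^ G.natDegree) = 0 := by
      rw [add_pow2]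
      have h2 : u ^ (2 ^ G.natDegree) = v ^ (2 ^ G.natDegree) := huv
      rw [h2, ← two_mul, two_eq_zero', zero_mul]
    have h2 : u + v = 0 := pow_eq_zero_iff (by positivity) |>.mp h1
    have h3 : v + v = 0 := by rw [← two_mul, two_eq_zero', zero_mul]
    exact add_right_cancel (h2.trans h3.symm)
  have hbij : Function.Bijective fun y : F => y ^ (2 ^ G.natDegree) :=
    Finite.injective_iff_bijective.mp hinj
  have hcard : Nat.card {x : F // acti n G x = 0}
      = Nat.card {y : F // act (G.reflect G.natDegree) y = 0} := by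
    refine (Nat.card_congr ((Equiv.ofBijective _ hbij).subtypeEquiv fun y => ?_)).symm
    rw [← Fr3_refl n hF G y]
    rfl
  rw [hcard]
  refine (card_act_le _ hR0).trans ?_
  exact Nat.pow_le_pow_right (by norm_num) ((natDegree_reflect_le).trans (by simp))

/-- common kernels -/
theorem acti_common (n : ℕ) (G H : (ZMod 2)[X]) (hH : H ≠ 0) :
    ∃ D : (ZMod 2)[X], D ∣ G ∧ D ∣ H ∧
      ∀ x : F, acti n G x = 0 → acti n H x = 0 → acti n D x = 0 := by
  classical
  refine ⟨EuclideanDomain.gcd G H, EuclideanDomain.gcd_dvd_left G H,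
    EuclideanDomain.gcd_dvd_right G H, fun x hx hy => ?_⟩
  rw [EuclideanDomain.gcd_eq_gcd_ab G H, acti_add, mul_comm G, mul_comm H, acti_mul, acti_mul,
    hx, hy, acti_zero_right, acti_zero_right, add_zero]

end

end RunMult
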