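import Pool.Agent.Lib.MP_d16eef_co.Q.Fr3

/-! AD-Fr4 : the map `T2 j x = x + x ^ (2 ^ j)`.
All one-liners from `add_pow2`, characteristic 2, `x ^ (2 ^ n) = x`, `tr_pow2`.
`tr_T2`: `tr (x * y ^ (2 ^ j)) = tr ((x * y ^ (2 ^ j)) ^ (2 ^ j)) = tr (x ^ (2 ^ j) * y)` as
`y ^ (2 ^ (2 j)) = y`.  `act_T2`, `acti_T2`: `act_add_right`, `act_pow2`.
`card_T2_fibre`: `T2 j` maps `{x // P (T2 j x)}` to `{e // e ^ (2 ^ j) = e ∧ P e}` (`T2_fixed`) and two
elements of one fibre differ by an element of `{y // y ^ (2 ^ j) = y}`, which has at most `2 ^ j`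
elements (roots of `X ^ (2 ^ j) - X`, `Polynomial.card_roots'`; `j ≥ 1`): use
`Finset.card_le_mul_card_image` or an injection into a product.
`acti_of_fixed`: `acti n (X ^ j) x = x ^ (2 ^ (n - j)) = (x ^ (2 ^ j)) ^ (2 ^ (n - j)) = x`. -/

namespace RunMult

open Finset Polynomial

section

variable {F : Type} [Field F] [Fintype F] [DecidableEq F] [Algebra (ZMod 2) F]

omit [Fintype F] [DecidableEq F] in
private theorem fr4_two (x : F) : x + x = 0 := by
  rw [← two_mul, two_eq_zero' F, zero_mul]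

omit [DecidableEq F] [Algebra (ZMod 2) F] in
private theorem fr4_pow (n j : ℕ) (hnj : n = 2 * j) (hF : Fintype.card F = 2 ^ n) (x : F) :
    (x ^ (2 ^ j)) ^ (2 ^ j) = x := by
  rw [← pow_mul, ← pow_add, ← two_mul, ← hnj, ← hF]
  exact FiniteField.pow_card x

theorem T2_add (j : ℕ) (x y : F) : T2 j (x + y) = T2 j x + T2 j y := by
  unfold T2
  rw [add_pow2]
  ring

theorem T2_pow2 (j : ℕ) (x : F) (k : ℕ) : T2 j (x ^ (2 ^ k)) = T2 j x ^ (2 ^ k) := by
  unfold T2
  rw [add_pow2, pow_right_comm]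

theorem T2_zero (j : ℕ) : T2 j (0 : F) = 0 := by
  unfold T2
  rw [zero_pow (pow_ne_zero _ two_ne_zero), add_zero]

theorem T2_one (j : ℕ) : T2 j (1 : F) = 0 := by
  unfold T2
  rw [one_pow]
  exact fr4_two 1

theorem T2_smul (j : ℕ) (c : ZMod 2) (x : F) : T2 j (c • x) = c • T2 j x := by
  unfold T2
  have h : ∀ k : ℕ, c ^ (2 ^ k) = c := by
    intro k
    induction k with
    | zero => simp
    | succ k ih => rw [pow_succ, pow_mul, ih, zmod2_sq]
  rw [_root_.smul_pow, h, smul_add]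

theorem T2_fixed (n j : ℕ) (hnj : n = 2 * j) (hF : Fintype.card F = 2 ^ n) (x : F) :
    T2 j x ^ (2 ^ j) = T2 j x := by
  unfold T2
  rw [add_pow2, fr4_pow n j hnj hF, add_comm]

theorem T2_of_fixed (j : ℕ) (x : F) (hx : x ^ (2 ^ j) = x) : T2 j x = 0 := by
  unfold T2
  rw [hx]
  exact fr4_two x

theorem tr_T2 (n j : ℕ) (hnj : n = 2 * j) (hF : Fintype.card F = 2 ^ n) (x y : F) :
    tr (x * T2 j y) = tr (T2 j x * y) := by
  unfold T2
  rw [mul_add, add_mul, tr_add, tr_add]
  congr 1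
  rw [← tr_pow2 (x * y ^ (2 ^ j)) j, mul_pow, fr4_pow n j hnj hF]

theorem act_T2 (j : ℕ) (G : (ZMod 2)[X]) (x : F) : act G (T2 j x) = T2 j (act G x) := by
  unfold T2
  rw [act_add_right, act_pow2]

theorem T2_eq_act (j : ℕ) (x : F) : T2 j x = act (1 + X ^ j) x := by
  unfold T2
  rw [act_add, act_one, act_X_pow]

theorem acti_T2 (n j : ℕ) (G : (ZMod 2)[X]) (x : F) : acti n G (T2 j x) = T2 j (acti n G x) := by
  unfold T2
  rw [acti_add_right, acti_pow2]

/-- the fibres of `T2` have at most `2 ^ j` elements -/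
theorem card_T2_fibre (n j : ℕ) (hnj : n = 2 * j) (hj : 0 < j) (hF : Fintype.card F = 2 ^ n)
    (P : F → Prop) :
    Nat.card {x : F // P (T2 j x)} ≤ 2 ^ j * Nat.card {e : F // e ^ (2 ^ j) = e ∧ P e} := by
  classical
  rw [Nat.card_eq_fintype_card, Nat.card_eq_fintype_card, Fintype.card_subtype,
    Fintype.card_subtype]
  have hK : ∀ t : F, (univ.filter fun x : F => T2 j x = t).card ≤ 2 ^ j := by
    intro t
    have hP0 : (X ^ (2 ^ j) + (X - C t) : F[X]).natDegree = 2 ^ j := by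
      have h1 : (X - C t : F[X]).natDegree < (X ^ (2 ^ j) : F[X]).natDegree := by
        rw [natDegree_X_sub_C, natDegree_X_pow]
        exact Nat.one_lt_two_pow (by omega)
      rw [natDegree_add_eq_left_of_natDegree_lt h1, natDegree_X_pow]
    have hP : (X ^ (2 ^ j) + (X - C t) : F[X]) ≠ 0 := by
      intro h
      rw [h, natDegree_zero] at hP0
      exact (pow_ne_zero j two_ne_zero) hP0.symm
    calc (univ.filter fun x : F => T2 j x = t).card
        ≤ (X ^ (2 ^ j) + (X - C t) : F[X]).roots.toFinset.card := by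
          apply card_le_card
          intro x hx
          simp only [mem_filter, mem_univ, true_and] at hx
          rw [Multiset.mem_toFinset, mem_roots hP, IsRoot.def]
          simp only [eval_add, eval_pow, eval_X, eval_sub, eval_C]
          rw [← hx]
          unfold T2
          ring
      _ ≤ Multiset.card (X ^ (2 ^ j) + (X - C t) : F[X]).roots := Multiset.toFinset_card_le _
      _ ≤ (X ^ (2 ^ j) + (X - C t) : F[X]).natDegree := card_roots' _
      _ = 2 ^ j := hP0
  have himg : ∀ x ∈ univ.filter (fun x : F => P (T2 j x)),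
      T2 j x ∈ univ.filter (fun e : F => e ^ (2 ^ j) = e ∧ P e) := by
    intro x hx
    simp only [mem_filter, mem_univ, true_and] at hx ⊢
    exact ⟨T2_fixed n j hnj hF x, hx⟩
  have h2 : ∀ e ∈ univ.filter (fun e : F => e ^ (2 ^ j) = e ∧ P e),
      ((univ.filter fun x : F => P (T2 j x)).filter fun x => T2 j x = e).card ≤ 2 ^ j := by
    intro e _
    refine (card_le_card ?_).trans (hK e)
    intro x hx
    simp only [mem_filter, mem_univ, true_and] at hx ⊢
    exact hx.2
  exact Finset.card_le_mul_card_image_of_maps_to himg (2 ^ j) h2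

theorem acti_of_fixed (n j : ℕ) (hF : Fintype.card F = 2 ^ n) (hj : j ≤ n) (x : F)
    (hx : x ^ (2 ^ j) = x) : acti n (X ^ j + 1) x = 0 := by
  rw [acti_add, acti_one, acti_X_pow n hF j hj]
  have h1 : x ^ (2 ^ (n - j)) = x := by
    conv_lhs => rw [← hx]
    rw [← pow_mul, ← pow_add, Nat.add_sub_cancel' hj, ← hF]
    exact FiniteField.pow_card x
  rw [h1]
  exact fr4_two x

end

end RunMult
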