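import Pool.Agent.Lib.MP_d16eef_co.Q.Defs

/-! AD-Fr5 : the trace to the field with 16 elements.
`Tr16 n x = ∑ m < n / 4, x ^ (2 ^ (4 m))`.  `Tr16_fixed`: raising to the 16th power shifts the index,
and `x ^ (2 ^ (4 (n / 4))) = x ^ (2 ^ n) = x`.  `tr_Tr16`: `tr (x * y ^ (2 ^ (4 m))) =
tr (x ^ (2 ^ (n - 4 m)) * y)` (`tr_pow2`), and `m ↦ n / 4 - m` permutes the exponents (the index
`m = 0` goes to itself because `x ^ (2 ^ n) = x`).
`card_F16`: `X ^ 16 - X` splits in `F` because `F` has `2 ^ n = 16 ^ (n / 4)` elements.  Elementary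
proof: `≤ 16` by roots; `≥ 16`: `y = g ^ ((2 ^ n - 1) / 15)` for a generator `g` of `Fˣ` has order
15 (`15 ∣ 2 ^ n - 1`), its 15 powers and 0 are solutions.  (See also `Subfield.lean` of this
folder: `exists_E`.) -/

namespace RunMult

open Finset Polynomial

section

variable {F : Type} [Field F] [Fintype F] [DecidableEq F] [Algebra (ZMod 2) F]

theorem Tr16_add (n : ℕ) (x y : F) : Tr16 n (x + y) = Tr16 n x + Tr16 n y := by
  unfold Tr16
  rw [← Finset.sum_add_distrib]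
  exact Finset.sum_congr rfl fun m _ => add_pow2 x y _

theorem Tr16_sq (n : ℕ) (x : F) : Tr16 n (x ^ 2) = Tr16 n x ^ 2 := by
  unfold Tr16
  have h := sum_pow2 (range (n / 4)) (fun m => x ^ (2 ^ (4 * m))) 1
  rw [pow_one] at h
  rw [h]
  refine Finset.sum_congr rfl fun m _ => ?_
  rw [← pow_mul, ← pow_mul, mul_comm]

private theorem Fr5_shift {M : Type} [AddCommMonoid M] [IsRightCancelAdd M] (N : ℕ) (f : ℕ → M)
    (h : f N = f 0) : ∑ m ∈ range N, f (m + 1) = ∑ m ∈ range N, f m := by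
  have h1 := Finset.sum_range_succ f N
  rw [Finset.sum_range_succ', h] at h1
  exact add_right_cancel h1

omit [DecidableEq F] in
private theorem Fr5_last (n : ℕ) (h4 : 4 ∣ n) (hF : Fintype.card F = 2 ^ n) (x : F) :
    x ^ (2 ^ (4 * (n / 4))) = x ^ (2 ^ (4 * 0)) := by
  rw [Nat.mul_div_cancel' h4, ← hF, FiniteField.pow_card, Nat.mul_zero, pow_zero, pow_one]

theorem Tr16_fixed (n : ℕ) (h4 : 4 ∣ n) (hF : Fintype.card F = 2 ^ n) (x : F) :
    Tr16 n x ^ 16 = Tr16 n x := by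
  unfold Tr16
  have h := sum_pow2 (range (n / 4)) (fun m => x ^ (2 ^ (4 * m))) 4
  have e16 : (2 : ℕ) ^ 4 = 16 := by norm_num
  rw [e16] at h
  rw [h, ← Fr5_shift (n / 4) (fun m => x ^ (2 ^ (4 * m))) (Fr5_last n h4 hF x)]
  refine Finset.sum_congr rfl fun m _ => ?_
  show (x ^ (2 ^ (4 * m))) ^ 16 = x ^ (2 ^ (4 * (m + 1)))
  rw [← pow_mul, ← e16, ← pow_add, mul_add, mul_one]

theorem tr_Tr16 (n : ℕ) (h4 : 4 ∣ n) (hF : Fintype.card F = 2 ^ n) (x y : F) :
    tr (x * Tr16 n y) = tr (Tr16 n x * y) := by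
  have hx : x ^ (2 ^ n) = x := by rw [← hF, FiniteField.pow_card]
  have hN : 4 * (n / 4) = n := Nat.mul_div_cancel' h4
  unfold Tr16
  rw [Finset.mul_sum, Finset.sum_mul, tr_sum, tr_sum]
  have h1 : ∀ m ∈ range (n / 4), tr (x * y ^ (2 ^ (4 * m)))
      = tr (x ^ (2 ^ (4 * (n / 4 - m))) * y) := by
    intro m hm
    rw [mem_range] at hm
    have e : x * y ^ (2 ^ (4 * m)) = (x ^ (2 ^ (4 * (n / 4 - m))) * y) ^ (2 ^ (4 * m)) := by
      rw [mul_pow, ← pow_mul, ← pow_add]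
      have e2 : 4 * (n / 4 - m) + 4 * m = n := by omega
      rw [e2, hx]
    rw [e, tr_pow2]
  rw [Finset.sum_congr rfl h1,
    ← Fr5_shift (n / 4) (fun m => tr (x ^ (2 ^ (4 * m)) * y)) (by
      show tr (x ^ (2 ^ (4 * (n / 4))) * y) = tr (x ^ (2 ^ (4 * 0)) * y)
      rw [Fr5_last n h4 hF x]),
    ← Finset.sum_range_reflect]
  refine Finset.sum_congr rfl fun m hm => ?_
  rw [mem_range] at hm
  have e3 : n / 4 - (n / 4 - 1 - m) = m + 1 := by omega
  rw [e3]

/-- the subfield with 16 elements -/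
theorem card_F16 (n : ℕ) (h4 : 4 ∣ n) (hn : 0 < n) (hF : Fintype.card F = 2 ^ n) :
    Nat.card {e : F // e ^ 16 = e} = 16 := by
  classical
  obtain ⟨g, hg⟩ := IsCyclic.exists_generator (α := Fˣ)
  have ho : orderOf g = 2 ^ n - 1 := by
    rw [orderOf_eq_card_of_forall_mem_zpowers hg, Nat.card_eq_fintype_card, Fintype.card_units, hF]
  have hprim : IsPrimitiveRoot (g : F) (2 ^ n - 1) := by
    have h1 := IsPrimitiveRoot.orderOf g
    rw [ho] at h1
    exact IsPrimitiveRoot.coe_units_iff.mpr h1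
  obtain ⟨k, rfl⟩ := h4
  have hk : 0 < k := by omega
  have h15 : 15 ∣ 2 ^ (4 * k) - 1 := by
    have h1 : (2 : ℕ) ^ 4 - 1 ∣ (2 ^ 4) ^ k - 1 := by
      have := Nat.sub_dvd_pow_sub_pow (2 ^ 4) 1 k
      rwa [one_pow] at this
    rw [pow_mul]
    exact h1
  obtain ⟨c, hc⟩ := h15
  have hpos : 0 < 2 ^ (4 * k) - 1 := by
    have : 2 ^ 1 ≤ 2 ^ (4 * k) := Nat.pow_le_pow_right (by norm_num) (by omega)
    omega
  have hζ : IsPrimitiveRoot ((g : F) ^ c) 15 :=
    hprim.pow hpos (by rw [hc, mul_comm])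
  have hset : (univ.filter fun e : F => e ^ 16 = e) = insert 0 (nthRootsFinset 15 (1 : F)) := by
    ext e
    rw [mem_filter, mem_insert, mem_nthRootsFinset (by norm_num)]
    constructor
    · rintro ⟨_, h⟩
      by_cases he : e = 0
      · exact Or.inl he
      · right
        have h2 : e * e ^ 15 = e * 1 := by
          rw [← pow_succ', mul_one]
          exact h
        exact mul_left_cancel₀ he h2
    · rintro (h | h)
      · exact ⟨mem_univ _, by rw [h]; simp⟩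
      · refine ⟨mem_univ _, ?_⟩
        rw [pow_succ, h, one_mul]
  rw [Nat.card_eq_fintype_card, Fintype.card_subtype, hset, card_insert_of_notMem,
    hζ.card_nthRootsFinset]
  rw [mem_nthRootsFinset (by norm_num)]
  simp

end

end RunMult
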