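import Pool.Agent.Lib.MP_d16eef_co.Q.Fr4

/-! AD-Gam : the Laurent polynomial of a combination.  (`gco`, `gpu`, `gam` are final.)
With `ε = T2 (n / 2) e`: `tr (e * T2 (n/2) P) = tr (ε * P)` (`tr_T2`).
* `tr (ε * act (expand 4 M) (a + a ^ 2)) = ∑_{m < n/8} M_m tr (ε * (a ^ (2 ^ (4 m)) + a ^ (2 ^ (4 m + 1))))`
  (degree below `n / 8`; `act_sum_range` or `expand` coefficientwise) and
  `tr (ε * a ^ (2 ^ k)) = tr (ε ^ (2 ^ (n - k)) * a)` for `k ≤ n`: total `tr (gpu n M ε * a)`.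
* `tr (ε * (L_i a ^ (i + 1)) ^ (2 ^ (4 b + 1)))`, `i + 1 = o 2 ^ v`, `o` odd:
  `= L_i tr (ε ^ (2 ^ (n - 4 b - 1 - v)) * a ^ o)` (`4 b + 1 + v ≤ n / 2`).  Grouping the 15 terms by `o`
  gives `∑_{o ∈ {1,3,...,15}} tr (gco n b L o ε * a ^ o)`.
* the same with `a⁻¹`; `κ`: `tr (κ • ε * a ^ 17)`.
`stf 17 γ a = (∑_{i ≤ 17} γ i a ^ (2 i)) / a ^ 17`: the exponent of index `i` is `2 i - 17`, so `i = 9`
is `a`, `i = 8` is `a⁻¹`, `i = 10..16` are `3, 5, .., 15`, `i = 1..7` are `-15, .., -3`, `i = 17` is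
`a ^ 17`, `i = 0` has coefficient 0.  Expand both sums completely (`Finset.sum_range_succ`,
`field_simp` or termwise). -/

namespace RunMult

open Finset Polynomial

section

variable {F : Type} [Field F] [Fintype F] [DecidableEq F] [Algebra (ZMod 2) F]

/-- local coefficients for the odd exponent `o` -/
noncomputable def gco (n b : ℕ) (L : ℕ → ZMod 2) (o : ℕ) (ε : F) : F :=
  ∑ v ∈ range 4, if o * 2 ^ v ≤ 15 then L (o * 2 ^ v - 1) • ε ^ (2 ^ (n - 4 * b - 1 - v)) else 0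

/-- pure coefficients -/
noncomputable def gpu (n : ℕ) (M : (ZMod 2)[X]) (ε : F) : F :=
  ∑ m ∈ range (n / 8), M.coeff m • (ε ^ (2 ^ (n - 4 * m)) + ε ^ (2 ^ (n - 4 * m - 1)))

/-- the coefficients of the Laurent polynomial of `tr (e * T2 (n / 2) (PP a …))` -/
noncomputable def gam (n b : ℕ) (M M' : (ZMod 2)[X]) (L L' : ℕ → ZMod 2) (κ : ZMod 2) (e : F)
    (i : ℕ) : F :=
  if i = 9 then gpu n M (T2 (n / 2) e) + gco n b L 1 (T2 (n / 2) e)
  else if i = 8 then gpu n M' (T2 (n / 2) e) + gco n b L' 1 (T2 (n / 2) e)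
  else if 10 ≤ i ∧ i ≤ 16 then gco n b L (2 * i - 17) (T2 (n / 2) e)
  else if 1 ≤ i ∧ i ≤ 7 then gco n b L' (17 - 2 * i) (T2 (n / 2) e)
  else if i = 17 then κ • T2 (n / 2) e else 0

omit [DecidableEq F] [Algebra (ZMod 2) F] in
private theorem Gam_full (n : ℕ) (hF : Fintype.card F = 2 ^ n) (x : F) : x ^ (2 ^ n) = x := by
  rw [← hF, FiniteField.pow_card]

omit [DecidableEq F] in
private theorem Gam_A (n : ℕ) (hF : Fintype.card F = 2 ^ n) (s : ℕ) (hs : s ≤ n) (x y : F) :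
    tr (x * y ^ (2 ^ s)) = tr (x ^ (2 ^ (n - s)) * y) := by
  rw [← tr_pow2 (x ^ (2 ^ (n - s)) * y) s, mul_pow, ← pow_mul, ← pow_add, Nat.sub_add_cancel hs,
    Gam_full n hF]

omit [DecidableEq F] in
private theorem Gam_B (k v : ℕ) (hv : v ≤ k) (x y : F) :
    tr (x ^ (2 ^ k) * y ^ (2 ^ v)) = tr (x ^ (2 ^ (k - v)) * y) := by
  rw [← tr_pow2 (x ^ (2 ^ (k - v)) * y) v, mul_pow, ← pow_mul, ← pow_add, Nat.sub_add_cancel hv]

private theorem Gam_pure (n : ℕ) (hn : 256 ≤ n) (hF : Fintype.card F = 2 ^ n)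
    (M : (ZMod 2)[X]) (hM : M.degree < (n / 8 : ℕ)) (x a : F) :
    tr (x * act (expand (ZMod 2) 4 M) (rbk a)) = tr (gpu n M x * a) := by
  have hnd : M.natDegree < n / 8 := by
    by_cases h0 : M = 0
    · rw [h0, natDegree_zero]
      omega
    · exact (natDegree_lt_iff_degree_lt h0).mpr hM
  rw [tr_act n hF]
  have h1 : acti n (expand (ZMod 2) 4 M) x =
      ∑ m ∈ range (n / 8), M.coeff m • x ^ (2 ^ (n - 4 * m)) := by
    unfold acti
    rw [expand_aeval, Polynomial.aeval_eq_sum_range' hnd, LinearMap.sum_apply]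
    refine Finset.sum_congr rfl fun m hm => ?_
    rw [mem_range] at hm
    rw [LinearMap.smul_apply, ← pow_mul]
    have h2 := acti_X_pow n hF (4 * m) (by omega) x
    unfold acti at h2
    rw [map_pow, aeval_X] at h2
    rw [h2]
  rw [h1]
  unfold gpu rbk
  rw [Finset.sum_mul, Finset.sum_mul, tr_sum, tr_sum]
  refine Finset.sum_congr rfl fun m hm => ?_
  rw [mem_range] at hm
  rw [smul_mul_assoc, smul_mul_assoc, tr_smul, tr_smul, mul_add, tr_add, add_mul, tr_add]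
  congr 2
  have h3 := Gam_B (n - 4 * m) 1 (by omega) x a
  rw [pow_one] at h3
  exact h3

omit [DecidableEq F] in
private theorem Gam_C (n b : ℕ) (hb : b < n / 8) (L : ℕ → ZMod 2) (o : ℕ) (ho : 1 ≤ o) (x a : F) :
    tr (gco n b L o x * a ^ o) =
      ∑ v ∈ range 4, if o * 2 ^ v ≤ 15 then
        L (o * 2 ^ v - 1) * tr (x ^ (2 ^ (n - 4 * b - 1)) * a ^ (o * 2 ^ v - 1 + 1)) else 0 := by
  unfold gco
  rw [Finset.sum_mul, tr_sum]
  refine Finset.sum_congr rfl fun v hv => ?_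
  rw [mem_range] at hv
  split_ifs with h
  · have h1 : o * 2 ^ v - 1 + 1 = o * 2 ^ v := by
      have : 1 ≤ o * 2 ^ v := Nat.mul_pos ho (by positivity)
      omega
    rw [h1, smul_mul_assoc, tr_smul, smul_eq_mul, pow_mul a o,
      Gam_B (n - 4 * b - 1) v (by omega) x (a ^ o)]
  · rw [zero_mul, tr_zero]

omit [DecidableEq F] in
private theorem Gam_D (n b : ℕ) (hb : b < n / 8) (L : ℕ → ZMod 2) (x a : F) :
    ∑ i ∈ range 15, L i * tr (x ^ (2 ^ (n - 4 * b - 1)) * a ^ (i + 1)) =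
      tr (gco n b L 1 x * a) + tr (gco n b L 3 x * a ^ 3) + tr (gco n b L 5 x * a ^ 5) +
      tr (gco n b L 7 x * a ^ 7) + tr (gco n b L 9 x * a ^ 9) + tr (gco n b L 11 x * a ^ 11) +
      tr (gco n b L 13 x * a ^ 13) + tr (gco n b L 15 x * a ^ 15) := by
  have h1 := Gam_C n b hb L 1 (by norm_num) x a
  have h3 := Gam_C n b hb L 3 (by norm_num) x a
  have h5 := Gam_C n b hb L 5 (by norm_num) x a
  have h7 := Gam_C n b hb L 7 (by norm_num) x a
  have h9 := Gam_C n b hb L 9 (by norm_num) x a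
  have h11 := Gam_C n b hb L 11 (by norm_num) x a
  have h13 := Gam_C n b hb L 13 (by norm_num) x a
  have h15 := Gam_C n b hb L 15 (by norm_num) x a
  rw [pow_one] at h1
  generalize hτ : (fun i : ℕ => tr (x ^ (2 ^ (n - 4 * b - 1)) * a ^ (i + 1))) = τ at *
  have hτ' : ∀ i : ℕ, tr (x ^ (2 ^ (n - 4 * b - 1)) * a ^ (i + 1)) = τ i := by
    intro i
    rw [← hτ]
  simp only [hτ'] at h1 h3 h5 h7 h9 h11 h13 h15 ⊢
  rw [h1, h3, h5, h7, h9, h11, h13, h15]
  simp only [Finset.sum_range_succ, Finset.sum_range_zero]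
  norm_num
  ring

theorem tr_PP (n : ℕ) (hn : 256 ≤ n) (h16 : 16 ∣ n) (hF : Fintype.card F = 2 ^ n) (b : ℕ)
    (hb : b < n / 8) (M M' : (ZMod 2)[X]) (hM : M.degree < (n / 8 : ℕ))
    (hM' : M'.degree < (n / 8 : ℕ)) (L L' : ℕ → ZMod 2) (κ : ZMod 2) (e a : F) (ha : a ≠ 0) :
    tr (e * T2 (n / 2) (PP a b M M' L L' κ)) = tr (stf 17 (gam n b M M' L L' κ e) a) := by
  rw [tr_T2 n (n / 2) (by omega) hF]
  generalize hx : T2 (n / 2) e = x
  have hgam : ∀ i : ℕ, gam n b M M' L L' κ e i =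
      if i = 9 then gpu n M x + gco n b L 1 x
      else if i = 8 then gpu n M' x + gco n b L' 1 x
      else if 10 ≤ i ∧ i ≤ 16 then gco n b L (2 * i - 17) x
      else if 1 ≤ i ∧ i ≤ 7 then gco n b L' (17 - 2 * i) x
      else if i = 17 then κ • x else 0 := by
    intro i
    rw [← hx]
    rfl
  -- left side
  have hL : tr (x * PP a b M M' L L' κ) =
      tr (gpu n M x * a) + tr (gpu n M' x * a⁻¹) +
      ((∑ i ∈ range 15, L i * tr (x ^ (2 ^ (n - 4 * b - 1)) * a ^ (i + 1))) +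
        ∑ i ∈ range 15, L' i * tr (x ^ (2 ^ (n - 4 * b - 1)) * a⁻¹ ^ (i + 1))) +
      κ * tr (x * a ^ 17) := by
    unfold PP
    rw [mul_add, mul_add, mul_add, tr_add, tr_add, tr_add, Gam_pure n hn hF M hM,
      Gam_pure n hn hF M' hM', Gam_A n hF (4 * b + 1) (by omega), mul_smul_comm, tr_smul,
      smul_eq_mul]
    congr 2
    have e1 : n - (4 * b + 1) = n - 4 * b - 1 := by omega
    rw [e1, Finset.mul_sum, tr_sum, ← Finset.sum_add_distrib]
    refine Finset.sum_congr rfl fun i _ => ?_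
    rw [mul_add, tr_add, mul_smul_comm, mul_smul_comm, tr_smul, tr_smul, smul_eq_mul, smul_eq_mul]
  rw [hL, Gam_D n b hb L x a, Gam_D n b hb L' x a⁻¹]
  -- right side
  have hhi : ∀ i k : ℕ, 2 * i = 17 + k → ∀ γ : F, γ * a ^ (2 * i) / a ^ 17 = γ * a ^ k := by
    intro i k hik γ
    rw [hik, pow_add]
    field_simp
  have hlo : ∀ i k : ℕ, 2 * i + k = 17 → ∀ γ : F, γ * a ^ (2 * i) / a ^ 17 = γ * a⁻¹ ^ k := by
    intro i k hik γ
    rw [← hik, pow_add, inv_pow]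
    field_simp
  unfold stf
  rw [Finset.sum_div, tr_sum]
  simp only [Finset.sum_range_succ, Finset.sum_range_zero]
  rw [hlo 0 17 (by norm_num), hlo 1 15 (by norm_num), hlo 2 13 (by norm_num),
    hlo 3 11 (by norm_num), hlo 4 9 (by norm_num), hlo 5 7 (by norm_num), hlo 6 5 (by norm_num),
    hlo 7 3 (by norm_num), hlo 8 1 (by norm_num), hhi 9 1 (by norm_num), hhi 10 3 (by norm_num),
    hhi 11 5 (by norm_num), hhi 12 7 (by norm_num), hhi 13 9 (by norm_num), hhi 14 11 (by norm_num),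
    hhi 15 13 (by norm_num), hhi 16 15 (by norm_num), hhi 17 17 (by norm_num)]
  have g0 : gam n b M M' L L' κ e 0 = 0 := by rw [hgam]; norm_num
  have g1 : gam n b M M' L L' κ e 1 = gco n b L' 15 x := by rw [hgam]; norm_num
  have g2 : gam n b M M' L L' κ e 2 = gco n b L' 13 x := by rw [hgam]; norm_num
  have g3 : gam n b M M' L L' κ e 3 = gco n b L' 11 x := by rw [hgam]; norm_num
  have g4 : gam n b M M' L L' κ e 4 = gco n b L' 9 x := by rw [hgam]; norm_num
  have g5 : gam n b M M' L L' κ e 5 = gco n b L' 7 x := by rw [hgam]; norm_num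
  have g6 : gam n b M M' L L' κ e 6 = gco n b L' 5 x := by rw [hgam]; norm_num
  have g7 : gam n b M M' L L' κ e 7 = gco n b L' 3 x := by rw [hgam]; norm_num
  have g8 : gam n b M M' L L' κ e 8 = gpu n M' x + gco n b L' 1 x := by rw [hgam]; norm_num
  have g9 : gam n b M M' L L' κ e 9 = gpu n M x + gco n b L 1 x := by rw [hgam]; norm_num
  have g10 : gam n b M M' L L' κ e 10 = gco n b L 3 x := by rw [hgam]; norm_num
  have g11 : gam n b M M' L L' κ e 11 = gco n b L 5 x := by rw [hgam]; norm_num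
  have g12 : gam n b M M' L L' κ e 12 = gco n b L 7 x := by rw [hgam]; norm_num
  have g13 : gam n b M M' L L' κ e 13 = gco n b L 9 x := by rw [hgam]; norm_num
  have g14 : gam n b M M' L L' κ e 14 = gco n b L 11 x := by rw [hgam]; norm_num
  have g15 : gam n b M M' L L' κ e 15 = gco n b L 13 x := by rw [hgam]; norm_num
  have g16 : gam n b M M' L L' κ e 16 = gco n b L 15 x := by rw [hgam]; norm_num
  have g17 : gam n b M M' L L' κ e 17 = κ • x := by rw [hgam]; norm_num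
  rw [g0, g1, g2, g3, g4, g5, g6, g7, g8, g9, g10, g11, g12, g13, g14, g15, g16, g17]
  rw [zero_mul, tr_zero, pow_one, pow_one, add_mul, add_mul, tr_add, tr_add, smul_mul_assoc,
    tr_smul, smul_eq_mul]
  ring

end

end RunMult
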