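import Pool.Agent.Lib.MP_d16eef_co.Q.Fr4

/-! AD-Gm1 : `tr (e * T2 j P) = tr (ε * P)`, `ε = T2 j e`, `j = n / 2` (`tr_T2`, `n = 2 (n / 2)`).
`rbk a = a + a ^ 2 = act (1 + X) a`, so `act (expand 4 W) (rbk a) = act ((1 + X) * expand 4 W) a`
(`act_mul`, `mul_comm`), and `tr_act`. -/

namespace RunMult

open Finset Polynomial

section

variable {F : Type} [Field F] [Fintype F] [DecidableEq F] [Algebra (ZMod 2) F]

private theorem Gm1_rb (G : (ZMod 2)[X]) (a : F) : act G (rbk a) = act ((1 + X) * G) a := by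
  have h1 : rbk a = act (1 + X) a := by
    have h2 := act_X_pow 1 a
    rw [pow_one, pow_one] at h2
    rw [act_add, act_one, h2]
    rfl
  rw [h1, ← act_mul, mul_comm]

theorem tr_PQ (n : ℕ) (h16 : 16 ∣ n) (hF : Fintype.card F = 2 ^ n) (W W' : (ZMod 2)[X]) (e a : F) :
    tr (e * T2 (n / 2) (PQ a W W')) =
      tr (acti n ((1 + X) * expand (ZMod 2) 4 W) (T2 (n / 2) e) * a +
        acti n ((1 + X) * expand (ZMod 2) 4 W') (T2 (n / 2) e) * a⁻¹) := by
  rw [tr_T2 n (n / 2) (by omega) hF, PQ, Gm1_rb, Gm1_rb, mul_add, tr_add, tr_add, tr_act n hF,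
    tr_act n hF]

end

end RunMult
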