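import Pool.Agent.Lib.MP_d16eef_co.Q.Lift

/-! AD-Gpol : no polynomial relation of degree below `n / 4`.
Put `q = n / 8`, `j = n / 2 = 4 q`, `M = M0 + X ^ q * M1` with `deg M0, deg M1 < q` (for example
`M0 = M %ₘ X ^ q`, `M1 = M /ₘ X ^ q`; `16 ∣ n` gives `n / 4 = 2 q`), same for `M'`.  `PQ` is
additive in `(M, M')` and `PQ a (X ^ q * M1) (X ^ q * M1') = PQ a M1 M1' ^ (2 ^ j)` (`act_mul`,
`expand (X ^ q) = X ^ (4 q)`, `act_X_pow`).  From `PQ a M M' = 0`, applying `T2 j` (which is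
invariant under `x ↦ x ^ (2 ^ j)` because `x ^ (2 ^ (2 j)) = x`):
`T2 j (PQ a (M0 + M1) (M0' + M1')) = 0`.  `Good n a` with `b = 0`, `L = L' = 0`, `κ = 0` (then
`PP` is `PQ`) gives `M0 + M1 = 0 = M0' + M1'`, so `M1 = M0`, `M1' = M0'`, and the relation says
`T2 j (PQ a M0 M0') = 0`, so `M0 = M0' = 0` again by `Good`. -/

namespace RunMult

open Finset Polynomial

section

variable {F : Type} [Field F] [Fintype F] [DecidableEq F] [Algebra (ZMod 2) F]

private theorem gp_add (a : F) (M N M' N' : (ZMod 2)[X]) :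
    PQ a (M + N) (M' + N') = PQ a M M' + PQ a N N' := by
  unfold PQ
  rw [map_add, map_add, act_add, act_add]
  ring

private theorem gp_X (a : F) (q : ℕ) (M M' : (ZMod 2)[X]) :
    PQ a (X ^ q * M) (X ^ q * M') = PQ a M M' ^ (2 ^ (4 * q)) := by
  unfold PQ
  rw [map_mul, map_mul, map_pow, expand_X, ← pow_mul, act_mul, act_mul, act_X_pow, act_X_pow,
    ← add_pow2]

private theorem gp_PP (a : F) (M M' : (ZMod 2)[X]) :
    PP a 0 M M' (fun _ => 0) (fun _ => 0) 0 = PQ a M M' := by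
  unfold PP PQ
  have h : (0 : F) ^ (2 ^ (4 * 0 + 1)) = 0 := zero_pow (by norm_num)
  simp only [zero_smul, add_zero, Finset.sum_const_zero, h]

private theorem gp_good (n : ℕ) (hn : 0 < n) (h16 : 16 ∣ n) (a : F) (hg : Good n a)
    (M M' : (ZMod 2)[X]) (hM : M.degree < (n / 8 : ℕ)) (hM' : M'.degree < (n / 8 : ℕ))
    (h : T2 (n / 2) (PQ a M M') = 0) : M = 0 ∧ M' = 0 := by
  by_contra hne
  have h1 := hg 0 (by omega) M M' hM hM' (fun _ => 0) (fun _ => 0) 0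
    (fun h2 => hne ⟨h2.1, h2.2.1⟩)
  rw [gp_PP] at h1
  exact h1.1 h

private theorem gp_split (q : ℕ) (hq : 0 < q) (M : (ZMod 2)[X]) (hM : M.degree < (2 * q : ℕ)) :
    ∃ M0 M1 : (ZMod 2)[X], M = M0 + X ^ q * M1 ∧ M0.degree < (q : ℕ) ∧ M1.degree < (q : ℕ) := by
  refine ⟨M %ₘ X ^ q, M /ₘ X ^ q, (modByMonic_add_div M (X ^ q)).symm, ?_, ?_⟩
  · have h := degree_modByMonic_lt M (monic_X_pow (R := ZMod 2) q)
    rwa [degree_X_pow] at h
  · refine lt_of_le_of_lt degree_le_natDegree ?_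
    rw [natDegree_divByMonic M (monic_X_pow q), natDegree_X_pow]
    have h1 : M.natDegree < 2 * q := by
      rcases eq_or_ne M 0 with rfl | h0
      · rw [natDegree_zero]
        omega
      · rw [degree_eq_natDegree h0] at hM
        exact_mod_cast hM
    exact_mod_cast (by omega : M.natDegree - q < q)

theorem good_poly (n : ℕ) (hn : 0 < n) (h16 : 16 ∣ n) (hF : Fintype.card F = 2 ^ n) (a : F)
    (hg : Good n a) (M M' : (ZMod 2)[X]) (hM : M.degree < (n / 4 : ℕ))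
    (hM' : M'.degree < (n / 4 : ℕ)) (h : PQ a M M' = 0) : M = 0 ∧ M' = 0 := by
  have hq : 0 < n / 8 := by omega
  have e4 : n / 4 = 2 * (n / 8) := by omega
  have e2 : n / 2 = 4 * (n / 8) := by omega
  rw [e4] at hM hM'
  obtain ⟨M0, M1, rfl, hM0, hM1⟩ := gp_split (n / 8) hq M hM
  obtain ⟨N0, N1, rfl, hN0, hN1⟩ := gp_split (n / 8) hq M' hM'
  rw [gp_add, gp_X, ← e2] at h
  have hnj : n = 2 * (n / 2) := by omega
  have hT : T2 (n / 2) (PQ a (M0 + M1) (N0 + N1)) = 0 := by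
    rw [gp_add, T2_add]
    have h1 : T2 (n / 2) (PQ a M1 N1) = T2 (n / 2) (PQ a M1 N1 ^ (2 ^ (n / 2))) := by
      rw [T2_pow2, T2_fixed n (n / 2) hnj hF]
    rw [h1, ← T2_add, h, T2_zero]
  obtain ⟨h1, h2⟩ := gp_good n hn h16 a hg _ _
    (lt_of_le_of_lt (degree_add_le _ _) (max_lt hM0 hM1))
    (lt_of_le_of_lt (degree_add_le _ _) (max_lt hN0 hN1)) hT
  have h3 : PQ a M0 N0 + PQ a M1 N1 = 0 := by
    rw [← gp_add, h1, h2]
    unfold PQ
    rw [map_zero, act_zero, act_zero, add_zero]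
  have h4 : PQ a M1 N1 = PQ a M0 N0 := by
    have h5 : PQ a M0 N0 + PQ a M0 N0 = 0 := by rw [← two_mul, two_eq_zero', zero_mul]
    exact add_left_cancel (h3.trans h5.symm)
  rw [h4] at h
  obtain ⟨h5, h6⟩ := gp_good n hn h16 a hg M0 N0 hM0 hN0 h
  subst h5 h6
  rw [zero_add] at h1 h2
  subst h1 h2
  simp

end

end RunMult
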