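import Pool.Agent.Lib.MP_d16eef_co.Basic

/-! AD-Grd : greedy choice.  (`spn` is final.)
`spn_add`: the sum of the subset sums of `S` and `T` is the subset sum of the symmetric difference
(`x + x = 0`).  `spn_card`: `card_image_le`, `card_powerset`.  `spn_orth`: `sum_mul`, `tr_sum`.
`greedy`: by induction on `k ≤ J` find `z` with `Z b (z b)` for `b < k` and `η ∉ spn z k`
(`spn z 0 = {0}`); step: `spn z (k + 1) = spn z k ∪ (z k + spn z k)` (`range_succ`,
`powerset_insert`), so it suffices to choose `z k` with `Z k (z k)` outside the image of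
`spn z k` under `x ↦ η + x`, which has at most `2 ^ k ≤ 2 ^ J` elements (then use
`Function.update z k _`; `spn` only depends on the values below `k`). -/

namespace RunMult

open Finset Polynomial

section

variable {F : Type} [Field F] [Fintype F] [DecidableEq F] [Algebra (ZMod 2) F]

/-- all subset sums of `z 0, …, z (J - 1)` -/
noncomputable def spn (z : ℕ → F) (J : ℕ) : Finset F :=
  (range J).powerset.image fun S => ∑ b ∈ S, z b

omit [Fintype F] [DecidableEq F] [Algebra (ZMod 2) F] in
private theorem grd_mem [DecidableEq F] (z : ℕ → F) (J : ℕ) (x : F) :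
    x ∈ spn z J ↔ ∃ S : Finset ℕ, S ⊆ range J ∧ ∑ b ∈ S, z b = x := by
  unfold spn
  simp only [mem_image, mem_powerset]

omit [Fintype F] [DecidableEq F] in
private theorem grd_two (x : F) : x + x = 0 := by
  rw [← two_mul, two_eq_zero' F, zero_mul]

theorem spn_zero (z : ℕ → F) (J : ℕ) : (0 : F) ∈ spn z J := by
  rw [grd_mem]
  exact ⟨∅, empty_subset _, sum_empty⟩

theorem spn_add (z : ℕ → F) (J : ℕ) (x y : F) (hx : x ∈ spn z J) (hy : y ∈ spn z J) :
    x + y ∈ spn z J := by
  rw [grd_mem] at hx hy ⊢
  obtain ⟨S, hS, rfl⟩ := hx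
  obtain ⟨T, hT, rfl⟩ := hy
  refine ⟨symmDiff S T, ?_, ?_⟩
  · intro b hb
    rw [mem_symmDiff] at hb
    rcases hb with h | h
    · exact hS h.1
    · exact hT h.1
  · have h1 : ∀ U : Finset ℕ, U ⊆ range J →
        ∑ b ∈ U, z b = ∑ b ∈ range J, if b ∈ U then z b else 0 := by
      intro U hU
      rw [sum_ite_mem, inter_eq_right.mpr hU]
    have h2 : symmDiff S T ⊆ range J := by
      intro b hb
      rw [mem_symmDiff] at hb
      rcases hb with h | h
      · exact hS h.1
      · exact hT h.1
    rw [h1 S hS, h1 T hT, h1 _ h2, ← sum_add_distrib]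
    refine sum_congr rfl fun b _ => ?_
    by_cases h3 : b ∈ S <;> by_cases h4 : b ∈ T
    · rw [if_pos h3, if_pos h4, if_neg, grd_two]
      rw [mem_symmDiff]
      tauto
    · rw [if_pos h3, if_neg h4, if_pos, add_zero]
      rw [mem_symmDiff]
      tauto
    · rw [if_neg h3, if_pos h4, if_pos, zero_add]
      rw [mem_symmDiff]
      tauto
    · rw [if_neg h3, if_neg h4, if_neg, add_zero]
      rw [mem_symmDiff]
      tauto

theorem spn_mem (z : ℕ → F) (J b : ℕ) (hb : b < J) : z b ∈ spn z J := by
  rw [grd_mem]
  refine ⟨{b}, ?_, sum_singleton _ _⟩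
  rw [singleton_subset_iff, mem_range]
  exact hb

theorem spn_card (z : ℕ → F) (J : ℕ) : (spn z J).card ≤ 2 ^ J := by
  unfold spn
  refine card_image_le.trans ?_
  rw [card_powerset, card_range]

theorem spn_orth (z : ℕ → F) (J : ℕ) (y : F) (h : ∀ b < J, tr (z b * y) = 0) (d : F)
    (hd : d ∈ spn z J) : tr (d * y) = 0 := by
  rw [grd_mem] at hd
  obtain ⟨S, hS, rfl⟩ := hd
  rw [sum_mul, tr_sum]
  exact sum_eq_zero fun b hb => h b (mem_range.mp (hS hb))

theorem greedy (J : ℕ) (Z : ℕ → F → Prop) (hZ : ∀ b < J, 2 ^ J < Nat.card {z : F // Z b z})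
    (η : F) (hη : η ≠ 0) : ∃ z : ℕ → F, (∀ b < J, Z b (z b)) ∧ η ∉ spn z J := by
  classical
  have key : ∀ k ≤ J, ∃ z : ℕ → F, (∀ b < k, Z b (z b)) ∧ η ∉ spn z k := by
    intro k
    induction k with
    | zero =>
      intro _
      refine ⟨fun _ => 0, fun b hb => absurd hb (Nat.not_lt_zero b), ?_⟩
      rw [grd_mem]
      rintro ⟨S, _, hS⟩
      apply hη
      rw [← hS]
      exact sum_const_zero
    | succ k ih =>
      intro hk
      obtain ⟨z, hz, hηz⟩ := ih (by omega)
      have hbad : ((spn z k).image fun x => η + x).card ≤ 2 ^ J :=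
        card_image_le.trans ((spn_card z k).trans
          (Nat.pow_le_pow_right (by norm_num) (by omega)))
      have hZk := hZ k (by omega)
      rw [Nat.card_eq_fintype_card, Fintype.card_subtype] at hZk
      obtain ⟨w, hw, hw2⟩ := exists_mem_notMem_of_card_lt_card (lt_of_le_of_lt hbad hZk)
      rw [mem_filter] at hw
      refine ⟨Function.update z k w, ?_, ?_⟩
      · intro b hb
        rcases Nat.lt_succ_iff_lt_or_eq.mp hb with h | h
        · rw [Function.update_of_ne h.ne]
          exact hz b h
        · rw [h, Function.update_self]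
          exact hw.2
      · rw [grd_mem]
        rintro ⟨S, hS, hSη⟩
        have hag : ∀ U : Finset ℕ, U ⊆ range k →
            ∑ b ∈ U, Function.update z k w b = ∑ b ∈ U, z b := by
          intro U hU
          refine sum_congr rfl fun b hb => ?_
          rw [Function.update_of_ne (mem_range.mp (hU hb)).ne]
        by_cases hkS : k ∈ S
        · have hE : S.erase k ⊆ range k := by
            intro b hb
            rw [mem_erase] at hb
            have := mem_range.mp (hS hb.2)
            rw [mem_range]
            omega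
          rw [← add_sum_erase _ _ hkS, Function.update_self, hag _ hE] at hSη
          apply hw2
          rw [mem_image]
          refine ⟨∑ b ∈ S.erase k, z b, (grd_mem _ _ _).mpr ⟨_, hE, rfl⟩, ?_⟩
          rw [← hSη, add_assoc, grd_two, add_zero]
        · have hE : S ⊆ range k := by
            intro b hb
            have h1 := mem_range.mp (hS hb)
            have h2 : b ≠ k := fun h => hkS (h ▸ hb)
            rw [mem_range]
            omega
          rw [hag _ hE] at hSη
          exact hηz ((grd_mem _ _ _).mpr ⟨_, hE, hSη⟩)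
  exact key J le_rfl

end

end RunMult
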