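import Pool.Agent.Lib.MP_d16eef_co.Basic

/-! AD-Inq4 : numerical.  `n = 16 k`, `k ≥ 16`, `w ≤ (n + 13) / 5`.  Write `E = 2 ^ w · 7 · 2 ^ (n / 2)`.
Multiply the claim by `w + 1` (`φ ≥ (2 ^ n - 1) / (w + 1)`): it suffices that
`(w + 1) (2048 E + 2048 E (n / 8) (2 ^ (n / 8) + 1) + 8 (n / 8) 2 ^ (2 (n / 8) + 1)
(2 ^ (n / 2 + 45) + 2 ^ (n / 2 + n / 8 + 15))) < 7 (2 ^ n - 1)`.
Exponents: `E (2 ^ (n/8) + 1) ≤ 2 ^ (n/5 + 6 + n/2 + n/8 + 1)`, total about `2 ^ (0.825 n + 25)`; third: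
`n 2 ^ (3 n / 4 + 46)` and `n 2 ^ (7 n / 8 + 16)`.  At `n = 256`: `w ≤ 53`, the terms are `≤ 2 ^ 240`,
`2 ^ 252`, `2 ^ 254` times ... and `7 · 2 ^ 256`; use `w + 1 ≤ n`, `n ^ 2 ≤ 2 ^ (k)` for `k ≥ 16`, and
`2 ^ w ≤ 2 ^ ((16 k + 13) / 5)`.  Check the constants at `n = 256` with `norm_num`/`decide` and induct
(each step `k → k + 1` multiplies the right side by `2 ^ 16` and the left side by less).
At `n = 256` numerically: left/(w+1) terms: `2048 · 2^53 · 7 · 2^128 · 32 · 2^32 ≈ 2^231.9`,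
`8 · 32 · 2^65 · 2^173 = 2^246`, `8 · 32 · 2^65 · 2^175 = 2^248`; times `w + 1 = 54 < 2^5.8`: `< 2^254.2 <
7 · 2^256`. -/

namespace RunMult

open Finset Polynomial

private theorem inq4_sq (k : ℕ) (hk : 16 ≤ k) : k ^ 2 ≤ 2 ^ (k - 8) := by
  induction k, hk using Nat.le_induction with
  | base => norm_num
  | succ m hm ih =>
    have h1 : 2 ^ (m + 1 - 8) = 2 * 2 ^ (m - 8) := by
      rw [show m + 1 - 8 = (m - 8) + 1 by omega, pow_succ]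
      ring
    rw [h1]
    nlinarith

private theorem inq4_core (k w φ : ℕ) (hk : 16 ≤ k) (hw : 5 * w ≤ 16 * k + 13)
    (hφ : 2 ^ (16 * k) - 1 ≤ (w + 1) * φ) :
    8 * (256 * (2 ^ w * (7 * 2 ^ (8 * k)))) +
      (φ + 8 * (256 * (2 ^ w * (7 * 2 ^ (8 * k))) * (2 * k * (2 ^ (2 * k) + 1)))) +
      8 * (2 * k * 2 ^ (2 * (2 * k) + 1) * (2 ^ (8 * k + 45) + 2 ^ (8 * k + 2 * k + 15))) <
      8 * φ := by
  have hsq := inq4_sq k hk
  have hw1 : w + 1 ≤ 4 * k := by omega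
  -- the three terms multiplied by 4 k
  have hX : 4 * k * (8 * (256 * (2 ^ w * (7 * 2 ^ (8 * k))))) ≤ 2 ^ (16 * k - 4) := by
    calc 4 * k * (8 * (256 * (2 ^ w * (7 * 2 ^ (8 * k)))))
        = 28 * k * (2 ^ 11 * 2 ^ w * 2 ^ (8 * k)) := by ring
      _ ≤ 2 ^ 5 * 2 ^ (k - 8) * (2 ^ 11 * 2 ^ w * 2 ^ (8 * k)) := by
          refine Nat.mul_le_mul_right _ ?_
          nlinarith
      _ = 2 ^ (5 + (k - 8) + (11 + w + 8 * k)) := by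
          rw [pow_add, pow_add, pow_add, pow_add]
      _ ≤ 2 ^ (16 * k - 4) := Nat.pow_le_pow_right (by norm_num) (by omega)
  have hY : 4 * k * (8 * (256 * (2 ^ w * (7 * 2 ^ (8 * k))) * (2 * k * (2 ^ (2 * k) + 1))))
      ≤ 2 ^ (16 * k - 4) := by
    have h1 : 2 ^ (2 * k) + 1 ≤ 2 ^ (2 * k + 1) := by
      have : 1 ≤ 2 ^ (2 * k) := Nat.one_le_two_pow
      rw [pow_succ]
      omega
    calc 4 * k * (8 * (256 * (2 ^ w * (7 * 2 ^ (8 * k))) * (2 * k * (2 ^ (2 * k) + 1))))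
        = 56 * k ^ 2 * (2 ^ 11 * 2 ^ w * 2 ^ (8 * k) * (2 ^ (2 * k) + 1)) := by ring
      _ ≤ 2 ^ 6 * 2 ^ (k - 8) * (2 ^ 11 * 2 ^ w * 2 ^ (8 * k) * 2 ^ (2 * k + 1)) := by
          refine Nat.mul_le_mul ?_ (Nat.mul_le_mul_left _ h1)
          nlinarith
      _ = 2 ^ (6 + (k - 8) + (11 + w + 8 * k + (2 * k + 1))) := by
          simp only [pow_add, pow_one]
      _ ≤ 2 ^ (16 * k - 4) := Nat.pow_le_pow_right (by norm_num) (by omega)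
  have hZ : 4 * k * (8 * (2 * k * 2 ^ (2 * (2 * k) + 1) *
      (2 ^ (8 * k + 45) + 2 ^ (8 * k + 2 * k + 15)))) ≤ 2 ^ (16 * k - 4) + 2 ^ (16 * k - 2) := by
    calc 4 * k * (8 * (2 * k * 2 ^ (2 * (2 * k) + 1) *
          (2 ^ (8 * k + 45) + 2 ^ (8 * k + 2 * k + 15))))
        = k ^ 2 * (2 ^ 6 * 2 ^ (2 * (2 * k) + 1) *
            (2 ^ (8 * k + 45) + 2 ^ (8 * k + 2 * k + 15))) := by ring
      _ ≤ 2 ^ (k - 8) * (2 ^ 6 * 2 ^ (2 * (2 * k) + 1) *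
            (2 ^ (8 * k + 45) + 2 ^ (8 * k + 2 * k + 15))) := Nat.mul_le_mul_right _ hsq
      _ = 2 ^ ((k - 8) + (6 + (2 * (2 * k) + 1) + (8 * k + 45)))
          + 2 ^ ((k - 8) + (6 + (2 * (2 * k) + 1) + (8 * k + 2 * k + 15))) := by
          rw [Nat.mul_add, Nat.mul_add, ← pow_add, ← pow_add, ← pow_add, ← pow_add, ← pow_add]
      _ ≤ 2 ^ (16 * k - 4) + 2 ^ (16 * k - 2) :=
          Nat.add_le_add (Nat.pow_le_pow_right (by norm_num) (by omega))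
            (Nat.pow_le_pow_right (by norm_num) (by omega))
  have hp1 : 2 ^ (16 * k - 2) = 4 * 2 ^ (16 * k - 4) := by
    rw [show 16 * k - 2 = (16 * k - 4) + 2 by omega, pow_add]
    ring
  have hp2 : 2 ^ (16 * k) = 16 * 2 ^ (16 * k - 4) := by
    conv_lhs => rw [show 16 * k = (16 * k - 4) + 4 by omega]
    rw [pow_add]
    ring
  have hp3 : 1 ≤ 2 ^ (16 * k - 4) := Nat.one_le_two_pow
  generalize 8 * (256 * (2 ^ w * (7 * 2 ^ (8 * k)))) = X at hX ⊢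
  generalize 8 * (256 * (2 ^ w * (7 * 2 ^ (8 * k))) * (2 * k * (2 ^ (2 * k) + 1))) = Y at hY ⊢
  generalize 8 * (2 * k * 2 ^ (2 * (2 * k) + 1) *
    (2 ^ (8 * k + 45) + 2 ^ (8 * k + 2 * k + 15))) = Z at hZ ⊢
  rw [hp2] at hφ
  rw [hp1] at hZ
  generalize 2 ^ (16 * k - 4) = T at *
  have h1 : (w + 1) * (X + Y + Z) ≤ 4 * k * (X + Y + Z) := Nat.mul_le_mul_right _ hw1
  have h2 : 4 * k * (X + Y + Z) ≤ 7 * T := by
    rw [Nat.mul_add, Nat.mul_add]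
    omega
  have h3 : (w + 1) * (X + Y + Z) < (w + 1) * (7 * φ) := by
    have h4 : (w + 1) * (7 * φ) = 7 * ((w + 1) * φ) := by ring
    rw [h4]
    omega
  have h5 : X + Y + Z < 7 * φ := lt_of_mul_lt_mul_left h3 (Nat.zero_le _)
  omega

section

variable {F : Type} [Field F] [Fintype F] [DecidableEq F] [Algebra (ZMod 2) F]

theorem ineq_4 (n w φ : ℕ) (hn : 256 ≤ n) (h16 : 16 ∣ n) (hw : 5 * w ≤ n + 13)
    (hφ : 2 ^ n - 1 ≤ (w + 1) * φ) :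
    8 * (256 * (2 ^ w * (7 * 2 ^ ((n + 1) / 2)))) +
      (φ + 8 * (256 * (2 ^ w * (7 * 2 ^ ((n + 1) / 2))) * (n / 8 * (2 ^ (n / 8) + 1)))) +
      8 * (n / 8 * 2 ^ (2 * (n / 8) + 1) * (2 ^ (n / 2 + 45) + 2 ^ (n / 2 + n / 8 + 15))) <
      8 * φ := by
  obtain ⟨k, rfl⟩ := h16
  have e1 : (16 * k + 1) / 2 = 8 * k := by omega
  have e2 : 16 * k / 8 = 2 * k := by omega
  have e3 : 16 * k / 2 = 8 * k := by omega
  rw [e1, e2, e3]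
  exact inq4_core k w φ (by omega) hw hφ

end

end RunMult
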