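import Pool.Agent.Lib.MP_d16eef_co.Basic

/-! AD-InqS : numerical.  `n = 16 k`, `k ≥ 16`: `8 n c 2 ^ ((n+1)/2) ≤ n 2 ^ (3 + 2 k + 8 k)` and
`2 (n c)^3 ≤ n ^ 3 2 ^ (6 k + 1)`; with `n ^ 3 ≤ 2 ^ (2 k)` (induction from `k = 16`:
`256 ^ 3 = 2 ^ 24 ≤ 2 ^ 32`) both are at most `2 ^ (14 k)`. -/

namespace RunMult

open Finset Polynomial

private theorem inqS_cube (k : ℕ) (hk : 16 ≤ k) : (16 * k) ^ 3 ≤ 2 ^ (2 * k) := by
  induction k, hk using Nat.le_induction with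
  | base => norm_num
  | succ k hk ih =>
    have h1 : 2 ^ (2 * (k + 1)) = 4 * 2 ^ (2 * k) := by ring
    rw [h1]
    have h2 : (16 * (k + 1)) ^ 3 ≤ 4 * (16 * k) ^ 3 := by
      obtain ⟨m, rfl⟩ : ∃ m, k = 16 + m := ⟨k - 16, by omega⟩
      nlinarith [Nat.zero_le m, Nat.zero_le (m ^ 2), Nat.zero_le (m ^ 3)]
    exact h2.trans (Nat.mul_le_mul_left 4 ih)

section

variable {F : Type} [Field F] [Fintype F] [DecidableEq F] [Algebra (ZMod 2) F]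

theorem ineq_s (n c : ℕ) (hn : 256 ≤ n) (h16 : 16 ∣ n) (hc : c ≤ 2 ^ (n / 8)) :
    8 * (n * c) * 2 ^ ((n + 1) / 2) + 2 * (n * c) ^ 3 < 2 ^ n := by
  obtain ⟨k, rfl⟩ := h16
  have hk : 16 ≤ k := by omega
  have e1 : 16 * k / 8 = 2 * k := by omega
  have e2 : (16 * k + 1) / 2 = 8 * k := by omega
  rw [e1] at hc
  rw [e2]
  have h3 := inqS_cube k hk
  have h1 : 16 * k ≤ 2 ^ (2 * k) := by
    refine le_trans ?_ h3
    calc 16 * k = (16 * k) ^ 1 := (pow_one _).symm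
      _ ≤ (16 * k) ^ 3 := Nat.pow_le_pow_right (by omega) (by norm_num)
  have hA : 8 * (16 * k * c) * 2 ^ (8 * k) ≤ 2 ^ (12 * k + 3) := by
    calc 8 * (16 * k * c) * 2 ^ (8 * k) ≤ 8 * (2 ^ (2 * k) * 2 ^ (2 * k)) * 2 ^ (8 * k) :=
          Nat.mul_le_mul_right _ (Nat.mul_le_mul_left _ (Nat.mul_le_mul h1 hc))
      _ = 2 ^ (12 * k + 3) := by ring
  have hB : 2 * (16 * k * c) ^ 3 ≤ 2 ^ (8 * k + 1) := by
    calc 2 * (16 * k * c) ^ 3 = 2 * ((16 * k) ^ 3 * c ^ 3) := by ring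
      _ ≤ 2 * (2 ^ (2 * k) * (2 ^ (2 * k)) ^ 3) :=
          Nat.mul_le_mul_left _ (Nat.mul_le_mul h3 (Nat.pow_le_pow_left hc 3))
      _ = 2 ^ (8 * k + 1) := by ring
  have hC : 2 ^ (12 * k + 3) ≤ 2 ^ (16 * k - 1) := Nat.pow_le_pow_right (by norm_num) (by omega)
  have hD : 2 ^ (8 * k + 1) < 2 ^ (16 * k - 1) := Nat.pow_lt_pow_right (by norm_num) (by omega)
  have hE : 2 ^ (16 * k) = 2 ^ (16 * k - 1) + 2 ^ (16 * k - 1) := by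
    rw [← two_mul, ← pow_succ']
    congr 1
    omega
  omega

end

end RunMult
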