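import Pool.Agent.Lib.MP_d16eef_co.Basic

/-! AD-InqU : `16 ∣ n`, `n = 16 k`, `k ≥ 16`.  In powers of two: `n / 8 = 2 k`, `n / 6 ≤ 8 k / 3`,
`n / 2 - 2 = 8 k - 2`.  Use `n ≤ 2 ^ (k / 2)`-type bounds (e.g. `n ^ 2 (2 n + 1) (n + 1) ≤ 2 ^ (2k + 2)`,
prove by induction for `k ≥ 16`: at `k = 16` the left side is `2 ^ 33.01 ≤ 2 ^ 34`): the four terms
are at most `2 ^ (6 k + 2)`, `n ^ 2 2 ^ (4 k + n / 6)` (`≤ 2 ^ (8 k - 4)`: `n ^ 2 ≤ 2 ^ (4 k / 3 - 4)`;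
at `n = 256`: `2 ^ 16 · 2 ^ 106 = 2 ^ 122`), and the last two are smaller. -/

namespace RunMult

open Finset Polynomial

section

variable {F : Type} [Field F] [Fintype F] [DecidableEq F] [Algebra (ZMod 2) F]

private theorem inqu_sq (k : ℕ) (hk : 16 ≤ k) : (16 * k) * (16 * k) ≤ 2 ^ k := by
  induction k, hk using Nat.le_induction with
  | base => norm_num
  | succ k hk ih =>
    rw [pow_succ]
    nlinarith

/-- the numerical inequality of the union bound for `u` -/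
theorem ineq_u (n : ℕ) (hn : 256 ≤ n) (h16 : 16 ∣ n) :
    n * n * (2 * n + 1) * (2 ^ (n / 8) * 2 ^ (n / 8)) * (n + 1) +
      n * n * (2 ^ (n / 8) * 2 ^ (n / 8)) * 2 ^ (n / 6) +
      n * n * 2 ^ (n / 8) * (n + 1) + n * 2 ^ (n / 8) * 2 ^ (n / 4) < 2 ^ (n / 2 - 2) := by
  obtain ⟨k, rfl⟩ := h16
  have hk : 16 ≤ k := by omega
  have hsq := inqu_sq k hk
  have e8 : 16 * k / 8 = 2 * k := by omega
  have e4 : 16 * k / 4 = 4 * k := by omega
  have e2 : 16 * k / 2 - 2 = (8 * k - 5) + 3 := by omega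
  rw [e8, e4, e2]
  set n := 16 * k with hn'
  have hn1 : 1 ≤ n := by omega
  have hq : ∀ i j : ℕ, i ≤ j → 2 ^ i ≤ 2 ^ j := fun i j h =>
    Nat.pow_le_pow_right (by norm_num) h
  have h4 : (n * n) * (n * n) ≤ 2 ^ (2 * k) := by
    calc (n * n) * (n * n) ≤ 2 ^ k * 2 ^ k := Nat.mul_le_mul hsq hsq
      _ = 2 ^ (2 * k) := by rw [← pow_add, two_mul]
  have t1 : n * n * (2 * n + 1) * (2 ^ (2 * k) * 2 ^ (2 * k)) * (n + 1) ≤ 2 ^ (8 * k - 5) := by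
    have h1 : n * n * (2 * n + 1) * (n + 1) ≤ 8 * ((n * n) * (n * n)) := by
      have h2 : (2 * n + 1) * (n + 1) ≤ 8 * (n * n) := by nlinarith
      calc n * n * (2 * n + 1) * (n + 1) = (n * n) * ((2 * n + 1) * (n + 1)) := by ring
        _ ≤ (n * n) * (8 * (n * n)) := Nat.mul_le_mul_left _ h2
        _ = 8 * ((n * n) * (n * n)) := by ring
    calc n * n * (2 * n + 1) * (2 ^ (2 * k) * 2 ^ (2 * k)) * (n + 1)
        = (n * n * (2 * n + 1) * (n + 1)) * (2 ^ (2 * k) * 2 ^ (2 * k)) := by ring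
      _ ≤ (8 * 2 ^ (2 * k)) * (2 ^ (2 * k) * 2 ^ (2 * k)) :=
          Nat.mul_le_mul_right _ (h1.trans (Nat.mul_le_mul_left _ h4))
      _ = 2 ^ (6 * k + 3) := by
          rw [show 6 * k + 3 = 3 + 2 * k + 2 * k + 2 * k by ring, pow_add, pow_add, pow_add]
          ring
      _ ≤ 2 ^ (8 * k - 5) := hq _ _ (by omega)
  have t2 : n * n * (2 ^ (2 * k) * 2 ^ (2 * k)) * 2 ^ (n / 6) ≤ 2 ^ (8 * k - 5) := by
    calc n * n * (2 ^ (2 * k) * 2 ^ (2 * k)) * 2 ^ (n / 6)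
        ≤ 2 ^ k * (2 ^ (2 * k) * 2 ^ (2 * k)) * 2 ^ (n / 6) :=
          Nat.mul_le_mul_right _ (Nat.mul_le_mul_right _ hsq)
      _ = 2 ^ (5 * k + n / 6) := by
          rw [show 5 * k + n / 6 = k + (2 * k + 2 * k) + n / 6 by ring, pow_add, pow_add, pow_add]
      _ ≤ 2 ^ (8 * k - 5) := hq _ _ (by omega)
  have t3 : n * n * 2 ^ (2 * k) * (n + 1) ≤ 2 ^ (8 * k - 5) := by
    have h1 : n * n * (n + 1) ≤ 2 * ((n * n) * (n * n)) := by
      have h2 : n + 1 ≤ 2 * (n * n) := by nlinarith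
      calc n * n * (n + 1) ≤ (n * n) * (2 * (n * n)) := Nat.mul_le_mul_left _ h2
        _ = 2 * ((n * n) * (n * n)) := by ring
    calc n * n * 2 ^ (2 * k) * (n + 1) = (n * n * (n + 1)) * 2 ^ (2 * k) := by ring
      _ ≤ (2 * 2 ^ (2 * k)) * 2 ^ (2 * k) :=
          Nat.mul_le_mul_right _ (h1.trans (Nat.mul_le_mul_left _ h4))
      _ = 2 ^ (4 * k + 1) := by
          rw [show 4 * k + 1 = 1 + 2 * k + 2 * k by ring, pow_add, pow_add]
          ring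
      _ ≤ 2 ^ (8 * k - 5) := hq _ _ (by omega)
  have t4 : n * 2 ^ (2 * k) * 2 ^ (4 * k) ≤ 2 ^ (8 * k - 5) := by
    have h1 : n ≤ 2 ^ k := le_trans (by nlinarith) hsq
    calc n * 2 ^ (2 * k) * 2 ^ (4 * k) ≤ 2 ^ k * 2 ^ (2 * k) * 2 ^ (4 * k) :=
          Nat.mul_le_mul_right _ (Nat.mul_le_mul_right _ h1)
      _ = 2 ^ (7 * k) := by
          rw [show 7 * k = k + 2 * k + 4 * k by ring, pow_add, pow_add]
      _ ≤ 2 ^ (8 * k - 5) := hq _ _ (by omega)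
  have hpos : 0 < 2 ^ (8 * k - 5) := by positivity
  rw [pow_add]
  omega

end

end RunMult
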