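import Pool.Agent.Lib.MP_d16eef_co.Q.Fr4

/-! AD-Ka1 : few dual vectors for a prime factor.
Let `j = n / 2 = 4 (n / 8)`, `G = (1 + X) * expand 4 W`.  By `card_T2_fibre` it suffices that
`#{ε | ε ^ (2 ^ j) = ε, (acti n G ε) ^ 16 = acti n G ε} ≤ 2 ^ (j - 4 deg f)` (`j + (j - 4 deg f) =
n - 4 deg f`; `deg f ≤ n / 8` from `hW`).  `y ^ 16 = y` gives `acti n (X ^ 4 + 1) y = 0`: apply the
inverse Frobenius four times (`acti_X_pow` with `k = 4 ≤ n`: `acti (X^4) y = y ^ (2 ^ (n - 4)) = y`,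
because `y = y ^ 16` implies `y ^ (2 ^ (n - 4)) = (y ^ 16) ^ (2 ^ (n - 4)) = y ^ (2 ^ n) = y`).  So
`acti n ((X ^ 4 + 1) * G) ε = 0` and `acti n (X ^ j + 1) ε = 0` (`acti_of_fixed`).
`(X ^ 4 + 1) G = (X + 1) ^ 5 * expand 4 W` and `X ^ j + 1 = expand 4 (X ^ (n/8) + 1) = f ^ 4 * expand 4 W`
(`expand 4 f = f ^ 4` over `ZMod 2`).  `(X + 1) ^ 5` and `f ^ 4` are coprime (`f` irreducible, not
associated to `X + 1`, which is irreducible): `u (X + 1) ^ 5 + v f ^ 4 = 1`, so
`acti n (expand 4 W) ε = 0`; `card_acti_le`: at most `2 ^ (4 natDegree W)` and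
`natDegree W = n / 8 - natDegree f`. -/

namespace RunMult

open Finset Polynomial

section

variable {F : Type} [Field F] [Fintype F] [DecidableEq F] [Algebra (ZMod 2) F]

omit [Fintype F] [DecidableEq F] in
private theorem Ka1_two (y : F) : y + y = 0 := by
  rw [← two_mul, two_eq_zero', zero_mul]

private theorem Ka1_16 (n : ℕ) (hn : 4 ≤ n) (hF : Fintype.card F = 2 ^ n) (y : F)
    (hy : y ^ 16 = y) : acti n (X ^ 4 + 1) y = 0 := by
  rw [acti_add, acti_X_pow n hF 4 hn, acti_one]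
  have h1 : y ^ (2 ^ (n - 4)) = y := by
    conv_lhs => rw [← hy]
    rw [← pow_mul]
    have e : 16 * 2 ^ (n - 4) = 2 ^ n := by
      rw [show (16 : ℕ) = 2 ^ 4 by norm_num, ← pow_add]
      congr 1
      omega
    rw [e, ← hF, FiniteField.pow_card]
  rw [h1, Ka1_two]

private theorem Ka1_X4 : (X ^ 4 + 1 : (ZMod 2)[X]) = (X + 1) ^ 4 := by
  have h2 : (2 : (ZMod 2)[X]) = 0 := by
    have h := CharP.cast_eq_zero (ZMod 2)[X] 2
    exact_mod_cast h
  linear_combination (-2 * X ^ 3 - 3 * X ^ 2 - 2 * X) * h2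

private theorem Ka1_exp (f : (ZMod 2)[X]) : expand (ZMod 2) 4 f = f ^ 4 := by
  rw [show (4 : ℕ) = 2 * 2 by norm_num, ← expand_expand, ZMod.expand_card, ZMod.expand_card,
    ← pow_mul]

private theorem Ka1_irr : Irreducible (X + 1 : (ZMod 2)[X]) := by
  apply irreducible_of_degree_eq_one
  rw [← C_1, degree_X_add_C]

theorem card_gam1 (n : ℕ) (hn : 0 < n) (h16 : 16 ∣ n) (hF : Fintype.card F = 2 ^ n)
    (f W : (ZMod 2)[X]) (hf : Irreducible f) (hW : f * W = X ^ (n / 8) + 1)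
    (hf1 : ¬ Associated f (X + 1)) :
    Nat.card {e : F // acti n ((1 + X) * expand (ZMod 2) 4 W) (T2 (n / 2) e) ^ 16 =
      acti n ((1 + X) * expand (ZMod 2) 4 W) (T2 (n / 2) e)} ≤ 2 ^ (n - 4 * f.natDegree) := by
  obtain ⟨m, hm⟩ := h16
  have hm0 : 0 < m := by
    rcases Nat.eq_zero_or_pos m with h | h
    · rw [h] at hm; omega
    · exact h
  have hj8 : n / 2 = 4 * (n / 8) := by omega
  have hdeg : (X ^ (n / 8) + 1 : (ZMod 2)[X]).natDegree = n / 8 := by
    rw [← C_1, natDegree_X_pow_add_C]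
  have hne : (X ^ (n / 8) + 1 : (ZMod 2)[X]) ≠ 0 := by
    intro h
    rw [h, natDegree_zero] at hdeg
    omega
  have hf0 : f ≠ 0 := hf.ne_zero
  have hW0 : W ≠ 0 := by
    rintro rfl
    rw [mul_zero] at hW
    exact hne hW.symm
  have hdd : f.natDegree + W.natDegree = n / 8 := by
    rw [← natDegree_mul hf0 hW0, hW, hdeg]
  have hEW : expand (ZMod 2) 4 W ≠ 0 := by
    rw [Ne, expand_eq_zero (by norm_num)]
    exact hW0
  have h1 := card_T2_fibre n (n / 2) (by omega) (by omega) hF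
    (fun e => acti n ((1 + X) * expand (ZMod 2) 4 W) e ^ 16 =
      acti n ((1 + X) * expand (ZMod 2) 4 W) e)
  refine h1.trans ?_
  have hcop : IsCoprime ((X + 1 : (ZMod 2)[X]) ^ 5) (f ^ 4) := by
    apply IsCoprime.pow
    refine (IsCoprime.symm ?_)
    rw [hf.coprime_iff_not_dvd]
    intro hd
    exact hf1 (hf.associated_of_dvd Ka1_irr hd)
  obtain ⟨u, v, huv⟩ := hcop
  have hker : ∀ e : F, e ^ (2 ^ (n / 2)) = e →
      acti n ((1 + X) * expand (ZMod 2) 4 W) e ^ 16 =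
        acti n ((1 + X) * expand (ZMod 2) 4 W) e → acti n (expand (ZMod 2) 4 W) e = 0 := by
    intro e he hG
    have h2 := Ka1_16 n (by omega) hF _ hG
    rw [← acti_mul] at h2
    have h3 := acti_of_fixed n (n / 2) hF (by omega) e he
    have e1 : (X ^ 4 + 1) * ((1 + X) * expand (ZMod 2) 4 W) =
        (X + 1) ^ 5 * expand (ZMod 2) 4 W := by
      rw [Ka1_X4]; ring
    have e2 : (X ^ (n / 2) + 1 : (ZMod 2)[X]) = f ^ 4 * expand (ZMod 2) 4 W := by
      rw [← Ka1_exp f, ← map_mul, hW, map_add, map_pow, expand_X, map_one, ← pow_mul, hj8]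
    rw [e1] at h2
    rw [e2] at h3
    have e3 : expand (ZMod 2) 4 W = u * ((X + 1) ^ 5 * expand (ZMod 2) 4 W) +
        v * (f ^ 4 * expand (ZMod 2) 4 W) := by
      linear_combination (-expand (ZMod 2) 4 W) * huv
    rw [e3, acti_add, acti_mul n u, acti_mul n v, h2, h3, acti_zero_right, acti_zero_right,
      add_zero]
  have h4 : Nat.card {e : F // e ^ (2 ^ (n / 2)) = e ∧
      acti n ((1 + X) * expand (ZMod 2) 4 W) e ^ 16 =
        acti n ((1 + X) * expand (ZMod 2) 4 W) e} ≤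
      Nat.card {e : F // acti n (expand (ZMod 2) 4 W) e = 0} :=
    Nat.card_le_card_of_injective
      (fun e => (⟨e.1, hker e.1 e.2.1 e.2.2⟩ : {e : F // acti n (expand (ZMod 2) 4 W) e = 0}))
      (by
        intro a b hab
        have h6 := congrArg Subtype.val hab
        exact Subtype.ext h6)
  have h5 := card_acti_le n hF (expand (ZMod 2) 4 W) hEW
  rw [natDegree_expand] at h5
  calc 2 ^ (n / 2) * Nat.card {e : F // e ^ (2 ^ (n / 2)) = e ∧
      acti n ((1 + X) * expand (ZMod 2) 4 W) e ^ 16 =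
        acti n ((1 + X) * expand (ZMod 2) 4 W) e}
      ≤ 2 ^ (n / 2) * 2 ^ (W.natDegree * 4) := Nat.mul_le_mul_left _ (h4.trans h5)
    _ = 2 ^ (n - 4 * f.natDegree) := by
        rw [← pow_add]
        congr 1
        omega

end

end RunMult
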