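import Pool.Agent.Lib.MP_d16eef_co.Basic

/-! AD-Pol : the polynomial lemma over `ZMod 2`.
Let `p = l1 X^4 + l2 X^3 + l4 X^2 + l8 X + (X + 1) M(X^4)`, `r = l2 X + l8 + M(X^2)`,
`s = l1 X^2 + (l2 + l4) X + l8`.  In characteristic 2: `p = (X + 1) r^2 + s^2` and `p' = r^2`,
`r' = l2`. -/

namespace RunMult

open Finset Polynomial

section

variable {F : Type} [Field F] [Fintype F] [DecidableEq F] [Algebra (ZMod 2) F]

private theorem pol_two : (2 : (ZMod 2)[X]) = 0 := by
  have h : ((2 : ℕ) : (ZMod 2)[X]) = 0 := CharP.cast_eq_zero _ 2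
  exact_mod_cast h

private theorem pol_C_sq (c : ZMod 2) : (C c : (ZMod 2)[X]) ^ 2 = C c := by
  rw [← C_pow, zmod2_sq]

private theorem pol_ne_zero_one (c : ZMod 2) (h : c ≠ 0) : c = 1 := by
  revert c; decide

private theorem pol_expand4 (M : (ZMod 2)[X]) : expand (ZMod 2) 4 M = M ^ 4 := by
  have h : expand (ZMod 2) (2 * 2) M = M ^ 4 := by
    rw [← expand_expand, ZMod.expand_card, ZMod.expand_card]
    ring
  simpa using h

private theorem pol_deg_s (a b c : ZMod 2) :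
    (C a * X ^ 2 + C b * X + C c : (ZMod 2)[X]).natDegree ≤ 2 := natDegree_quadratic_le

private theorem pol_id (M : (ZMod 2)[X]) (l1 l2 l4 l8 : ZMod 2) :
    C l1 * X ^ 4 + C l2 * X ^ 3 + C l4 * X ^ 2 + C l8 * X + (X + 1) * M ^ 4 =
      (X + 1) * (C l2 * X + C l8 + M ^ 2) ^ 2 + (C l1 * X ^ 2 + C (l2 + l4) * X + C l8) ^ 2 := by
  have h1 := pol_C_sq l1
  have h2 := pol_C_sq l2
  have h4 := pol_C_sq l4
  have h8 := pol_C_sq l8
  have ht := pol_two
  rw [C_add]
  linear_combination (-(X ^ 4)) * h1 - (X ^ 2 * (X + 1) + X ^ 2) * h2 - X ^ 2 * h4 - (X + 1 + 1) * h8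
    - (C l2 * X ^ 2 + C l8 + (X + 1) * (C l2 * X * C l8 + C l2 * X * M ^ 2 + C l8 * M ^ 2)
      + C l1 * X ^ 3 * (C l2 + C l4) + C l1 * X ^ 2 * C l8 + (C l2 + C l4) * X * C l8
      + C l2 * C l4 * X ^ 2) * ht

private theorem pol_der (M : (ZMod 2)[X]) (l1 l2 l4 l8 : ZMod 2) :
    derivative (C l1 * X ^ 4 + C l2 * X ^ 3 + C l4 * X ^ 2 + C l8 * X + (X + 1) * M ^ 4) =
      (C l2 * X + C l8 + M ^ 2) ^ 2 := by
  have h2 := pol_C_sq l2
  have h8 := pol_C_sq l8
  have ht := pol_two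
  simp only [derivative_add, derivative_mul, derivative_C, derivative_X,
    derivative_one, derivative_pow, Nat.cast_ofNat, map_ofNat]
  ring_nf
  linear_combination (-(X ^ 2)) * h2 - h8 + (C l1 * X ^ 3 * 2 + C l2 * X ^ 2 + C l4 * X
    + 2 * M ^ 3 * derivative M * (X + 1) - (C l2 * X * C l8 + C l2 * X * M ^ 2 + C l8 * M ^ 2)) * ht

private theorem pol_der_r (M : (ZMod 2)[X]) (l2 l8 : ZMod 2) :
    derivative (C l2 * X + C l8 + M ^ 2) = C l2 := by
  have ht := pol_two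
  simp only [derivative_add, derivative_mul, derivative_C, derivative_X, derivative_pow,
    Nat.cast_ofNat, map_ofNat]
  ring_nf
  linear_combination (M * derivative M) * ht

private theorem pol_der_s (l1 b l8 : ZMod 2) :
    derivative (C l1 * X ^ 2 + C b * X + C l8 : (ZMod 2)[X]) = C b := by
  have ht := pol_two
  simp only [derivative_add, derivative_mul, derivative_C, derivative_X, derivative_X_pow,
    Nat.cast_ofNat, map_ofNat]
  ring_nf
  linear_combination (C l1 * X) * ht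

private theorem pol_not_unit_dvd {q : (ZMod 2)[X]} (hq : Prime q) {c : ZMod 2} (hc : c ≠ 0) :
    ¬ q ∣ C c := by
  intro h
  rw [pol_ne_zero_one c hc, C_1] at h
  exact hq.not_isUnit (isUnit_of_dvd_one h)

/-- `q ^ 4 ∣ r ^ 2 → q ^ 2 ∣ r` -/
private theorem pol_dvd4 {q r : (ZMod 2)[X]} (hq : Prime q) (h : q ^ 4 ∣ r ^ 2) : q ^ 2 ∣ r := by
  have h1 : q ∣ r := hq.dvd_of_dvd_pow (dvd_trans (dvd_pow_self q (by norm_num)) h)
  obtain ⟨r1, rfl⟩ := h1
  have h2 : q ^ 2 * q ^ 2 ∣ q ^ 2 * r1 ^ 2 := by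
    have e1 : q ^ 2 * q ^ 2 = q ^ 4 := by ring
    have e2 : q ^ 2 * r1 ^ 2 = (q * r1) ^ 2 := by ring
    rw [e1, e2]; exact h
  have h3 : q ^ 2 ∣ r1 ^ 2 := (mul_dvd_mul_iff_left (pow_ne_zero 2 hq.ne_zero)).mp h2
  have h4 : q ∣ r1 := hq.dvd_of_dvd_pow (dvd_trans (dvd_pow_self q (by norm_num)) h3)
  rw [pow_two]
  exact mul_dvd_mul_left q h4

/-- `q ^ 3 ∣ r ^ 2 → q ^ 2 ∣ r` -/
private theorem pol_dvd3 {q r : (ZMod 2)[X]} (hq : Prime q) (h : q ^ 3 ∣ r ^ 2) : q ^ 2 ∣ r := by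
  have h1 : q ∣ r := hq.dvd_of_dvd_pow (dvd_trans (dvd_pow_self q (by norm_num)) h)
  obtain ⟨r1, rfl⟩ := h1
  have h2 : q ^ 2 * q ∣ q ^ 2 * r1 ^ 2 := by
    have e1 : q ^ 2 * q = q ^ 3 := by ring
    have e2 : q ^ 2 * r1 ^ 2 = (q * r1) ^ 2 := by ring
    rw [e1, e2]; exact h
  have h3 : q ∣ r1 ^ 2 := (mul_dvd_mul_iff_left (pow_ne_zero 2 hq.ne_zero)).mp h2
  have h4 : q ∣ r1 := hq.dvd_of_dvd_pow h3
  rw [pow_two]
  exact mul_dvd_mul_left q h4

/-- `q ^ 5 ∣ s ^ 2 → q ^ 3 ∣ s` -/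
private theorem pol_dvd5 {q s : (ZMod 2)[X]} (hq : Prime q) (h : q ^ 5 ∣ s ^ 2) : q ^ 3 ∣ s := by
  have h1 : q ∣ s := hq.dvd_of_dvd_pow (dvd_trans (dvd_pow_self q (by norm_num)) h)
  obtain ⟨s1, rfl⟩ := h1
  have h2 : q ^ 2 * q ^ 3 ∣ q ^ 2 * s1 ^ 2 := by
    have e1 : q ^ 2 * q ^ 3 = q ^ 5 := by ring
    have e2 : q ^ 2 * s1 ^ 2 = (q * s1) ^ 2 := by ring
    rw [e1, e2]; exact h
  have h3 : q ^ 3 ∣ s1 ^ 2 := (mul_dvd_mul_iff_left (pow_ne_zero 2 hq.ne_zero)).mp h2
  have h4 := pol_dvd3 hq h3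
  have e3 : q ^ 3 = q * q ^ 2 := by ring
  rw [e3]
  exact mul_dvd_mul_left q h4

private theorem pol_eq_zero_of_dvd {q s : (ZMod 2)[X]} {k : ℕ} (hq : k < q.natDegree)
    (hs : s.natDegree ≤ k) (h : q ∣ s) : s = 0 := by
  by_contra hne
  have := natDegree_le_of_dvd h hne
  omega

private theorem pol_X1 (M : (ZMod 2)[X]) (l1 l2 l4 l8 : ZMod 2)
    (h : ¬ (l1 = 0 ∧ l2 = 0 ∧ l4 = 0 ∧ l8 = 0)) :
    ¬ (X + 1) ^ 5 ∣
      C l1 * X ^ 4 + C l2 * X ^ 3 + C l4 * X ^ 2 + C l8 * X + (X + 1) * M ^ 4 := by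
  intro hd
  have hX : (X + 1 : (ZMod 2)[X]) = X - C (-1) := by rw [map_neg, C_1, sub_neg_eq_add]
  have hq : Prime (X + 1 : (ZMod 2)[X]) := by
    rw [hX]; exact prime_X_sub_C _
  have hdeg : (X + 1 : (ZMod 2)[X]).natDegree = 1 := by
    rw [hX]; exact natDegree_X_sub_C _
  have hdr := pow_sub_one_dvd_derivative_of_pow_dvd hd
  rw [pol_der] at hdr
  have hr : (X + 1) ^ 2 ∣ (C l2 * X + C l8 + M ^ 2) := pol_dvd4 hq hdr
  rw [pol_id] at hd
  have h5 : (X + 1) ^ 5 ∣ (X + 1) * (C l2 * X + C l8 + M ^ 2) ^ 2 := by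
    have e : (X + 1 : (ZMod 2)[X]) ^ 5 = (X + 1) * ((X + 1) ^ 2) ^ 2 := by ring
    rw [e]
    exact mul_dvd_mul_left _ (pow_dvd_pow_of_dvd hr 2)
  have hs := pol_dvd5 hq ((dvd_add_right h5).mp hd)
  have hs0 : (C l1 * X ^ 2 + C (l2 + l4) * X + C l8 : (ZMod 2)[X]) = 0 := by
    refine pol_eq_zero_of_dvd (k := 2) ?_ (pol_deg_s _ _ _) hs
    rw [natDegree_pow, hdeg]; norm_num
  have c2 : l1 = 0 := by
    have := congrArg (fun f : (ZMod 2)[X] => f.coeff 2) hs0
    simpa [coeff_X, coeff_C] using this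
  have c1 : l2 + l4 = 0 := by
    have := congrArg (fun f : (ZMod 2)[X] => f.coeff 1) hs0
    simpa [coeff_X, coeff_C, -map_add] using this
  have c0 : l8 = 0 := by
    have := congrArg (fun f : (ZMod 2)[X] => f.coeff 0) hs0
    simpa [coeff_X, coeff_C] using this
  have hl2 : l2 ≠ 0 := by
    rintro rfl
    rw [zero_add] at c1
    exact h ⟨c2, rfl, c1, c0⟩
  have hdr2 := pow_sub_one_dvd_derivative_of_pow_dvd hr
  rw [pol_der_r, show 2 - 1 = 1 from rfl, pow_one] at hdr2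
  exact pol_not_unit_dvd hq hl2 hdr2

private theorem pol_g (M : (ZMod 2)[X]) (l1 l2 l4 l8 : ZMod 2)
    (h : ¬ (l1 = 0 ∧ l2 = 0 ∧ l4 = 0 ∧ l8 = 0)) (g : (ZMod 2)[X]) (hg : Irreducible g)
    (hdeg : 2 ≤ g.natDegree) :
    ¬ g ^ 3 ∣
      C l1 * X ^ 4 + C l2 * X ^ 3 + C l4 * X ^ 2 + C l8 * X + (X + 1) * M ^ 4 := by
  intro hd
  have hq : Prime g := hg.prime
  have hX : (X + 1 : (ZMod 2)[X]) = X - C (-1) := by rw [map_neg, C_1, sub_neg_eq_add]
  have hX1 : (X + 1 : (ZMod 2)[X]) ≠ 0 := by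
    rw [hX]; exact X_sub_C_ne_zero _
  have hX1deg : (X + 1 : (ZMod 2)[X]).natDegree = 1 := by
    rw [hX]; exact natDegree_X_sub_C _
  have hcop : ¬ g ∣ (X + 1 : (ZMod 2)[X]) := by
    intro hgd
    have := natDegree_le_of_dvd hgd hX1
    omega
  have hdr := pow_sub_one_dvd_derivative_of_pow_dvd hd
  rw [pol_der, show 3 - 1 = 2 from rfl] at hdr
  have hr : g ∣ (C l2 * X + C l8 + M ^ 2) :=
    hq.dvd_of_dvd_pow (dvd_trans (dvd_pow_self g (by norm_num)) hdr)
  rw [pol_id] at hd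
  have hd2 : g ^ 2 ∣ (X + 1) * (C l2 * X + C l8 + M ^ 2) ^ 2 +
      (C l1 * X ^ 2 + C (l2 + l4) * X + C l8) ^ 2 := dvd_trans (pow_dvd_pow g (by norm_num)) hd
  have hs2 := (dvd_add_right (Dvd.dvd.mul_left hdr (X + 1))).mp hd2
  have hs : g ∣ (C l1 * X ^ 2 + C (l2 + l4) * X + C l8) :=
    hq.dvd_of_dvd_pow (dvd_trans (dvd_pow_self g (by norm_num)) hs2)
  by_cases hs0 : (C l1 * X ^ 2 + C (l2 + l4) * X + C l8 : (ZMod 2)[X]) = 0
  · have c2 : l1 = 0 := by
      have := congrArg (fun f : (ZMod 2)[X] => f.coeff 2) hs0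
      simpa [coeff_X, coeff_C] using this
    have c1 : l2 + l4 = 0 := by
      have := congrArg (fun f : (ZMod 2)[X] => f.coeff 1) hs0
      simpa [coeff_X, coeff_C, -map_add] using this
    have c0 : l8 = 0 := by
      have := congrArg (fun f : (ZMod 2)[X] => f.coeff 0) hs0
      simpa [coeff_X, coeff_C] using this
    have hl2 : l2 ≠ 0 := by
      rintro rfl
      rw [zero_add] at c1
      exact h ⟨c2, rfl, c1, c0⟩
    rw [hs0, zero_pow two_ne_zero, add_zero] at hd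
    have hd3 : g ^ 3 ∣ (C l2 * X + C l8 + M ^ 2) ^ 2 := by
      have hc : IsCoprime (g ^ 3) (X + 1 : (ZMod 2)[X]) :=
        ((hg.coprime_iff_not_dvd).mpr hcop).pow_left
      exact hc.dvd_of_dvd_mul_left hd
    have hr2 := pol_dvd3 hq hd3
    have hdr2 := pow_sub_one_dvd_derivative_of_pow_dvd hr2
    rw [pol_der_r, show 2 - 1 = 1 from rfl, pow_one] at hdr2
    exact pol_not_unit_dvd hq hl2 hdr2
  · -- `s ≠ 0`
    have hle := natDegree_le_of_dvd hs hs0
    have hsd := pol_deg_s l1 (l2 + l4) l8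
    have hgd : g.natDegree = 2 := le_antisymm (hle.trans hsd) hdeg
    obtain ⟨u, hu⟩ := hs
    have hu0 : u ≠ 0 := by
      rintro rfl
      rw [mul_zero] at hu
      exact hs0 hu
    have hud : u.natDegree = 0 := by
      have := congrArg natDegree hu
      rw [natDegree_mul hg.ne_zero hu0] at this
      omega
    obtain ⟨c, hc⟩ : ∃ c : ZMod 2, u = C c := ⟨_, eq_C_of_natDegree_eq_zero hud⟩
    have hc0 : c ≠ 0 := by
      rintro rfl
      rw [C_0] at hc
      exact hu0 hc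
    rw [hc, pol_ne_zero_one c hc0, C_1, mul_one] at hu
    -- `hu : s = g`
    have hgder : derivative g = C (l2 + l4) := by
      rw [← hu]; exact pol_der_s _ _ _
    have hb : l2 + l4 ≠ 0 := by
      intro hb
      have e : g = (C l1 * X + C l8) * (C l1 * X + C l8) := by
        rw [← hu, hb]
        have h1 := pol_C_sq l1
        have h8 := pol_C_sq l8
        have ht := pol_two
        rw [C_0]
        linear_combination (-(X ^ 2)) * h1 - h8 - (C l1 * X * C l8) * ht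
      rcases hg.isUnit_or_isUnit e with h' | h' <;>
      · have := natDegree_eq_zero_of_isUnit h'
        have e2 := congrArg natDegree e
        rw [natDegree_mul (by rintro e3; rw [e3, mul_zero] at e; exact hg.ne_zero e)
          (by rintro e3; rw [e3, mul_zero] at e; exact hg.ne_zero e)] at e2
        omega
    obtain ⟨r1, hr1⟩ := hr
    have hl : C l2 = derivative g * r1 + g * derivative r1 := by
      rw [← derivative_mul, ← hr1, pol_der_r]
    rw [hgder, pol_ne_zero_one _ hb, C_1, one_mul] at hl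
    -- `g ∣ (X + 1) * r1 ^ 2 + 1`
    have h3 : g ∣ (X + 1) * r1 ^ 2 + 1 := by
      have e : (X + 1) * (C l2 * X + C l8 + M ^ 2) ^ 2 +
          (C l1 * X ^ 2 + C (l2 + l4) * X + C l8) ^ 2 = g ^ 2 * ((X + 1) * r1 ^ 2 + 1) := by
        rw [hr1, hu]; ring
      rw [e] at hd
      have e3 : g ^ 3 = g ^ 2 * g := by ring
      rw [e3] at hd
      exact (mul_dvd_mul_iff_left (pow_ne_zero 2 hg.ne_zero)).mp hd
    have h4 : g ∣ (X + 1) * C l2 + 1 := by
      have e : (X + 1) * C l2 + 1 = ((X + 1) * r1 ^ 2 + 1) +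
          g * ((X + 1) * derivative r1 * (2 * r1 + g * derivative r1)) := by
        have h2 := pol_C_sq l2
        have e5 : (X + 1) * C l2 + 1 = (X + 1) * (C l2) ^ 2 + 1 := by rw [h2]
        rw [e5, hl]
        ring
      rw [e]
      exact dvd_add h3 (dvd_mul_right _ _)
    have h5 : (X + 1) * C l2 + 1 = (0 : (ZMod 2)[X]) := by
      refine pol_eq_zero_of_dvd (k := 1) (by omega) ?_ h4
      have e : (X + 1) * C l2 + 1 = C l2 * X + C (l2 + 1) := by
        rw [C_add, C_1]; ring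
      rw [e]
      exact natDegree_linear_le
    have h6 : l2 = 0 := by
      have := congrArg (fun f : (ZMod 2)[X] => f.coeff 1) h5
      simpa [add_mul, coeff_X, coeff_C, coeff_one] using this
    rw [h6, C_0, mul_zero, zero_add] at h5
    exact one_ne_zero h5

/-- the polynomial lemma -/
theorem pol_gcd (j : ℕ) (h8 : 8 ∣ j) (hj : 0 < j) (M : (ZMod 2)[X]) (l1 l2 l4 l8 : ZMod 2)
    (h : ¬ (l1 = 0 ∧ l2 = 0 ∧ l4 = 0 ∧ l8 = 0)) (D : (ZMod 2)[X])
    (hD : D ∣ C l1 * X ^ 4 + C l2 * X ^ 3 + C l4 * X ^ 2 + C l8 * X +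
      (X + 1) * expand (ZMod 2) 4 M)
    (hD' : D ∣ X ^ j + 1) : D.natDegree ≤ j / 4 + 2 := by
  rw [pol_expand4] at hD
  obtain ⟨k, j', hodd, hjk⟩ := Nat.exists_eq_two_pow_mul_odd hj.ne'
  have hj'0 : 0 < j' := hodd.pos
  have hk : 3 ≤ k := by
    by_contra hk
    rw [not_le] at hk
    obtain ⟨t, ht⟩ := hodd
    obtain ⟨u, hu⟩ := h8
    rw [hjk, ht] at hu
    interval_cases k <;> omega
  have ht := pol_two
  have hpow : (X ^ j + 1 : (ZMod 2)[X]) = (X ^ j' + 1) ^ (2 ^ k) := by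
    rw [add_pow_char_pow (X ^ j') (1 : (ZMod 2)[X]) 2 k, one_pow, ← pow_mul, hjk, mul_comm]
  set hh : (ZMod 2)[X] := X ^ j' + 1 with hhdef
  have hh0 : hh ≠ 0 := by
    have : (X ^ j' + C 1 : (ZMod 2)[X]).Monic := monic_X_pow_add_C _ hj'0.ne'
    rw [C_1] at this
    exact this.ne_zero
  have hhdeg : hh.natDegree = j' := by
    have : (X ^ j' + C 1 : (ZMod 2)[X]).natDegree = j' := natDegree_X_pow_add_C
    rw [C_1] at this
    exact this
  have hX : (X + 1 : (ZMod 2)[X]) = X - C (-1) := by rw [map_neg, C_1, sub_neg_eq_add]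
  have hX1 : (X + 1 : (ZMod 2)[X]) ≠ 0 := by
    rw [hX]; exact X_sub_C_ne_zero _
  have hX1deg : (X + 1 : (ZMod 2)[X]).natDegree = 1 := by
    rw [hX]; exact natDegree_X_sub_C _
  have hX1h : (X + 1 : (ZMod 2)[X]) ∣ hh := by
    rw [hX, dvd_iff_isRoot, hhdef]
    simp only [IsRoot, eval_add, eval_pow, eval_X, eval_one]
    have : ((-1 : ZMod 2)) = 1 := by decide
    rw [this, one_pow]
    decide
  have hD0 : D ≠ 0 := by
    rintro rfl
    rw [zero_dvd_iff, hpow] at hD'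
    exact pow_ne_zero _ hh0 hD'
  have hH0 : hh ^ 2 * (X + 1) ^ 2 ≠ 0 := mul_ne_zero (pow_ne_zero 2 hh0) (pow_ne_zero 2 hX1)
  have hDH : D ∣ hh ^ 2 * (X + 1) ^ 2 := by
    classical
    rw [UniqueFactorizationMonoid.dvd_iff_normalizedFactors_le_normalizedFactors hD0 hH0,
      Multiset.le_iff_count]
    intro g
    by_cases hgm : g ∈ UniqueFactorizationMonoid.normalizedFactors D
    · have hgirr := UniqueFactorizationMonoid.irreducible_of_normalized_factor g hgm
      have hgD : g ∣ D := UniqueFactorizationMonoid.dvd_of_mem_normalizedFactors hgm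
      have hgn : normalize g = g := UniqueFactorizationMonoid.normalize_normalized_factor g hgm
      set c := Multiset.count g (UniqueFactorizationMonoid.normalizedFactors D) with hcdef
      have hcD : g ^ c ∣ D := by
        have := UniqueFactorizationMonoid.emultiplicity_eq_count_normalizedFactors hgirr hD0
        rw [hgn] at this
        exact pow_dvd_of_le_emultiplicity (le_of_eq this.symm)
      have hgh : g ∣ hh := by
        have h1 : g ∣ hh ^ (2 ^ k) := by
          rw [← hpow]; exact dvd_trans hgD hD'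
        exact hgirr.prime.dvd_of_dvd_pow h1
      have hcH : g ^ c ∣ hh ^ 2 * (X + 1) ^ 2 := by
        by_cases hdeg : 2 ≤ g.natDegree
        · have hc2 : c ≤ 2 := by
            by_contra hc
            rw [not_le] at hc
            exact pol_g M l1 l2 l4 l8 h g hgirr hdeg
              (dvd_trans (pow_dvd_pow g hc) (dvd_trans hcD hD))
          exact dvd_trans (pow_dvd_pow g hc2)
            (dvd_trans (pow_dvd_pow_of_dvd hgh 2) (dvd_mul_right _ _))
        · -- degree one: `g = X + 1`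
          have hg1 : g.natDegree = 1 := by
            have := hgirr.natDegree_pos
            omega
          have hmon : g.Monic := by
            have h1 : g.leadingCoeff ≠ 0 := leadingCoeff_ne_zero.mpr hgirr.ne_zero
            exact pol_ne_zero_one _ h1
          have hgX : g = X + C (g.coeff 0) := hmon.eq_X_add_C hg1
          have hc0 : g.coeff 0 ≠ 0 := by
            intro h0
            rw [h0, C_0, add_zero] at hgX
            rw [hgX, hhdef] at hgh
            have := (X_dvd_iff).mp hgh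
            simp only [coeff_add, coeff_X_pow, coeff_one] at this
            rw [if_neg (by omega)] at this
            simp at this
          rw [pol_ne_zero_one _ hc0, C_1] at hgX
          have hc4 : c ≤ 4 := by
            by_contra hc
            rw [not_le] at hc
            have h7 := dvd_trans (pow_dvd_pow g hc) (dvd_trans hcD hD)
            rw [hgX] at h7
            exact pol_X1 M l1 l2 l4 l8 h h7
          refine dvd_trans (pow_dvd_pow g hc4) ?_
          have e : g ^ 4 = g ^ 2 * g ^ 2 := by ring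
          rw [e]
          refine mul_dvd_mul (pow_dvd_pow_of_dvd hgh 2) ?_
          rw [hgX]
      have h2 := UniqueFactorizationMonoid.emultiplicity_eq_count_normalizedFactors hgirr hH0
      rw [hgn] at h2
      have h3 := le_emultiplicity_of_pow_dvd hcH
      rw [h2] at h3
      exact_mod_cast h3
    · rw [Multiset.count_eq_zero_of_notMem hgm]
      exact Nat.zero_le _
  have hfin := natDegree_le_of_dvd hDH hH0
  rw [natDegree_mul (pow_ne_zero 2 hh0) (pow_ne_zero 2 hX1), natDegree_pow, natDegree_pow, hhdeg,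
    hX1deg] at hfin
  have h8j : 8 * j' ≤ j := by
    rw [hjk]
    exact Nat.mul_le_mul_right _ (by
      calc 8 = 2 ^ 3 := by norm_num
        _ ≤ 2 ^ k := Nat.pow_le_pow_right (by norm_num) hk)
  omega

end

end RunMult
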