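import Pool.Agent.Lib.MP_d16eef_co.Q.Gam
import Pool.Agent.Lib.MP_d16eef_co.Q.Pol

/-! AD-Ka2 : few dual vectors, exponents `± 1` only.
Let `j = n / 2`, `ε = T2 j e`, `l1 = L 0`, `l2 = L 1`, `l4 = L 3`, `l8 = L 7`.
`gpu n M ε + gco n b L 1 ε = acti n P ε` with
`P = (1 + X) * expand 4 M + X ^ (4 b + 1) (l1 + l2 X + l4 X^2 + l8 X^3)`:
`gpu`: `acti_X_pow` for the exponents `4 m`, `4 m + 1 ≤ n`; `gco`: exponents `4 b + 1 + v`.
By `card_T2_fibre` it suffices: `#{ε | ε ^ (2 ^ j) = ε, (acti n P ε) ^ 16 = acti n P ε} ≤ 2 ^ (n / 8 + 6)`.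
The additive map `ε ↦ acti n P ε` sends this set to `{y | y ^ 16 = y}` (at most 16 elements), so it
suffices that `#{ε | ε ^ (2 ^ j) = ε, acti n P ε = 0} ≤ 2 ^ (n / 8 + 2)` (fibres are cosets of this
kernel).  By `acti_of_fixed` and `acti_common` with `H = X ^ j + 1` there is a common divisor `D` of
`P` and `X ^ j + 1` with `acti n D ε = 0`; `card_acti_le`: at most `2 ^ natDegree D`.
`D` divides `X ^ (j - 4 b) * P`, and modulo `X ^ j + 1` this is
`(1 + X) expand 4 (M X ^ (n / 8 - b)) + (l1 X + l2 X^2 + l4 X^3 + l8 X^4)` (since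
`X ^ (4 b + 1) X ^ (j - 4 b) = X · X ^ j ≡ X`), so `pol_gcd` (with its coefficients
`(l1, l2, l4, l8) := (l8, l4, l2, l1)` and `M := M * X ^ (n / 8 - b)`) gives
`natDegree D ≤ j / 4 + 2 = n / 8 + 2`. -/

namespace RunMult

open Finset Polynomial

section

variable {F : Type} [Field F] [Fintype F] [DecidableEq F] [Algebra (ZMod 2) F]

omit [Fintype F] [DecidableEq F] in
private theorem Ka2_C (n : ℕ) (c : ZMod 2) (G : (ZMod 2)[X]) (x : F) :
    acti n (C c * G) x = c • acti n G x := by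
  unfold acti
  rw [map_mul, aeval_C, Module.End.mul_apply, Module.algebraMap_end_apply]

omit [Fintype F] [DecidableEq F] in
private theorem Ka2_sum {ι : Type} (n : ℕ) (t : Finset ι) (f : ι → (ZMod 2)[X]) (x : F) :
    acti n (∑ i ∈ t, f i) x = ∑ i ∈ t, acti n (f i) x := by
  unfold acti
  rw [map_sum, LinearMap.sum_apply]

private theorem Ka2_pure (n : ℕ) (hn : 256 ≤ n) (hF : Fintype.card F = 2 ^ n)
    (M : (ZMod 2)[X]) (hM : M.degree < (n / 8 : ℕ)) (x : F) :
    acti n ((1 + X) * expand (ZMod 2) 4 M) x = gpu n M x := by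
  have hnd : M.natDegree < n / 8 := by
    by_cases h0 : M = 0
    · rw [h0, natDegree_zero]
      omega
    · exact (natDegree_lt_iff_degree_lt h0).mpr hM
  have h1 : (1 + X) * expand (ZMod 2) 4 M
      = ∑ m ∈ range (n / 8), C (M.coeff m) * (X ^ (4 * m) + X ^ (4 * m + 1)) := by
    conv_lhs => rw [M.as_sum_range' (n / 8) hnd]
    rw [map_sum, Finset.mul_sum]
    refine Finset.sum_congr rfl fun m _ => ?_
    rw [expand_monomial, ← C_mul_X_pow_eq_monomial, mul_comm m 4]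
    ring
  rw [h1, Ka2_sum]
  unfold gpu
  refine Finset.sum_congr rfl fun m hm => ?_
  rw [mem_range] at hm
  rw [Ka2_C, acti_add, acti_X_pow n hF (4 * m) (by omega), acti_X_pow n hF (4 * m + 1) (by omega),
    Nat.sub_sub]

private theorem Ka2_loc (n : ℕ) (hn : 256 ≤ n) (hF : Fintype.card F = 2 ^ n) (b : ℕ)
    (hb : b < n / 8) (L : ℕ → ZMod 2) (x : F) :
    acti n (X ^ (4 * b + 1) * (C (L 0) + C (L 1) * X + C (L 3) * X ^ 2 + C (L 7) * X ^ 3)) x
      = gco n b L 1 x := by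
  have h1 : (X ^ (4 * b + 1) * (C (L 0) + C (L 1) * X + C (L 3) * X ^ 2 + C (L 7) * X ^ 3) :
      (ZMod 2)[X]) = C (L 0) * X ^ (4 * b + 1) + C (L 1) * X ^ (4 * b + 2)
        + C (L 3) * X ^ (4 * b + 3) + C (L 7) * X ^ (4 * b + 4) := by ring
  rw [h1, acti_add, acti_add, acti_add, Ka2_C, Ka2_C, Ka2_C, Ka2_C,
    acti_X_pow n hF _ (by omega), acti_X_pow n hF _ (by omega), acti_X_pow n hF _ (by omega),
    acti_X_pow n hF _ (by omega)]
  unfold gco
  simp only [Finset.sum_range_succ, Finset.sum_range_zero]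
  norm_num
  have e0 : n - (4 * b + 1) = n - 4 * b - 1 := by omega
  have e1 : n - (4 * b + 2) = n - 4 * b - 1 - 1 := by omega
  have e2 : n - (4 * b + 3) = n - 4 * b - 1 - 2 := by omega
  have e3 : n - (4 * b + 4) = n - 4 * b - 1 - 3 := by omega
  rw [e0, e1, e2, e3]

/-- the kernel on the fixed field of the involution -/
private theorem Ka2_ker (n : ℕ) (hn : 256 ≤ n) (h16 : 16 ∣ n) (hF : Fintype.card F = 2 ^ n) (b : ℕ)
    (hb : b < n / 8) (M : (ZMod 2)[X]) (L : ℕ → ZMod 2)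
    (h : ¬ (L 0 = 0 ∧ L 1 = 0 ∧ L 3 = 0 ∧ L 7 = 0)) :
    Nat.card {e : F // e ^ (2 ^ (n / 2)) = e ∧
      acti n ((1 + X) * expand (ZMod 2) 4 M
        + X ^ (4 * b + 1) * (C (L 0) + C (L 1) * X + C (L 3) * X ^ 2 + C (L 7) * X ^ 3)) e = 0}
      ≤ 2 ^ (n / 8 + 2) := by
  set Q : (ZMod 2)[X] := C (L 0) + C (L 1) * X + C (L 3) * X ^ 2 + C (L 7) * X ^ 3 with hQ
  set P : (ZMod 2)[X] := (1 + X) * expand (ZMod 2) 4 M + X ^ (4 * b + 1) * Q with hP
  have hH : (X ^ (n / 2) + 1 : (ZMod 2)[X]) ≠ 0 := by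
    have : (X ^ (n / 2) + C 1 : (ZMod 2)[X]).Monic := monic_X_pow_add_C _ (by omega)
    rw [C_1] at this
    exact this.ne_zero
  obtain ⟨D, hD1, hD2, hD3⟩ := acti_common (F := F) n P (X ^ (n / 2) + 1) hH
  have hD0 : D ≠ 0 := by
    rintro rfl
    rw [zero_dvd_iff] at hD2
    exact hH hD2
  have h4 : 4 * (n / 8 - b) = n / 2 - 4 * b := by omega
  have htgt : C (L 7) * X ^ 4 + C (L 3) * X ^ 3 + C (L 1) * X ^ 2 + C (L 0) * X +
      (X + 1) * expand (ZMod 2) 4 (M * X ^ (n / 8 - b))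
      = X ^ (n / 2 - 4 * b) * P + (X ^ (n / 2) + 1) * (X * Q) := by
    have e1 : expand (ZMod 2) 4 (M * X ^ (n / 8 - b))
        = expand (ZMod 2) 4 M * X ^ (n / 2 - 4 * b) := by
      rw [map_mul, map_pow, expand_X, ← pow_mul, h4]
    have e2 : (X ^ (n / 2) : (ZMod 2)[X]) = X ^ (n / 2 - 4 * b) * X ^ (4 * b) := by
      rw [← pow_add]
      congr 1
      omega
    have h2 : (2 : (ZMod 2)[X]) = 0 := by
      have h : ((2 : ℕ) : (ZMod 2)[X]) = 0 := CharP.cast_eq_zero _ 2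
      exact_mod_cast h
    rw [e1, hP, e2, hQ]
    linear_combination (-(X ^ (n / 2 - 4 * b) * X ^ (4 * b) * X *
      (C (L 0) + C (L 1) * X + C (L 3) * X ^ 2 + C (L 7) * X ^ 3))) * h2
  have hDt : D ∣ C (L 7) * X ^ 4 + C (L 3) * X ^ 3 + C (L 1) * X ^ 2 + C (L 0) * X +
      (X + 1) * expand (ZMod 2) 4 (M * X ^ (n / 8 - b)) := by
    rw [htgt]
    exact dvd_add (Dvd.dvd.mul_left hD1 _) (Dvd.dvd.mul_right hD2 _)
  have hdeg := pol_gcd (n / 2) (by omega) (by omega) (M * X ^ (n / 8 - b)) (L 7) (L 3) (L 1) (L 0)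
    (by
      rintro ⟨a1, a2, a3, a4⟩
      exact h ⟨a4, a3, a2, a1⟩) D hDt hD2
  have hcard := card_acti_le (F := F) n hF D hD0
  refine le_trans ?_ (hcard.trans (Nat.pow_le_pow_right (by norm_num) (by omega)))
  refine Nat.card_le_card_of_injective
    (fun e : {e : F // e ^ (2 ^ (n / 2)) = e ∧ acti n P e = 0} =>
      (⟨e.1, hD3 e.1 e.2.2 (acti_of_fixed n (n / 2) hF (by omega) e.1 e.2.1)⟩ :
        {x : F // acti n D x = 0})) ?_
  intro e e' hee
  apply Subtype.ext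
  exact congrArg (fun z : {x : F // acti n D x = 0} => z.1) hee

private theorem Ka2_16 : (univ.filter fun y : F => y ^ 16 = y).card ≤ 16 := by
  have hP0 : (X ^ 16 - X : F[X]).natDegree = 16 :=
    FiniteField.X_pow_card_sub_X_natDegree_eq F (by norm_num)
  have hP : (X ^ 16 - X : F[X]) ≠ 0 := by
    intro h
    rw [h, natDegree_zero] at hP0
    exact absurd hP0 (by norm_num)
  calc (univ.filter fun y : F => y ^ 16 = y).card
      ≤ (X ^ 16 - X : F[X]).roots.toFinset.card := by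
        apply card_le_card
        intro x hx
        simp only [mem_filter, mem_univ, true_and] at hx
        rw [Multiset.mem_toFinset, mem_roots hP, IsRoot.def]
        simp only [eval_sub, eval_pow, eval_X]
        rw [hx, sub_self]
    _ ≤ Multiset.card (X ^ 16 - X : F[X]).roots := Multiset.toFinset_card_le _
    _ ≤ (X ^ 16 - X : F[X]).natDegree := card_roots' _
    _ = 16 := hP0

theorem card_gam2 (n : ℕ) (hn : 256 ≤ n) (h16 : 16 ∣ n) (hF : Fintype.card F = 2 ^ n) (b : ℕ)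
    (hb : b < n / 8) (M : (ZMod 2)[X]) (hM : M.degree < (n / 8 : ℕ)) (L : ℕ → ZMod 2)
    (h : ¬ (L 0 = 0 ∧ L 1 = 0 ∧ L 3 = 0 ∧ L 7 = 0)) :
    Nat.card {e : F // (gpu n M (T2 (n / 2) e) + gco n b L 1 (T2 (n / 2) e)) ^ 16 =
      gpu n M (T2 (n / 2) e) + gco n b L 1 (T2 (n / 2) e)} ≤ 2 ^ (n / 2 + n / 8 + 6) := by
  classical
  set P : (ZMod 2)[X] := (1 + X) * expand (ZMod 2) 4 M
    + X ^ (4 * b + 1) * (C (L 0) + C (L 1) * X + C (L 3) * X ^ 2 + C (L 7) * X ^ 3) with hP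
  have hg : ∀ x : F, gpu n M x + gco n b L 1 x = acti n P x := by
    intro x
    rw [hP, acti_add, Ka2_pure n hn hF M hM x, Ka2_loc n hn hF b hb L x]
  have hfib := card_T2_fibre (F := F) n (n / 2) (by omega) (by omega) hF
    (fun ε => (gpu n M ε + gco n b L 1 ε) ^ 16 = gpu n M ε + gco n b L 1 ε)
  refine hfib.trans ?_
  rw [show n / 2 + n / 8 + 6 = n / 2 + (4 + (n / 8 + 2)) by omega, pow_add 2 (n / 2),
    pow_add 2 4 (n / 8 + 2)]
  refine Nat.mul_le_mul_left _ ?_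
  simp only [hg]
  have hker := Ka2_ker (F := F) n hn h16 hF b hb M L h
  rw [← hP] at hker
  rw [Nat.card_eq_fintype_card, Fintype.card_subtype] at hker ⊢
  set S : Finset F := univ.filter fun e : F => e ^ (2 ^ (n / 2)) = e ∧
    (acti n P e) ^ 16 = acti n P e with hS
  set K : Finset F := univ.filter fun e : F => e ^ (2 ^ (n / 2)) = e ∧ acti n P e = 0 with hK
  have himg : (S.image (acti n P)).card ≤ 16 := by
    refine (card_le_card ?_).trans (Ka2_16 (F := F))
    intro y hy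
    rw [mem_image] at hy
    obtain ⟨e, he, rfl⟩ := hy
    rw [hS, mem_filter] at he
    rw [mem_filter]
    exact ⟨mem_univ _, he.2.2⟩
  have hch : ∀ x : F, x + x = 0 := by
    intro x
    rw [← two_mul, two_eq_zero' F, zero_mul]
  have hfibre : ∀ y ∈ S.image (acti n P), (S.filter fun x => acti n P x = y).card ≤ K.card := by
    intro y hy
    rw [mem_image] at hy
    obtain ⟨e0, he0, rfl⟩ := hy
    rw [hS, mem_filter] at he0
    refine card_le_card_of_injOn (fun x => x + e0) ?_ ?_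
    · intro x hx
      rw [mem_coe, mem_filter, hS, mem_filter] at hx
      obtain ⟨⟨_, hx1, _⟩, hx2⟩ := hx
      rw [mem_coe, hK, mem_filter]
      refine ⟨mem_univ _, ?_, ?_⟩
      · rw [add_pow2, hx1, he0.2.1]
      · rw [acti_add_right, hx2]
        exact hch _
    · intro x _ x' _ hxx
      exact add_right_cancel hxx
  have hmain := Finset.card_le_mul_card_image S K.card hfibre
  calc S.card ≤ K.card * (S.image (acti n P)).card := hmain
    _ ≤ 2 ^ (n / 8 + 2) * 16 := Nat.mul_le_mul hker himg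
    _ = 2 ^ 4 * 2 ^ (n / 8 + 2) := by ring

end

end RunMult
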