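import Pool.Agent.Lib.MP_d16eef_co.Q.Gam

/-! AD-Ka3 : few dual vectors if an exponent different from `± 1` occurs.
`card_T2_fibre` with `P ε = (∀ i ≤ 17, i ≠ 9 → i ≠ 8 → gam .. = 0)` (a condition on
`ε = T2 (n/2) e` only) reduces to: at most 4 elements `ε` satisfy it.  If `κ ≠ 0` (so `κ = 1`) then
`i = 17` gives `ε = 0`.  Otherwise there is `i < 15`, `i + 1 = o 2 ^ v` with `o ∈ {3, 5, .., 15}`, with
`L i ≠ 0` (or `L' i ≠ 0`, symmetric); then `gco n b L o ε = 0` where
`gco n b L o ε = ∑_{v ≤ 2} l_v ε ^ (2 ^ (N - v))`, `N = n - 4 b - 1 ≥ 2`, `l_v = L (o 2 ^ v - 1)` (the term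
`v = 3` is absent since `8 o > 15`), not all `l_v` are 0 (for `i` with `i + 1 = o 2 ^ v`, `v ≤ 2`); put
`y = ε ^ (2 ^ (N - 2))` (injective): `l_0 y ^ 4 + l_1 y ^ 2 + l_2 y = 0` has at most 4 solutions
(`interval_cases i` for the cases; 11 values of `i`). -/

namespace RunMult

open Finset Polynomial

section

variable {F : Type} [Field F] [Fintype F] [DecidableEq F] [Algebra (ZMod 2) F]

omit [Fintype F] [DecidableEq F] in
private theorem pow2_inj (s : ℕ) : Function.Injective (fun x : F => x ^ (2 ^ s)) := by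
  intro x y hxy
  simp only at hxy
  have h := add_pow2 x y s
  have h2 : x ^ (2 ^ s) + y ^ (2 ^ s) = 0 := by
    rw [hxy, ← two_mul, two_eq_zero', zero_mul]
  rw [h2] at h
  have h3 : x + y = 0 := by
    by_contra h4
    exact pow_ne_zero _ h4 h
  have h5 : y + y = 0 := by rw [← two_mul, two_eq_zero', zero_mul]
  have h6 : x + y = y + y := by rw [h3, h5]
  exact add_right_cancel h6

omit [DecidableEq F] in
private theorem few (N : ℕ) (hN : 2 ≤ N) (c0 c1 c2 : ZMod 2)
    (h : c0 ≠ 0 ∨ c1 ≠ 0 ∨ c2 ≠ 0) (P : F → Prop)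
    (hP : ∀ ε, P ε → c0 • ε ^ (2 ^ N) + c1 • ε ^ (2 ^ (N - 1)) + c2 • ε ^ (2 ^ (N - 2)) = 0) :
    Nat.card {ε : F // P ε} ≤ 4 := by
  classical
  set p : F[X] := C (algebraMap (ZMod 2) F c0) * X ^ 4 + C (algebraMap (ZMod 2) F c1) * X ^ 2 +
    C (algebraMap (ZMod 2) F c2) * X with hpdef
  have hinj := (algebraMap (ZMod 2) F).injective
  have hp : p ≠ 0 := by
    intro h0
    have h4 : p.coeff 4 = algebraMap (ZMod 2) F c0 := by
      simp [hpdef, coeff_X_pow]
    have h2 : p.coeff 2 = algebraMap (ZMod 2) F c1 := by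
      simp [hpdef, coeff_X_pow]
    have h1 : p.coeff 1 = algebraMap (ZMod 2) F c2 := by
      simp [hpdef, coeff_X_pow]
    rw [h0, coeff_zero] at h4 h2 h1
    rcases h with h | h | h
    · exact h (hinj (by rw [← h4, map_zero]))
    · exact h (hinj (by rw [← h2, map_zero]))
    · exact h (hinj (by rw [← h1, map_zero]))
  have hdeg : p.natDegree ≤ 4 := by
    rw [hpdef]
    compute_degree
  have hroots : p.roots.toFinset.card ≤ 4 :=
    (Multiset.toFinset_card_le _).trans ((card_roots' p).trans hdeg)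
  have hmem : ∀ ε : F, P ε → ε ^ (2 ^ (N - 2)) ∈ p.roots.toFinset := by
    intro ε hε
    rw [Multiset.mem_toFinset, mem_roots hp, IsRoot.def, hpdef]
    have h1 := hP ε hε
    have e1 : 2 ^ N = 2 ^ (N - 2) * 4 := by
      obtain ⟨k, rfl⟩ := Nat.exists_eq_add_of_le hN
      rw [Nat.add_sub_cancel_left, pow_add]; ring
    have e2 : 2 ^ (N - 1) = 2 ^ (N - 2) * 2 := by
      obtain ⟨k, rfl⟩ := Nat.exists_eq_add_of_le hN
      rw [Nat.add_sub_cancel_left, show 2 + k - 1 = k + 1 by omega, pow_succ]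
    rw [e1, e2, pow_mul, pow_mul] at h1
    simp only [Algebra.smul_def] at h1
    simpa using h1
  calc Nat.card {ε : F // P ε} ≤ Nat.card {y : F // y ∈ p.roots.toFinset} := by
        apply Nat.card_le_card_of_injective
          (fun x : {ε : F // P ε} => (⟨x.1 ^ (2 ^ (N - 2)), hmem x.1 x.2⟩ :
            {y : F // y ∈ p.roots.toFinset}))
        intro x y hxy
        have := congrArg Subtype.val hxy
        exact Subtype.ext (pow2_inj (N - 2) this)
    _ = p.roots.toFinset.card := by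
        rw [Nat.card_eq_fintype_card, Fintype.card_coe]
    _ ≤ 4 := hroots

omit [Fintype F] [DecidableEq F] in
private theorem gco_eq (n b : ℕ) (L : ℕ → ZMod 2) (o : ℕ) (ho : 3 ≤ o) (ε : F) :
    gco n b L o ε = L (o - 1) • (if o ≤ 15 then ε ^ (2 ^ (n - 4 * b - 1)) else 0) +
      (if o * 2 ≤ 15 then L (o * 2 - 1) else 0) • ε ^ (2 ^ (n - 4 * b - 1 - 1)) +
      (if o * 4 ≤ 15 then L (o * 4 - 1) else 0) • ε ^ (2 ^ (n - 4 * b - 1 - 2)) := by
  have h8 : ¬ (o * 8 ≤ 15) := by omega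
  unfold gco
  simp only [Finset.sum_range_succ, Finset.sum_range_zero, pow_zero, pow_one, mul_one, zero_add,
    Nat.sub_zero, show (2 : ℕ) ^ 2 = 4 from rfl, show (2 : ℕ) ^ 3 = 8 from rfl, if_neg h8, add_zero]
  congr 1
  · congr 1
    · split_ifs <;> simp
    · split_ifs <;> simp
  · split_ifs <;> simp

omit [DecidableEq F] in
private theorem few_gco (n : ℕ) (hn : 256 ≤ n) (b : ℕ)
    (hb : b < n / 8) (L : ℕ → ZMod 2) (i : ℕ) (hi : i < 15) (h0 : i ≠ 0) (h1 : i ≠ 1) (h3 : i ≠ 3)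
    (h7 : i ≠ 7) (hL : L i ≠ 0) (P : F → Prop)
    (hP : ∀ ε, P ε → ∀ o, 3 ≤ o → o ≤ 15 → o % 2 = 1 → gco n b L o ε = 0) :
    Nat.card {ε : F // P ε} ≤ 4 := by
  have key : ∀ o, 3 ≤ o → o ≤ 15 → o % 2 = 1 → (L (o - 1) ≠ 0 ∨
      (if o * 2 ≤ 15 then L (o * 2 - 1) else 0) ≠ 0 ∨
      (if o * 4 ≤ 15 then L (o * 4 - 1) else 0) ≠ 0) → Nat.card {ε : F // P ε} ≤ 4 := by
    intro o ho ho' ho2 hne
    refine few (n - 4 * b - 1) (by omega) _ _ _ hne P ?_
    intro ε hε
    have h := hP ε hε o ho ho' ho2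
    rw [gco_eq n b L o ho ε, if_pos ho'] at h
    exact h
  have hcases : i = 2 ∨ i = 4 ∨ i = 5 ∨ i = 6 ∨ i = 8 ∨ i = 9 ∨ i = 10 ∨ i = 11 ∨ i = 12 ∨
      i = 13 ∨ i = 14 := by omega
  rcases hcases with rfl | rfl | rfl | rfl | rfl | rfl | rfl | rfl | rfl | rfl | rfl
  · exact key 3 (by norm_num) (by norm_num) (by norm_num) (Or.inl hL)
  · exact key 5 (by norm_num) (by norm_num) (by norm_num) (Or.inl hL)
  · exact key 3 (by norm_num) (by norm_num) (by norm_num) (Or.inr (Or.inl (by simpa using hL)))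
  · exact key 7 (by norm_num) (by norm_num) (by norm_num) (Or.inl hL)
  · exact key 9 (by norm_num) (by norm_num) (by norm_num) (Or.inl hL)
  · exact key 5 (by norm_num) (by norm_num) (by norm_num) (Or.inr (Or.inl (by simpa using hL)))
  · exact key 11 (by norm_num) (by norm_num) (by norm_num) (Or.inl hL)
  · exact key 3 (by norm_num) (by norm_num) (by norm_num) (Or.inr (Or.inr (by simpa using hL)))
  · exact key 13 (by norm_num) (by norm_num) (by norm_num) (Or.inl hL)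
  · exact key 7 (by norm_num) (by norm_num) (by norm_num) (Or.inr (Or.inl (by simpa using hL)))
  · exact key 15 (by norm_num) (by norm_num) (by norm_num) (Or.inl hL)

/-- few dual vectors if an exponent different from `±1` occurs -/
theorem card_gam3 (n : ℕ) (hn : 256 ≤ n) (h16 : 16 ∣ n) (hF : Fintype.card F = 2 ^ n) (b : ℕ)
    (hb : b < n / 8) (M M' : (ZMod 2)[X]) (L L' : ℕ → ZMod 2) (κ : ZMod 2)
    (h : κ ≠ 0 ∨ ∃ i < 15, i ≠ 0 ∧ i ≠ 1 ∧ i ≠ 3 ∧ i ≠ 7 ∧ (L i ≠ 0 ∨ L' i ≠ 0)) :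
    Nat.card {e : F // ∀ i ≤ 17, i ≠ 9 → i ≠ 8 → gam n b M M' L L' κ e i = 0} ≤
      4 * 2 ^ (n / 2) := by
  classical
  set P : F → Prop := fun ε => κ • ε = 0 ∧
    (∀ o, 3 ≤ o → o ≤ 15 → o % 2 = 1 → gco n b L o ε = 0) ∧
    (∀ o, 3 ≤ o → o ≤ 15 → o % 2 = 1 → gco n b L' o ε = 0) with hPdef
  have hsub : Nat.card {e : F // ∀ i ≤ 17, i ≠ 9 → i ≠ 8 → gam n b M M' L L' κ e i = 0} ≤
      Nat.card {e : F // P (T2 (n / 2) e)} := by
    apply Nat.card_le_card_of_injective
      (fun x : {e : F // ∀ i ≤ 17, i ≠ 9 → i ≠ 8 → gam n b M M' L L' κ e i = 0} =>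
        (⟨x.1, ?_⟩ : {e : F // P (T2 (n / 2) e)}))
    · intro x y hxy
      have := congrArg Subtype.val hxy
      exact Subtype.ext this
    · obtain ⟨e, he⟩ := x
      refine ⟨?_, ?_, ?_⟩
      · have := he 17 (by norm_num) (by norm_num) (by norm_num)
        simpa [gam] using this
      · intro o ho ho' ho2
        have h1 := he ((o + 17) / 2) (by omega) (by omega) (by omega)
        unfold gam at h1
        rw [if_neg (by omega), if_neg (by omega), if_pos (by omega)] at h1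
        rwa [show 2 * ((o + 17) / 2) - 17 = o by omega] at h1
      · intro o ho ho' ho2
        have h1 := he ((17 - o) / 2) (by omega) (by omega) (by omega)
        unfold gam at h1
        rw [if_neg (by omega), if_neg (by omega), if_neg (by omega), if_pos (by omega)] at h1
        rwa [show 17 - 2 * ((17 - o) / 2) = o by omega] at h1
  have hfib := card_T2_fibre n (n / 2) (by omega) (by omega) hF P
  have h4 : Nat.card {e : F // e ^ (2 ^ (n / 2)) = e ∧ P e} ≤ 4 := by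
    rcases h with hκ | ⟨i, hi, h0, h1, h3, h7, hL | hL⟩
    · refine few 2 le_rfl 0 0 1 (Or.inr (Or.inr one_ne_zero)) _ ?_
      rintro ε ⟨_, hε, _⟩
      have h1 : κ = 1 := by
        have hall : ∀ c : ZMod 2, c ≠ 0 → c = 1 := by decide
        exact hall κ hκ
      rw [h1, one_smul] at hε
      rw [hε]
      simp
    · exact few_gco n hn b hb L i hi h0 h1 h3 h7 hL _ (fun ε hε => hε.2.2.1)
    · exact few_gco n hn b hb L' i hi h0 h1 h3 h7 hL _ (fun ε hε => hε.2.2.2)
  calc _ ≤ _ := hsub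
    _ ≤ _ := hfib
    _ ≤ 2 ^ (n / 2) * 4 := Nat.mul_le_mul_left _ h4
    _ = 4 * 2 ^ (n / 2) := by ring

end

end RunMult
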