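import Pool.Agent.Lib.MP_d16eef_co.Q.Fr4

/-! AD-Lift : independence over the big field from the values of `T2`.
Put `λ = ∑ c_k • y_k`, `μ = ∑ c'_k • y_k`.  Apply `T2 j` to the relation: `T2 j (μ ^ (2 ^ j)) = T2 j μ`
(as `μ ^ (2 ^ (2 j)) = μ`) and `T2 j (e • 1) = 0`, so `T2 j (λ + μ) = 0`, i.e.
`T2 j (∑ (c + c')_k • y_k) = 0`, hence `c + c' = 0` by `hE`, so `c = c'` (characteristic 2) and
`λ = μ`.  The relation becomes `T2 j λ = e • 1 ∈ {0, 1}`, so `c = 0` by `hE`, and then
`e • 1 = 0`, `e = 0`. -/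

namespace RunMult

open Finset Polynomial

section

variable {F : Type} [Field F] [Fintype F] [DecidableEq F] [Algebra (ZMod 2) F]

theorem lift_indep {ι : Type} [Fintype ι] (n j : ℕ) (hnj : n = 2 * j)
    (hF : Fintype.card F = 2 ^ n) (y : ι → F)
    (hE : ∀ c : ι → ZMod 2, c ≠ 0 → T2 j (∑ k, c k • y k) ≠ 0 ∧ T2 j (∑ k, c k • y k) ≠ 1)
    (c c' : ι → ZMod 2) (e : ZMod 2)
    (h : ∑ k, c k • y k + (∑ k, c' k • y k) ^ (2 ^ j) + e • (1 : F) = 0) :
    c = 0 ∧ c' = 0 ∧ e = 0 := by
  have two : ∀ x : F, x + x = 0 := by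
    intro x
    rw [← two_mul, two_eq_zero' F, zero_mul]
  have h1 : T2 j (∑ k, c k • y k) + T2 j (∑ k, c' k • y k) = 0 := by
    have h2 := congrArg (T2 j) h
    rw [T2_add, T2_add, T2_pow2, T2_fixed n j hnj hF, T2_smul, T2_one, smul_zero, add_zero,
      T2_zero] at h2
    exact h2
  have h3 : c + c' = 0 := by
    by_contra hne
    apply (hE (c + c') hne).1
    have h4 : ∑ k, (c + c') k • y k = ∑ k, c k • y k + ∑ k, c' k • y k := by
      rw [← Finset.sum_add_distrib]
      exact Finset.sum_congr rfl fun k _ => add_smul _ _ _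
    rw [h4, T2_add, h1]
  have h5 : c' = c := by
    funext k
    have h6 : c k + c' k = 0 := congrFun h3 k
    have h7 : ∀ u v : ZMod 2, u + v = 0 → v = u := by decide
    exact h7 _ _ h6
  subst h5
  have h8 : T2 j (∑ k, c' k • y k) = e • (1 : F) := by
    have h9 : T2 j (∑ k, c' k • y k) + e • (1 : F) = 0 := h
    have h10 := two (e • (1 : F))
    exact add_right_cancel (h9.trans h10.symm)
  have h11 : c' = 0 := by
    by_contra hne
    have h12 := hE c' hne
    rcases (show ∀ u : ZMod 2, u = 0 ∨ u = 1 by decide) e with he | he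
    · rw [he, zero_smul] at h8
      exact h12.1 h8
    · rw [he, one_smul] at h8
      exact h12.2 h8
  refine ⟨h11, h11, ?_⟩
  rcases (show ∀ u : ZMod 2, u = 0 ∨ u = 1 by decide) e with he | he
  · exact he
  · exfalso
    rw [h11, he] at h8
    simp only [Pi.zero_apply, zero_smul, Finset.sum_const_zero, one_smul] at h8
    rw [T2_zero] at h8
    exact zero_ne_one h8

end

end RunMult
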