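import Pool.Agent.Lib.MP_d16eef_co.Basic

/-! AD-Lin : the number of solutions of a linear system given by linearly independent functionals.
The map `Φ : F → (ι → ZMod 2)`, `x ↦ fun k => tr (x * y k)` is additive; it is surjective, since its
range is a subspace of `ι → ZMod 2` whose orthogonal complement is 0 (if `∑ c_k tr (x y_k) = 0` for
all `x` then `tr (x * ∑ c_k y_k) = 0` for all `x`, so `∑ c_k • y_k = 0` by `tr_nondeg`, so `c = 0`).
Then all fibres have the same size `2 ^ n / 2 ^ |ι|`.
Alternative (characters, no linear algebra): with `sg`, the number of solutions is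
`2 ^ (-|ι|) ∑_{c} ∑_x ∏_k sg (c_k (tr (x y_k) + t_k))` and the inner sum over `x` is 0 unless
`∑ c_k • y_k = 0`, i.e. `c = 0` (see `chs_sg_add`, `chs_sg_sum` in CharCount.lean and `card_tr_eq`). -/

namespace RunMult

open Finset Polynomial

section

variable {F : Type} [Field F] [Fintype F] [DecidableEq F] [Algebra (ZMod 2) F]

theorem card_sol {ι : Type} [Fintype ι] (n : ℕ) (hF : Fintype.card F = 2 ^ n) (y : ι → F)
    (hy : ∀ c : ι → ZMod 2, ∑ k, c k • y k = 0 → c = 0) (t : ι → ZMod 2) :
    Nat.card {x : F // ∀ k, tr (x * y k) = t k} = 2 ^ (n - Fintype.card ι) := by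
  classical
  let Φ : F →ₗ[ZMod 2] (ι → ZMod 2) :=
    { toFun := fun x k => tr (x * y k)
      map_add' := fun u v => by
        funext k
        rw [Pi.add_apply, add_mul, tr_add]
      map_smul' := fun c u => by
        funext k
        rw [RingHom.id_apply, Pi.smul_apply, smul_mul_assoc, tr_smul] }
  have hΦ : ∀ x k, Φ x k = tr (x * y k) := fun x k => rfl
  have hsurj : LinearMap.range Φ = ⊤ := by
    by_contra hne
    obtain ⟨f, hf0, hf⟩ := Submodule.exists_le_ker_of_lt_top _ (lt_top_iff_ne_top.mpr hne)
    have hfv : ∀ v : ι → ZMod 2, f v = ∑ k, v k * f (Pi.single k 1) := by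
      intro v
      conv_lhs => rw [pi_eq_sum_univ' v]
      rw [map_sum]
      refine Finset.sum_congr rfl fun k _ => ?_
      rw [map_smul, smul_eq_mul]
    have h0 : ∑ k, f (Pi.single k 1) • y k = 0 := by
      refine tr_nondeg _ fun z => ?_
      have h1 : f (Φ z) = 0 := hf (LinearMap.mem_range_self Φ z)
      rw [hfv] at h1
      rw [← h1, Finset.sum_mul, tr_sum]
      refine Finset.sum_congr rfl fun k _ => ?_
      rw [hΦ, smul_mul_assoc, tr_smul, smul_eq_mul, mul_comm, mul_comm (y k) z]
    have h2 := hy _ h0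
    apply hf0
    refine LinearMap.ext fun v => ?_
    rw [hfv, LinearMap.zero_apply]
    refine Finset.sum_eq_zero fun k _ => ?_
    have h3 : f (Pi.single k 1) = 0 := congrFun h2 k
    rw [h3, mul_zero]
  obtain ⟨x0, hx0⟩ := LinearMap.range_eq_top.mp hsurj t
  have e1 : Nat.card {x : F // ∀ k, tr (x * y k) = t k} = Nat.card (LinearMap.ker Φ) := by
    refine Nat.card_congr
      { toFun := fun x => ⟨x.1 - x0, ?_⟩
        invFun := fun x => ⟨x.1 + x0, ?_⟩
        left_inv := ?_
        right_inv := ?_ }
    · rw [LinearMap.mem_ker, map_sub, hx0, sub_eq_zero]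
      funext k
      exact x.2 k
    · intro k
      have h4 : Φ x.1 = 0 := x.2
      rw [← hΦ, map_add, h4, hx0, zero_add]
    · intro x
      exact Subtype.ext (sub_add_cancel _ _)
    · intro x
      exact Subtype.ext (add_sub_cancel_right _ _)
  have hfr := finrank_eq' n hF
  have h5 := LinearMap.finrank_range_add_finrank_ker Φ
  rw [hsurj, finrank_top, Module.finrank_fintype_fun_eq_card, hfr] at h5
  rw [e1, Module.natCard_eq_pow_finrank (K := ZMod 2), Nat.card_zmod]
  congr 1
  omega

end

end RunMult
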