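import Pool.Agent.Lib.MP_d16eef_co.Basic

/-! AD-Smf : sums over irreducible factors.
Third part: `f` monic irreducible over `ZMod 2` of degree 1 is `X` or `X + 1`; `X ∤ X ^ q + 1` (`q > 0`,
constant coefficient 1) and `f ≠ X + 1`; degree 0 is not irreducible; `deg f ≤ q` by divisibility.
First part: the number of `f ∈ S` of degree `d` is at most the number `2 ^ d` of monic polynomials of
degree `d` (inject by the lower coefficients), so the sum is at most
`∑_{d = 2}^{q} 2 ^ d (2 ^ d + 1) / 2 ^ (4 d) = ∑ (4 ^ (-d) + 8 ^ (-d)) ≤ 1/12 + 1/56 < 1/8`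
(`Finset.sum_fiberwise_of_maps_to` by degree; prove by induction on `q` that
`∑_{d=2}^{q} (4 ^ (-d) + 8 ^ (-d)) ≤ 1/8 - something · 4 ^ (-q)`, e.g. `≤ 1/12 + 1/56 - 4^(-q)/3 - 8^(-q)/7`).
Second part: `S` has at most `q` elements (distinct monic irreducible divisors of `X ^ q + 1`, of degree
`≥ 1`, their product divides it: `Finset.prod_dvd_of_coprime`), each term `≤ 2 ^ q + 1`. -/

namespace RunMult

open Finset Polynomial

section

variable {F : Type} [Field F] [Fintype F] [DecidableEq F] [Algebra (ZMod 2) F]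

private theorem smf_deg (q : ℕ) (hq : 0 < q) (f : (ZMod 2)[X]) (hm : f.Monic)
    (hi : Irreducible f) (hd : f ∣ X ^ q + 1) (hne : f ≠ X + 1) :
    2 ≤ f.natDegree ∧ f.natDegree ≤ q := by
  have h1 : 0 < f.natDegree := hi.natDegree_pos
  have hdeg : (X ^ q + 1 : (ZMod 2)[X]).natDegree = q := by
    have := natDegree_X_pow_add_C (R := ZMod 2) (n := q) (r := 1)
    rwa [C_1] at this
  have hne0 : (X ^ q + 1 : (ZMod 2)[X]) ≠ 0 := by
    intro h
    rw [h, natDegree_zero] at hdeg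
    omega
  refine ⟨?_, (natDegree_le_of_dvd hd hne0).trans_eq hdeg⟩
  by_contra hlt
  have h2 : f.natDegree = 1 := by omega
  have h3 := hm.eq_X_add_C h2
  rcases (show ∀ u : ZMod 2, u = 0 ∨ u = 1 by decide) (f.coeff 0) with h | h
  · rw [h, C_0, add_zero] at h3
    rw [h3, X_dvd_iff] at hd
    rw [coeff_add, coeff_X_pow, if_neg (by omega), zero_add, coeff_one_zero] at hd
    exact one_ne_zero hd
  · rw [h, C_1] at h3
    exact hne h3

private theorem smf_card (d : ℕ) (S : Finset (ZMod 2)[X])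
    (hS : ∀ f ∈ S, f.Monic ∧ f.natDegree = d) : S.card ≤ 2 ^ d := by
  classical
  have h : S.card ≤ (univ : Finset (Fin d → ZMod 2)).card := by
    refine card_le_card_of_injOn (fun f i => f.coeff i) (fun f _ => mem_coe.mpr (mem_univ _)) ?_
    intro f hf g hg hfg
    have hf' := hS f (mem_coe.mp hf)
    have hg' := hS g (mem_coe.mp hg)
    ext k
    rcases Nat.lt_trichotomy k d with h | h | h
    · exact congrFun hfg ⟨k, h⟩
    · have h1 := hf'.1.coeff_natDegree
      have h2 := hg'.1.coeff_natDegree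
      rw [hf'.2] at h1
      rw [hg'.2] at h2
      rw [h, h1, h2]
    · rw [coeff_eq_zero_of_natDegree_lt (by rw [hf'.2]; exact h),
        coeff_eq_zero_of_natDegree_lt (by rw [hg'.2]; exact h)]
  rwa [card_univ, Fintype.card_fun, ZMod.card, Fintype.card_fin] at h

private theorem smf_sum (q : ℕ) (hq : 1 ≤ q) :
    ∑ d ∈ Icc 2 q, (2 : ℚ) ^ d * (((2 : ℚ) ^ d + 1) / 2 ^ (4 * d)) ≤ 5 / 48 - 5 / 12 / 4 ^ q := by
  induction q, hq using Nat.le_induction with
  | base => norm_num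
  | succ q hq ih =>
    rw [sum_Icc_succ_top (by omega)]
    have h1 : (2 : ℚ) ^ (q + 1) * (((2 : ℚ) ^ (q + 1) + 1) / 2 ^ (4 * (q + 1)))
        ≤ 5 / 4 / 4 ^ (q + 1) := by
      set x : ℚ := 2 ^ (q + 1) with hx
      have hx4 : (4 : ℚ) ≤ x := by
        have : (2 : ℚ) ^ 2 ≤ 2 ^ (q + 1) := pow_le_pow_right₀ (by norm_num) (by omega)
        rw [hx]
        linarith
      have e1 : (2 : ℚ) ^ (4 * (q + 1)) = x ^ 4 := by rw [hx, ← pow_mul, mul_comm]
      have e2 : (4 : ℚ) ^ (q + 1) = x ^ 2 := by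
        rw [hx, ← pow_mul, mul_comm, pow_mul]
        norm_num
      rw [e1, e2]
      rw [mul_div_assoc', div_div, div_le_div_iff₀ (by positivity) (by positivity)]
      nlinarith [pow_pos (lt_of_lt_of_le (by norm_num : (0 : ℚ) < 4) hx4) 3]
    have h2 : (5 : ℚ) / 12 / 4 ^ q = 5 / 4 / 4 ^ (q + 1) + 5 / 12 / 4 ^ (q + 1) := by
      rw [pow_succ]
      field_simp
      norm_num
    linarith

/-- sums over the irreducible factors of `X ^ q + 1` different from `X + 1` -/
theorem sum_irr (q : ℕ) (hq : 0 < q) (S : Finset (ZMod 2)[X])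
    (hS : ∀ f ∈ S, f.Monic ∧ Irreducible f ∧ f ∣ X ^ q + 1 ∧ f ≠ X + 1) :
    (∑ f ∈ S, ((2 : ℚ) ^ f.natDegree + 1) / 2 ^ (4 * f.natDegree) ≤ 1 / 8) ∧
    (∑ f ∈ S, (2 ^ f.natDegree + 1) ≤ q * (2 ^ q + 1)) ∧ (∀ f ∈ S, 2 ≤ f.natDegree ∧ f.natDegree ≤ q) := by
  classical
  have hdeg : ∀ f ∈ S, 2 ≤ f.natDegree ∧ f.natDegree ≤ q := fun f hf =>
    smf_deg q hq f (hS f hf).1 (hS f hf).2.1 (hS f hf).2.2.1 (hS f hf).2.2.2
  refine ⟨?_, ?_, hdeg⟩
  · have hmaps : ∀ f ∈ S, f.natDegree ∈ Icc 2 q := fun f hf => mem_Icc.mpr (hdeg f hf)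
    rw [← sum_fiberwise_of_maps_to hmaps]
    have h1 : ∑ d ∈ Icc 2 q, ∑ f ∈ S with f.natDegree = d,
        ((2 : ℚ) ^ f.natDegree + 1) / 2 ^ (4 * f.natDegree)
        ≤ ∑ d ∈ Icc 2 q, (2 : ℚ) ^ d * (((2 : ℚ) ^ d + 1) / 2 ^ (4 * d)) := by
      refine sum_le_sum fun d _ => ?_
      have h2 : ∑ f ∈ S with f.natDegree = d,
          ((2 : ℚ) ^ f.natDegree + 1) / 2 ^ (4 * f.natDegree)
          = ∑ f ∈ S with f.natDegree = d, ((2 : ℚ) ^ d + 1) / 2 ^ (4 * d) := by
        refine sum_congr rfl fun f hf => ?_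
        rw [(mem_filter.mp hf).2]
      rw [h2, sum_const, nsmul_eq_mul]
      refine mul_le_mul_of_nonneg_right ?_ (by positivity)
      have h3 := smf_card d (S.filter fun f => f.natDegree = d) (fun f hf =>
        ⟨(hS f (mem_filter.mp hf).1).1, (mem_filter.mp hf).2⟩)
      exact_mod_cast h3
    refine h1.trans ((smf_sum q hq).trans ?_)
    have : (0 : ℚ) < 5 / 12 / 4 ^ q := by positivity
    linarith
  · have hprod : ∏ f ∈ S, f ∣ (X ^ q + 1 : (ZMod 2)[X]) := by
      refine Finset.prod_dvd_of_coprime ?_ fun f hf => (hS f hf).2.2.1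
      intro f hf g hg hfg
      have hf' := hS f (mem_coe.mp hf)
      have hg' := hS g (mem_coe.mp hg)
      show IsCoprime f g
      rw [hf'.2.1.coprime_iff_not_dvd]
      intro hdvd
      exact hfg (eq_of_monic_of_associated hf'.1 hg'.1
        (hf'.2.1.associated_of_dvd hg'.2.1 hdvd))
    have hdegq : (X ^ q + 1 : (ZMod 2)[X]).natDegree = q := by
      have := natDegree_X_pow_add_C (R := ZMod 2) (n := q) (r := 1)
      rwa [C_1] at this
    have hne0 : (X ^ q + 1 : (ZMod 2)[X]) ≠ 0 := by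
      intro h
      rw [h, natDegree_zero] at hdegq
      omega
    have h1 : ∑ f ∈ S, f.natDegree ≤ q := by
      have h2 := natDegree_le_of_dvd hprod hne0
      rwa [hdegq, natDegree_prod_of_monic _ _ fun f hf => (hS f hf).1] at h2
    have h3 : S.card ≤ q := by
      refine le_trans ?_ h1
      rw [card_eq_sum_ones]
      exact sum_le_sum fun f hf => le_trans (by norm_num) (hdeg f hf).1
    calc ∑ f ∈ S, (2 ^ f.natDegree + 1) ≤ ∑ _f ∈ S, (2 ^ q + 1) :=
          sum_le_sum fun f hf => Nat.add_le_add_right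
            (Nat.pow_le_pow_right (by norm_num) (hdeg f hf).2) 1
      _ = S.card * (2 ^ q + 1) := by rw [sum_const, smul_eq_mul]
      _ ≤ q * (2 ^ q + 1) := Nat.mul_le_mul_right _ h3

end

end RunMult
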