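import Pool.Agent.Lib.MP_d16eef_co.Q.Cnp
import Pool.Agent.Lib.MP_d16eef_co.Q.Gm1
import Pool.Agent.Lib.MP_d16eef_co.Q.Ka1
import Pool.Agent.Lib.MP_d16eef_co.Q.Smf

/-! AD-Nf1 : the union bound for `NF1`.
Let `q = n / 8`, `S` = the set of monic irreducible divisors `f ≠ X + 1` of `X ^ q + 1` (over `ZMod 2`
every nonzero polynomial is monic and associated means equal), `W_f = (X ^ q + 1) / f`.
`¬ NF1 n a` gives `f ∈ S` and either `ν` with `deg ν < deg f` and `T2 (n/2) (PQ a W (W ν)) = 0` or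
`T2 (n/2) (PQ a 0 W) = 0`.  For each of these `2 ^ deg f + 1` functions `Q`, `cnt_prim` with `tr_PQ`
(`A e = acti n ((1+X) expand 4 W) (T2 (n/2) e)` in the first case; in the second case
`A' e` is this and `A e = acti n 0 _ = 0`) and `card_gam1` (the set of `hT0` is contained in the one
where only one condition is kept) gives, with `E = 2 ^ ω · 7 · 2 ^ ((n+1)/2)`, `φ = φ(2 ^ n - 1)`:
`2 ^ n · 256 · # ≤ 2 ^ (n - 4 deg f) φ + 2 ^ n · 256 · E`.
Sum over `f` and the functions: `256 · #bad ≤ φ ∑_f (2 ^ deg f + 1) / 2 ^ (4 deg f) +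
256 E ∑_f (2 ^ deg f + 1) ≤ φ / 8 + 256 E q (2 ^ q + 1)` by `sum_irr` (work in ℚ). -/

namespace RunMult

open Finset Polynomial

section

variable {F : Type} [Field F] [Fintype F] [DecidableEq F] [Algebra (ZMod 2) F]

/-- the count for one of the functions -/
private theorem nf1_one (n : ℕ) (hn : 256 ≤ n) (h16 : 16 ∣ n) (hF : Fintype.card F = 2 ^ n) (θ θ' : F)
    (f W V V' : (ZMod 2)[X]) (hf : Irreducible f) (hW : f * W = X ^ (n / 8) + 1)
    (hf1 : ¬ Associated f (X + 1)) (hV : V = W ∨ V' = W) :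
    2 ^ n * (256 * Nat.card {a : F // orderOf a = 2 ^ n - 1 ∧ Cls θ θ' a ∧
      T2 (n / 2) (PQ a V V') = 0}) ≤ 2 ^ (n - 4 * f.natDegree) * (2 ^ n - 1).totient +
        2 ^ n * (256 * (2 ^ (2 ^ n - 1).primeFactors.card * (7 * 2 ^ ((n + 1) / 2)))) := by
  have h4 : 4 ∣ n := (by norm_num : (4 : ℕ) ∣ 16).trans h16
  refine cnt_prim n (by omega) h4 hF θ θ' (fun a => T2 (n / 2) (PQ a V V'))
    (fun e => acti n ((1 + X) * expand (ZMod 2) 4 V) (T2 (n / 2) e))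
    (fun e => acti n ((1 + X) * expand (ZMod 2) 4 V') (T2 (n / 2) e))
    (fun e a _ => tr_PQ n h16 hF V V' e a) 0 (2 ^ (n - 4 * f.natDegree)) ?_
  refine le_trans ?_ (card_gam1 n (by omega) h16 hF f W hf hW hf1)
  rcases hV with rfl | rfl
  · exact Nat.card_le_card_of_injective (fun e => (⟨e.1, e.2.1⟩ : {e : F //
      acti n ((1 + X) * expand (ZMod 2) 4 V) (T2 (n / 2) e) ^ 16 =
      acti n ((1 + X) * expand (ZMod 2) 4 V) (T2 (n / 2) e)})) (fun a b h => by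
        apply Subtype.ext
        exact congrArg (fun z => z.1) h)
  · exact Nat.card_le_card_of_injective (fun e => (⟨e.1, e.2.2⟩ : {e : F //
      acti n ((1 + X) * expand (ZMod 2) 4 V') (T2 (n / 2) e) ^ 16 =
      acti n ((1 + X) * expand (ZMod 2) 4 V') (T2 (n / 2) e)})) (fun a b h => by
        apply Subtype.ext
        exact congrArg (fun z => z.1) h)

private theorem nf1_monic (f : (ZMod 2)[X]) (hf : f ≠ 0) : f.Monic := by
  have h1 : f.leadingCoeff ≠ 0 := leadingCoeff_ne_zero.2 hf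
  have h2 : ∀ c : ZMod 2, c ≠ 0 → c = 1 := by decide
  exact h2 _ h1

private theorem nf1_poly (d : ℕ) (ν : (ZMod 2)[X]) (hν : ν.degree < d) :
    ∃ c : Fin d → ZMod 2, ((degreeLTEquiv (ZMod 2) d).symm c : (ZMod 2)[X]) = ν := by
  refine ⟨degreeLTEquiv (ZMod 2) d ⟨ν, mem_degreeLT.2 hν⟩, ?_⟩
  rw [LinearEquiv.symm_apply_apply]

/-- the two polynomials of the function with index `o` -/
private noncomputable def nf1V (W : (ZMod 2)[X]) (d : ℕ) (o : Option (Fin d → ZMod 2)) :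
    (ZMod 2)[X] × (ZMod 2)[X] :=
  match o with
  | none => (0, W)
  | some c => (W, W * ((degreeLTEquiv (ZMod 2) d).symm c : (ZMod 2)[X]))

private theorem nf1_one' (n : ℕ) (hn : 256 ≤ n) (h16 : 16 ∣ n) (hF : Fintype.card F = 2 ^ n)
    (θ θ' : F) (f W : (ZMod 2)[X]) (hf : Irreducible f) (hW : f * W = X ^ (n / 8) + 1)
    (hf1 : ¬ Associated f (X + 1)) (hdeg : 4 * f.natDegree ≤ n)
    (o : Option (Fin f.natDegree → ZMod 2)) :
    (256 : ℚ) * (Nat.card {a : F // orderOf a = 2 ^ n - 1 ∧ Cls θ θ' a ∧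
      T2 (n / 2) (PQ a (nf1V W f.natDegree o).1 (nf1V W f.natDegree o).2) = 0} : ℕ) ≤
      ((2 ^ n - 1).totient : ℕ) / 2 ^ (4 * f.natDegree) +
        256 * ((2 ^ (2 ^ n - 1).primeFactors.card * (7 * 2 ^ ((n + 1) / 2)) : ℕ) : ℚ) := by
  have hV : (nf1V W f.natDegree o).1 = W ∨ (nf1V W f.natDegree o).2 = W := by
    rcases o with _ | c
    · exact Or.inr rfl
    · exact Or.inl rfl
  have h1 := nf1_one n hn h16 hF θ θ' f W _ _ hf hW hf1 hV
  generalize hN : Nat.card {a : F // orderOf a = 2 ^ n - 1 ∧ Cls θ θ' a ∧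
      T2 (n / 2) (PQ a (nf1V W f.natDegree o).1 (nf1V W f.natDegree o).2) = 0} = N at h1 ⊢
  generalize (2 ^ n - 1).totient = phi at h1 ⊢
  generalize 2 ^ (2 ^ n - 1).primeFactors.card * (7 * 2 ^ ((n + 1) / 2)) = E at h1 ⊢
  have h2 : (2 : ℚ) ^ n * (256 * (N : ℚ)) ≤ 2 ^ (n - 4 * f.natDegree) * phi +
      2 ^ n * (256 * (E : ℚ)) := by exact_mod_cast h1
  have h3 : (2 : ℚ) ^ (n - 4 * f.natDegree) * phi = 2 ^ n * (phi / 2 ^ (4 * f.natDegree)) := by
    have h4 : (2 : ℚ) ^ n = 2 ^ (n - 4 * f.natDegree) * 2 ^ (4 * f.natDegree) := by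
      rw [← pow_add]; congr 1; omega
    rw [h4]; field_simp
  rw [h3, ← mul_add] at h2
  exact le_of_mul_le_mul_left h2 (by positivity)

/-- the union bound for `NF1` (uses `cnt_prim`, `tr_PQ`, `card_gam1`, `sum_irr`) -/
theorem card_NF1 (n : ℕ) (hn : 256 ≤ n) (h16 : 16 ∣ n) (hF : Fintype.card F = 2 ^ n) (θ θ' : F) :
    8 * (256 * Nat.card {a : F // orderOf a = 2 ^ n - 1 ∧ Cls θ θ' a ∧ ¬ NF1 n a}) ≤
      (2 ^ n - 1).totient + 8 * (256 * (2 ^ (2 ^ n - 1).primeFactors.card *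
        (7 * 2 ^ ((n + 1) / 2))) * (n / 8 * (2 ^ (n / 8) + 1))) := by
  classical
  have hq : 0 < n / 8 := by omega
  set q := n / 8 with hqd
  have hXq : (X ^ q + 1 : (ZMod 2)[X]) ≠ 0 := by
    have : (X ^ q + 1 : (ZMod 2)[X]).Monic := by
      have := monic_X_pow_add_C (1 : ZMod 2) hq.ne'
      simpa using this
    exact this.ne_zero
  set S : Finset (ZMod 2)[X] :=
    ((UniqueFactorizationMonoid.normalizedFactors (X ^ q + 1 : (ZMod 2)[X])).toFinset).filter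
      (fun f => f ≠ X + 1) with hSd
  have hSmem : ∀ f : (ZMod 2)[X], f ∈ S ↔ (Irreducible f ∧ f ∣ X ^ q + 1) ∧ f ≠ X + 1 := by
    intro f
    rw [hSd, Finset.mem_filter, Multiset.mem_toFinset,
      UniqueFactorizationMonoid.mem_normalizedFactors_iff' hXq]
    constructor
    · rintro ⟨⟨h1, -, h2⟩, h3⟩
      exact ⟨⟨h1, h2⟩, h3⟩
    · rintro ⟨⟨h1, h2⟩, h3⟩
      exact ⟨⟨h1, (nf1_monic f h1.ne_zero).normalize_eq_self, h2⟩, h3⟩
  have hS : ∀ f ∈ S, f.Monic ∧ Irreducible f ∧ f ∣ X ^ q + 1 ∧ f ≠ X + 1 := by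
    intro f hf
    obtain ⟨⟨h1, h2⟩, h3⟩ := (hSmem f).1 hf
    exact ⟨nf1_monic f h1.ne_zero, h1, h2, h3⟩
  obtain ⟨hs1, hs2, hs3⟩ := sum_irr q hq S hS
  have hmX : (X + 1 : (ZMod 2)[X]).Monic := by
    have := monic_X_add_C (1 : ZMod 2)
    simpa using this
  have hass : ∀ f ∈ S, ¬ Associated f (X + 1) := by
    intro f hf ha
    obtain ⟨h1, -, -, h2⟩ := hS f hf
    exact h2 (eq_of_monic_of_associated h1 hmX ha)
  have hWex : ∀ f : (ZMod 2)[X], ∃ W : (ZMod 2)[X], f ∈ S → f * W = X ^ q + 1 := by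
    intro f
    by_cases hf : f ∈ S
    · obtain ⟨W, hW⟩ := (hS f hf).2.2.1
      exact ⟨W, fun _ => hW.symm⟩
    · exact ⟨0, fun h => absurd h hf⟩
  choose W hW using hWex
  -- the union bound
  let N : (f : (ZMod 2)[X]) → Option (Fin f.natDegree → ZMod 2) → Finset F := fun f o =>
    univ.filter fun a : F => orderOf a = 2 ^ n - 1 ∧ Cls θ θ' a ∧
      T2 (n / 2) (PQ a (nf1V (W f) f.natDegree o).1 (nf1V (W f) f.natDegree o).2) = 0
  have hsub : (univ.filter fun a : F => orderOf a = 2 ^ n - 1 ∧ Cls θ θ' a ∧ ¬ NF1 n a) ⊆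
      S.biUnion fun f => univ.biUnion fun o => N f o := by
    intro a ha
    rw [Finset.mem_filter] at ha
    obtain ⟨-, h1, h2, h3⟩ := ha
    unfold NF1 at h3
    push Not at h3
    obtain ⟨f, W', hf, hfW, hfX, h4⟩ := h3
    have hfS : f ∈ S := by
      rw [hSmem]
      exact ⟨⟨hf, ⟨W', hfW.symm⟩⟩, fun h => hfX (h ▸ Associated.refl _)⟩
    have hWW : W' = W f := by
      have h5 : f * W' = f * W f := by rw [hfW, hW f hfS]
      exact mul_left_cancel₀ hf.ne_zero h5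
    subst hWW
    rw [Finset.mem_biUnion]
    refine ⟨f, hfS, ?_⟩
    rw [Finset.mem_biUnion]
    by_cases h6 : ∃ ν : (ZMod 2)[X], ν.degree < f.degree ∧ T2 (n / 2) (PQ a (W f) (W f * ν)) = 0
    · obtain ⟨ν, hν, h7⟩ := h6
      rw [degree_eq_natDegree hf.ne_zero] at hν
      obtain ⟨c, hc⟩ := nf1_poly f.natDegree ν hν
      refine ⟨some c, Finset.mem_univ _, ?_⟩
      simp only [N, Finset.mem_filter, Finset.mem_univ, true_and]
      refine ⟨h1, h2, ?_⟩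
      show T2 (n / 2) (PQ a (W f) (W f * ((degreeLTEquiv (ZMod 2) f.natDegree).symm c :
        (ZMod 2)[X]))) = 0
      rw [hc]; exact h7
    · push Not at h6
      refine ⟨none, Finset.mem_univ _, ?_⟩
      simp only [N, Finset.mem_filter, Finset.mem_univ, true_and]
      exact ⟨h1, h2, h4 h6⟩
  have hcard : ((univ.filter fun a : F => orderOf a = 2 ^ n - 1 ∧ Cls θ θ' a ∧ ¬ NF1 n a).card) ≤
      ∑ f ∈ S, ∑ o, (N f o).card :=
    (Finset.card_le_card hsub).trans (Finset.card_biUnion_le.trans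
      (Finset.sum_le_sum fun f _ => Finset.card_biUnion_le))
  have hcardN : Nat.card {a : F // orderOf a = 2 ^ n - 1 ∧ Cls θ θ' a ∧ ¬ NF1 n a} =
      (univ.filter fun a : F => orderOf a = 2 ^ n - 1 ∧ Cls θ θ' a ∧ ¬ NF1 n a).card := by
    rw [Nat.card_eq_fintype_card, Fintype.card_subtype]
  have hNo : ∀ f ∈ S, ∀ o : Option (Fin f.natDegree → ZMod 2), (256 : ℚ) * ((N f o).card : ℕ) ≤
      ((2 ^ n - 1).totient : ℕ) / 2 ^ (4 * f.natDegree) +
        256 * ((2 ^ (2 ^ n - 1).primeFactors.card * (7 * 2 ^ ((n + 1) / 2)) : ℕ) : ℚ) := by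
    intro f hf o
    have h1 := nf1_one' n hn h16 hF θ θ' f (W f) (hS f hf).2.1 (hW f hf) (hass f hf)
      (by have := (hs3 f hf).2; omega) o
    rw [Nat.card_eq_fintype_card, Fintype.card_subtype] at h1
    exact h1
  rw [hcardN]
  generalize (2 ^ n - 1).totient = phi at hNo ⊢
  generalize 2 ^ (2 ^ n - 1).primeFactors.card * (7 * 2 ^ ((n + 1) / 2)) = E at hNo ⊢
  generalize (univ.filter fun a : F => orderOf a = 2 ^ n - 1 ∧ Cls θ θ' a ∧ ¬ NF1 n a).card = M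
    at hcard ⊢
  have h1 : (256 : ℚ) * M ≤ ∑ f ∈ S, ∑ o, (256 : ℚ) * ((N f o).card : ℕ) := by
    have h2 : (M : ℚ) ≤ ∑ f ∈ S, ∑ o, ((N f o).card : ℚ) := by exact_mod_cast hcard
    calc (256 : ℚ) * M ≤ 256 * ∑ f ∈ S, ∑ o, ((N f o).card : ℚ) := by gcongr
      _ = ∑ f ∈ S, ∑ o, (256 : ℚ) * ((N f o).card : ℕ) := by
        rw [Finset.mul_sum]
        refine Finset.sum_congr rfl fun f _ => ?_
        rw [Finset.mul_sum]
  have h2 : ∑ f ∈ S, ∑ o, (256 : ℚ) * ((N f o).card : ℕ) ≤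
      ∑ f ∈ S, ((2 : ℚ) ^ f.natDegree + 1) * ((phi : ℚ) / 2 ^ (4 * f.natDegree) + 256 * (E : ℚ)) := by
    apply Finset.sum_le_sum
    intro f hf
    calc ∑ o, (256 : ℚ) * ((N f o).card : ℕ) ≤ ∑ _o : Option (Fin f.natDegree → ZMod 2),
          ((phi : ℚ) / 2 ^ (4 * f.natDegree) + 256 * (E : ℚ)) :=
          Finset.sum_le_sum fun o _ => hNo f hf o
      _ = ((2 : ℚ) ^ f.natDegree + 1) * ((phi : ℚ) / 2 ^ (4 * f.natDegree) + 256 * (E : ℚ)) := by
        rw [Finset.sum_const, Finset.card_univ, Fintype.card_option, Fintype.card_fun, ZMod.card,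
          Fintype.card_fin, nsmul_eq_mul]
        push_cast
        ring
  have h3 : ∑ f ∈ S, ((2 : ℚ) ^ f.natDegree + 1) * ((phi : ℚ) / 2 ^ (4 * f.natDegree) +
      256 * (E : ℚ)) = phi * ∑ f ∈ S, ((2 : ℚ) ^ f.natDegree + 1) / 2 ^ (4 * f.natDegree) +
      256 * E * ∑ f ∈ S, ((2 : ℚ) ^ f.natDegree + 1) := by
    rw [Finset.mul_sum, Finset.mul_sum, ← Finset.sum_add_distrib]
    refine Finset.sum_congr rfl fun f _ => ?_
    ring
  have h4 : ∑ f ∈ S, ((2 : ℚ) ^ f.natDegree + 1) ≤ q * (2 ^ q + 1) := by exact_mod_cast hs2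
  have h5 : (phi : ℚ) * ∑ f ∈ S, ((2 : ℚ) ^ f.natDegree + 1) / 2 ^ (4 * f.natDegree) ≤
      phi * (1 / 8) := by gcongr
  have h6 : (256 : ℚ) * E * ∑ f ∈ S, ((2 : ℚ) ^ f.natDegree + 1) ≤ 256 * E * (q * (2 ^ q + 1)) := by
    gcongr
  have h7 : (8 : ℚ) * (256 * M) ≤ phi + 8 * (256 * E * (q * (2 ^ q + 1))) := by linarith
  exact_mod_cast h7

end

end RunMult
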