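import Pool.Agent.Lib.MP_d16eef_co.Q.Cnt
import Pool.Agent.Lib.MP_d16eef_co.Q.Ka3
import Pool.Agent.Lib.MP_d16eef_co.Q.Ka2

/-! AD-Nf2 : the union bound for `NF2`.
`¬ NF2 n a` gives `b < n / 8`, `M`, `M'` of degree `< n / 8`, `L`, `L'`, `κ` (not all local data 0) with
`T2 (n / 2) (PP ..) = c`, `c ∈ {0, 1}`.  Only `L i`, `L' i` for `i < 15` matter, so the data are indexed by
`b : Fin (n / 8)`, `M, M' : Fin (n / 8) → ZMod 2` (or `Polynomial.degreeLT`), `L, L' : Fin 15 → ZMod 2`,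
`κ : ZMod 2`, `c : ZMod 2`.  For each index, with `Q a = T2 (n / 2) (PP a ..)`, `D = 17`,
`γ e = gam .. e` (`tr_PP`), `cnt_gen` gives
`256 #{a ≠ 0, Cls θ θ' a, Q a = c} ≤ T0 + 256 · 55 · 2 ^ (n / 2)` (`(n + 1) / 2 = n / 2`), where
(A) if `κ ≠ 0` or some `L i` or `L' i`, `i ∉ {0, 1, 3, 7}` is nonzero: `T0 = 4 · 2 ^ (n / 2)` (`card_gam3`);
(B) otherwise some of `L 0, L 1, L 3, L 7` or of `L' 0, ..` is nonzero: `T0 = 2 ^ (n / 2 + n / 8 + 6)` by
    `card_gam2` for the index 9 (`gam .. 9 = gpu n M _ + gco n b L 1 _`) or the index 8.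
Number of indices: (A) at most `n / 8 · 2 ^ (2 (n / 8)) · 2 ^ 31 · 2`, each at most
`2 ^ (n / 2) (4 + 14080) ≤ 2 ^ (n / 2 + 14)`; (B) `n / 8 · 2 ^ (2 (n / 8)) · 2 ^ 8 · 2`, each at most
`2 ^ (n / 2 + n / 8 + 6) + 14080 · 2 ^ (n / 2) ≤ 2 ^ (n / 2 + n / 8 + 7)`.
Sum: `n / 8 · 2 ^ (2 (n / 8) + 1) · (2 ^ (n / 2 + 45) + 2 ^ (n / 2 + n / 8 + 15))`. -/

namespace RunMult

open Finset Polynomial

section

variable {F : Type} [Field F] [Fintype F] [DecidableEq F] [Algebra (ZMod 2) F]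

omit [Field F] [DecidableEq F] [Algebra (ZMod 2) F] in
private theorem Nf2_union {ι : Type} [Fintype ι] (P : F → Prop) (Q : ι → F → Prop)
    (h : ∀ a, P a → ∃ i, Q i a) (Y : ℕ) (hY : ∀ i, 256 * Nat.card {a // Q i a} ≤ Y) :
    256 * Nat.card {a // P a} ≤ Fintype.card ι * Y := by
  classical
  have h1 : Nat.card {a // P a} ≤ ∑ i : ι, Nat.card {a // Q i a} := by
    have e : ∀ R : F → Prop, Nat.card {a // R a} = (Finset.univ.filter R).card := by
      intro R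
      rw [Nat.card_eq_fintype_card, Fintype.card_subtype]
    rw [e]
    simp_rw [e]
    have hsub : Finset.univ.filter P ⊆
        Finset.univ.biUnion fun i : ι => Finset.univ.filter (Q i) := by
      intro a ha
      rw [Finset.mem_filter] at ha
      obtain ⟨i, hi⟩ := h a ha.2
      rw [Finset.mem_biUnion]
      exact ⟨i, Finset.mem_univ _, Finset.mem_filter.2 ⟨Finset.mem_univ _, hi⟩⟩
    exact (Finset.card_le_card hsub).trans Finset.card_biUnion_le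
  calc 256 * Nat.card {a // P a} ≤ 256 * ∑ i : ι, Nat.card {a // Q i a} :=
        Nat.mul_le_mul_left _ h1
    _ = ∑ i : ι, 256 * Nat.card {a // Q i a} := by rw [Finset.mul_sum]
    _ ≤ ∑ _i : ι, Y := Finset.sum_le_sum fun i _ => hY i
    _ = Fintype.card ι * Y := by rw [Finset.sum_const, smul_eq_mul, Finset.card_univ]

omit [Field F] [DecidableEq F] [Algebra (ZMod 2) F] in
private theorem Nf2_or (P PA PB : F → Prop) (h : ∀ a, P a → PA a ∨ PB a) :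
    Nat.card {a // P a} ≤ Nat.card {a // PA a} + Nat.card {a // PB a} := by
  classical
  have e : ∀ R : F → Prop, Nat.card {a // R a} = (Finset.univ.filter R).card := by
    intro R
    rw [Nat.card_eq_fintype_card, Fintype.card_subtype]
  rw [e, e, e]
  refine le_trans (Finset.card_le_card ?_) (Finset.card_union_le _ _)
  intro a ha
  rw [Finset.mem_filter] at ha
  rw [Finset.mem_union, Finset.mem_filter, Finset.mem_filter]
  rcases h a ha.2 with h1 | h1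
  · exact Or.inl ⟨Finset.mem_univ _, h1⟩
  · exact Or.inr ⟨Finset.mem_univ _, h1⟩

omit [Field F] [DecidableEq F] [Algebra (ZMod 2) F] in
private theorem Nf2_card_mono (P Q : F → Prop) (h : ∀ a, P a → Q a) :
    Nat.card {a // P a} ≤ Nat.card {a // Q a} :=
  Nat.card_le_card_of_injective (fun a => (⟨a.1, h a.1 a.2⟩ : {a // Q a})) (by
    intro a b hab
    have := congrArg Subtype.val hab
    exact Subtype.ext this)

/-- polynomials of degree `< K` -/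
private noncomputable def Nf2_pol (K : ℕ) (m : Fin K → ZMod 2) : (ZMod 2)[X] :=
  ((degreeLTEquiv (ZMod 2) K).symm m : (ZMod 2)[X])

private theorem Nf2_pol_deg (K : ℕ) (m : Fin K → ZMod 2) : (Nf2_pol K m).degree < (K : ℕ) :=
  mem_degreeLT.1 ((degreeLTEquiv (ZMod 2) K).symm m).2

private theorem Nf2_pol_surj (K : ℕ) (M : (ZMod 2)[X]) (hM : M.degree < (K : ℕ)) :
    ∃ m, Nf2_pol K m = M := by
  refine ⟨degreeLTEquiv (ZMod 2) K ⟨M, mem_degreeLT.2 hM⟩, ?_⟩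
  unfold Nf2_pol
  rw [LinearEquiv.symm_apply_apply]

private def Nf2_e15 (l : Fin 15 → ZMod 2) (i : ℕ) : ZMod 2 := if h : i < 15 then l ⟨i, h⟩ else 0

private def Nf2_e4 (l : Fin 4 → ZMod 2) (i : ℕ) : ZMod 2 :=
  if i = 0 then l 0 else if i = 1 then l 1 else if i = 3 then l 2 else if i = 7 then l 3 else 0

private def Nf2_cA (L L' : ℕ → ZMod 2) (κ : ZMod 2) : Prop :=
  κ ≠ 0 ∨ ∃ i < 15, i ≠ 0 ∧ i ≠ 1 ∧ i ≠ 3 ∧ i ≠ 7 ∧ (L i ≠ 0 ∨ L' i ≠ 0)

private def Nf2_cB (L : ℕ → ZMod 2) : Prop := ¬ (L 0 = 0 ∧ L 1 = 0 ∧ L 3 = 0 ∧ L 7 = 0)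

private def Nf2_st (n : ℕ) (θ θ' : F) (b : ℕ) (M M' : (ZMod 2)[X]) (L L' : ℕ → ZMod 2)
    (κ c : ZMod 2) (a : F) : Prop :=
  a ≠ 0 ∧ Cls θ θ' a ∧ T2 (n / 2) (PP a b M M' L L' κ) = c • (1 : F)

omit [Fintype F] [DecidableEq F] in
private theorem Nf2_PP (a : F) (b : ℕ) (M M' : (ZMod 2)[X]) {L L' N N' : ℕ → ZMod 2}
    (κ : ZMod 2) (h : ∀ i < 15, L i = N i) (h' : ∀ i < 15, L' i = N' i) :
    PP a b M M' L L' κ = PP a b M M' N N' κ := by
  unfold PP
  congr 3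
  refine Finset.sum_congr rfl fun i hi => ?_
  rw [mem_range] at hi
  rw [h i hi, h' i hi]

/-- the bound for one index -/
private theorem Nf2_cnt (n : ℕ) (hn : 256 ≤ n) (h16 : 16 ∣ n) (hF : Fintype.card F = 2 ^ n)
    (θ θ' : F) (b : ℕ) (hb : b < n / 8) (M M' : (ZMod 2)[X]) (hM : M.degree < (n / 8 : ℕ))
    (hM' : M'.degree < (n / 8 : ℕ)) (L L' : ℕ → ZMod 2) (κ c : ZMod 2) (T0 : ℕ)
    (hT0 : Nat.card {e : F // (∀ i ≤ 17, i ≠ 9 → i ≠ 8 → gam n b M M' L L' κ e i = 0) ∧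
      gam n b M M' L L' κ e 9 ^ 16 = gam n b M M' L L' κ e 9 ∧
      gam n b M M' L L' κ e 8 ^ 16 = gam n b M M' L L' κ e 8} ≤ T0) :
    256 * Nat.card {a : F // Nf2_st n θ θ' b M M' L L' κ c a} ≤
      T0 + 14080 * 2 ^ (n / 2) := by
  have h1 := cnt_gen n (by omega) ((by norm_num : (4 : ℕ) ∣ 16).trans h16) hF 17 (by decide) θ θ'
    (fun a => T2 (n / 2) (PP a b M M' L L' κ)) (gam n b M M' L L' κ)
    (fun e a ha => tr_PP n hn h16 hF b hb M M' hM hM' L L' κ e a ha) (c • (1 : F)) T0 hT0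
  have e : (n + 1) / 2 = n / 2 := by omega
  rw [e] at h1
  refine h1.trans (le_of_eq ?_)
  ring

private theorem Nf2_A (n : ℕ) (hn : 256 ≤ n) (h16 : 16 ∣ n) (hF : Fintype.card F = 2 ^ n)
    (θ θ' : F) (b : ℕ) (hb : b < n / 8) (M M' : (ZMod 2)[X]) (hM : M.degree < (n / 8 : ℕ))
    (hM' : M'.degree < (n / 8 : ℕ)) (L L' : ℕ → ZMod 2) (κ c : ZMod 2) :
    256 * Nat.card {a : F // Nf2_cA L L' κ ∧ Nf2_st n θ θ' b M M' L L' κ c a} ≤
      2 ^ (n / 2 + 14) := by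
  by_cases hc : Nf2_cA L L' κ
  · have h1 : Nat.card {a : F // Nf2_cA L L' κ ∧ Nf2_st n θ θ' b M M' L L' κ c a} ≤
        Nat.card {a : F // Nf2_st n θ θ' b M M' L L' κ c a} := Nf2_card_mono _ _ fun a h => h.2
    have h2 := Nf2_cnt n hn h16 hF θ θ' b hb M M' hM hM' L L' κ c (4 * 2 ^ (n / 2))
      ((Nf2_card_mono _ _ fun e h => h.1).trans (card_gam3 n hn h16 hF b hb M M' L L' κ hc))
    refine (Nat.mul_le_mul_left 256 h1).trans (h2.trans ?_)
    rw [pow_add]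
    have : 0 < 2 ^ (n / 2) := by positivity
    omega
  · have h1 : Nat.card {a : F // Nf2_cA L L' κ ∧ Nf2_st n θ θ' b M M' L L' κ c a} = 0 := by
      rw [Nat.card_eq_zero]
      left
      exact ⟨fun a => hc a.2.1⟩
    rw [h1, mul_zero]
    exact Nat.zero_le _

private theorem Nf2_B (n : ℕ) (hn : 256 ≤ n) (h16 : 16 ∣ n) (hF : Fintype.card F = 2 ^ n)
    (θ θ' : F) (b : ℕ) (hb : b < n / 8) (M M' : (ZMod 2)[X]) (hM : M.degree < (n / 8 : ℕ))
    (hM' : M'.degree < (n / 8 : ℕ)) (L L' : ℕ → ZMod 2) (κ c : ZMod 2) :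
    256 * Nat.card {a : F // (Nf2_cB L ∨ Nf2_cB L') ∧ Nf2_st n θ θ' b M M' L L' κ c a} ≤
      2 ^ (n / 2 + n / 8 + 7) := by
  by_cases hc : Nf2_cB L ∨ Nf2_cB L'
  · have h1 : Nat.card {a : F // (Nf2_cB L ∨ Nf2_cB L') ∧ Nf2_st n θ θ' b M M' L L' κ c a} ≤
        Nat.card {a : F // Nf2_st n θ θ' b M M' L L' κ c a} := Nf2_card_mono _ _ fun a h => h.2
    have hT0 : Nat.card {e : F // (∀ i ≤ 17, i ≠ 9 → i ≠ 8 → gam n b M M' L L' κ e i = 0) ∧
      gam n b M M' L L' κ e 9 ^ 16 = gam n b M M' L L' κ e 9 ∧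
      gam n b M M' L L' κ e 8 ^ 16 = gam n b M M' L L' κ e 8} ≤ 2 ^ (n / 2 + n / 8 + 6) := by
      rcases hc with hc | hc
      · refine (Nf2_card_mono _ _ fun e h => ?_).trans (card_gam2 n hn h16 hF b hb M hM L hc)
        exact h.2.1
      · refine (Nf2_card_mono _ _ fun e h => ?_).trans (card_gam2 n hn h16 hF b hb M' hM' L' hc)
        exact h.2.2
    have h2 := Nf2_cnt n hn h16 hF θ θ' b hb M M' hM hM' L L' κ c _ hT0
    refine (Nat.mul_le_mul_left 256 h1).trans (h2.trans ?_)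
    have h3 : 14080 * 2 ^ (n / 2) ≤ 2 ^ (n / 2 + n / 8 + 6) := by
      have e : n / 2 + n / 8 + 6 = (n / 8 + 6) + n / 2 := by omega
      rw [e, pow_add 2 (n / 8 + 6)]
      refine Nat.mul_le_mul_right _ ?_
      calc 14080 ≤ 2 ^ 14 := by norm_num
        _ ≤ 2 ^ (n / 8 + 6) := Nat.pow_le_pow_right (by norm_num) (by omega)
    have e : 2 ^ (n / 2 + n / 8 + 7) = 2 ^ (n / 2 + n / 8 + 6) + 2 ^ (n / 2 + n / 8 + 6) := by
      rw [← two_mul, ← pow_succ']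
    rw [e]
    exact Nat.add_le_add_left h3 _
  · have h1 : Nat.card {a : F // (Nf2_cB L ∨ Nf2_cB L') ∧
        Nf2_st n θ θ' b M M' L L' κ c a} = 0 := by
      rw [Nat.card_eq_zero]
      left
      exact ⟨fun a => hc a.2.1⟩
    rw [h1, mul_zero]
    exact Nat.zero_le _

/-- the union bound for `NF2` (uses `cnt_gen`, `tr_PP`, `card_gam3`, `card_gam2`) -/
theorem card_NF2 (n : ℕ) (hn : 256 ≤ n) (h16 : 16 ∣ n) (hF : Fintype.card F = 2 ^ n) (θ θ' : F) :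
    256 * Nat.card {a : F // a ≠ 0 ∧ Cls θ θ' a ∧ ¬ NF2 n a} ≤
      n / 8 * 2 ^ (2 * (n / 8) + 1) * (2 ^ (n / 2 + 45) + 2 ^ (n / 2 + n / 8 + 15)) := by
  classical
  -- the two parts
  let IA := Fin (n / 8) × (Fin (n / 8) → ZMod 2) × (Fin (n / 8) → ZMod 2) ×
    (Fin 15 → ZMod 2) × (Fin 15 → ZMod 2) × ZMod 2 × ZMod 2
  let IB := Fin (n / 8) × (Fin (n / 8) → ZMod 2) × (Fin (n / 8) → ZMod 2) ×
    (Fin 4 → ZMod 2) × (Fin 4 → ZMod 2) × ZMod 2
  let QA : IA → F → Prop := fun i a =>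
    Nf2_cA (Nf2_e15 i.2.2.2.1) (Nf2_e15 i.2.2.2.2.1) i.2.2.2.2.2.1 ∧
    Nf2_st n θ θ' i.1.1 (Nf2_pol (n / 8) i.2.1) (Nf2_pol (n / 8) i.2.2.1)
      (Nf2_e15 i.2.2.2.1) (Nf2_e15 i.2.2.2.2.1) i.2.2.2.2.2.1 i.2.2.2.2.2.2 a
  let QB : IB → F → Prop := fun i a =>
    (Nf2_cB (Nf2_e4 i.2.2.2.1) ∨ Nf2_cB (Nf2_e4 i.2.2.2.2.1)) ∧
    Nf2_st n θ θ' i.1.1 (Nf2_pol (n / 8) i.2.1) (Nf2_pol (n / 8) i.2.2.1)
      (Nf2_e4 i.2.2.2.1) (Nf2_e4 i.2.2.2.2.1) 0 i.2.2.2.2.2 a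
  have hA := Nf2_union (fun a => ∃ i, QA i a) QA (fun a h => h) (2 ^ (n / 2 + 14)) fun i =>
    Nf2_A n hn h16 hF θ θ' i.1.1 i.1.2 _ _ (Nf2_pol_deg _ _) (Nf2_pol_deg _ _) _ _ _ _
  have hB := Nf2_union (fun a => ∃ i, QB i a) QB (fun a h => h) (2 ^ (n / 2 + n / 8 + 7)) fun i =>
    Nf2_B n hn h16 hF θ θ' i.1.1 i.1.2 _ _ (Nf2_pol_deg _ _) (Nf2_pol_deg _ _) _ _ _ _
  have hsplit : ∀ a : F, (a ≠ 0 ∧ Cls θ θ' a ∧ ¬ NF2 n a) → (∃ i, QA i a) ∨ (∃ i, QB i a) := by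
    rintro a ⟨ha0, hcls, hnf⟩
    unfold NF2 at hnf
    push Not at hnf
    obtain ⟨b, hb, M, M', hM, hM', L, L', κ, hnz, hT⟩ := hnf
    -- the value
    obtain ⟨c, hc⟩ : ∃ c : ZMod 2, T2 (n / 2) (PP a b M M' L L' κ) = c • (1 : F) := by
      by_cases h0 : T2 (n / 2) (PP a b M M' L L' κ) = 0
      · exact ⟨0, by rw [h0, zero_smul]⟩
      · exact ⟨1, by rw [hT h0, one_smul]⟩
    obtain ⟨m, rfl⟩ := Nf2_pol_surj (n / 8) M hM
    obtain ⟨m', rfl⟩ := Nf2_pol_surj (n / 8) M' hM'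
    by_cases hcA : Nf2_cA L L' κ
    · left
      have e1 : ∀ i < 15, L i = Nf2_e15 (fun i : Fin 15 => L i.1) i := by
        intro i hi
        unfold Nf2_e15
        rw [dif_pos hi]
      have e2 : ∀ i < 15, L' i = Nf2_e15 (fun i : Fin 15 => L' i.1) i := by
        intro i hi
        unfold Nf2_e15
        rw [dif_pos hi]
      refine ⟨(⟨b, hb⟩, m, m', fun i => L i.1, fun i => L' i.1, κ, c), ?_, ha0, hcls, ?_⟩
      · change Nf2_cA (Nf2_e15 fun i : Fin 15 => L i.1) (Nf2_e15 fun i : Fin 15 => L' i.1) κ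
        rcases hcA with h | ⟨i, hi, h1, h2, h3, h4, h5⟩
        · exact Or.inl h
        · refine Or.inr ⟨i, hi, h1, h2, h3, h4, ?_⟩
          rw [← e1 i hi, ← e2 i hi]
          exact h5
      · change T2 (n / 2) (PP a b (Nf2_pol (n / 8) m) (Nf2_pol (n / 8) m')
          (Nf2_e15 fun i : Fin 15 => L i.1) (Nf2_e15 fun i : Fin 15 => L' i.1) κ) = c • (1 : F)
        rw [← hc, Nf2_PP a b _ _ κ e1 e2]
    · right
      have hcA' := hcA
      unfold Nf2_cA at hcA'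
      push Not at hcA'
      obtain ⟨hκ, hz⟩ := hcA'
      subst hκ
      have e1 : ∀ i < 15, L i = Nf2_e4 ![L 0, L 1, L 3, L 7] i := by
        intro i hi
        unfold Nf2_e4
        by_cases h0 : i = 0
        · rw [if_pos h0, h0]; rfl
        rw [if_neg h0]
        by_cases h1 : i = 1
        · rw [if_pos h1, h1]; rfl
        rw [if_neg h1]
        by_cases h3 : i = 3
        · rw [if_pos h3, h3]; rfl
        rw [if_neg h3]
        by_cases h7 : i = 7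
        · rw [if_pos h7, h7]; rfl
        rw [if_neg h7]
        exact (hz i hi h0 h1 h3 h7).1
      have e2 : ∀ i < 15, L' i = Nf2_e4 ![L' 0, L' 1, L' 3, L' 7] i := by
        intro i hi
        unfold Nf2_e4
        by_cases h0 : i = 0
        · rw [if_pos h0, h0]; rfl
        rw [if_neg h0]
        by_cases h1 : i = 1
        · rw [if_pos h1, h1]; rfl
        rw [if_neg h1]
        by_cases h3 : i = 3
        · rw [if_pos h3, h3]; rfl
        rw [if_neg h3]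
        by_cases h7 : i = 7
        · rw [if_pos h7, h7]; rfl
        rw [if_neg h7]
        exact (hz i hi h0 h1 h3 h7).2
      refine ⟨(⟨b, hb⟩, m, m', ![L 0, L 1, L 3, L 7], ![L' 0, L' 1, L' 3, L' 7], c), ?_,
        ha0, hcls, ?_⟩
      · change Nf2_cB (Nf2_e4 ![L 0, L 1, L 3, L 7]) ∨ Nf2_cB (Nf2_e4 ![L' 0, L' 1, L' 3, L' 7])
        by_contra hcon
        push Not at hcon
        obtain ⟨hc1, hc2⟩ := hcon
        unfold Nf2_cB at hc1 hc2
        rw [not_not] at hc1 hc2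
        rw [← e1 0 (by norm_num), ← e1 1 (by norm_num), ← e1 3 (by norm_num),
          ← e1 7 (by norm_num)] at hc1
        rw [← e2 0 (by norm_num), ← e2 1 (by norm_num), ← e2 3 (by norm_num),
          ← e2 7 (by norm_num)] at hc2
        obtain ⟨a0, a1, a3, a7⟩ := hc1
        obtain ⟨b0, b1, b3, b7⟩ := hc2
        refine hnz ?_ ?_ rfl
        · intro i hi
          by_cases h0 : i = 0
          · rw [h0]; exact a0
          by_cases h1 : i = 1
          · rw [h1]; exact a1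
          by_cases h3 : i = 3
          · rw [h3]; exact a3
          by_cases h7 : i = 7
          · rw [h7]; exact a7
          exact (hz i hi h0 h1 h3 h7).1
        · intro i hi
          by_cases h0 : i = 0
          · rw [h0]; exact b0
          by_cases h1 : i = 1
          · rw [h1]; exact b1
          by_cases h3 : i = 3
          · rw [h3]; exact b3
          by_cases h7 : i = 7
          · rw [h7]; exact b7
          exact (hz i hi h0 h1 h3 h7).2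
      · change T2 (n / 2) (PP a b (Nf2_pol (n / 8) m) (Nf2_pol (n / 8) m')
          (Nf2_e4 ![L 0, L 1, L 3, L 7]) (Nf2_e4 ![L' 0, L' 1, L' 3, L' 7]) 0) = c • (1 : F)
        rw [← hc, Nf2_PP a b _ _ 0 e1 e2]
  have h1 := Nf2_or _ _ _ hsplit
  have cA : Fintype.card IA = n / 8 * (2 ^ (n / 8) * (2 ^ (n / 8) * (2 ^ 15 * (2 ^ 15 *
      (2 * 2))))) := by
    simp only [IA, Fintype.card_prod, Fintype.card_pi, ZMod.card, Finset.prod_const,
      Finset.card_univ, Fintype.card_fin]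
  have cB : Fintype.card IB = n / 8 * (2 ^ (n / 8) * (2 ^ (n / 8) * (2 ^ 4 * (2 ^ 4 * 2)))) := by
    simp only [IB, Fintype.card_prod, Fintype.card_pi, ZMod.card, Finset.prod_const,
      Finset.card_univ, Fintype.card_fin]
  rw [cA] at hA
  rw [cB] at hB
  calc 256 * Nat.card {a : F // a ≠ 0 ∧ Cls θ θ' a ∧ ¬ NF2 n a}
      ≤ 256 * (Nat.card {a // ∃ i, QA i a} + Nat.card {a // ∃ i, QB i a}) :=
        Nat.mul_le_mul_left _ h1
    _ = 256 * Nat.card {a // ∃ i, QA i a} + 256 * Nat.card {a // ∃ i, QB i a} := by ring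
    _ ≤ _ := Nat.add_le_add hA hB
    _ = _ := by ring

end

end RunMult
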