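import Pool.Agent.Lib.MP_d16eef_co.Q.Fr4
import Pool.Agent.Lib.MP_d16eef_co.Q.Gpol

/-! AD-Npb : few elements of a subfield are orthogonal to the break functionals.
With `A x = x ^ (2 ^ g) + x` (range `U` of dimension at least `n - g`), `R` the span of the first
`g / 4` break functionals on both sides and `T = act (expand 4 Φ)`, `Φ = ∑ X ^ (k g / 4)`:
`T A = 0` and `T` is injective on `R` by `good_poly`, so `dim (U + R) ≥ n - g + g / 2`, and the
set is contained in the orthogonal complement of `U + R` for the trace form. -/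

namespace RunMult

open Finset Polynomial

section

variable {F : Type} [Field F] [Fintype F] [DecidableEq F] [Algebra (ZMod 2) F]

private noncomputable def nA (F : Type) [Field F] [Algebra (ZMod 2) F] (g : ℕ) :
    F →ₗ[ZMod 2] F := aeval (fr F) (X ^ g + 1 : (ZMod 2)[X])

private noncomputable def nT (F : Type) [Field F] [Algebra (ZMod 2) F] (P : (ZMod 2)[X]) :
    F →ₗ[ZMod 2] F := aeval (fr F) (expand (ZMod 2) 4 P)

private noncomputable def nL (a : F) (h : ℕ) :
    ((Fin h → ZMod 2) × (Fin h → ZMod 2)) →ₗ[ZMod 2] F :=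
  LinearMap.coprod
    (Fintype.linearCombination (ZMod 2) (fun i : Fin h => rbk a ^ (2 ^ (4 * (i : ℕ)))))
    (Fintype.linearCombination (ZMod 2) (fun i : Fin h => rbk a⁻¹ ^ (2 ^ (4 * (i : ℕ)))))

private noncomputable def nP {h : ℕ} (c : Fin h → ZMod 2) : (ZMod 2)[X] :=
  ∑ i : Fin h, C (c i) * X ^ (i : ℕ)

omit [DecidableEq F] in
private theorem nA_apply (g : ℕ) (x : F) : nA F g x = act (X ^ g + 1) x := rfl

omit [DecidableEq F] in
private theorem nT_apply (P : (ZMod 2)[X]) (x : F) : nT F P x = act (expand (ZMod 2) 4 P) x := rfl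

private theorem nL_apply (a : F) (h : ℕ) (c c' : Fin h → ZMod 2) :
    nL a h (c, c') = ∑ i : Fin h, c i • rbk a ^ (2 ^ (4 * (i : ℕ))) +
      ∑ i : Fin h, c' i • rbk a⁻¹ ^ (2 ^ (4 * (i : ℕ))) := by
  rw [nL, LinearMap.coprod_apply, Fintype.linearCombination_apply,
    Fintype.linearCombination_apply]

private theorem act_nP {h : ℕ} (c : Fin h → ZMod 2) (x : F) :
    act (expand (ZMod 2) 4 (nP c)) x = ∑ i : Fin h, c i • x ^ (2 ^ (4 * (i : ℕ))) := by
  rw [nP, map_sum]
  simp only [map_mul, expand_C, map_pow, expand_X, ← pow_mul]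
  have e : act (∑ i : Fin h, C (c i) * X ^ (4 * (i : ℕ))) x =
      ∑ i : Fin h, act (C (c i) * X ^ (4 * (i : ℕ))) x := by
    unfold act
    rw [map_sum, LinearMap.sum_apply]
  rw [e]
  refine Finset.sum_congr rfl fun i _ => ?_
  rw [act_mul, act_X_pow]
  unfold act
  rw [aeval_C, Module.algebraMap_end_apply]

private theorem nP_degree {h : ℕ} (c : Fin h → ZMod 2) : (nP c).degree < (h : ℕ) := by
  rw [nP]
  refine (degree_sum_le _ _).trans_lt ?_
  rw [Finset.sup_lt_iff (by exact_mod_cast WithBot.bot_lt_coe h)]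
  intro i _
  refine (degree_C_mul_X_pow_le _ _).trans_lt ?_
  exact_mod_cast i.2

private theorem nP_coeff {h : ℕ} (c : Fin h → ZMod 2) (i : Fin h) :
    (nP c).coeff (i : ℕ) = c i := by
  rw [nP, finsetSum_coeff]
  simp only [coeff_C_mul, coeff_X_pow]
  rw [Finset.sum_eq_single i]
  · simp
  · intro j _ hj
    have : (i : ℕ) ≠ (j : ℕ) := fun h' => hj (Fin.ext h'.symm)
    simp [this]
  · intro h'; exact absurd (mem_univ _) h'

/-- few solutions in subfields -/
theorem card_Bperp_sub (n : ℕ) (hn : 256 ≤ n) (h16 : 16 ∣ n) (hF : Fintype.card F = 2 ^ n) (a : F)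
    (ha0 : a ≠ 0) (hg : Good n a) (g : ℕ) (h4 : 4 ∣ g) (hgn : g ∣ n) (hg0 : 0 < g) :
    Nat.card {v : F // v ^ (2 ^ g) = v ∧ Bperp n a v} ≤ 2 ^ (g / 2) := by
  obtain ⟨h, rfl⟩ := h4
  obtain ⟨m, hm⟩ := hgn
  have hh0 : 0 < h := by omega
  have hm0 : 0 < m := by
    rcases Nat.eq_zero_or_pos m with h' | h'
    · rw [h', mul_zero] at hm; omega
    · exact h'
  have hn4 : n / 4 = h * m := by
    rw [hm, mul_assoc]; exact Nat.mul_div_cancel_left _ (by norm_num)
  have hchar := charP_two F
  have ht : (2 : (ZMod 2)[X]) = 0 := by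
    have h' : ((2 : ℕ) : (ZMod 2)[X]) = 0 := CharP.cast_eq_zero _ 2
    exact_mod_cast h'
  set Φ : (ZMod 2)[X] := ∑ k ∈ range m, (X ^ h) ^ k with hΦ
  have hΦm : (X ^ h + 1) * Φ = X ^ (n / 4) + 1 := by
    have e := mul_geom_sum (X ^ h : (ZMod 2)[X]) m
    rw [← hΦ, ← pow_mul, ← hn4] at e
    linear_combination e + (Φ - 1) * ht
  have hX4 : (X ^ (n / 4) + 1 : (ZMod 2)[X]).natDegree = n / 4 := by
    have : (X ^ (n / 4) + C 1 : (ZMod 2)[X]).natDegree = n / 4 := natDegree_X_pow_add_C
    rwa [C_1] at this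
  have hXh : (X ^ h + 1 : (ZMod 2)[X]).natDegree = h := by
    have : (X ^ h + C 1 : (ZMod 2)[X]).natDegree = h := natDegree_X_pow_add_C
    rwa [C_1] at this
  have hX40 : (X ^ (n / 4) + 1 : (ZMod 2)[X]) ≠ 0 := by
    intro h'
    rw [h', natDegree_zero] at hX4
    omega
  have hΦ0 : Φ ≠ 0 := by
    intro h'
    rw [h', mul_zero] at hΦm
    exact hX40 hΦm.symm
  have hXh0 : (X ^ h + 1 : (ZMod 2)[X]) ≠ 0 := by
    intro h'
    rw [h', zero_mul] at hΦm
    exact hX40 hΦm.symm
  have hΦd : h + Φ.natDegree = n / 4 := by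
    have := congrArg natDegree hΦm
    rw [natDegree_mul hXh0 hΦ0, hXh, hX4] at this
    exact this
  -- `T A = 0`
  have hTA : ∀ x : F, nT F Φ (nA F (4 * h) x) = 0 := by
    intro x
    rw [nT_apply, nA_apply, ← act_mul]
    have e : expand (ZMod 2) 4 Φ * (X ^ (4 * h) + 1) = X ^ n + 1 := by
      have e1 : (X ^ (4 * h) + 1 : (ZMod 2)[X]) = expand (ZMod 2) 4 (X ^ h + 1) := by
        rw [map_add, map_pow, expand_X, map_one, ← pow_mul]
      rw [e1, ← map_mul, mul_comm Φ, hΦm, map_add, map_pow, expand_X, map_one, ← pow_mul]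
      have : 4 * (n / 4) = n := by
        rw [hn4, hm]; ring
      rw [this]
    rw [e, act_add, act_X_pow, act_one]
    have hx : x ^ (2 ^ n) = x := by
      rw [← hF]; exact FiniteField.pow_card x
    rw [hx, ← two_mul, two_eq_zero' F, zero_mul]
  -- `T` is injective on `R`
  have hTL : ∀ y : (Fin h → ZMod 2) × (Fin h → ZMod 2), nT F Φ (nL a h y) = 0 → y = 0 := by
    rintro ⟨c, c'⟩ hy
    have e : nT F Φ (nL a h (c, c')) = PQ a (nP c * Φ) (nP c' * Φ) := by
      rw [nT_apply, nL_apply, ← act_nP, ← act_nP, act_add_right, ← act_mul, ← act_mul, PQ,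
        map_mul, map_mul, mul_comm (expand (ZMod 2) 4 Φ), mul_comm (expand (ZMod 2) 4 Φ)]
    rw [e] at hy
    have hdeg : ∀ d : Fin h → ZMod 2, (nP d * Φ).degree < (n / 4 : ℕ) := by
      intro d
      by_cases hd : nP d = 0
      · rw [hd, zero_mul, degree_zero]
        exact WithBot.bot_lt_coe _
      · have h1 : (nP d).natDegree < h := by
          have := nP_degree d
          rw [degree_eq_natDegree hd] at this
          exact_mod_cast this
        rw [degree_eq_natDegree (mul_ne_zero hd hΦ0), natDegree_mul hd hΦ0]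
        exact_mod_cast (by omega : (nP d).natDegree + Φ.natDegree < n / 4)
    obtain ⟨h1, h2⟩ := good_poly n (by omega) h16 hF a hg _ _ (hdeg c) (hdeg c') hy
    have h1' := (mul_eq_zero.mp h1).resolve_right hΦ0
    have h2' := (mul_eq_zero.mp h2).resolve_right hΦ0
    refine Prod.ext ?_ ?_
    · funext i
      have := nP_coeff c i
      rw [h1', coeff_zero] at this
      exact this.symm
    · funext i
      have := nP_coeff c' i
      rw [h2', coeff_zero] at this
      exact this.symm
  -- dimensions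
  have hfin : Module.Finite (ZMod 2) F := Module.Finite.of_finite
  have hfr := finrank_eq' n hF
  set U := LinearMap.range (nA F (4 * h)) with hU
  set R := LinearMap.range (nL a h) with hR
  have hLinj : Function.Injective (nL a h) := by
    rw [injective_iff_map_eq_zero]
    intro y hy
    refine hTL y ?_
    rw [hy, map_zero]
  have hRdim : Module.finrank (ZMod 2) R = 2 * h := by
    rw [hR, LinearMap.finrank_range_of_inj hLinj, Module.finrank_prod, Module.finrank_fin_fun]
    ring
  have hker : Module.finrank (ZMod 2) (LinearMap.ker (nA F (4 * h))) ≤ 4 * h := by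
    have h1 : Nat.card (LinearMap.ker (nA F (4 * h))) =
        2 ^ Module.finrank (ZMod 2) (LinearMap.ker (nA F (4 * h))) := by
      have := Module.natCard_eq_pow_finrank (K := ZMod 2) (V := LinearMap.ker (nA F (4 * h)))
      rwa [Nat.card_zmod] at this
    have h2 : Nat.card (LinearMap.ker (nA F (4 * h))) ≤ 2 ^ (4 * h) := by
      have hne : (X ^ (4 * h) + 1 : (ZMod 2)[X]) ≠ 0 := by
        have : (X ^ (4 * h) + C 1 : (ZMod 2)[X]).Monic := monic_X_pow_add_C _ (by omega)
        rw [C_1] at this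
        exact this.ne_zero
      have h3 := card_act_le (F := F) (X ^ (4 * h) + 1) hne
      have h4 : (X ^ (4 * h) + 1 : (ZMod 2)[X]).natDegree = 4 * h := by
        have : (X ^ (4 * h) + C 1 : (ZMod 2)[X]).natDegree = 4 * h := natDegree_X_pow_add_C
        rwa [C_1] at this
      rw [h4] at h3
      exact h3
    rw [h1] at h2
    exact (Nat.pow_le_pow_iff_right (by norm_num)).mp h2
  have hUdim : n ≤ Module.finrank (ZMod 2) U + 4 * h := by
    have := LinearMap.finrank_range_add_finrank_ker (nA F (4 * h))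
    rw [hfr, ← hU] at this
    omega
  have hUR : U ⊓ R = ⊥ := by
    rw [eq_bot_iff]
    rintro x ⟨⟨y, hy⟩, ⟨z, hz⟩⟩
    have h1 : nT F Φ x = 0 := by rw [← hy]; exact hTA y
    rw [← hz] at h1
    have h2 := hTL z h1
    rw [h2, map_zero] at hz
    exact hz.symm
  have hWdim : Module.finrank (ZMod 2) ↥(U ⊔ R) =
      Module.finrank (ZMod 2) U + 2 * h := by
    have := Submodule.finrank_sup_add_finrank_inf_eq U R
    rw [hUR, finrank_bot, add_zero, hRdim] at this
    exact this
  set B := Algebra.traceForm (ZMod 2) F with hB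
  have hBn : B.Nondegenerate := traceForm_nondegenerate (ZMod 2) F
  have horth := LinearMap.BilinForm.finrank_orthogonal hBn (U ⊔ R)
  rw [hfr, hWdim] at horth
  have hcard : Nat.card (B.orthogonal (U ⊔ R)) ≤ 2 ^ (4 * h / 2) := by
    have h1 := Module.natCard_eq_pow_finrank (K := ZMod 2) (V := B.orthogonal (U ⊔ R))
    rw [Nat.card_zmod] at h1
    rw [h1]
    exact Nat.pow_le_pow_right (by norm_num) (by omega)
  refine le_trans ?_ hcard
  -- inclusion
  have htrB : ∀ x y : F, B x y = tr (x * y) := fun x y => rfl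
  have hincl : ∀ v : F, v ^ (2 ^ (4 * h)) = v → Bperp n a v → v ∈ B.orthogonal (U ⊔ R) := by
    intro v hv hbp
    rw [LinearMap.BilinForm.mem_orthogonal_iff]
    intro w hw
    obtain ⟨u, hu, r, hr, rfl⟩ := Submodule.mem_sup.mp hw
    obtain ⟨x, rfl⟩ := hu
    obtain ⟨⟨c, c'⟩, rfl⟩ := hr
    change B (nA F (4 * h) x + nL a h (c, c')) v = 0
    rw [htrB, mul_comm, mul_add, tr_add]
    have h1 : tr (v * nA F (4 * h) x) = 0 := by
      rw [nA_apply, act_add, act_X_pow, act_one, mul_add, tr_add]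
      have e : tr (v * x ^ (2 ^ (4 * h))) = tr (v * x) := by
        conv_lhs => rw [← hv]
        rw [← mul_pow, tr_pow2]
      rw [e]
      exact CharTwo.add_self_eq_zero _
    have hlt : ∀ i : Fin h, (i : ℕ) < n / 4 := by
      intro i
      rw [hn4]
      exact lt_of_lt_of_le i.2 (Nat.le_mul_of_pos_right h hm0)
    have h2 : tr (v * nL a h (c, c')) = 0 := by
      rw [nL_apply, mul_add, tr_add, Finset.mul_sum, Finset.mul_sum, tr_sum, tr_sum]
      rw [Finset.sum_eq_zero, Finset.sum_eq_zero, add_zero]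
      · intro i _
        rw [mul_smul_comm, tr_smul, (hbp i (hlt i)).2, smul_zero]
      · intro i _
        rw [mul_smul_comm, tr_smul, (hbp i (hlt i)).1, smul_zero]
    rw [h1, h2, add_zero]
  exact Nat.card_le_card_of_injective
    (fun v : {v : F // v ^ (2 ^ (4 * h)) = v ∧ Bperp n a v} =>
      (⟨v.1, hincl v.1 v.2.1 v.2.2⟩ : B.orthogonal (U ⊔ R)))
    (fun v w hvw => Subtype.ext (by simpa using hvw))

end

end RunMult
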