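import Pool.Agent.Lib.MP_d16eef_co.Q.Fr4
import Pool.Agent.Lib.MP_d16eef_co.Q.Clt

/-! AD-Pure : no relation among the pure functionals.
`q = n / 8`, `j = n / 2 = 4 q`, `R = X ^ q + 1`, `V (M, M') = T2 j (PQ a M M')`.  `V` is additive,
`V (G M, G M') = act (expand 4 G) (V (M, M'))` (`act_mul`, `act_T2`), and `V` only depends on `M, M'`
modulo `R` (`act (expand 4 R) x = x ^ (2 ^ j) + x`, and `T2 j` of it is 0).
Suppose `V (M, M') = c ∈ {0, 1}`, `(M, M') ≠ (0, 0)`, degrees `< q`.  For all `G`,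
`V (G M, G M') = G(1) • c` (`act_one_elt`, `act_zero_right`).  Let `R = (X + 1) ^ N R1` with
`R1` coprime to `X + 1` (`N ≥ 1`).
Case (a): `R ∤ (X + 1) ^ N M` or `R ∤ (X + 1) ^ N M'`.  Put `(A, A') = (X + 1) ^ N (M, M') mod R`.  Then
  `V (G A, G A') = 0` for all `G`.  Consider the ideal `I = {G | R ∣ G A and R ∣ G A'}`; it is generated by
  some `Δ ∣ R` (`Δ = R / gcd (R, A, A')`), `Δ ≠ 1`, and `Δ ∣ R1` since `(X + 1) ^ N` kills nothing more:
  `R ∣ R1 A`.  Take an irreducible `f ∣ Δ` (so `f ∣ R1`, `f` not associated to `X + 1`), `G = Δ / f`,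
  `W = R / f`.  `R ∣ f G A`, so `W ∣ G A`: `G A = W α`, `G A' = W α'`, and not both `f ∣ α`, `f ∣ α'`
  (otherwise `G ∈ I`).  If `f ∤ α` choose `β` with `β α ≡ 1 mod f` and `ν = β α' mod f`, `deg ν < deg f`:
  `V (W, W ν) = V (β G A, β G A') = 0`, contradicting `NF1`.  If `f ∣ α`, then `f ∤ α'` and with
  `β α' ≡ 1 mod f`: `V (0, W) = 0`, contradiction again.
Case (b): `R ∣ (X + 1) ^ N M` and `R ∣ (X + 1) ^ N M'`.  Let `k < N` be maximal such that
  `(A, A') = (X + 1) ^ k (M, M')` is not `(0, 0)` modulo `R`; then `R ∣ (X + 1) A`, `R ∣ (X + 1) A'`, so with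
  `W = R / (X + 1) = 1 + X + ⋯ + X ^ (q - 1)`: `A ≡ α W`, `A' ≡ α' W mod R` with `α, α' ∈ {0, 1}` not both
  0.  Its value is `V (A, A') = G(1) • c` with `G = (X + 1) ^ k`, in `{0, 1}` (it is `c` or 0).  But
  `T2 j (act (expand 4 W) x) = ∑_{m < n / 4} x ^ (2 ^ (4 m)) = Tr16 n x` and
  `Tr16 n (rbk a) = rbk (Tr16 n a) = rbk (Tr16 n θ) =: r` (`Tr16_add`, `Tr16_sq`, `cls_tr16`), same with
  `r'`; so `α r + α' r' ∈ {0, 1}`, contradicting `ClsOK`. -/

namespace RunMult

open Finset Polynomial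

section

variable {F : Type} [Field F] [Fintype F] [DecidableEq F] [Algebra (ZMod 2) F]

private theorem pu_add_self (x : F) : x + x = 0 := by
  have := charP_two F
  exact CharTwo.add_self_eq_zero x

private theorem pu_add (n : ℕ) (a : F) (A B A' B' : (ZMod 2)[X]) :
    T2 (n / 2) (PQ a (A + B) (A' + B')) = T2 (n / 2) (PQ a A A') + T2 (n / 2) (PQ a B B') := by
  rw [← T2_add]
  congr 1
  unfold PQ
  rw [map_add, map_add, act_add, act_add]
  ring

private theorem pu_mul (n : ℕ) (a : F) (G A A' : (ZMod 2)[X]) :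
    T2 (n / 2) (PQ a (G * A) (G * A')) = act (expand (ZMod 2) 4 G) (T2 (n / 2) (PQ a A A')) := by
  rw [act_T2]
  congr 1
  unfold PQ
  rw [map_mul, map_mul, act_mul, act_mul, act_add_right]

private theorem pu_R (n : ℕ) (h16 : 16 ∣ n) (hF : Fintype.card F = 2 ^ n) (a : F)
    (A A' : (ZMod 2)[X]) :
    T2 (n / 2) (PQ a ((X ^ (n / 8) + 1) * A) ((X ^ (n / 8) + 1) * A')) = 0 := by
  rw [pu_mul]
  have h1 : expand (ZMod 2) 4 (X ^ (n / 8) + 1 : (ZMod 2)[X]) = X ^ (n / 2) + 1 := by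
    rw [map_add, map_pow, expand_X, map_one, ← pow_mul]
    congr 2
    omega
  rw [h1, act_add, act_X_pow, act_one, T2_fixed n (n / 2) (by omega) hF]
  exact pu_add_self _

private theorem pu_congr (n : ℕ) (h16 : 16 ∣ n) (hF : Fintype.card F = 2 ^ n) (a : F)
    (A B A' B' : (ZMod 2)[X]) (h : X ^ (n / 8) + 1 ∣ A - B) (h' : X ^ (n / 8) + 1 ∣ A' - B') :
    T2 (n / 2) (PQ a A A') = T2 (n / 2) (PQ a B B') := by
  obtain ⟨C, hC⟩ := h
  obtain ⟨C', hC'⟩ := h'
  have h1 : A = B + (X ^ (n / 8) + 1) * C := by rw [← hC]; ring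
  have h2 : A' = B' + (X ^ (n / 8) + 1) * C' := by rw [← hC']; ring
  rw [h1, h2, pu_add, pu_R n h16 hF, add_zero]

private theorem pu_pow (D : (ZMod 2)[X]) : D ≠ 0 →
    (∀ f : (ZMod 2)[X], Irreducible f → f ∣ D → Associated f (X + 1)) →
    ∃ m : ℕ, D ∣ (X + 1) ^ m := by
  refine UniqueFactorizationMonoid.induction_on_prime D ?_ ?_ ?_
  · intro h
    exact absurd rfl h
  · intro x hx _ _
    exact ⟨0, hx.dvd⟩
  · intro b p hb hp ih _ hirr
    obtain ⟨m, hm⟩ := ih hb fun f hf hfb => hirr f hf (Dvd.dvd.mul_left hfb p)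
    have h1 := hirr p hp.irreducible (dvd_mul_right p b)
    refine ⟨m + 1, ?_⟩
    rw [pow_succ']
    exact mul_dvd_mul h1.dvd hm

private theorem pu_claim (n : ℕ) (hn : 0 < n) (h16 : 16 ∣ n) (hF : Fintype.card F = 2 ^ n) (a : F)
    (h1 : NF1 n a) (A A' : (ZMod 2)[X]) (hA : T2 (n / 2) (PQ a A A') = 0) :
    ∃ m : ℕ, X ^ (n / 8) + 1 ∣ (X + 1) ^ m * A ∧ X ^ (n / 8) + 1 ∣ (X + 1) ^ m * A' := by
  classical
  set R : (ZMod 2)[X] := X ^ (n / 8) + 1 with hR
  have hq : n / 8 ≠ 0 := by omega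
  have hR0 : R ≠ 0 := by
    have := (monic_X_pow_add_C (1 : ZMod 2) hq).ne_zero
    rwa [map_one] at this
  let I : Ideal (ZMod 2)[X] :=
    { carrier := {G | R ∣ G * A ∧ R ∣ G * A'}
      zero_mem' := by simp
      add_mem' := by
        rintro G H ⟨hG, hG'⟩ ⟨hH, hH'⟩
        exact ⟨by rw [add_mul]; exact dvd_add hG hH, by rw [add_mul]; exact dvd_add hG' hH'⟩
      smul_mem' := by
        rintro C G ⟨hG, hG'⟩
        exact ⟨by rw [smul_eq_mul, mul_assoc]; exact Dvd.dvd.mul_left hG C,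
          by rw [smul_eq_mul, mul_assoc]; exact Dvd.dvd.mul_left hG' C⟩ }
  have hI : ∀ G, G ∈ I ↔ R ∣ G * A ∧ R ∣ G * A' := fun G => Iff.rfl
  set Δ := Submodule.IsPrincipal.generator I with hΔ
  have hmem : ∀ G, G ∈ I ↔ Δ ∣ G := fun G => Submodule.IsPrincipal.mem_iff_generator_dvd I
  have hΔR : Δ ∣ R := (hmem R).mp ⟨dvd_mul_right _ _, dvd_mul_right _ _⟩
  have hΔ0 : Δ ≠ 0 := fun h => hR0 (zero_dvd_iff.mp (h ▸ hΔR))
  by_cases hirr : ∀ f : (ZMod 2)[X], Irreducible f → f ∣ Δ → Associated f (X + 1)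
  · obtain ⟨m, hm⟩ := pu_pow Δ hΔ0 hirr
    exact ⟨m, (hmem _).mpr hm⟩
  · exfalso
    push Not at hirr
    obtain ⟨f, hf, hfΔ, hfX⟩ := hirr
    obtain ⟨G, hG⟩ := hfΔ
    obtain ⟨W, hW⟩ := dvd_trans ⟨G, hG⟩ hΔR
    have hf0 : f ≠ 0 := hf.ne_zero
    have hG0 : G ≠ 0 := by
      rintro rfl
      exact hΔ0 (by rw [hG, mul_zero])
    have hGI : G ∉ I := by
      intro h
      have h2 := (hmem G).mp h
      rw [hG] at h2
      have h3 : f * G ∣ 1 * G := by rwa [one_mul]
      exact hf.not_isUnit (isUnit_of_dvd_one ((mul_dvd_mul_iff_right hG0).mp h3))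
    obtain ⟨hΔA, hΔA'⟩ := (hI Δ).mp ((hmem Δ).mpr dvd_rfl)
    have hWA : W ∣ G * A := by
      rw [hW, hG, mul_assoc] at hΔA
      exact (mul_dvd_mul_iff_left hf0).mp hΔA
    have hWA' : W ∣ G * A' := by
      rw [hW, hG, mul_assoc] at hΔA'
      exact (mul_dvd_mul_iff_left hf0).mp hΔA'
    obtain ⟨α, hα⟩ := hWA
    obtain ⟨α', hα'⟩ := hWA'
    obtain ⟨hnf1, hnf2⟩ := h1 f W hf hW.symm hfX
    have hGV : T2 (n / 2) (PQ a (W * α) (W * α')) = 0 := by
      rw [← hα, ← hα', pu_mul, hA, act_zero_right]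
    by_cases hfα : f ∣ α
    · have hfα' : ¬ f ∣ α' := by
        intro hfα'
        apply hGI
        rw [hI, hα, hα', hW, mul_comm f W]
        exact ⟨mul_dvd_mul_left W hfα, mul_dvd_mul_left W hfα'⟩
      obtain ⟨γ, β, hβ⟩ := (hf.coprime_iff_not_dvd).mpr hfα'
      apply hnf2
      have h2 : T2 (n / 2) (PQ a (β * (W * α)) (β * (W * α'))) = 0 := by
        rw [pu_mul, hGV, act_zero_right]
      rw [← h2]
      refine pu_congr n h16 hF a _ _ _ _ ?_ ?_
      · obtain ⟨α₁, hα₁⟩ := hfα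
        rw [← hR, hW]
        refine ⟨-(β * α₁), ?_⟩
        rw [hα₁]
        ring
      · rw [← hR, hW]
        refine ⟨γ, ?_⟩
        linear_combination (-W) * hβ
    · obtain ⟨γ, β, hβ⟩ := (hf.coprime_iff_not_dvd).mpr hfα
      have h2 : T2 (n / 2) (PQ a (β * (W * α)) (β * (W * α'))) = 0 := by
        rw [pu_mul, hGV, act_zero_right]
      have hmod := EuclideanDomain.div_add_mod (β * α') f
      refine hnf1 ((β * α') % f) (Polynomial.degree_mod_lt _ hf0) ?_
      rw [← h2]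
      refine pu_congr n h16 hF a _ _ _ _ ?_ ?_
      · rw [← hR, hW]
        refine ⟨γ, ?_⟩
        linear_combination (-W) * hβ
      · rw [← hR, hW]
        refine ⟨-((β * α') / f), ?_⟩
        linear_combination W * hmod

private theorem pu_wo (n : ℕ) (h16 : 16 ∣ n) (x : F) :
    T2 (n / 2) (act (expand (ZMod 2) 4 (∑ i ∈ range (n / 8), X ^ i)) x) = Tr16 n x := by
  have h1 : act (expand (ZMod 2) 4 (∑ i ∈ range (n / 8), X ^ i)) x =
      ∑ i ∈ range (n / 8), x ^ (2 ^ (4 * i)) := by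
    rw [map_sum]
    have h2 : ∀ N : ℕ, act (∑ i ∈ range N, expand (ZMod 2) 4 (X ^ i : (ZMod 2)[X])) x =
        ∑ i ∈ range N, x ^ (2 ^ (4 * i)) := by
      intro N
      induction N with
      | zero => simp [act_zero]
      | succ N ih =>
        rw [Finset.sum_range_succ, Finset.sum_range_succ, act_add, ih, map_pow, expand_X,
          ← pow_mul, act_X_pow]
    exact h2 _
  rw [h1]
  unfold T2 Tr16
  have h3 : ∀ N : ℕ, (∑ i ∈ range N, x ^ (2 ^ (4 * i))) ^ (2 ^ (n / 2)) =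
      ∑ i ∈ range N, x ^ (2 ^ (4 * (n / 8 + i))) := by
    intro N
    induction N with
    | zero =>
      rw [Finset.range_zero, Finset.sum_empty, Finset.sum_empty, zero_pow (by positivity)]
    | succ N ih =>
      rw [Finset.sum_range_succ, Finset.sum_range_succ, add_pow2, ih, ← pow_mul, ← pow_add]
      congr 3
      omega
  rw [h3, ← Finset.sum_range_add]
  congr 2
  omega

theorem pure_ok (n : ℕ) (hn : 0 < n) (h16 : 16 ∣ n) (hF : Fintype.card F = 2 ^ n) (a : F)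
    (ha0 : a ≠ 0) (θ θ' : F) (hok : ClsOK n θ θ') (hc : Cls θ θ' a) (h1 : NF1 n a)
    (M M' : (ZMod 2)[X]) (hM : M.degree < (n / 8 : ℕ)) (hM' : M'.degree < (n / 8 : ℕ))
    (h0 : ¬ (M = 0 ∧ M' = 0)) : T2 (n / 2) (PQ a M M') ≠ 0 ∧ T2 (n / 2) (PQ a M M') ≠ 1 := by
  classical
  have hq : n / 8 ≠ 0 := by omega
  set R : (ZMod 2)[X] := X ^ (n / 8) + 1 with hR
  have hmon : R.Monic := by
    have := monic_X_pow_add_C (1 : ZMod 2) hq
    rwa [map_one] at this
  have hR0 : R ≠ 0 := hmon.ne_zero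
  have hdeg : R.degree = (n / 8 : ℕ) := by
    have := degree_X_pow_add_C (Nat.pos_of_ne_zero hq) (1 : ZMod 2)
    rwa [map_one] at this
  -- the general statement
  have key : ∀ c : F, (c = 0 ∨ c = 1) → T2 (n / 2) (PQ a M M') ≠ c := by
    intro c hc01 hV
    have hval : ∀ G : (ZMod 2)[X], T2 (n / 2) (PQ a (G * M) (G * M')) = G.eval 1 • c := by
      intro G
      rw [pu_mul, hV]
      rcases hc01 with rfl | rfl
      · rw [act_zero_right, smul_zero]
      · rw [act_one_elt]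
        congr 1
        rw [expand_eval, one_pow]
    have h2 : T2 (n / 2) (PQ a ((X + 1) * M) ((X + 1) * M')) = 0 := by
      rw [hval]
      have : (X + 1 : (ZMod 2)[X]).eval 1 = 0 := by
        rw [eval_add, eval_X, eval_one]
        decide
      rw [this, zero_smul]
    obtain ⟨m, hm, hm'⟩ := pu_claim n hn h16 hF a h1 _ _ h2
    have hex : ∃ k : ℕ, R ∣ (X + 1) ^ k * M ∧ R ∣ (X + 1) ^ k * M' := by
      refine ⟨m + 1, ?_, ?_⟩
      · rw [pow_succ, mul_assoc]
        exact hm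
      · rw [pow_succ, mul_assoc]
        exact hm'
    set k0 := Nat.find hex with hk0
    obtain ⟨hd, hd'⟩ := Nat.find_spec hex
    rw [← hk0] at hd hd'
    have hk0pos : k0 ≠ 0 := by
      intro h
      rw [h, pow_zero, one_mul] at hd hd'
      apply h0
      constructor
      · by_contra hne
        have := Polynomial.degree_le_of_dvd hd hne
        rw [hdeg] at this
        exact absurd hM (not_lt.mpr this)
      · by_contra hne
        have := Polynomial.degree_le_of_dvd hd' hne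
        rw [hdeg] at this
        exact absurd hM' (not_lt.mpr this)
    obtain ⟨k, hk⟩ : ∃ k, k0 = k + 1 := ⟨k0 - 1, by omega⟩
    have hmin := Nat.find_min hex (m := k) (by omega)
    rw [hk, pow_succ', mul_assoc] at hd hd'
    set A := (X + 1) ^ k * M with hA
    set A' := (X + 1) ^ k * M' with hA'
    -- the cofactor
    set W : (ZMod 2)[X] := ∑ i ∈ range (n / 8), X ^ i with hW
    have hWR : (X + 1) * W = R := by
      have h3 := mul_geom_sum (X : (ZMod 2)[X]) (n / 8)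
      have h4 : (X + 1 : (ZMod 2)[X]) = X - 1 := (CharTwo.sub_eq_add _ _).symm
      rw [h4, hW, h3, hR, CharTwo.sub_eq_add]
    have hX1 : (X + 1 : (ZMod 2)[X]) ≠ 0 := by
      have := (monic_X_add_C (1 : ZMod 2)).ne_zero
      rwa [map_one] at this
    have hWA : W ∣ A := by
      rw [← hWR] at hd
      exact (mul_dvd_mul_iff_left hX1).mp hd
    have hWA' : W ∣ A' := by
      rw [← hWR] at hd'
      exact (mul_dvd_mul_iff_left hX1).mp hd'
    obtain ⟨α, hα⟩ := hWA
    obtain ⟨α', hα'⟩ := hWA'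
    have hred : ∀ β : (ZMod 2)[X], X + 1 ∣ β - C (β.eval 1) := by
      intro β
      have h3 : X - C (1 : ZMod 2) ∣ β - C (β.eval 1) := X_sub_C_dvd_sub_C_eval
      have h4 : (X - C (1 : ZMod 2)) = X + 1 := by
        rw [map_one, CharTwo.sub_eq_add]
      rwa [h4] at h3
    set e := α.eval 1 with he
    set e' := α'.eval 1 with he'
    have hAe : R ∣ A - W * C e := by
      rw [hα, ← mul_sub, ← hWR, mul_comm (X + 1) W]
      exact mul_dvd_mul_left W (hred α)
    have hAe' : R ∣ A' - W * C e' := by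
      rw [hα', ← mul_sub, ← hWR, mul_comm (X + 1) W]
      exact mul_dvd_mul_left W (hred α')
    have hee : ¬ (e = 0 ∧ e' = 0) := by
      rintro ⟨h3, h4⟩
      apply hmin
      rw [h3, map_zero, mul_zero, sub_zero] at hAe
      rw [h4, map_zero, mul_zero, sub_zero] at hAe'
      exact ⟨hAe, hAe'⟩
    have hVA : T2 (n / 2) (PQ a A A') = ((X + 1 : (ZMod 2)[X]) ^ k).eval 1 • c := hval _
    rw [pu_congr n h16 hF a A (W * C e) A' (W * C e') hAe hAe'] at hVA
    -- evaluation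
    have hCe : ∀ (x : F) (ε : ZMod 2), act (expand (ZMod 2) 4 (W * C ε)) x =
        ε • act (expand (ZMod 2) 4 W) x := by
      intro x ε
      have h3 : ∀ z : ZMod 2, z = 0 ∨ z = 1 := by decide
      rcases h3 ε with rfl | rfl
      · rw [map_zero, mul_zero, map_zero, act_zero, zero_smul]
      · rw [map_one, mul_one, one_smul]
    have hrb : ∀ x : F, Tr16 n (rbk x) = rbk (Tr16 n x) := by
      intro x
      unfold rbk
      rw [Tr16_add, Tr16_sq]
    have h4n : 4 ∣ n := Dvd.dvd.trans (by norm_num) h16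
    obtain ⟨ht, ht'⟩ := cls_tr16 n h4n hF θ θ' a hc
    have hev : T2 (n / 2) (PQ a (W * C e) (W * C e')) =
        e • rbk (Tr16 n θ) + e' • rbk (Tr16 n θ') := by
      unfold PQ
      rw [hCe, hCe, T2_add, T2_smul, T2_smul, hW, pu_wo n h16, pu_wo n h16, hrb, hrb, ht, ht']
    rw [hev] at hVA
    have hc' : ((X + 1 : (ZMod 2)[X]) ^ k).eval 1 • c = 0 ∨
        ((X + 1 : (ZMod 2)[X]) ^ k).eval 1 • c = 1 := by
      have h3 : ∀ z : ZMod 2, z = 0 ∨ z = 1 := by decide
      rcases h3 (((X + 1 : (ZMod 2)[X]) ^ k).eval 1) with h4 | h4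
      · left
        rw [h4, zero_smul]
      · rw [h4, one_smul]
        exact hc01
    obtain ⟨hr1, hr2, hr3, hr4, hr5, hr6⟩ := hok
    have h3 : ∀ z : ZMod 2, z = 0 ∨ z = 1 := by decide
    rw [← hVA] at hc'
    rcases h3 e with h5 | h5 <;> rcases h3 e' with h6 | h6
    · exact hee ⟨h5, h6⟩
    · rw [h5, h6, zero_smul, zero_add, one_smul] at hc'
      rcases hc' with h7 | h7
      · exact hr3 h7
      · exact hr4 h7
    · rw [h5, h6, zero_smul, add_zero, one_smul] at hc'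
      rcases hc' with h7 | h7
      · exact hr1 h7
      · exact hr2 h7
    · rw [h5, h6, one_smul, one_smul] at hc'
      rcases hc' with h7 | h7
      · exact hr5 h7
      · exact hr6 h7
  exact ⟨key 0 (Or.inl rfl), key 1 (Or.inr rfl)⟩


end

end RunMult
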