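import Pool.Agent.Lib.MP_d16eef_co.Q.ColA
import Pool.Agent.Lib.MP_d16eef_co.Q.ColB
import Pool.Agent.Lib.MP_d16eef_co.Q.InqU

/-! AD-Uex : existence of the base point.
Let `A` be the set of `hA`.  Bad elements `u ∈ A`:
(i) `∃ d d' ∈ Λ, s s' < n, i ≠ 0, |i| ≤ n` with `(u + d) ^ (2 ^ s) * a ^ i = (u + d') ^ (2 ^ s')`:
    at most `|Λ|^2 n^2 (2 n + 1) (n + 1)` by `col_ne`;
(ii) `i = 0`, `s ≠ s'`, `s + n / 2 ≠ s'`, `s' + n / 2 ≠ s`: at most `|Λ|^2 n^2 2 ^ (n / 6)` by `col_zero`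
    (`u ∈ A` gives `Bone`);
(iii) `(u + η) * a ^ l = (u + d) ^ (2 ^ s)` with `1 ≤ l < n`: at most `|Λ| n^2 (n + 1)` (`col_ne` with
    `c = η`, `c' = d`, `s = 0`, `s' = s`);
(iv) `u + η = (u + d) ^ (2 ^ s)` with `s ≠ 0`: at most `|Λ| n 2 ^ (n / 4)` (`col_zero`).
By `ineq_u`, `|Λ| ≤ 2 ^ (n / 8)` and `hA`, some `u ∈ A` is not bad.  It works:
* `i = 0`, `s = s'`: Frobenius is injective, so `d = d'`;
* `i = 0`, `s' = s + n / 2` (or the other way round, symmetric): then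
  `u + d = (u + d') ^ (2 ^ (n / 2))` and `tr ((u + d) * a ^ 17) = 1 + 0 = 1`, but
  `tr ((u + d') ^ (2 ^ (n / 2)) * a ^ 17) = tr ((u + d') * (a ^ 17) ^ (2 ^ (n / 2))) = 0 + 0`
  (raise to the power `2 ^ (n / 2)`, `x ^ (2 ^ n) = x`): contradiction;
* `l = 0`, `s = 0` in the last condition: `u + η = u + d` gives `η = d ∈ Λ`: contradiction.
Organise the union bound with `Finset.card_biUnion_le` over the product of index sets or a small
private lemma if every piece has at most N elements the union has at most |index| * N. -/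

namespace RunMult

open Finset Polynomial

section

variable {F : Type} [Field F] [Fintype F] [DecidableEq F] [Algebra (ZMod 2) F]

private theorem uex_inj (x y : F) (s : ℕ) (h : x ^ (2 ^ s) = y ^ (2 ^ s)) : x = y := by
  have hc := charP_two F
  have h1 : (x + y) ^ (2 ^ s) = 0 := by
    rw [add_pow2, h, CharTwo.add_self_eq_zero]
  have h2 : x + y = 0 := by
    have := pow_eq_zero_iff (M₀ := F) (a := x + y) (n := 2 ^ s) (by positivity)
    exact this.mp h1
  have h3 : x = -y := eq_neg_of_add_eq_zero_left h2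
  rw [h3, CharTwo.neg_eq]

private theorem uex_half (n : ℕ) (h16 : 16 ∣ n) (hF : Fintype.card F = 2 ^ n) (a u d d' : F)
    (hu1 : tr (u * a ^ 17) = 1) (hu2 : tr (u * (a ^ 17) ^ (2 ^ (n / 2))) = 0)
    (hd : tr (d * a ^ 17) = 0) (hd' : tr (d' * (a ^ 17) ^ (2 ^ (n / 2))) = 0)
    (h : u + d = (u + d') ^ (2 ^ (n / 2))) : False := by
  have h1 : tr ((u + d) * a ^ 17) = 1 := by
    rw [add_mul, tr_add, hu1, hd, add_zero]
  have h2 : tr ((u + d) * a ^ 17) = 0 := by
    rw [← tr_pow2 _ (n / 2), mul_pow, h, ← pow_mul, ← pow_add,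
      show n / 2 + n / 2 = n by omega, ← hF, FiniteField.pow_card, add_mul, tr_add, hu2, hd',
      add_zero]
  rw [h1] at h2
  exact absurd h2 (by decide)

theorem exists_u (n : ℕ) (hn : 256 ≤ n) (h16 : 16 ∣ n) (hF : Fintype.card F = 2 ^ n) (a : F)
    (ha : orderOf a = 2 ^ n - 1)
    (hA : 2 ^ (n / 2 - 2) ≤ Nat.card {u : F // Bone n a u ∧ tr (u * a ^ 17) = 1 ∧
      tr (u * (a ^ 17) ^ (2 ^ (n / 2))) = 0})
    (hB : ∀ g, 4 ∣ g → g ∣ n → 0 < g →
      Nat.card {v : F // v ^ (2 ^ g) = v ∧ Bperp n a v} ≤ 2 ^ (g / 2))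
    (Λ : Finset F) (hΛ : Λ.card ≤ 2 ^ (n / 8))
    (hΛt : ∀ d ∈ Λ, tr (d * a ^ 17) = 0 ∧ tr (d * (a ^ 17) ^ (2 ^ (n / 2))) = 0)
    (η : F) (hη : η ∉ Λ) :
    ∃ u : F, Bone n a u ∧
      (∀ d ∈ Λ, ∀ d' ∈ Λ, ∀ s < n, ∀ s' < n, ∀ i : ℤ, |i| ≤ n →
        (u + d) ^ (2 ^ s) * a ^ i = (u + d') ^ (2 ^ s') → i = 0 ∧ s = s' ∧ d = d') ∧
      (∀ l < n, ∀ d ∈ Λ, ∀ s < n, (u + η) * a ^ l ≠ (u + d) ^ (2 ^ s)) := by
  classical
  set A : Finset F := univ.filter fun u : F => Bone n a u ∧ tr (u * a ^ 17) = 1 ∧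
      tr (u * (a ^ 17) ^ (2 ^ (n / 2))) = 0 with hAd
  have hAc : 2 ^ (n / 2 - 2) ≤ A.card := by
    rw [Nat.card_eq_fintype_card, Fintype.card_subtype] at hA
    exact hA
  -- the first family
  set I1 : Finset ((ℕ × ℕ) × (ℤ × (F × F))) := (range n ×ˢ range n) ×ˢ
    (((Finset.Icc (-(n : ℤ)) n).filter fun i => i ≠ 0) ×ˢ (Λ ×ˢ Λ)) with hI1
  set f1 : (ℕ × ℕ) × (ℤ × (F × F)) → Finset F := fun t => univ.filter fun u : F =>
    (u + t.2.2.1) ^ (2 ^ t.1.1) * a ^ t.2.1 = (u + t.2.2.2) ^ (2 ^ t.1.2) with hf1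
  have hI1c : I1.card ≤ n * n * (2 * n + 1) * (2 ^ (n / 8) * 2 ^ (n / 8)) := by
    have h1 : ((Finset.Icc (-(n : ℤ)) n).filter fun i => i ≠ 0).card ≤ 2 * n + 1 := by
      refine le_trans (Finset.card_filter_le _ _) ?_
      rw [Int.card_Icc]
      omega
    rw [hI1, Finset.card_product, Finset.card_product, Finset.card_product, Finset.card_product,
      Finset.card_range]
    calc n * n * (((Finset.Icc (-(n : ℤ)) n).filter fun i => i ≠ 0).card * (Λ.card * Λ.card)) ≤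
        n * n * ((2 * n + 1) * (2 ^ (n / 8) * 2 ^ (n / 8))) := by gcongr
      _ = n * n * (2 * n + 1) * (2 ^ (n / 8) * 2 ^ (n / 8)) := by ring
  have hB1 : (I1.biUnion f1).card ≤
      n * n * (2 * n + 1) * (2 ^ (n / 8) * 2 ^ (n / 8)) * (n + 1) := by
    refine le_trans (Finset.card_biUnion_le_card_mul I1 f1 (n + 1) ?_) (Nat.mul_le_mul_right _ hI1c)
    rintro ⟨⟨s, s'⟩, i, d, d'⟩ ht
    simp only [hI1, Finset.mem_product, Finset.mem_range, Finset.mem_filter, Finset.mem_Icc] at ht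
    obtain ⟨⟨hs, hs'⟩, ⟨hi, hi0⟩, hd, hd'⟩ := ht
    have h1 := col_ne n (by omega) hF a ha d d' s s' hs hs' i hi0 (abs_le.mpr hi)
    rw [Nat.card_eq_fintype_card, Fintype.card_subtype] at h1
    exact h1
  -- the second family
  set I2 : Finset ((ℕ × ℕ) × (F × F)) := ((range n ×ˢ range n).filter fun s =>
    s.1 ≠ s.2 ∧ s.1 + n / 2 ≠ s.2 ∧ s.2 + n / 2 ≠ s.1) ×ˢ (Λ ×ˢ Λ) with hI2
  set f2 : (ℕ × ℕ) × (F × F) → Finset F := fun t => univ.filter fun u : F =>
    Bone n a u ∧ (u + t.2.1) ^ (2 ^ t.1.1) = (u + t.2.2) ^ (2 ^ t.1.2) with hf2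
  have hI2c : I2.card ≤ n * n * (2 ^ (n / 8) * 2 ^ (n / 8)) := by
    have h1 : ((range n ×ˢ range n).filter fun s : ℕ × ℕ =>
        s.1 ≠ s.2 ∧ s.1 + n / 2 ≠ s.2 ∧ s.2 + n / 2 ≠ s.1).card ≤ n * n := by
      refine le_trans (Finset.card_filter_le _ _) ?_
      rw [Finset.card_product, Finset.card_range]
    rw [hI2, Finset.card_product, Finset.card_product]
    gcongr
  have hB2 : (I2.biUnion f2).card ≤ n * n * (2 ^ (n / 8) * 2 ^ (n / 8)) * 2 ^ (n / 6) := by
    refine le_trans (Finset.card_biUnion_le_card_mul I2 f2 (2 ^ (n / 6)) ?_)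
      (Nat.mul_le_mul_right _ hI2c)
    rintro ⟨⟨s, s'⟩, d, d'⟩ ht
    simp only [hI2, Finset.mem_product, Finset.mem_range, Finset.mem_filter] at ht
    obtain ⟨⟨⟨hs, hs'⟩, h1, h2, h3⟩, hd, hd'⟩ := ht
    have h4 := (col_zero n hn h16 hF a hB d d' s s' hs hs' h1).2 h2 h3
    rw [Nat.card_eq_fintype_card, Fintype.card_subtype] at h4
    exact h4
  -- the third family
  set I3 : Finset ((ℕ × ℕ) × F) := (((range n).filter fun l => l ≠ 0) ×ˢ range n) ×ˢ Λ with hI3
  set f3 : (ℕ × ℕ) × F → Finset F := fun t => univ.filter fun u : F =>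
    (u + η) * a ^ t.1.1 = (u + t.2) ^ (2 ^ t.1.2) with hf3
  have hI3c : I3.card ≤ n * n * 2 ^ (n / 8) := by
    have h1 : ((range n).filter fun l => l ≠ 0).card ≤ n := by
      refine le_trans (Finset.card_filter_le _ _) ?_
      rw [Finset.card_range]
    rw [hI3, Finset.card_product, Finset.card_product, Finset.card_range]
    gcongr
  have hB3 : (I3.biUnion f3).card ≤ n * n * 2 ^ (n / 8) * (n + 1) := by
    refine le_trans (Finset.card_biUnion_le_card_mul I3 f3 (n + 1) ?_)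
      (Nat.mul_le_mul_right _ hI3c)
    rintro ⟨⟨l, s⟩, d⟩ ht
    simp only [hI3, Finset.mem_product, Finset.mem_range, Finset.mem_filter] at ht
    obtain ⟨⟨⟨hl, hl0⟩, hs⟩, hd⟩ := ht
    have h1 := col_ne n (by omega) hF a ha η d 0 s (by omega) hs (l : ℤ) (by exact_mod_cast hl0)
      (by rw [Nat.abs_cast]; exact_mod_cast hl.le)
    rw [Nat.card_eq_fintype_card, Fintype.card_subtype] at h1
    simp only [pow_zero, pow_one, zpow_natCast] at h1
    exact h1
  -- the fourth family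
  set I4 : Finset (ℕ × F) := ((range n).filter fun l => l ≠ 0) ×ˢ Λ with hI4
  set f4 : ℕ × F → Finset F := fun t => univ.filter fun u : F =>
    Bone n a u ∧ u + η = (u + t.2) ^ (2 ^ t.1) with hf4
  have hI4c : I4.card ≤ n * 2 ^ (n / 8) := by
    have h1 : ((range n).filter fun l => l ≠ 0).card ≤ n := by
      refine le_trans (Finset.card_filter_le _ _) ?_
      rw [Finset.card_range]
    rw [hI4, Finset.card_product]
    gcongr
  have hB4 : (I4.biUnion f4).card ≤ n * 2 ^ (n / 8) * 2 ^ (n / 4) := by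
    refine le_trans (Finset.card_biUnion_le_card_mul I4 f4 (2 ^ (n / 4)) ?_)
      (Nat.mul_le_mul_right _ hI4c)
    rintro ⟨s, d⟩ ht
    simp only [hI4, Finset.mem_product, Finset.mem_range, Finset.mem_filter] at ht
    obtain ⟨⟨hs, hs0⟩, hd⟩ := ht
    have h1 := (col_zero n hn h16 hF a hB η d 0 s (by omega) hs (fun h => hs0 h.symm)).1
    rw [Nat.card_eq_fintype_card, Fintype.card_subtype] at h1
    simp only [pow_zero, pow_one] at h1
    exact h1
  -- the union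
  have hlt : (I1.biUnion f1 ∪ I2.biUnion f2 ∪ I3.biUnion f3 ∪ I4.biUnion f4).card < A.card := by
    refine lt_of_lt_of_le (lt_of_le_of_lt ?_ (ineq_u n hn h16)) hAc
    refine le_trans (Finset.card_union_le _ _) (Nat.add_le_add ?_ hB4)
    refine le_trans (Finset.card_union_le _ _) (Nat.add_le_add ?_ hB3)
    exact le_trans (Finset.card_union_le _ _) (Nat.add_le_add hB1 hB2)
  obtain ⟨u, huA, hu⟩ := Finset.exists_mem_notMem_of_card_lt_card hlt
  rw [hAd, Finset.mem_filter] at huA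
  obtain ⟨_, hbone, ht1, ht2⟩ := huA
  simp only [Finset.mem_union, Finset.mem_biUnion, not_or, not_exists, not_and] at hu
  obtain ⟨⟨⟨hu1, hu2⟩, hu3⟩, hu4⟩ := hu
  refine ⟨u, hbone, ?_, ?_⟩
  · intro d hd d' hd' s hs s' hs' i hi heq
    have hi0 : i = 0 := by
      by_contra hne
      refine hu1 ((s, s'), (i, (d, d'))) ?_ ?_
      · simp only [hI1, Finset.mem_product, Finset.mem_range, Finset.mem_filter, Finset.mem_Icc]
        exact ⟨⟨hs, hs'⟩, ⟨abs_le.mp hi, hne⟩, hd, hd'⟩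
      · simp only [hf1, Finset.mem_filter]
        exact ⟨Finset.mem_univ _, heq⟩
    rw [hi0, zpow_zero, mul_one] at heq
    have hss : s = s' := by
      by_contra hne
      by_cases h1 : s + n / 2 = s'
      · rw [← h1, add_comm s, pow_add, pow_mul] at heq
        exact uex_half n h16 hF a u d d' ht1 ht2 (hΛt d hd).1 (hΛt d' hd').2 (uex_inj _ _ s heq)
      · by_cases h2 : s' + n / 2 = s
        · rw [← h2, add_comm s', pow_add, pow_mul] at heq
          exact uex_half n h16 hF a u d' d ht1 ht2 (hΛt d' hd').1 (hΛt d hd).2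
            (uex_inj _ _ s' heq).symm
        · refine hu2 ((s, s'), (d, d')) ?_ ?_
          · simp only [hI2, Finset.mem_product, Finset.mem_range, Finset.mem_filter]
            exact ⟨⟨⟨hs, hs'⟩, hne, h1, h2⟩, hd, hd'⟩
          · simp only [hf2, Finset.mem_filter]
            exact ⟨Finset.mem_univ _, hbone, heq⟩
    rw [← hss] at heq
    exact ⟨hi0, hss, add_left_cancel (uex_inj _ _ s heq)⟩
  · intro l hl d hd s hs heq
    by_cases hl0 : l = 0
    · rw [hl0, pow_zero, mul_one] at heq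
      by_cases hs0 : s = 0
      · rw [hs0, pow_zero, pow_one] at heq
        exact hη (add_left_cancel heq ▸ hd)
      · refine hu4 (s, d) ?_ ?_
        · simp only [hI4, Finset.mem_product, Finset.mem_range, Finset.mem_filter]
          exact ⟨⟨hs, hs0⟩, hd⟩
        · simp only [hf4, Finset.mem_filter]
          exact ⟨Finset.mem_univ _, hbone, heq⟩
    · refine hu3 ((l, s), d) ?_ ?_
      · simp only [hI3, Finset.mem_product, Finset.mem_range, Finset.mem_filter]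
        exact ⟨⟨⟨hl, hl0⟩, hs⟩, hd⟩
      · simp only [hf3, Finset.mem_filter]
        exact ⟨Finset.mem_univ _, heq⟩


end

end RunMult
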