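import Pool.Agent.Lib.MP_d16eef_co.Q.Defs

/-! AD-Win : the window of a direction.
`s = 4 q' + t`, `t = s % 4`, `s % (n / 2) / 4 = q < n / 8`, `b = n / 8 - 1 - q`.  As
`tr (z ^ (2 ^ s) * a ^ i) = tr (z * a ^ (i * 2 ^ (n - s)))` (raise to the power `2 ^ (n - s)`,
`tr_pow2`, `z ^ (2 ^ n) = z`).  Write `i = ± i'`, `1 ≤ i' ≤ 2 ^ (t + 1)`; treat `a` and `a⁻¹`
symmetrically.  `4 b + 1 = n / 2 - 4 q - 3`, so
* if `s ≥ n / 2`: `n - s = n / 2 - 4 q - t = (4 b + 1) + (3 - t)`;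
* if `s < n / 2`: `n - s = (4 b + 1 + n / 2) + (3 - t)`.
Hence `a ^ (i' 2 ^ (n - s)) = (a ^ (i' 2 ^ (3 - t))) ^ (2 ^ (4 b + 1 [+ n / 2]))` with
`e = i' 2 ^ (3 - t) ≤ 16`.  If `e ≤ 15` use `Lperp` with `i = e - 1`.  If `e = 16`: the functional is
`a ^ (2 ^ (4 (b + 1) + 1 [+ n / 2]))`; `Bperp` with `m = b + 1 [+ n / 8]` (mod `n / 4`: if
`m = n / 4` use `m = 0` and `x ^ (2 ^ n) = x`) says `tr (z * (a + a ^ 2) ^ (2 ^ (4 m))) = 0`, so it
equals `tr (z * a ^ (2 ^ (4 (b + 1) [+ n / 2])))`, which is `Lperp` with exponent `8` (`i = 7`):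
`(a ^ 8) ^ (2 ^ (4 b + 1)) = a ^ (2 ^ (4 b + 4))`. -/

namespace RunMult

open Finset Polynomial

section

variable {F : Type} [Field F] [Fintype F] [DecidableEq F] [Algebra (ZMod 2) F]

private theorem win_aux (n : ℕ) (hn : 0 < n) (h16 : 16 ∣ n) (hF : Fintype.card F = 2 ^ n) (x : F)
    (b : ℕ) (z : F) (hB : ∀ m < n / 4, tr (z * rbk x ^ (2 ^ (4 * m))) = 0)
    (hL : ∀ i < 15, tr (z * (x ^ (i + 1)) ^ (2 ^ (4 * b + 1))) = 0 ∧
      tr (z * (x ^ (i + 1)) ^ (2 ^ (4 * b + 1 + n / 2))) = 0) (s : ℕ) (hs : s < n)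
    (hsb : b = n / 8 - 1 - s % (n / 2) / 4) (i : ℕ) (hi : i ≠ 0) (hik : i ≤ 2 ^ (s % 4 + 1)) :
    tr (z ^ (2 ^ s) * x ^ i) = 0 := by
  have hx : ∀ u : F, u ^ (2 ^ n) = u := by
    intro u
    rw [← hF, FiniteField.pow_card]
  have hB' : ∀ m ≤ n / 4, tr (z * rbk x ^ (2 ^ (4 * m))) = 0 := by
    intro m hm
    rcases Nat.lt_or_ge m (n / 4) with h | h
    · exact hB m h
    · have h1 : 4 * m = n := by omega
      rw [h1, hx]
      have h2 := hB 0 (by omega)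
      rw [Nat.mul_zero, pow_zero, pow_one] at h2
      exact h2
  have e1 : tr (z ^ (2 ^ s) * x ^ i) = tr (z * x ^ (i * 2 ^ (n - s))) := by
    rw [← tr_pow2 _ (n - s), mul_pow, ← pow_mul, ← pow_add, Nat.add_sub_cancel' hs.le, hx,
      ← pow_mul]
  rw [e1]
  obtain ⟨w, hw, hns⟩ : ∃ w, (w = 0 ∨ w = n / 2) ∧ n - s = (4 * b + 1 + w) + (3 - s % 4) := by
    rcases Nat.lt_or_ge s (n / 2) with h | h
    · refine ⟨n / 2, Or.inr rfl, ?_⟩
      have h1 : s % (n / 2) = s := Nat.mod_eq_of_lt h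
      rw [h1] at hsb
      omega
    · refine ⟨0, Or.inl rfl, ?_⟩
      have h1 : s % (n / 2) = s - n / 2 := by
        rw [Nat.mod_eq_sub_mod h, Nat.mod_eq_of_lt (by omega)]
      rw [h1] at hsb
      omega
  have hb8 : b + 1 ≤ n / 8 := by omega
  have hL' : ∀ i < 15, tr (z * (x ^ (i + 1)) ^ (2 ^ (4 * b + 1 + w))) = 0 := by
    intro j hj
    rcases hw with h | h
    · rw [h, add_zero]
      exact (hL j hj).1
    · rw [h]
      exact (hL j hj).2
  have e2 : x ^ (i * 2 ^ (n - s)) = (x ^ (i * 2 ^ (3 - s % 4))) ^ (2 ^ (4 * b + 1 + w)) := by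
    rw [hns, ← pow_mul]
    congr 1
    rw [pow_add]
    ring
  rw [e2]
  set e := i * 2 ^ (3 - s % 4) with he
  have hepos : 0 < e := by positivity
  have hele : e ≤ 16 := by
    calc e ≤ 2 ^ (s % 4 + 1) * 2 ^ (3 - s % 4) := Nat.mul_le_mul_right _ hik
      _ = 2 ^ 4 := by
        rw [← pow_add]
        congr 1
        have := Nat.mod_lt s (show 0 < 4 by norm_num)
        omega
      _ = 16 := by norm_num
  rcases Nat.lt_or_ge e 16 with h | h
  · have h1 := hL' (e - 1) (by omega)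
    rwa [Nat.sub_add_cancel hepos] at h1
  · have h16e : e = 16 := le_antisymm hele h
    rw [h16e]
    have hw4 : 4 * (w / 4) = w := by
      rcases hw with h | h
      · rw [h]
      · rw [h]
        omega
    have hm : b + 1 + w / 4 ≤ n / 4 := by
      rcases hw with h | h
      · rw [h]
        omega
      · rw [h]
        omega
    have h1 := hB' (b + 1 + w / 4) hm
    have h2 : 4 * (b + 1 + w / 4) = 4 * b + 1 + w + 3 := by omega
    rw [h2] at h1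
    unfold rbk at h1
    rw [add_pow2, mul_add, tr_add] at h1
    have h3 := hL' 7 (by norm_num)
    have h4 : (x ^ (7 + 1)) ^ (2 ^ (4 * b + 1 + w)) = x ^ (2 ^ (4 * b + 1 + w + 3)) := by
      rw [← pow_mul]
      congr 1
      rw [pow_add _ (4 * b + 1 + w) 3]
      ring
    rw [h4] at h3
    rw [h3, zero_add] at h1
    have h5 : (x ^ 2) ^ (2 ^ (4 * b + 1 + w + 3)) = (x ^ 16) ^ (2 ^ (4 * b + 1 + w)) := by
      rw [← pow_mul, ← pow_mul]
      congr 1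
      rw [pow_add _ (4 * b + 1 + w) 3]
      ring
    rw [← h5]
    exact h1

theorem win_zero (n : ℕ) (hn : 0 < n) (h16 : 16 ∣ n) (hF : Fintype.card F = 2 ^ n) (a : F)
    (ha0 : a ≠ 0) (b : ℕ) (z : F) (hB : Bperp n a z) (hL : Lperp n b a z) (s : ℕ) (hs : s < n)
    (hsb : b = n / 8 - 1 - s % (n / 2) / 4) (i : ℤ) (hi : i ≠ 0) (hik : |i| ≤ 2 ^ (s % 4 + 1)) :
    tr (z ^ (2 ^ s) * a ^ i) = 0 := by
  obtain ⟨m, rfl | rfl⟩ := i.eq_nat_or_neg
  · rw [zpow_natCast]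
    refine win_aux n hn h16 hF a b z (fun m hm => (hB m hm).1)
      (fun i hi => ⟨(hL i hi).1, (hL i hi).2.2.1⟩) s hs hsb m (by exact_mod_cast hi) ?_
    rw [Nat.abs_cast] at hik
    exact_mod_cast hik
  · rw [zpow_neg, ← inv_zpow, zpow_natCast]
    refine win_aux n hn h16 hF a⁻¹ b z (fun m hm => (hB m hm).2)
      (fun i hi => ⟨(hL i hi).2.1, (hL i hi).2.2.2⟩) s hs hsb m ?_ ?_
    · intro h
      apply hi
      rw [h]
      simp
    · rw [abs_neg, Nat.abs_cast] at hik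
      exact_mod_cast hik

end

end RunMult
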