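import Pool.Agent.Lib.MP_d16eef_co.Assemble
import Pool.Agent.Lib.MP_d16eef_co.Phi
import Pool.Agent.Lib.MP_d16eef_co.Q.Fr1
import Pool.Agent.Lib.MP_d16eef_co.Q.Fr2
import Pool.Agent.Lib.MP_d16eef_co.Q.Fr3
import Pool.Agent.Lib.MP_d16eef_co.Q.Fr4
import Pool.Agent.Lib.MP_d16eef_co.Q.Fr5
import Pool.Agent.Lib.MP_d16eef_co.Q.Lin
import Pool.Agent.Lib.MP_d16eef_co.Q.Lift
import Pool.Agent.Lib.MP_d16eef_co.Q.Gin
import Pool.Agent.Lib.MP_d16eef_co.Q.Gpol
import Pool.Agent.Lib.MP_d16eef_co.Q.Zex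
import Pool.Agent.Lib.MP_d16eef_co.Q.Aex
import Pool.Agent.Lib.MP_d16eef_co.Q.Npb
import Pool.Agent.Lib.MP_d16eef_co.Q.ColA
import Pool.Agent.Lib.MP_d16eef_co.Q.ColB
import Pool.Agent.Lib.MP_d16eef_co.Q.Win
import Pool.Agent.Lib.MP_d16eef_co.Q.Brk
import Pool.Agent.Lib.MP_d16eef_co.Q.Grd
import Pool.Agent.Lib.MP_d16eef_co.Q.InqU
import Pool.Agent.Lib.MP_d16eef_co.Q.Uex
import Pool.Agent.Lib.MP_d16eef_co.Q.Swp4
import Pool.Agent.Lib.MP_d16eef_co.Q.P5s
import Pool.Agent.Lib.MP_d16eef_co.Q.Cor4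
import Pool.Agent.Lib.MP_d16eef_co.Q.InqS
import Pool.Agent.Lib.MP_d16eef_co.Q.Kpr
import Pool.Agent.Lib.MP_d16eef_co.Q.Gens
import Pool.Agent.Lib.MP_d16eef_co.Q.Clsc
import Pool.Agent.Lib.MP_d16eef_co.Q.Cnt
import Pool.Agent.Lib.MP_d16eef_co.Q.Cnp
import Pool.Agent.Lib.MP_d16eef_co.Q.Clx
import Pool.Agent.Lib.MP_d16eef_co.Q.Clt
import Pool.Agent.Lib.MP_d16eef_co.Q.Gam
import Pool.Agent.Lib.MP_d16eef_co.Q.Ka3
import Pool.Agent.Lib.MP_d16eef_co.Q.Pol
import Pool.Agent.Lib.MP_d16eef_co.Q.Ka2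
import Pool.Agent.Lib.MP_d16eef_co.Q.Nf2
import Pool.Agent.Lib.MP_d16eef_co.Q.Gm1
import Pool.Agent.Lib.MP_d16eef_co.Q.Ka1
import Pool.Agent.Lib.MP_d16eef_co.Q.Smf
import Pool.Agent.Lib.MP_d16eef_co.Q.Nf1
import Pool.Agent.Lib.MP_d16eef_co.Q.Pure
import Pool.Agent.Lib.MP_d16eef_co.Q.Inq4

/-! Assembly of the case `16 ∣ n`, `n ≥ 256`. -/

namespace RunMult

open Finset Polynomial

section

variable {F : Type} [Field F] [Fintype F] [DecidableEq F] [Algebra (ZMod 2) F]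

theorem omega_bound (n : ℕ) (hn : 1 ≤ n) : 5 * (2 ^ n - 1).primeFactors.card ≤ n + 13 := by
  have h1 : 1 ≤ 2 ^ n := Nat.one_le_two_pow
  have hodd : Odd (2 ^ n - 1) := by
    apply Nat.Even.sub_odd h1 _ odd_one
    exact (Nat.even_pow.mpr ⟨even_two, by omega⟩)
  have h2 := omega_upper (2 ^ n - 1) hodd
  set w := (2 ^ n - 1).primeFactors.card with hw
  have h3 : (2 : ℕ) ^ (5 * w + 36) < 2 ^ (n + 50) := by
    have e1 : (2 : ℕ) ^ (5 * w + 36) = 2 ^ 36 * 32 ^ w := by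
      rw [pow_add, pow_mul, mul_comm]; norm_num
    have e2 : (2 : ℕ) ^ (n + 50) = 32 ^ 10 * 2 ^ n := by
      rw [pow_add, mul_comm]; norm_num
    rw [e1, e2]
    have h4 : 2 ^ 36 * 32 ^ w ≤ 100280245065 * 32 ^ w := Nat.mul_le_mul_right _ (by norm_num)
    have h5 : 32 ^ 10 * (2 ^ n - 1) < 32 ^ 10 * 2 ^ n := by
      apply Nat.mul_lt_mul_of_pos_left
      · omega
      · positivity
    omega
  have h6 := (Nat.pow_lt_pow_iff_right (by norm_num : 1 < 2)).mp h3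
  omega

theorem exists_good (n : ℕ) (hn : 256 ≤ n) (h16 : 16 ∣ n) (hF : Fintype.card F = 2 ^ n) :
    ∃ a : F, orderOf a = 2 ^ n - 1 ∧ Good n a := by
  have h4 : 4 ∣ n := dvd_trans (by norm_num) h16
  obtain ⟨θ, θ', hok⟩ := exists_cls (F := F) n (by omega) h4 hF
  have c1 := card_cls n (by omega) h4 hF θ θ'
  have c2 := card_NF1 n hn h16 hF θ θ'
  have c3 := card_NF2 n hn h16 hF θ θ'
  have hN1 : 1 ≤ 2 ^ n - 1 := by
    have : 2 ^ 1 ≤ 2 ^ n := Nat.pow_le_pow_right (by norm_num) (by omega)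
    omega
  have c4 := ineq_4 n (2 ^ n - 1).primeFactors.card (2 ^ n - 1).totient hn h16
    (omega_bound n (by omega)) (totient_lower _ hN1)
  classical
  have key : ∃ a : F, (orderOf a = 2 ^ n - 1 ∧ Cls θ θ' a) ∧ NF1 n a ∧ NF2 n a := by
    by_contra hcon
    push Not at hcon
    have hsub : Nat.card {a : F // orderOf a = 2 ^ n - 1 ∧ Cls θ θ' a} ≤
        Nat.card {a : F // orderOf a = 2 ^ n - 1 ∧ Cls θ θ' a ∧ ¬ NF1 n a} +
        Nat.card {a : F // a ≠ 0 ∧ Cls θ θ' a ∧ ¬ NF2 n a} := by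
      rw [Nat.card_eq_fintype_card, Nat.card_eq_fintype_card, Nat.card_eq_fintype_card,
        Fintype.card_subtype, Fintype.card_subtype, Fintype.card_subtype]
      refine le_trans (card_le_card ?_) (card_union_le _ _)
      intro a ha
      simp only [mem_filter, mem_univ, true_and, mem_union] at ha ⊢
      by_cases h1 : NF1 n a
      · right
        exact ⟨(gen_ne_zero n hF a ha.1).2, ha.2, hcon a ha h1⟩
      · left
        exact ⟨ha.1, ha.2, h1⟩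
    generalize Nat.card {a : F // orderOf a = 2 ^ n - 1 ∧ Cls θ θ' a} = G at *
    generalize Nat.card {a : F // orderOf a = 2 ^ n - 1 ∧ Cls θ θ' a ∧ ¬ NF1 n a} = N1 at *
    generalize Nat.card {a : F // a ≠ 0 ∧ Cls θ θ' a ∧ ¬ NF2 n a} = N2 at *
    omega
  obtain ⟨a, ⟨ha, hc⟩, h1, h2⟩ := key
  have ha0 := (gen_ne_zero n hF a ha).2
  refine ⟨a, ha, ?_⟩
  intro b hb M M' hM hM' L L' κ hnt
  by_cases hloc : (∀ i < 15, L i = 0) ∧ (∀ i < 15, L' i = 0) ∧ κ = 0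
  · have hPP : PP a b M M' L L' κ = PQ a M M' := by
      unfold PP PQ
      have hs : (∑ i ∈ range 15, (L i • a ^ (i + 1) + L' i • a⁻¹ ^ (i + 1))) = (0 : F) := by
        apply sum_eq_zero
        intro i hi
        rw [hloc.1 i (mem_range.mp hi), hloc.2.1 i (mem_range.mp hi)]
        simp
      rw [hs, hloc.2.2]
      simp
    rw [hPP]
    refine pure_ok n (by omega) h16 hF a ha0 θ θ' hok hc h1 M M' hM hM' ?_
    rintro ⟨e1, e2⟩
    exact hnt ⟨e1, e2, hloc⟩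
  · exact h2 b hb M M' hM hM' L L' κ hloc

theorem adm16_field (n : ℕ) (hn : 256 ≤ n) (h16 : 16 ∣ n) (hF : Fintype.card F = 2 ^ n) :
    Adm n := by
  obtain ⟨a, ha, hg⟩ := exists_good (F := F) n hn h16 hF
  have ha0 := (gen_ne_zero n hF a ha).2
  -- dual vector
  obtain ⟨η, hη⟩ : ∃ η : F, ∀ l < n, tr (η * a ^ l) = if l = 0 then 1 else 0 := by
    have h := card_window n hF a ha (range n) (fun i hi => mem_range.mp hi)
      (fun l => if l = 0 then 1 else 0) 1 one_ne_zero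
    rw [card_range, Nat.sub_self, pow_zero] at h
    obtain ⟨η, hη⟩ := Finset.card_eq_one.mp h
    have h1 := hη.symm ▸ mem_singleton_self η
    rw [mem_filter] at h1
    refine ⟨η, fun l hl => ?_⟩
    have := h1.2 l (mem_range.mpr hl)
    rwa [one_mul] at this
  have hη0 : η ≠ 0 := by
    rintro rfl
    have := hη 0 (by omega)
    rw [if_pos rfl, zero_mul, tr_zero] at this
    revert this; decide
  have hJ : 0 < n / 8 := by omega
  obtain ⟨z, hz, hηz⟩ := greedy (F := F) (n / 8) (fun b z => tr z = 1 ∧ Bperp n a z ∧ Lperp n b a z ∧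
      tr (z * a ^ 17) = 0 ∧ tr (z * (a ^ 17) ^ (2 ^ (n / 2))) = 0)
    (fun b hb => by
      have := card_Z n hn h16 hF a ha0 hg b hb
      refine lt_of_lt_of_le ?_ this
      exact Nat.pow_lt_pow_right (by norm_num) (by omega)) η hη0
  obtain ⟨u, hu, hinj, hP3⟩ := exists_u n hn h16 hF a ha (card_A n hn h16 hF a ha0 hg)
    (card_Bperp_sub n hn h16 hF a ha0 hg) (spn z (n / 8)) (spn_card z _)
    (fun d hd => ⟨spn_orth z _ _ (fun b hb => (hz b hb).2.2.2.1) d hd,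
      spn_orth z _ _ (fun b hb => (hz b hb).2.2.2.2) d hd⟩) η hηz
  have hBd : ∀ d ∈ spn z (n / 8), Bone n a (u + d) := by
    intro d hd m hm
    have h1 := spn_orth z (n / 8) (rbk a ^ (2 ^ (4 * m)))
      (fun b hb => ((hz b hb).2.1 m hm).1) d hd
    have h2 := spn_orth z (n / 8) (rbk a⁻¹ ^ (2 ^ (4 * m)))
      (fun b hb => ((hz b hb).2.1 m hm).2) d hd
    have h3 := hu m hm
    rw [add_mul, add_mul, tr_add, tr_add, h1, h2, h3.1, h3.2]
    simp
  have hK : ∀ s : ℕ, 2 ^ (s % 4 + 1) ≤ 16 := by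
    intro s
    have h1 : s % 4 + 1 ≤ 4 := by omega
    calc 2 ^ (s % 4 + 1) ≤ 2 ^ 4 := Nat.pow_le_pow_right (by norm_num) h1
      _ = 16 := by norm_num
  refine adm_core4 n (by omega) hF a ha (spn z (n / 8)) (spn_zero z _)
    (fun x hx y hy => spn_add z _ x y hx hy) (fun s => 2 ^ (s % 4 + 1)) (fun s _ => hK s)
    (fun s => z (n / 8 - 1 - s % (n / 2) / 4)) (fun s _ => spn_mem z _ _ (by omega))
    (fun s _ => (hz _ (by omega)).1) ?_ u η ?_ ?_ hinj hη hP3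
    (ineq_s n _ hn h16 (spn_card z _))
  · intro s hs i hi hiK
    refine win_zero n (by omega) h16 hF a ha0 _ _ (hz _ (by omega)).2.1 (hz _ (by omega)).2.2.1 s hs
      rfl i hi ?_
    simpa using hiK
  · intro d hd s hs c
    obtain ⟨i, h1, h2, h3⟩ := (brk n (by omega) h16 hF a ha0 (u + d) (hBd d hd) s hs c).1
    exact ⟨i, h1, by simpa using h2, h3⟩
  · intro d hd s hs c
    obtain ⟨i, h1, h2, h3⟩ := (brk n (by omega) h16 hF a ha0 (u + d) (hBd d hd) s hs c).2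
    exact ⟨i, h1, by simpa using h2, h3⟩

end

theorem adm16 (n : ℕ) (hn : 256 ≤ n) (h16 : 16 ∣ n) : Adm n := by
  classical
  have : Fact (Nat.Prime 2) := ⟨Nat.prime_two⟩
  let _ : Fintype (GaloisField 2 n) := Fintype.ofFinite _
  have hF : Fintype.card (GaloisField 2 n) = 2 ^ n := by
    rw [← Nat.card_eq_fintype_card]
    exact GaloisField.card 2 n (by omega)
  exact adm16_field (F := GaloisField 2 n) n hn h16 hF

end RunMult
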