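import Pool.Agent.Lib.MP_d16eef_co.Q.Lin
import Pool.Agent.Lib.MP_d16eef_co.Q.Gin

/-! AD-Zex : many directions.
Apply `card_sol` to the family `yF n b a` (independent by `good_F`), whose index type has
`2 (2 (n / 8) + 31) + 1 = n / 2 + 63` elements (`16 ∣ n`), with the target
`t = fun k => if k = inr (inr ()) then 1 else 0`.  Then show that every solution satisfies the five
conditions, i.e. inject the set of solutions into the set of the statement (`Nat.card_le_card...`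
or `Finset.card_le_card` after `Nat.card_eq_fintype_card`, `Fintype.card_subtype`):
`tr (z * 1) = 1`; for `Bperp`, `m < n / 4` is either `m' < n / 8` or `m' + n / 8` and
`rbk a ^ (2 ^ (4 (m' + n / 8))) = (rbk a ^ (2 ^ (4 m'))) ^ (2 ^ (n / 2))` because `4 (n / 8) = n / 2`;
for `Lperp` note `x ^ (2 ^ (4 b + 1 + n / 2)) = (x ^ (2 ^ (4 b + 1))) ^ (2 ^ (n / 2))`. -/

namespace RunMult

open Finset Polynomial

section

variable {F : Type} [Field F] [Fintype F] [DecidableEq F] [Algebra (ZMod 2) F]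

/-- many directions for block `b` -/
theorem card_Z (n : ℕ) (hn : 256 ≤ n) (h16 : 16 ∣ n) (hF : Fintype.card F = 2 ^ n) (a : F)
    (ha0 : a ≠ 0) (hg : Good n a) (b : ℕ) (hb : b < n / 8) :
    2 ^ (n / 2 - 63) ≤ Nat.card {z : F // tr z = 1 ∧ Bperp n a z ∧ Lperp n b a z ∧
      tr (z * a ^ 17) = 0 ∧ tr (z * (a ^ 17) ^ (2 ^ (n / 2))) = 0} := by
  classical
  set t : ((Fin (n / 8) ⊕ Fin (n / 8)) ⊕ ((Fin 15 ⊕ Fin 15) ⊕ Unit)) ⊕
      ((Fin (n / 8) ⊕ Fin (n / 8)) ⊕ ((Fin 15 ⊕ Fin 15) ⊕ Unit)) ⊕ Unit → ZMod 2 :=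
    fun k => match k with
      | .inl _ => 0
      | .inr (.inl _) => 0
      | .inr (.inr _) => 1 with ht
  have hsol := card_sol n hF (yF n b a) (good_F n h16 hF a hg b hb) t
  have hcard : n - Fintype.card (((Fin (n / 8) ⊕ Fin (n / 8)) ⊕ ((Fin 15 ⊕ Fin 15) ⊕ Unit)) ⊕
      ((Fin (n / 8) ⊕ Fin (n / 8)) ⊕ ((Fin 15 ⊕ Fin 15) ⊕ Unit)) ⊕ Unit) = n / 2 - 63 := by
    simp only [Fintype.card_sum, Fintype.card_fin, Fintype.card_unit]
    omega
  rw [hcard] at hsol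
  rw [← hsol]
  refine Nat.card_le_card_of_injective
    (fun x : {x : F // ∀ k, tr (x * yF n b a k) = t k} =>
      (⟨x.1, ?_, ?_, ?_, ?_, ?_⟩ : {z : F // tr z = 1 ∧ Bperp n a z ∧ Lperp n b a z ∧
        tr (z * a ^ 17) = 0 ∧ tr (z * (a ^ 17) ^ (2 ^ (n / 2))) = 0})) ?_
  · have h := x.2 (.inr (.inr ()))
    have e : x.1 * yF n b a (.inr (.inr ())) = x.1 := mul_one _
    rw [e] at h
    exact h
  · intro m hm
    by_cases h1 : m < n / 8
    · exact ⟨x.2 (.inl (.inl (.inl ⟨m, h1⟩))), x.2 (.inl (.inl (.inr ⟨m, h1⟩)))⟩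
    · have h2 : m - n / 8 < n / 8 := by omega
      have h3 : 4 * (m - n / 8) + n / 2 = 4 * m := by omega
      have e : ∀ u : F, (u ^ (2 ^ (4 * (m - n / 8)))) ^ (2 ^ (n / 2)) = u ^ (2 ^ (4 * m)) := by
        intro u
        rw [← pow_mul, ← pow_add, h3]
      have h4 := x.2 (.inr (.inl (.inl (.inl ⟨m - n / 8, h2⟩))))
      have h5 := x.2 (.inr (.inl (.inl (.inr ⟨m - n / 8, h2⟩))))
      have e1 : yF n b a (.inr (.inl (.inl (.inl ⟨m - n / 8, h2⟩))))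
          = rbk a ^ (2 ^ (4 * m)) := e _
      have e2 : yF n b a (.inr (.inl (.inl (.inr ⟨m - n / 8, h2⟩))))
          = rbk a⁻¹ ^ (2 ^ (4 * m)) := e _
      rw [e1] at h4
      rw [e2] at h5
      exact ⟨h4, h5⟩
  · intro i hi
    have e : ∀ u : F, (u ^ (2 ^ (4 * b + 1))) ^ (2 ^ (n / 2))
        = u ^ (2 ^ (4 * b + 1 + n / 2)) := by
      intro u
      rw [← pow_mul, ← pow_add]
    have e1 : yF n b a (.inr (.inl (.inr (.inl (.inl ⟨i, hi⟩)))))
        = (a ^ (i + 1)) ^ (2 ^ (4 * b + 1 + n / 2)) := e _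
    have e2 : yF n b a (.inr (.inl (.inr (.inl (.inr ⟨i, hi⟩)))))
        = (a⁻¹ ^ (i + 1)) ^ (2 ^ (4 * b + 1 + n / 2)) := e _
    have h4 := x.2 (.inr (.inl (.inr (.inl (.inl ⟨i, hi⟩)))))
    have h5 := x.2 (.inr (.inl (.inr (.inl (.inr ⟨i, hi⟩)))))
    rw [e1] at h4
    rw [e2] at h5
    exact ⟨x.2 (.inl (.inr (.inl (.inl ⟨i, hi⟩)))), x.2 (.inl (.inr (.inl (.inr ⟨i, hi⟩)))),
      h4, h5⟩
  · exact x.2 (.inl (.inr (.inr ())))
  · exact x.2 (.inr (.inl (.inr (.inr ()))))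
  · intro u v huv
    have := congrArg Subtype.val huv
    exact Subtype.ext this

end

end RunMult
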